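import Pool.Agent.Helper40.Game

/-!
From forced wins to strategies that are functions of the history.
-/

set_option autoImplicit false
set_option linter.unusedSectionVars false
set_option linter.unusedVariables false

namespace Pool.Agent.Helper40.Game

open Finset

section Lists

variable {β : Type*} [DecidableEq β]

/-- elements claimed at the times congruent to `p` modulo two -/
def cls (p : ℕ) (l : List β) : Finset β := l.toFinset.filter (fun e => l.idxOf e % 2 = p)

lemma mem_cls {p : ℕ} {l : List β} {e : β} : e ∈ cls p l ↔ e ∈ l ∧ l.idxOf e % 2 = p := by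
  simp [cls]

lemma cls_nil (p : ℕ) : cls p ([] : List β) = ∅ := by
  simp [cls]

lemma idxOf_new {h : List β} {x : β} (hx : x ∉ h) : (h ++ [x]).idxOf x = h.length := by
  rw [List.idxOf_append_of_notMem hx]
  simp

lemma cls_append_same {l : List β} {x : β} {p : ℕ} (hx : x ∉ l) (h : l.length % 2 = p) :
    cls p (l ++ [x]) = insert x (cls p l) := by
  ext e
  simp only [mem_cls, List.mem_append, List.mem_singleton, Finset.mem_insert]
  by_cases hex : e = x
  · subst hex
    simp [idxOf_new hx, h]
  · constructor
    · rintro ⟨hp | hp, h2⟩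
      · rw [List.idxOf_append_of_mem hp] at h2
        exact Or.inr ⟨hp, h2⟩
      · exact absurd hp hex
    · rintro (hp | ⟨hp, h2⟩)
      · exact absurd hp hex
      · exact ⟨Or.inl hp, by rwa [List.idxOf_append_of_mem hp]⟩

lemma cls_append_other {l : List β} {x : β} {p : ℕ} (hx : x ∉ l) (h : l.length % 2 ≠ p) :
    cls p (l ++ [x]) = cls p l := by
  ext e
  simp only [mem_cls, List.mem_append, List.mem_singleton]
  by_cases hex : e = x
  · subst hex
    simp [idxOf_new hx, hx, h]
  · constructor
    · rintro ⟨hp | hp, h2⟩
      · rw [List.idxOf_append_of_mem hp] at h2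
        exact ⟨hp, h2⟩
      · exact absurd hp hex
    · rintro ⟨hp, h2⟩
      exact ⟨Or.inl hp, by rwa [List.idxOf_append_of_mem hp]⟩

lemma cls_union (l : List β) : cls 0 l ∪ cls 1 l = l.toFinset := by
  ext e
  simp only [Finset.mem_union, mem_cls, List.mem_toFinset]
  constructor
  · rintro (h | h)
    · exact h.1
    · exact h.1
  · intro h
    rcases Nat.mod_two_eq_zero_or_one (l.idxOf e) with h1 | h1
    · exact Or.inl ⟨h, h1⟩
    · exact Or.inr ⟨h, h1⟩

lemma cls_union' {p r : ℕ} (hpr : (p = 0 ∧ r = 1) ∨ (p = 1 ∧ r = 0)) (l : List β) :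
    cls r l ∪ cls p l = l.toFinset := by
  rcases hpr with ⟨rfl, rfl⟩ | ⟨rfl, rfl⟩
  · rw [Finset.union_comm]; exact cls_union l
  · exact cls_union l

lemma mem_free {E : Finset β} {p r : ℕ} (hpr : (p = 0 ∧ r = 1) ∨ (p = 1 ∧ r = 0)) {l : List β}
    {e : β} : e ∈ E \ (cls r l ∪ cls p l) ↔ e ∈ E ∧ e ∉ l := by
  rw [cls_union' hpr, Finset.mem_sdiff, List.mem_toFinset]

lemma exists_of_mem_cls {p : ℕ} {l : List β} {e : β} (h : e ∈ cls p l) :
    ∃ (i : ℕ) (h : i < l.length), i % 2 = p ∧ l[i]'h = e := by
  rw [mem_cls] at h
  exact ⟨l.idxOf e, List.idxOf_lt_length_iff.2 h.1, h.2, List.getElem_idxOf _⟩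

lemma mem_cls_of_getElem {p : ℕ} {l : List β} (hnd : l.Nodup) {i : ℕ} (h : i < l.length)
    (hi : i % 2 = p) : l[i]'h ∈ cls p l := by
  rw [mem_cls]
  refine ⟨List.getElem_mem h, ?_⟩
  rw [List.Nodup.idxOf_getElem hnd]
  exact hi

/-- the play `l` follows the strategy `σ` at the times congruent to `p` -/
def Cons (σ : List β → β) (p : ℕ) (l : List β) : Prop :=
  ∀ (i : ℕ) (h : i < l.length), i % 2 = p → l[i]'h = σ (l.take i)

lemma Cons.front {σ : List β → β} {p : ℕ} {l : List β} {x : β} (h : Cons σ p (l ++ [x])) :
    Cons σ p l := by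
  intro i hi hip
  have h1 := h i (by rw [List.length_append]; omega) hip
  rw [List.getElem_append_left hi, List.take_append_of_le_length hi.le] at h1
  exact h1

lemma Cons.last {σ : List β → β} {p : ℕ} {l : List β} {x : β} (h : Cons σ p (l ++ [x]))
    (hl : l.length % 2 = p) : x = σ l := by
  have h1 := h l.length (by simp) hl
  simpa using h1

lemma Cons.append {σ : List β → β} {p : ℕ} {l : List β} {x : β} (h : Cons σ p l)
    (hx : l.length % 2 = p → x = σ l) : Cons σ p (l ++ [x]) := by
  intro i hi hip
  rw [List.length_append, List.length_singleton] at hi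
  by_cases hil : i < l.length
  · rw [List.getElem_append_left hil, List.take_append_of_le_length hil.le]
    exact h i hil hip
  · have hil' : i = l.length := by omega
    subst hil'
    simpa using hx hip

theorem win_of_force [Inhabited β] (E : Finset β) (T : Finset β → Prop) (p r : ℕ)
    (hpr : (p = 0 ∧ r = 1) ∨ (p = 1 ∧ r = 0)) (hF : Force E T (decide (0 = p)) ∅ ∅) :
    ∃ σ : List β → β,
      (∀ l : List β, l.Nodup → (∀ e ∈ l, e ∈ E) → Cons σ p l → l.length % 2 = p →
        (∃ e ∈ E, e ∉ l) → (σ l ∈ E ∧ σ l ∉ l)) ∧
      (∀ l : List β, l.Nodup → (∀ e ∈ l, e ∈ E) → (∀ e ∈ E, e ∈ l) → Cons σ p l →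
        T (cls r l)) := by
  classical
  let σ : List β → β := fun l =>
    if h : ∃ e ∈ E \ (cls r l ∪ cls p l), Force E T false (cls r l) (insert e (cls p l))
    then h.choose else if h2 : ∃ e ∈ E, e ∉ l then h2.choose else default
  have hσ1 : ∀ l : List β,
      (∃ e ∈ E \ (cls r l ∪ cls p l), Force E T false (cls r l) (insert e (cls p l))) →
      (σ l ∈ E \ (cls r l ∪ cls p l) ∧ Force E T false (cls r l) (insert (σ l) (cls p l))) := by
    intro l h
    have h1 : σ l = h.choose := dif_pos h
    rw [h1]
    exact h.choose_spec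
  have hσ2 : ∀ l : List β,
      (∃ e ∈ E, e ∉ l) → (σ l ∈ E ∧ σ l ∉ l) := by
    intro l h
    by_cases h1 : ∃ e ∈ E \ (cls r l ∪ cls p l), Force E T false (cls r l) (insert e (cls p l))
    · have := (hσ1 l h1).1
      exact (mem_free hpr).1 this
    · have h2 : σ l = h.choose := by
        show (if h : _ then _ else _) = _
        rw [dif_neg h1, dif_pos h]
      rw [h2]
      exact h.choose_spec
  have hpr' : p ≠ r := by omega
  have hmain : ∀ l : List β, l.Nodup → (∀ e ∈ l, e ∈ E) → Cons σ p l →
      Force E T (decide (l.length % 2 = p)) (cls r l) (cls p l) := by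
    intro l
    induction l using List.reverseRecOn with
    | nil =>
        intro _ _ _
        rw [cls_nil, cls_nil]
        exact hF
    | append_singleton l x ih =>
        intro hnd hE hc
        have hnd' : l.Nodup := (List.nodup_append.1 hnd).1
        have hx : x ∉ l := by
          intro hxl
          have := (List.nodup_append.1 hnd).2.2 x hxl x (List.mem_singleton.2 rfl)
          exact this rfl
        have hxE : x ∈ E := hE x (by simp)
        have hfree : x ∈ E \ (cls r l ∪ cls p l) := (mem_free hpr).2 ⟨hxE, hx⟩
        have hne : ¬ (E \ (cls r l ∪ cls p l) = ∅) := by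
          intro h0; rw [h0] at hfree; simp at hfree
        have ih' := ih hnd' (fun e he => hE e (by simp [he])) hc.front
        by_cases hl : l.length % 2 = p
        · have hr : l.length % 2 ≠ r := by omega
          rw [cls_append_same hx hl, cls_append_other hx hr]
          rw [decide_eq_true hl] at ih'
          have hfl : decide ((l ++ [x]).length % 2 = p) = false := by
            rw [decide_eq_false_iff_not, List.length_append, List.length_singleton]
            omega
          rw [hfl]
          rcases ih'.inv_true with h1 | h1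
          · exact absurd h1.1 hne
          · have := (hσ1 l h1).2
            rwa [← hc.last hl] at this
        · have hr : l.length % 2 = r := by omega
          rw [cls_append_other hx hl, cls_append_same hx hr]
          rw [decide_eq_false hl] at ih'
          have hfl : decide ((l ++ [x]).length % 2 = p) = true := by
            rw [decide_eq_true_eq, List.length_append, List.length_singleton]
            omega
          rw [hfl]
          rcases ih'.inv_false with h1 | h1
          · exact absurd h1.1 hne
          · exact h1 x hfree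
  refine ⟨σ, ?_, ?_⟩
  · intro l _ _ _ _ hex
    exact hσ2 l hex
  · intro l hnd hE hall hc
    have h1 := hmain l hnd hE hc
    have hfree : ∀ e, e ∉ E \ (cls r l ∪ cls p l) := by
      intro e he
      rw [mem_free hpr] at he
      exact he.2 (hall e he.1)
    cases hd : decide (l.length % 2 = p) with
    | true =>
        rw [hd] at h1
        rcases h1.inv_true with h2 | ⟨e, he, _⟩
        · exact h2.2
        · exact absurd he (hfree e)
    | false =>
        rw [hd] at h1
        cases h1 with
        | done _ _ _ _ h3 => exact h3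
        | his _ _ h2 _ =>
            obtain ⟨e, he⟩ := h2
            exact absurd he (hfree e)

theorem exists_play_of_bwin (E : Finset β) (T : Finset β → Prop) (hB : BWin E T ∅ ∅)
    (σ : List β → β)
    (hσ : ∀ l : List β, l.Nodup → (∀ e ∈ l, e ∈ E) → Cons σ 0 l → l.length % 2 = 0 →
        (∃ e ∈ E, e ∉ l) → (σ l ∈ E ∧ σ l ∉ l)) :
    ∃ l : List β, l.Nodup ∧ (∀ e ∈ l, e ∈ E) ∧ (∀ e ∈ E, e ∈ l) ∧ Cons σ 0 l ∧ ¬ T (cls 0 l) := by
  have key : ∀ (A B : Finset β), BWin E T A B → ∀ l : List β, l.Nodup → (∀ e ∈ l, e ∈ E) →
      Cons σ 0 l → l.length % 2 = 0 → cls 0 l = A → cls 1 l = B →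
      ∃ l : List β, l.Nodup ∧ (∀ e ∈ l, e ∈ E) ∧ (∀ e ∈ E, e ∈ l) ∧ Cons σ 0 l ∧
        ¬ T (cls 0 l) := by
    intro A B hAB
    induction hAB with
    | done A B h1 h2 =>
        intro l hnd hE hc hl hA hB
        refine ⟨l, hnd, hE, ?_, hc, hA ▸ h2⟩
        intro e he
        by_contra hel
        have : e ∈ E \ (cls 0 l ∪ cls 1 l) := by
          rw [cls_union, Finset.mem_sdiff, List.mem_toFinset]; exact ⟨he, hel⟩
        rw [hA, hB, h1] at this
        simp at this
    | step A B g h1 h2 h3 ih =>
        intro l hnd hE hc hl hA hB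
        have hfree : ∀ e, e ∈ E \ (A ∪ B) ↔ (e ∈ E ∧ e ∉ l) := by
          intro e
          rw [← hA, ← hB, cls_union, Finset.mem_sdiff, List.mem_toFinset]
        have hex : ∃ e ∈ E, e ∉ l := by
          obtain ⟨e, he⟩ := h1
          exact ⟨e, ((hfree e).1 he).1, ((hfree e).1 he).2⟩
        have hs := hσ l hnd hE hc hl hex
        set x := σ l with hx
        have hxf : x ∈ E \ (A ∪ B) := (hfree x).2 hs
        have hy := h2 x hxf
        have hyl := (hfree (g x)).1 hy.1
        have hnd1 : (l ++ [x]).Nodup := by
          rw [List.nodup_append]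
          refine ⟨hnd, List.nodup_singleton x, ?_⟩
          intro a ha b hb hab
          rw [List.mem_singleton] at hb
          subst hab; subst hb
          exact hs.2 ha
        have hyl1 : g x ∉ l ++ [x] := by
          rw [List.mem_append, List.mem_singleton]
          rintro (h | h)
          · exact hyl.2 h
          · exact hy.2 h
        have hnd2 : (l ++ [x] ++ [g x]).Nodup := by
          rw [List.nodup_append]
          refine ⟨hnd1, List.nodup_singleton _, ?_⟩
          intro a ha b hb hab
          rw [List.mem_singleton] at hb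
          subst hab; subst hb
          exact hyl1 ha
        have hlen1 : (l ++ [x]).length % 2 = 1 := by
          rw [List.length_append, List.length_singleton]; omega
        refine ih x hxf (l ++ [x] ++ [g x]) hnd2 ?_ ?_ ?_ ?_ ?_
        · intro e he
          simp only [List.mem_append, List.mem_singleton] at he
          rcases he with (he | he) | he
          · exact hE e he
          · exact he ▸ hs.1
          · exact he ▸ hyl.1
        · refine Cons.append (Cons.append hc (fun _ => rfl)) ?_
          intro h; rw [hlen1] at h; omega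
        · rw [List.length_append, List.length_singleton]; omega
        · rw [cls_append_other hyl1 (by omega), cls_append_same hs.2 hl, hA]
        · rw [cls_append_same hyl1 hlen1, cls_append_other hs.2 (by omega), hB]
  exact key ∅ ∅ hB [] List.nodup_nil (by simp) (by intro i h; simp at h) rfl (cls_nil 0) (cls_nil 1)

end Lists

end Pool.Agent.Helper40.Game
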