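import Pool.Agent.Helper40.AFWin
import Pool.Agent.Helper40.Strat

/-!
The reverse game on every board with at least nine vertices.
-/

set_option autoImplicit false

namespace Pool.Agent.Helper40.K9

open Finset Pool.Agent.Helper40.Game

lemma ES_sub (m : ℕ) : ES m ⊆ EE 9 := by
  intro e he
  rw [mem_ES] at he
  rw [mem_EE]
  exact he.1

/-- the pattern on `n ≥ 9` vertices -/
theorem fw_all (n : ℕ) (hn : 9 ≤ n) : ∃ F : Finset (Sym2 (Fin n)), F ⊆ EE n ∧ FW (KT n 4) ∅ F := by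
  have hinj : Function.Injective (Fin.castLE hn) := Fin.castLE_injective hn
  have h := af_root.image (T' := KT n 4) (Sym2.map (Fin.castLE hn)) (Sym2.map.injective hinj)
    (fun A hA => KT.image _ hinj hA)
  rw [Finset.image_empty] at h
  refine ⟨_, ?_, h⟩
  intro e he
  rw [Finset.mem_image] at he
  obtain ⟨e0, he0, rfl⟩ := he
  rw [mem_EE, map_isDiag _ hinj]
  exact mem_EE.1 (ES_sub _ he0)

theorem force_all (n : ℕ) (hn : 9 ≤ n) :
    (Even (EE n).card → Force (EE n) (KT n 4) true ∅ ∅) ∧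
    (Odd (EE n).card → Force (EE n) (KT n 4) false ∅ ∅) := by
  obtain ⟨F, hF, h⟩ := fw_all n hn
  have := h.force (E := EE n) (fun A A' => KT.mono) ∅ ∅ (Finset.Subset.refl _)
    (by simpa using hF)
  simpa using this

/-- on every board with at least nine vertices one of the two players can force the other one to
claim a complete graph on four vertices -/
theorem win_all (n : ℕ) (hn : 9 ≤ n) : ∃ p r : ℕ, ((p = 0 ∧ r = 1) ∨ (p = 1 ∧ r = 0)) ∧
    ∃ σ : List (Sym2 (Fin n)) → Sym2 (Fin n),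
      (∀ l : List (Sym2 (Fin n)), l.Nodup → (∀ e ∈ l, e ∈ EE n) → Cons σ p l → l.length % 2 = p →
        (∃ e ∈ EE n, e ∉ l) → (σ l ∈ EE n ∧ σ l ∉ l)) ∧
      (∀ l : List (Sym2 (Fin n)), l.Nodup → (∀ e ∈ l, e ∈ EE n) → (∀ e ∈ EE n, e ∈ l) →
        Cons σ p l → KT n 4 (cls r l)) := by
  haveI : NeZero n := ⟨by omega⟩
  haveI : Inhabited (Sym2 (Fin n)) := ⟨s(0, 0)⟩
  rcases Nat.even_or_odd (EE n).card with h | h
  · refine ⟨0, 1, Or.inl ⟨rfl, rfl⟩, ?_⟩
    exact win_of_force (EE n) (KT n 4) 0 1 (Or.inl ⟨rfl, rfl⟩) ((force_all n hn).1 h)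
  · refine ⟨1, 0, Or.inr ⟨rfl, rfl⟩, ?_⟩
    exact win_of_force (EE n) (KT n 4) 1 0 (Or.inr ⟨rfl, rfl⟩) ((force_all n hn).2 h)

end Pool.Agent.Helper40.K9
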