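import Mathlib

/-!
Generic facts on alternating claiming games: forced wins, strategies as functions of the history,
and the inductive predicate `FW` used for the reverse (Avoider-Forcer) game.
-/

set_option autoImplicit false
set_option linter.unusedSectionVars false
set_option linter.unusedVariables false

namespace Pool.Agent.Helper40.Game

open Finset

section Gen

variable {β : Type*} [DecidableEq β]

/-- The strategist (to move iff the flag is `true`) owns `B`, the opponent owns `A`; he can force `T`
of the final set of the opponent. -/
inductive Force (E : Finset β) (T : Finset β → Prop) : Bool → Finset β → Finset β → Prop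
  | done (t : Bool) (A B : Finset β) : E \ (A ∪ B) = ∅ → T A → Force E T t A B
  | mine (A B : Finset β) (e : β) : e ∈ E \ (A ∪ B) → Force E T false A (insert e B) →
      Force E T true A B
  | his (A B : Finset β) : (E \ (A ∪ B)).Nonempty →
      (∀ e ∈ E \ (A ∪ B), Force E T true (insert e A) B) → Force E T false A B

/-- The second player can prevent `T` of the set `A` of the first player, who is to move. -/
inductive BWin (E : Finset β) (T : Finset β → Prop) : Finset β → Finset β → Prop
  | done (A B : Finset β) : E \ (A ∪ B) = ∅ → ¬ T A → BWin E T A B
  | step (A B : Finset β) (g : β → β) : (E \ (A ∪ B)).Nonempty →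
      (∀ x ∈ E \ (A ∪ B), g x ∈ E \ (A ∪ B) ∧ g x ≠ x) →
      (∀ x ∈ E \ (A ∪ B), BWin E T (insert x A) (insert (g x) B)) →
      BWin E T A B

/-- forcing patterns: the opponent owns `A`, the elements of `F` are free -/
inductive FW (T : Finset β → Prop) : Finset β → Finset β → Prop
  | base (A F : Finset β) : T A → FW T A F
  | step (A F A' F' : Finset β) : A' ⊆ A → F' ⊆ F → Odd F'.card →
      (∀ x ∈ F', FW T (insert x A') (F'.erase x)) → FW T A F

lemma BWin.step' {E : Finset β} {T : Finset β → Prop} {A B : Finset β}
    (h1 : (E \ (A ∪ B)).Nonempty)
    (h2 : ∀ x ∈ E \ (A ∪ B), ∃ y ∈ E \ (A ∪ B), y ≠ x ∧ BWin E T (insert x A) (insert y B)) :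
    BWin E T A B := by
  classical
  have h3 : ∀ x, ∃ y, x ∈ E \ (A ∪ B) →
      (y ∈ E \ (A ∪ B) ∧ y ≠ x ∧ BWin E T (insert x A) (insert y B)) := by
    intro x
    by_cases hx : x ∈ E \ (A ∪ B)
    · obtain ⟨y, hy⟩ := h2 x hx
      exact ⟨y, fun _ => hy⟩
    · exact ⟨x, fun h => absurd h hx⟩
  choose g hg using h3
  exact BWin.step A B g h1 (fun x hx => ⟨(hg x hx).1, (hg x hx).2.1⟩) (fun x hx => (hg x hx).2.2)

lemma Force.inv_true {E : Finset β} {T : Finset β → Prop} {A B : Finset β}
    (h : Force E T true A B) : (E \ (A ∪ B) = ∅ ∧ T A) ∨
      ∃ e ∈ E \ (A ∪ B), Force E T false A (insert e B) := by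
  cases h with
  | done _ _ _ h1 h2 => exact Or.inl ⟨h1, h2⟩
  | mine _ _ e h1 h2 => exact Or.inr ⟨e, h1, h2⟩

lemma Force.inv_false {E : Finset β} {T : Finset β → Prop} {A B : Finset β}
    (h : Force E T false A B) : (E \ (A ∪ B) = ∅ ∧ T A) ∨
      ∀ e ∈ E \ (A ∪ B), Force E T true (insert e A) B := by
  cases h with
  | done _ _ _ h1 h2 => exact Or.inl ⟨h1, h2⟩
  | his _ _ h1 h2 => exact Or.inr h2

lemma free_insert_left {E A B : Finset β} (e : β) :
    E \ (insert e A ∪ B) = (E \ (A ∪ B)).erase e := by
  ext x; simp only [mem_sdiff, mem_union, mem_insert, mem_erase]; tauto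

lemma free_insert_right {E A B : Finset β} (e : β) :
    E \ (A ∪ insert e B) = (E \ (A ∪ B)).erase e := by
  ext x; simp only [mem_sdiff, mem_union, mem_insert, mem_erase]; tauto

lemma Force.of_T {E : Finset β} {T : Finset β → Prop} (hT : ∀ A A' : Finset β, A ⊆ A' → T A → T A') :
    ∀ (n : ℕ) (t : Bool) (A B : Finset β), (E \ (A ∪ B)).card = n → T A → Force E T t A B := by
  intro n
  induction n with
  | zero =>
      intro t A B hn hA
      exact Force.done t A B (Finset.card_eq_zero.1 hn) hA
  | succ n ih =>
      intro t A B hn hA
      cases t with
      | true =>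
          have hne : (E \ (A ∪ B)).Nonempty := by
            rw [← Finset.card_pos]; omega
          obtain ⟨e, he⟩ := hne
          refine Force.mine A B e he (ih false A _ ?_ hA)
          rw [free_insert_right, Finset.card_erase_of_mem he, hn]; rfl
      | false =>
          have hne : (E \ (A ∪ B)).Nonempty := by
            rw [← Finset.card_pos]; omega
          refine Force.his A B hne ?_
          intro e he
          refine ih true _ B ?_ (hT _ _ (Finset.subset_insert e A) hA)
          rw [free_insert_left, Finset.card_erase_of_mem he, hn]; rfl

lemma FW.mono {T : Finset β → Prop} (hT : ∀ A A' : Finset β, A ⊆ A' → T A → T A')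
    {A F A2 F2 : Finset β} (h : FW T A F) (hA : A ⊆ A2) (hF : F ⊆ F2) : FW T A2 F2 := by
  cases h with
  | base _ _ h1 => exact FW.base _ _ (hT _ _ hA h1)
  | step _ _ A' F' h1 h2 h3 h4 => exact FW.step _ _ A' F' (h1.trans hA) (h2.trans hF) h3 h4

theorem FW.force {E : Finset β} {T : Finset β → Prop}
    (hT : ∀ A A' : Finset β, A ⊆ A' → T A → T A') {A F : Finset β} (h : FW T A F) :
    ∀ (Av B : Finset β), A ⊆ Av → F ⊆ E \ (Av ∪ B) →
      (Even (E \ (Av ∪ B)).card → Force E T true Av B) ∧
      (Odd (E \ (Av ∪ B)).card → Force E T false Av B) := by
  induction h with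
  | base A F h1 =>
      intro Av B hA hF
      exact ⟨fun _ => Force.of_T hT _ _ _ _ rfl (hT _ _ hA h1),
        fun _ => Force.of_T hT _ _ _ _ rfl (hT _ _ hA h1)⟩
  | step A F A' F' hA' hF' hodd hx ih =>
      -- inner induction on the number of free elements
      have key : ∀ (n : ℕ) (Av B : Finset β), (E \ (Av ∪ B)).card = n → A' ⊆ Av →
          F' ⊆ E \ (Av ∪ B) →
          (Even n → Force E T true Av B) ∧ (Odd n → Force E T false Av B) := by
        intro n
        induction n with
        | zero =>
            intro Av B hn hA hF
            exfalso
            have h0 : F' = ∅ := by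
              rw [Finset.card_eq_zero] at hn
              rw [hn] at hF
              exact Finset.subset_empty.1 hF
            rw [h0] at hodd
            simp at hodd
        | succ n ihn =>
            intro Av B hn hA hF
            constructor
            · intro hev
              have hex : ∃ e ∈ E \ (Av ∪ B), e ∉ F' := by
                by_contra hcon
                push Not at hcon
                have heq : F' = E \ (Av ∪ B) := Finset.Subset.antisymm hF hcon
                rw [heq, hn] at hodd
                exact (Nat.not_odd_iff_even.2 hev) hodd
              obtain ⟨e, he, heF⟩ := hex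
              refine Force.mine Av B e he ?_
              refine (ihn Av (insert e B) ?_ hA ?_).2 ?_
              · rw [free_insert_right, Finset.card_erase_of_mem he, hn]; rfl
              · rw [free_insert_right]
                intro z hz
                rw [Finset.mem_erase]
                exact ⟨fun h => heF (h ▸ hz), hF hz⟩
              · rcases Nat.even_or_odd n with h | h
                · exact absurd hev (by
                    rw [Nat.even_add_one]; simpa using h)
                · exact h
            · intro hod
              have hev : Even n := by
                rcases Nat.even_or_odd n with h | h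
                · exact h
                · exact absurd hod (by rw [Nat.not_odd_iff_even]; exact h.add_one)
              have hne : (E \ (Av ∪ B)).Nonempty := by
                rw [← Finset.card_pos]; omega
              refine Force.his Av B hne ?_
              intro e he
              have hcard : (E \ (insert e Av ∪ B)).card = n := by
                rw [free_insert_left, Finset.card_erase_of_mem he, hn]; rfl
              by_cases heF : e ∈ F'
              · refine ((ih e heF) (insert e Av) B ?_ ?_).1 ?_
                · exact Finset.insert_subset_insert e hA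
                · rw [free_insert_left]
                  exact Finset.erase_subset_erase e hF
                · rw [hcard]; exact hev
              · refine (ihn (insert e Av) B hcard ?_ ?_).1 hev
                · exact hA.trans (Finset.subset_insert e Av)
                · rw [free_insert_left]
                  intro z hz
                  rw [Finset.mem_erase]
                  exact ⟨fun h => heF (h ▸ hz), hF hz⟩
      intro Av B hA hF
      exact key _ Av B rfl (hA'.trans hA) (hF'.trans hF)

theorem FW.image {γ : Type*} [DecidableEq γ] {T : Finset β → Prop} {T' : Finset γ → Prop}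
    (f : β → γ) (hf : Function.Injective f) (hTT : ∀ A, T A → T' (A.image f)) {A F : Finset β}
    (h : FW T A F) : FW T' (A.image f) (F.image f) := by
  induction h with
  | base A F h1 => exact FW.base _ _ (hTT _ h1)
  | step A F A' F' hA' hF' hodd hx ih =>
      refine FW.step _ _ (A'.image f) (F'.image f) (Finset.image_subset_image hA')
        (Finset.image_subset_image hF') ?_ ?_
      · rw [Finset.card_image_of_injective _ hf]; exact hodd
      · intro x hx'
        rw [Finset.mem_image] at hx'
        obtain ⟨y, hy, rfl⟩ := hx'
        have := ih y hy
        rw [Finset.image_insert] at this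
        rwa [Finset.image_erase hf] at this

theorem BWin.image {E : Finset β} {T : Finset β → Prop} (f : β → β) (hf : Function.Injective f)
    (hE : E.image f = E) (hTT : ∀ A, T (A.image f) → T A) {A B : Finset β}
    (h : BWin E T A B) : BWin E T (A.image f) (B.image f) := by
  have hfree : ∀ A B : Finset β, E \ (A.image f ∪ B.image f) = (E \ (A ∪ B)).image f := by
    intro A B
    rw [Finset.image_sdiff _ _ hf, Finset.image_union, hE]
  induction h with
  | done A B h1 h2 =>
      refine BWin.done _ _ ?_ (fun h => h2 (hTT _ h))
      rw [hfree, h1, Finset.image_empty]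
  | step A B g h1 h2 h3 ih =>
      refine BWin.step' ?_ ?_
      · rw [hfree]; exact h1.image f
      · intro x hx
        rw [hfree, Finset.mem_image] at hx
        obtain ⟨x0, hx0, rfl⟩ := hx
        refine ⟨f (g x0), ?_, fun h => (h2 x0 hx0).2 (hf h), ?_⟩
        · rw [hfree]; exact Finset.mem_image_of_mem f (h2 x0 hx0).1
        · have := ih x0 hx0
          rwa [Finset.image_insert, Finset.image_insert] at this

end Gen

end Pool.Agent.Helper40.Game
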