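import Pool.Agent.Helper40.K9
import Pool.Agent.Helper40.Game

/-!
Checker for the certificate of the reverse game on nine vertices.
-/

set_option autoImplicit false

namespace Pool.Agent.Helper40.K9

open Finset

noncomputable section

/-- the `u`-th four bit digit -/
def pv (P u : ℕ) : ℕ := Nat.land (Nat.shiftRight P (Nat.mul 4 u)) 15

/-- `p k` for all `k < n` -/
def allN (n : ℕ) (p : ℕ → Bool) : Bool :=
  @Nat.rec (fun _ => Bool) true (fun k ih => @Bool.rec (fun _ => Bool) false ih (p k)) n

/-- the set of the first nine digits, as a mask -/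
def vmask (P : ℕ) : ℕ :=
  @Nat.rec (fun _ => ℕ) 0 (fun u ih => Nat.lor ih (Nat.shiftLeft 1 (pv P u))) 9

/-- the first nine digits form a permutation -/
def permOK (P : ℕ) : Bool := Nat.beq (vmask P) 511

/-- the image of the mask `m` under the permutation is contained in `m'` -/
def subChk (P m m' : ℕ) : Bool :=
  allN 9 (fun v => allN v (fun u =>
    @Bool.rec (fun _ => Bool) true (tb m' (ix (pv P u) (pv P v)))
      (tb m (Nat.add (Nat.div (Nat.mul v (Nat.sub v 1)) 2) u))))

/-- parity of the number of ones among the first `n` bits -/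
def par (m n : ℕ) : Bool :=
  @Nat.rec (fun _ => Bool) false
    (fun k ih => @Bool.rec (fun _ => Bool) ih (@Bool.rec (fun _ => Bool) true false ih) (tb m k)) n

/-- check of one answer -/
def kidAF (LA j A F e s : ℕ) : Bool :=
  @Bool.rec (fun _ => Bool) false
    (@Bool.rec (fun _ => Bool) false
      (@Bool.rec (fun _ => Bool) false
        (subChk (Nat.land (Nat.shiftRight s 9) 68719476735)
          (Nat.land (Nat.shiftRight LA (Nat.add (Nat.mul 72 (Nat.land s 511)) 36)) 68719476735)
          (Nat.xor F (Nat.shiftLeft 1 e)))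
        (subChk (Nat.land (Nat.shiftRight s 9) 68719476735)
          (Nat.land (Nat.shiftRight LA (Nat.mul 72 (Nat.land s 511))) 68719476735)
          (Nat.lor A (Nat.shiftLeft 1 e))))
      (permOK (Nat.land (Nat.shiftRight s 9) 68719476735)))
    (Nat.blt (Nat.land s 511) j)

/-- check of all answers -/
def loopAF (LA j A F n : ℕ) : ℕ → Bool :=
  @Nat.rec (fun _ => ℕ → Bool) (fun _ => true)
    (fun e ih s => @Bool.rec (fun _ => Bool) (ih s)
      (@Bool.rec (fun _ => Bool) false (ih (Nat.shiftRight s 45)) (kidAF LA j A F e s))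
      (tb F e)) n

/-- check of one entry -/
def entAF (LA j s : ℕ) : Bool :=
  @Bool.rec (fun _ => Bool) false
    (loopAF LA j (Nat.land (Nat.shiftRight LA (Nat.mul 72 j)) 68719476735)
      (Nat.land (Nat.shiftRight LA (Nat.add (Nat.mul 72 j) 36)) 68719476735) 36 s)
    (par (Nat.land (Nat.shiftRight LA (Nat.add (Nat.mul 72 j) 36)) 68719476735) 36)

/-- check of a list of entries, the first having index `j` -/
def listAF (LA : ℕ) (l : List ℕ) : ℕ → Bool :=
  @List.rec ℕ (fun _ => ℕ → Bool) (fun _ => true)
    (fun s _ ih j => @Bool.rec (fun _ => Bool) false (ih (Nat.succ j)) (entAF LA j s)) l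

end

end Pool.Agent.Helper40.K9
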