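import Mathlib

/-!
Sets of edges containing a complete graph.
-/

set_option autoImplicit false

namespace Pool.Agent.Helper40.K9

open Finset

/-- the edge set `A` contains all edges of a complete graph on `q` vertices -/
def KT (n q : ℕ) (A : Finset (Sym2 (Fin n))) : Prop :=
  ∃ S : Finset (Fin n), S.card = q ∧ ∀ a ∈ S, ∀ b ∈ S, a ≠ b → s(a, b) ∈ A

lemma KT.mono {n q : ℕ} {A A' : Finset (Sym2 (Fin n))} (h : A ⊆ A') (hA : KT n q A) :
    KT n q A' := by
  obtain ⟨S, h1, h2⟩ := hA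
  exact ⟨S, h1, fun a ha b hb hab => h (h2 a ha b hb hab)⟩

lemma KT.image {m n q : ℕ} {A : Finset (Sym2 (Fin m))} (g : Fin m → Fin n)
    (hg : Function.Injective g) (hA : KT m q A) : KT n q (A.image (Sym2.map g)) := by
  classical
  obtain ⟨S, h1, h2⟩ := hA
  refine ⟨S.image g, ?_, ?_⟩
  · rw [Finset.card_image_of_injective _ hg, h1]
  · intro a ha b hb hab
    rw [Finset.mem_image] at ha hb
    obtain ⟨a0, ha0, rfl⟩ := ha
    obtain ⟨b0, hb0, rfl⟩ := hb
    rw [Finset.mem_image]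
    exact ⟨s(a0, b0), h2 a0 ha0 b0 hb0 (fun h => hab (h ▸ rfl)), by rw [Sym2.map_mk]⟩

/-- all edges of the complete graph -/
def EE (n : ℕ) : Finset (Sym2 (Fin n)) := univ.filter (fun e => ¬ e.IsDiag)

lemma mem_EE {n : ℕ} {e : Sym2 (Fin n)} : e ∈ EE n ↔ ¬ e.IsDiag := by
  simp [EE]

lemma map_isDiag {m n : ℕ} (g : Fin m → Fin n) (hg : Function.Injective g) (e : Sym2 (Fin m)) :
    (Sym2.map g e).IsDiag ↔ e.IsDiag := by
  induction e with
  | h a b =>
      rw [Sym2.map_mk, Sym2.mk_isDiag_iff]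
      simp [hg.eq_iff]

end Pool.Agent.Helper40.K9
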