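import Pool.Agent.Helper40.AFCheck
import Pool.Agent.Helper40.Clique

/-!
Soundness of the checker for the reverse game.
-/

set_option autoImplicit false
set_option linter.unusedVariables false

namespace Pool.Agent.Helper40.K9

open Finset Pool.Agent.Helper40.Game

lemma rec_and {c x : Bool} : (@Bool.rec (fun _ => Bool) false x c = true) ↔ (c = true ∧ x = true) := by
  cases c <;> simp

lemma rec_imp {c x : Bool} : (@Bool.rec (fun _ => Bool) true x c = true) ↔ (c = true → x = true) := by
  cases c <;> simp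

lemma rec_ite {c x y : Bool} : (@Bool.rec (fun _ => Bool) y x c = true) ↔
    ((c = true ∧ x = true) ∨ (c = false ∧ y = true)) := by
  cases c <;> simp

lemma allN_zero (p : ℕ → Bool) : allN 0 p = true := rfl

lemma allN_succ (n : ℕ) (p : ℕ → Bool) :
    allN (n + 1) p = @Bool.rec (fun _ => Bool) false (allN n p) (p n) := rfl

lemma allN_iff (n : ℕ) (p : ℕ → Bool) : allN n p = true ↔ ∀ k < n, p k = true := by
  induction n with
  | zero => simp [allN_zero]
  | succ n ih =>
      rw [allN_succ, rec_and, ih]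
      constructor
      · rintro ⟨h1, h2⟩ k hk
        rcases Nat.lt_succ_iff_lt_or_eq.1 hk with h | h
        · exact h2 k h
        · exact h ▸ h1
      · intro h
        exact ⟨h n (Nat.lt_succ_self n), fun k hk => h k (Nat.lt_succ_of_lt hk)⟩

/-- partial mask, used in proofs only -/
def vm (P n : ℕ) : ℕ :=
  @Nat.rec (fun _ => ℕ) 0 (fun u ih => Nat.lor ih (Nat.shiftLeft 1 (pv P u))) n

lemma vm_succ (P n : ℕ) : vm P (n + 1) = vm P n ||| (1 <<< pv P n) := rfl

lemma testBit_one_shift (a t : ℕ) : (1 <<< a).testBit t = decide (a = t) := by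
  rw [Nat.one_shiftLeft, Nat.testBit_two_pow]

lemma vm_testBit (P n t : ℕ) : (vm P n).testBit t = true ↔ ∃ u < n, pv P u = t := by
  induction n with
  | zero => simp [vm]
  | succ n ih =>
      rw [vm_succ, Nat.testBit_or, Bool.or_eq_true, ih, testBit_one_shift, decide_eq_true_eq]
      constructor
      · rintro (⟨u, h1, h2⟩ | h)
        · exact ⟨u, by omega, h2⟩
        · exact ⟨n, by omega, h⟩
      · rintro ⟨u, h1, h2⟩
        rcases Nat.lt_succ_iff_lt_or_eq.1 h1 with h | h
        · exact Or.inl ⟨u, h, h2⟩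
        · exact Or.inr (h ▸ h2)

lemma permOK_iff (P : ℕ) (h : permOK P = true) (t : ℕ) : (∃ u < 9, pv P u = t) ↔ t < 9 := by
  have h1 : vm P 9 = 511 := Nat.eq_of_beq_eq_true h
  rw [← vm_testBit, h1]
  constructor
  · intro h2
    by_contra h3
    have : (511 : ℕ) < 2 ^ t := lt_of_lt_of_le (by norm_num) (Nat.pow_le_pow_right (by norm_num) (not_lt.1 h3))
    rw [Nat.testBit_lt_two_pow this] at h2
    exact absurd h2 (by simp)
  · intro h2
    interval_cases t <;> rfl

lemma pv_lt {P : ℕ} (h : permOK P = true) {u : ℕ} (hu : u < 9) : pv P u < 9 :=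
  (permOK_iff P h _).1 ⟨u, hu, rfl⟩

/-- the permutation of the vertices -/
def pf (P : ℕ) (u : Fin 9) : Fin 9 := if h : pv P u < 9 then ⟨pv P u, h⟩ else 0

lemma pf_val {P : ℕ} (h : permOK P = true) (u : Fin 9) : (pf P u).1 = pv P u := by
  unfold pf
  rw [dif_pos (pv_lt h u.2)]

lemma pf_inj {P : ℕ} (h : permOK P = true) : Function.Injective (pf P) := by
  rw [Finite.injective_iff_surjective]
  intro t
  obtain ⟨u, hu, hut⟩ := (permOK_iff P h t.1).2 t.2
  exact ⟨⟨u, hu⟩, Fin.ext (by rw [pf_val h]; exact hut)⟩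

lemma subChk_spec {P m m' : ℕ} (hP : permOK P = true) (h : subChk P m m' = true) :
    (ES m).image (Sym2.map (pf P)) ⊆ ES m' := by
  have h1 : ∀ v < 9, ∀ u < v, tb m (v * (v - 1) / 2 + u) = true →
      tb m' (ix (pv P u) (pv P v)) = true := by
    intro v hv u hu
    have h2 := (allN_iff _ _).1 h v hv
    exact rec_imp.1 ((allN_iff _ _).1 h2 u hu)
  have h2 : ∀ a b : Fin 9, a < b → s(a, b) ∈ ES m → Sym2.map (pf P) s(a, b) ∈ ES m' := by
    intro a b hab he
    rw [mem_ES] at he ⊢
    refine ⟨by rw [map_isDiag _ (pf_inj hP)]; exact he.1, ?_⟩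
    rw [Sym2.map_mk, ixs_mk, pf_val hP, pf_val hP]
    refine h1 b.1 b.2 a.1 hab ?_
    have h3 := he.2
    rw [ixs_mk] at h3
    have h4 : ix a.1 b.1 = b.1 * (b.1 - 1) / 2 + a.1 := by
      unfold ix
      have : Nat.blt a.1 b.1 = true := by rw [Nat.blt_eq]; exact hab
      rw [this]; rfl
    rwa [h4] at h3
  intro e he
  rw [Finset.mem_image] at he
  obtain ⟨e0, he0, rfl⟩ := he
  induction e0 with
  | h a b =>
      rcases lt_trichotomy a b with hab | hab | hab
      · exact h2 a b hab he0
      · exfalso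
        rw [mem_ES, Sym2.mk_isDiag_iff] at he0
        exact he0.1 hab
      · rw [Sym2.eq_swap] at he0 ⊢
        exact h2 b a hab he0

lemma tb_xor (F e i : ℕ) : tb (Nat.xor F (Nat.shiftLeft 1 e)) i = (tb F i ^^ decide (e = i)) := by
  rw [tb_eq, tb_eq]
  show (F ^^^ (1 <<< e)).testBit i = _
  rw [Nat.testBit_xor, testBit_one_shift]

lemma tb_lor (F e i : ℕ) : tb (Nat.lor F (Nat.shiftLeft 1 e)) i = (tb F i || decide (e = i)) := by
  rw [tb_eq, tb_eq]
  show (F ||| (1 <<< e)).testBit i = _
  rw [Nat.testBit_or, testBit_one_shift]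

lemma ed_ixs_eq {e : Sym2 (Fin 9)} (he : ¬ e.IsDiag) {i : ℕ} (hi : i < 36) :
    ixs e = i ↔ e = ed i := by
  constructor
  · intro h
    rw [← h, (ixs_spec e he).2]
  · intro h
    rw [h, (ed_spec i hi).2]

lemma ES_lor {A e : ℕ} (he : e < 36) :
    ES (Nat.lor A (Nat.shiftLeft 1 e)) = insert (ed e) (ES A) := by
  ext z
  rw [Finset.mem_insert, mem_ES, mem_ES, tb_lor, Bool.or_eq_true, decide_eq_true_eq]
  constructor
  · rintro ⟨h1, h2 | h2⟩
    · exact Or.inr ⟨h1, h2⟩
    · exact Or.inl ((ed_ixs_eq h1 he).1 h2.symm)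
  · rintro (h | h)
    · subst h
      exact ⟨(ed_spec e he).1, Or.inr (ed_spec e he).2.symm⟩
    · exact ⟨h.1, Or.inl h.2⟩

lemma ES_xor {F e : ℕ} (he : e < 36) (hF : tb F e = true) :
    ES (Nat.xor F (Nat.shiftLeft 1 e)) = (ES F).erase (ed e) := by
  ext z
  rw [Finset.mem_erase, mem_ES, mem_ES, tb_xor]
  constructor
  · rintro ⟨h1, h2⟩
    by_cases h : e = ixs z
    · rw [← h, hF] at h2; simp at h2
    · have h3 : decide (e = ixs z) = false := decide_eq_false h
      rw [h3, Bool.xor_false] at h2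
      exact ⟨fun h4 => h (by rw [h4, (ed_spec e he).2]), h1, h2⟩
  · rintro ⟨h1, h2, h3⟩
    refine ⟨h2, ?_⟩
    have h : e ≠ ixs z := by
      intro h
      exact h1 ((ed_ixs_eq h2 he).1 h.symm)
    rw [h3, decide_eq_false h]
    rfl

lemma ES_xor_insert {F e : ℕ} (he : e < 36) (hF : tb F e = false) :
    ES (Nat.xor F (Nat.shiftLeft 1 e)) = insert (ed e) (ES F) := by
  ext z
  rw [Finset.mem_insert, mem_ES, mem_ES, tb_xor]
  constructor
  · rintro ⟨h1, h2⟩
    by_cases h : e = ixs z
    · exact Or.inl ((ed_ixs_eq h1 he).1 h.symm)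
    · rw [decide_eq_false h, Bool.xor_false] at h2
      exact Or.inr ⟨h1, h2⟩
  · rintro (h1 | ⟨h1, h2⟩)
    · subst h1
      refine ⟨(ed_spec e he).1, ?_⟩
      rw [(ed_spec e he).2, hF, decide_eq_true rfl]
      rfl
    · refine ⟨h1, ?_⟩
      have h : e ≠ ixs z := by
        intro h
        rw [← h, hF] at h2
        exact absurd h2 (by simp)
      rw [h2, decide_eq_false h]
      rfl

lemma ES_card (m : ℕ) : (ES m).card = ((range 36).filter (fun i => tb m i = true)).card := by
  symm
  apply Finset.card_bij (fun i _ => ed i)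
  · intro i hi
    rw [Finset.mem_filter, Finset.mem_range] at hi
    rw [mem_ES, (ed_spec i hi.1).2]
    exact ⟨(ed_spec i hi.1).1, hi.2⟩
  · intro i hi j hj hij
    rw [Finset.mem_filter, Finset.mem_range] at hi hj
    rw [← (ed_spec i hi.1).2, ← (ed_spec j hj.1).2, hij]
  · intro e he
    rw [mem_ES] at he
    refine ⟨ixs e, ?_, (ixs_spec e he.1).2⟩
    rw [Finset.mem_filter, Finset.mem_range]
    exact ⟨(ixs_spec e he.1).1, he.2⟩

lemma par_succ (m n : ℕ) : par m (n + 1) =
    @Bool.rec (fun _ => Bool) (par m n) (@Bool.rec (fun _ => Bool) true false (par m n)) (tb m n) := rfl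

lemma par_iff (m n : ℕ) :
    par m n = decide (Odd ((range n).filter (fun i => tb m i = true)).card) := by
  induction n with
  | zero => simp [par]
  | succ n ih =>
      rw [par_succ, Finset.range_add_one, Finset.filter_insert]
      cases htb : tb m n with
      | true =>
          rw [if_pos rfl, Finset.card_insert_of_notMem (by simp), ih]
          by_cases h : Odd ((range n).filter (fun i => tb m i = true)).card
          · rw [decide_eq_true h, decide_eq_false (by
              rw [Nat.not_odd_iff_even]; exact h.add_one)]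
          · rw [decide_eq_false h, decide_eq_true (by
              rw [Nat.not_odd_iff_even] at h; exact h.add_one)]
      | false =>
          rw [if_neg (by simp)]
          exact ih

lemma par_spec {m : ℕ} (h : par m 36 = true) : Odd (ES m).card := by
  rw [ES_card]
  rw [par_iff] at h
  exact of_decide_eq_true h

lemma loopAF_succ (LA j A F n s : ℕ) : loopAF LA j A F (n + 1) s =
    @Bool.rec (fun _ => Bool) (loopAF LA j A F n s)
      (@Bool.rec (fun _ => Bool) false (loopAF LA j A F n (Nat.shiftRight s 45))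
        (kidAF LA j A F n s)) (tb F n) := rfl

lemma loopAF_spec (LA j A F n : ℕ) : ∀ s, loopAF LA j A F n s = true →
    ∀ e < n, tb F e = true → ∃ s', kidAF LA j A F e s' = true := by
  induction n with
  | zero => intro s _ e he; omega
  | succ n ih =>
      intro s h e he hF
      rw [loopAF_succ, rec_ite] at h
      rcases h with ⟨h1, h2⟩ | ⟨h1, h2⟩
      · rw [rec_and] at h2
        rcases Nat.lt_succ_iff_lt_or_eq.1 he with h3 | h3
        · exact ih _ h2.2 e h3 hF
        · exact ⟨s, h3 ▸ h2.1⟩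
      · rcases Nat.lt_succ_iff_lt_or_eq.1 he with h3 | h3
        · exact ih _ h2 e h3 hF
        · subst h3
          rw [h1] at hF
          exact absurd hF (by simp)

/-- first mask of entry `j` -/
def eA (LA j : ℕ) : ℕ := Nat.land (Nat.shiftRight LA (Nat.mul 72 j)) 68719476735

/-- second mask of entry `j` -/
def eF (LA j : ℕ) : ℕ := Nat.land (Nat.shiftRight LA (Nat.add (Nat.mul 72 j) 36)) 68719476735

lemma kidAF_spec {LA j A F e s : ℕ} (he : e < 36) (hFe : tb F e = true)
    (ih : ∀ k < j, FW (KT 9 4) (ES (eA LA k)) (ES (eF LA k)))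
    (h : kidAF LA j A F e s = true) :
    FW (KT 9 4) (insert (ed e) (ES A)) ((ES F).erase (ed e)) := by
  unfold kidAF at h
  rw [rec_and, rec_and, rec_and] at h
  obtain ⟨h1, h2, h3, h4⟩ := h
  have hk : Nat.land s 511 < j := by rwa [Nat.blt_eq] at h1
  have h5 := (ih _ hk).image (T' := KT 9 4) (Sym2.map (pf (Nat.land (Nat.shiftRight s 9) 68719476735)))
    (Sym2.map.injective (pf_inj h2)) (fun A hA => KT.image _ (pf_inj h2) hA)
  refine FW.mono (fun A A' => KT.mono) h5 ?_ ?_
  · rw [← ES_lor he]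
    exact subChk_spec h2 h3
  · rw [← ES_xor he hFe]
    exact subChk_spec h2 h4

lemma entAF_spec {LA j s : ℕ} (ih : ∀ k < j, FW (KT 9 4) (ES (eA LA k)) (ES (eF LA k)))
    (h : entAF LA j s = true) : FW (KT 9 4) (ES (eA LA j)) (ES (eF LA j)) := by
  unfold entAF at h
  rw [rec_and] at h
  obtain ⟨h1, h2⟩ := h
  refine FW.step _ _ (ES (eA LA j)) (ES (eF LA j)) (Finset.Subset.refl _) (Finset.Subset.refl _)
    (par_spec h1) ?_
  intro x hx
  rw [mem_ES] at hx
  obtain ⟨hx1, hx2⟩ := hx
  obtain ⟨s', hs'⟩ := loopAF_spec _ _ _ _ _ _ h2 (ixs x) (ixs_spec x hx1).1 hx2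
  have := kidAF_spec (ixs_spec x hx1).1 hx2 ih hs'
  rwa [(ixs_spec x hx1).2] at this

lemma listAF_cons (LA s : ℕ) (l : List ℕ) (j : ℕ) : listAF LA (s :: l) j =
    @Bool.rec (fun _ => Bool) false (listAF LA l (Nat.succ j)) (entAF LA j s) := rfl

lemma listAF_spec (LA : ℕ) (l : List ℕ) : ∀ j, listAF LA l j = true →
    (∀ k < j, FW (KT 9 4) (ES (eA LA k)) (ES (eF LA k))) →
    ∀ k < j + l.length, FW (KT 9 4) (ES (eA LA k)) (ES (eF LA k)) := by
  induction l with
  | nil => intro j _ h k hk; exact h k (by simpa using hk)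
  | cons s l ih =>
      intro j h hj k hk
      rw [listAF_cons, rec_and] at h
      refine ih (Nat.succ j) h.2 ?_ k (by rw [List.length_cons] at hk; omega)
      intro k hk
      rcases Nat.lt_succ_iff_lt_or_eq.1 hk with h3 | h3
      · exact hj k h3
      · exact h3 ▸ entAF_spec hj h.1

end Pool.Agent.Helper40.K9
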