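import Pool.Agent.Helper40.AFSound
import Pool.Agent.Helper40.AFDataA
import Pool.Agent.Helper40.AFDataB

/-!
The reverse game on nine vertices: the forcing pattern.
-/

set_option autoImplicit false

namespace Pool.Agent.Helper40.K9

open Finset Pool.Agent.Helper40.Game

lemma eA_zero : eA LAF 0 = 13354 := by decide +kernel

lemma eA_last : eA LAF 354 = 0 := by decide +kernel

lemma ES_zero : ES 0 = ∅ := by
  ext e
  rw [mem_ES]
  simp [tb_eq]

lemma af_base : FW (KT 9 4) (ES (eA LAF 0)) (ES (eF LAF 0)) := by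
  refine FW.base _ _ ?_
  rw [eA_zero]
  refine ⟨{0, 2, 3, 5}, by decide, ?_⟩
  have h : ∀ a b : Fin 9, a ∈ ({0, 2, 3, 5} : Finset (Fin 9)) → b ∈ ({0, 2, 3, 5} : Finset (Fin 9)) →
      a ≠ b → s(a, b) ∈ ES 13354 := by
    intro a b ha hb hab
    rw [mem_ES, Sym2.mk_isDiag_iff, ixs_mk]
    refine ⟨hab, ?_⟩
    revert a b
    decide +kernel
  exact fun a ha b hb hab => h a b ha hb hab

theorem af_all : ∀ k < 355, FW (KT 9 4) (ES (eA LAF k)) (ES (eF LAF k)) := by
  have h0 : ∀ k < 1, FW (KT 9 4) (ES (eA LAF k)) (ES (eF LAF k)) := by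
    intro k hk
    have : k = 0 := by omega
    subst this
    exact af_base
  have h1 := listAF_spec LAF AFDataA_data 1 AFDataA_ok h0
  rw [AFDataA_len] at h1
  have h2 := listAF_spec LAF AFDataB_data 180 AFDataB_ok h1
  rw [AFDataB_len] at h2
  exact h2

/-- the whole board on nine vertices contains a forcing pattern -/
theorem af_root : FW (KT 9 4) ∅ (ES (eF LAF 354)) := by
  have h := af_all 354 (by norm_num)
  rwa [eA_last, ES_zero] at h

end Pool.Agent.Helper40.K9
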