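import Mathlib

/-!
Estimates of the pair sum for large `q`.
-/

set_option autoImplicit false

namespace Pool.Agent.Helper40.Asy

open Finset Real

lemma choose_nat (N q s : ℕ) (hs : s ≤ q) (hN : q ≤ N) :
    (N - q).choose (q - s) * (N - q) ^ s ≤ N.choose q * q ^ s := by
  have h1 : (N - q).choose (q - s) * (q - s).factorial = (N - q).descFactorial (q - s) := by
    rw [mul_comm, ← Nat.descFactorial_eq_factorial_mul_choose]
  have h2 : N.choose q * q.factorial = N.descFactorial q := by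
    rw [mul_comm, ← Nat.descFactorial_eq_factorial_mul_choose]
  have h3 : (N - q) ^ s * (N - q).descFactorial (q - s) ≤ N.descFactorial q := by
    rw [← Nat.descFactorial_mul_descFactorial hs (n := N), mul_comm]
    refine Nat.mul_le_mul (Nat.descFactorial_le _ (by omega)) ?_
    refine le_trans (Nat.pow_le_pow_left (by omega) s) (Nat.pow_sub_le_descFactorial N s)
  have h4 : q.factorial ≤ (q - s).factorial * q ^ s := by
    rw [← Nat.factorial_mul_descFactorial hs]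
    exact Nat.mul_le_mul_left _ (Nat.descFactorial_le_pow _ _)
  have h5 : ((N - q).choose (q - s) * (N - q) ^ s) * (q - s).factorial ≤
      (N.choose q * q ^ s) * (q - s).factorial := by
    calc ((N - q).choose (q - s) * (N - q) ^ s) * (q - s).factorial
        = (N - q) ^ s * ((N - q).choose (q - s) * (q - s).factorial) := by ring
      _ = (N - q) ^ s * (N - q).descFactorial (q - s) := by rw [h1]
      _ ≤ N.descFactorial q := h3
      _ = N.choose q * q.factorial := h2.symm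
      _ ≤ N.choose q * ((q - s).factorial * q ^ s) := Nat.mul_le_mul_left _ h4
      _ = _ := by ring
  exact Nat.le_of_mul_le_mul_right h5 (Nat.factorial_pos _)

lemma pow_two_bound (N q s : ℕ) (hs : s ≤ q) (hN : 2 * q ^ 2 ≤ N) (hq : 1 ≤ q) :
    (N : ℝ) ^ s ≤ 2 * ((N - q : ℕ) : ℝ) ^ s := by
  have hqN : q ≤ N := by nlinarith
  have hN0 : (0:ℝ) < N := by
    have : 0 < N := by omega
    exact_mod_cast this
  have hq' : (0:ℝ) ≤ q := Nat.cast_nonneg q
  have hN' : 2 * (q:ℝ) ^ 2 ≤ N := by exact_mod_cast hN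
  have hs' : (s:ℝ) ≤ q := by exact_mod_cast hs
  have hs0 : (0:ℝ) ≤ s := Nat.cast_nonneg s
  have hq1 : (1:ℝ) ≤ q := by exact_mod_cast hq
  have hb := one_add_mul_le_pow (a := -((q:ℝ) / N)) (by
    have : (q:ℝ) / N ≤ 2 := by
      rw [div_le_iff₀ hN0]; nlinarith
    linarith) s
  have h1 : (s:ℝ) * ((q:ℝ) / N) ≤ 1 / 2 := by
    rw [← mul_div_assoc, div_le_iff₀ hN0]
    nlinarith
  have h2 : (1:ℝ) / 2 ≤ (1 + -((q:ℝ) / N)) ^ s := by
    refine le_trans ?_ hb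
    linarith
  have h3 : ((N - q : ℕ) : ℝ) = N * (1 + -((q:ℝ) / N)) := by
    push_cast [Nat.cast_sub hqN]
    field_simp
    ring
  rw [h3, mul_pow]
  have h4 : (0:ℝ) ≤ (N:ℝ) ^ s := by positivity
  nlinarith

lemma ratio_bound (N q s : ℕ) (hs : s ≤ q) (hN : 2 * q ^ 2 ≤ N) (hq : 1 ≤ q) :
    ((N - q).choose (q - s) : ℝ) * (N : ℝ) ^ s ≤ 2 * ((N.choose q : ℝ) * (q : ℝ) ^ s) := by
  have hqN : q ≤ N := by nlinarith
  have h1 : (((N - q).choose (q - s) : ℕ) : ℝ) * ((N - q : ℕ) : ℝ) ^ s ≤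
      ((N.choose q : ℕ) : ℝ) * ((q : ℕ) : ℝ) ^ s := by
    exact_mod_cast choose_nat N q s hs hqN
  have h2 := pow_two_bound N q s hs hN hq
  calc ((N - q).choose (q - s) : ℝ) * (N : ℝ) ^ s
      ≤ ((N - q).choose (q - s) : ℝ) * (2 * ((N - q : ℕ) : ℝ) ^ s) :=
        mul_le_mul_of_nonneg_left h2 (Nat.cast_nonneg _)
    _ = 2 * (((N - q).choose (q - s) : ℝ) * ((N - q : ℕ) : ℝ) ^ s) := by ring
    _ ≤ _ := mul_le_mul_of_nonneg_left h1 (by norm_num)

lemma exp_log_aux {q : ℝ} (hq : 0 < q) (s : ℕ) : exp ((s:ℝ) * log q) = q ^ s := by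
  rw [mul_comm, exp_mul, exp_log hq, rpow_natCast]

/-- conditions on a large `q` -/
structure Big (D Λ q : ℝ) : Prop where
  hD : 0 < D
  hΛ : 0 ≤ Λ
  hq : 4 ≤ q
  a1 : log 2 + 11 * Λ + 9 * D ≤ D * q / 2
  a2 : Λ + 6 * D ≤ D * q / 4
  b1 : log 2 + 8 * Λ + 4 * Λ ^ 2 / D + 8 * D + 8 ≤ q

lemma expoA {D Λ q s : ℝ} (h : Big D Λ q) (hs3 : 3 ≤ s) (hs : s ≤ q / 4) :
    log 2 + 8 * Λ + s * Λ - (s - 2) * (D * q / 2 + (4 * D + 4)) + D * s ^ 2 ≤ 0 := by
  obtain ⟨hD, hΛ, hq, a1, a2, b1⟩ := h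
  set r := s - 3 with hr
  have hr0 : 0 ≤ r := by linarith
  have hs' : s = r + 3 := by rw [hr]; ring
  rw [hs'] at hs ⊢
  have e1 : 0 ≤ r * (D * q / 4 - (Λ + 6 * D)) := mul_nonneg hr0 (by linarith)
  have e2 : 0 ≤ D * r * (q / 4 - 3 - r) := by
    refine mul_nonneg (mul_nonneg hD.le hr0) (by linarith)
  have e3 : 0 ≤ (r + 1) * (4 * D + 4) := by positivity
  have e4 : 0 ≤ D * r := by positivity
  nlinarith

lemma expoB {D Λ q s : ℝ} (h : Big D Λ q) (hs3 : 3 ≤ s) (hs : q / 4 ≤ s) (hsq : s ≤ q) :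
    log 2 + 8 * Λ + (q - s) * Λ - (s - 2) * (D * q / 2 + (4 * D + 4)) +
      D * (q ^ 2 * s ^ 2 / (q ^ 2 + s ^ 2)) ≤ 0 := by
  obtain ⟨hD, hΛ, hq, a1, a2, b1⟩ := h
  have hs0 : 0 < s := by linarith
  have hq0 : 0 < q := by linarith
  have e1 : q ^ 2 * s ^ 2 / (q ^ 2 + s ^ 2) ≤ q * s / 2 - (q - s) ^ 2 / 16 := by
    rw [div_le_iff₀ (by positivity)]
    have i1 : (q - s) ^ 2 * (q ^ 2 + s ^ 2) ≤ (q - s) ^ 2 * (8 * (q * s)) := by
      refine mul_le_mul_of_nonneg_left ?_ (sq_nonneg _)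
      nlinarith
    nlinarith
  have e2 := mul_le_mul_of_nonneg_left e1 hD.le
  have e3 : (q - s) * Λ - D * (q - s) ^ 2 / 16 ≤ 4 * Λ ^ 2 / D := by
    rw [le_div_iff₀ hD]
    nlinarith [sq_nonneg (D * (q - s) / 4 - 2 * Λ)]
  have e4 : (q / 4 - 2) * (4 * D + 4) ≤ (s - 2) * (4 * D + 4) :=
    mul_le_mul_of_nonneg_right (by linarith) (by linarith)
  nlinarith

lemma harm_bound {n m q s : ℝ} (hn : 0 < n) (hm : 0 < m) (hq : 0 < q) (hs : 0 < s)
    (h1 : n ≤ q ^ 2 / 2) (h2 : m ≤ s ^ 2 / 2) :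
    2 * (n * m) / (n + m) ≤ q ^ 2 * s ^ 2 / (q ^ 2 + s ^ 2) := by
  rw [div_le_div_iff₀ (by positivity) (by positivity)]
  have i1 : 0 ≤ (q ^ 2 - 2 * n) * m * s ^ 2 :=
    mul_nonneg (mul_nonneg (by linarith) hm.le) (by positivity)
  have i2 : 0 ≤ (s ^ 2 - 2 * m) * n * q ^ 2 :=
    mul_nonneg (mul_nonneg (by linarith) hn.le) (by positivity)
  nlinarith

/-- the bound of one term of the pair sum -/
theorem term_bound {D : ℝ} {N q s : ℕ} (hB : Big D (log q) q) (hs3 : 3 ≤ s) (hsq : s ≤ q)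
    (hN : 2 * q ^ 2 ≤ N) (hL : D * q / 2 + log q + (4 * D + 4) ≤ log N) :
    (N : ℝ) ^ 2 * ((q.choose 2 : ℝ) + 1) ^ 2 *
      ((q.choose s : ℝ) * ((N - q).choose (q - s) : ℝ) *
        exp (2 * D * ((q.choose 2 : ℝ) * (s.choose 2 : ℝ)) / ((q.choose 2 : ℝ) + (s.choose 2 : ℝ)))) ≤
      (N.choose q : ℝ) / (q : ℝ) ^ 2 := by
  have hD := hB.hD
  have hq4 : (4:ℝ) ≤ q := hB.hq
  have hq0 : (0:ℝ) < q := by linarith
  have hs3' : (3:ℝ) ≤ s := by exact_mod_cast hs3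
  have hs0 : (0:ℝ) < s := by linarith
  have hsq' : (s:ℝ) ≤ q := by exact_mod_cast hsq
  have hqn : 1 ≤ q := by omega
  have hN0 : (0:ℝ) < N := by
    have : 0 < N := by nlinarith
    exact_mod_cast this
  have cq : ((q.choose 2 : ℕ) : ℝ) = (q:ℝ) * (q - 1) / 2 := Nat.cast_choose_two ℝ q
  have cs : ((s.choose 2 : ℕ) : ℝ) = (s:ℝ) * (s - 1) / 2 := Nat.cast_choose_two ℝ s
  set n : ℝ := ((q.choose 2 : ℕ) : ℝ) with hn
  set m : ℝ := ((s.choose 2 : ℕ) : ℝ) with hm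
  have hnpos : 0 < n := by rw [cq]; nlinarith
  have hmpos : 0 < m := by rw [cs]; nlinarith
  have hn1 : n + 1 ≤ (q:ℝ) ^ 2 := by rw [cq]; nlinarith
  have h1 : 2 * D * (n * m) / (n + m) ≤ D * ((q:ℝ) ^ 2 * (s:ℝ) ^ 2 / ((q:ℝ) ^ 2 + (s:ℝ) ^ 2)) := by
    have := harm_bound hnpos hmpos hq0 hs0 (by rw [cq]; nlinarith) (by rw [cs]; nlinarith)
    have h2 := mul_le_mul_of_nonneg_left this hD.le
    calc 2 * D * (n * m) / (n + m) = D * (2 * (n * m) / (n + m)) := by ring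
      _ ≤ _ := h2
  -- the key exponent bound, with a bound `exp (c * log q)` of the binomial coefficient
  have key : ∃ c : ℝ, (q.choose s : ℝ) ≤ exp (c * log q) ∧
      log 2 + 8 * log q + c * log q - (s - 2) * (D * q / 2 + (4 * D + 4)) +
      2 * D * (n * m) / (n + m) ≤ 0 := by
    rcases le_or_gt (s:ℝ) (q / 4) with hA | hB'
    · refine ⟨s, ?_, ?_⟩
      · have : (q.choose s : ℝ) ≤ (q:ℝ) ^ s := by exact_mod_cast Nat.choose_le_pow q s
        rw [exp_log_aux hq0 s]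
        exact this
      · have h3 := expoA hB hs3' hA
        have h4 : (q:ℝ) ^ 2 * (s:ℝ) ^ 2 / ((q:ℝ) ^ 2 + (s:ℝ) ^ 2) ≤ (s:ℝ) ^ 2 := by
          rw [div_le_iff₀ (by positivity)]
          nlinarith [sq_nonneg ((s:ℝ) ^ 2)]
        have h5 := mul_le_mul_of_nonneg_left h4 hD.le
        linarith
    · refine ⟨q - s, ?_, ?_⟩
      · have : (q.choose s : ℝ) ≤ (q:ℝ) ^ (q - s) := by
          rw [← Nat.choose_symm hsq]
          exact_mod_cast Nat.choose_le_pow q (q - s)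
        have e : ((q:ℝ) - s) = ((q - s : ℕ) : ℝ) := by push_cast [Nat.cast_sub hsq]; ring
        rw [e, exp_log_aux hq0 (q - s)]
        exact this
      · have h3 := expoB hB hs3' hB'.le hsq'
        linarith
  obtain ⟨c, hc, hexp⟩ := key
  have hr := ratio_bound N q s hsq hN hqn
  -- collect
  have hXpos : (0:ℝ) ≤ (N.choose q : ℝ) := Nat.cast_nonneg _
  have hE := (exp_pos (2 * D * (n * m) / (n + m))).le
  rw [le_div_iff₀ (by positivity)]
  have hNs : (0:ℝ) < (N:ℝ) ^ s := by positivity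
  refine le_of_mul_le_mul_right ?_ hNs
  calc (N : ℝ) ^ 2 * (n + 1) ^ 2 * ((q.choose s : ℝ) * ((N - q).choose (q - s) : ℝ) *
        exp (2 * D * (n * m) / (n + m))) * (q:ℝ) ^ 2 * (N:ℝ) ^ s
      = (N : ℝ) ^ 2 * ((n + 1) ^ 2 * (q:ℝ) ^ 2 * ((q.choose s : ℝ) *
        exp (2 * D * (n * m) / (n + m)))) * (((N - q).choose (q - s) : ℝ) * (N:ℝ) ^ s) := by ring
    _ ≤ (N : ℝ) ^ 2 * ((((q:ℝ) ^ 2) ^ 2) * (q:ℝ) ^ 2 * (exp (c * log q) *
        exp (2 * D * (n * m) / (n + m)))) * (2 * ((N.choose q : ℝ) * (q : ℝ) ^ s)) := by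
        refine mul_le_mul ?_ hr (by positivity) (by positivity)
        refine mul_le_mul_of_nonneg_left ?_ (by positivity)
        refine mul_le_mul ?_ ?_ (by positivity) (by positivity)
        · refine mul_le_mul_of_nonneg_right ?_ (by positivity)
          exact pow_le_pow_left₀ (by linarith) hn1 2
        · exact mul_le_mul_of_nonneg_right hc hE
    _ = (N.choose q : ℝ) * (((N : ℝ) ^ 2) * (2 * (q:ℝ) ^ 6 * (q:ℝ) ^ s * (exp (c * log q) *
        exp (2 * D * (n * m) / (n + m))))) := by ring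
    _ ≤ (N.choose q : ℝ) * (N:ℝ) ^ s := by
        refine mul_le_mul_of_nonneg_left ?_ hXpos
        have t1 : (N:ℝ) ^ 2 = exp (2 * log N) := by
          have := exp_log_aux hN0 2
          push_cast at this
          exact this.symm
        have t2 : (N:ℝ) ^ s = exp (s * log N) := (exp_log_aux hN0 s).symm
        have t3 : (q:ℝ) ^ 6 = exp (6 * log q) := by
          have := exp_log_aux hq0 6
          push_cast at this
          exact this.symm
        have t4 : (q:ℝ) ^ s = exp (s * log q) := (exp_log_aux hq0 s).symm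
        have t5 : (2:ℝ) = exp (log 2) := (exp_log (by norm_num)).symm
        rw [t1, t2, t3, t4]
        nth_rewrite 2 [t5]
        rw [← exp_add, ← exp_add, ← exp_add, ← exp_add, ← exp_add]
        apply exp_le_exp.2
        have h6 : (s - 2 : ℝ) * (D * q / 2 + log q + (4 * D + 4)) ≤ (s - 2) * log N :=
          mul_le_mul_of_nonneg_left hL (by linarith)
        nlinarith
    _ = (N.choose q : ℝ) * (N:ℝ) ^ s := rfl

end Pool.Agent.Helper40.Asy
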