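import Pool.Agent.Helper40.Tilt

/-!
Second moment criterion and blocking criterion for the majority game.
-/

set_option autoImplicit false
set_option linter.unusedSectionVars false
set_option linter.unusedVariables false

namespace Pool.Agent.Helper40.Tilt

open Finset Pool.Agent.Helper40.Game Pool.Agent.Helper40.SM

section Init

variable {β : Type*} [DecidableEq β]

/-- initial value of the pair weight -/
noncomputable def w0 (n k m : ℕ) (h : ℝ) : ℝ :=
  Real.exp (-(2 * h * (2 * (k : ℝ) - n))) *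
    (Real.cosh (2 * h) ^ m * Real.cosh h ^ (2 * (n - m)))

lemma pw_init {A A' : Finset β} {n k : ℕ} {h : ℝ} (hA : A.card = n) (hA' : A'.card = n) :
    pw A A' n k h ∅ ∅ = w0 n k (A ∩ A').card h := by
  unfold pw w0 W
  congr 1
  have h1 : ∏ z ∈ A ∪ A', ph (tl A A' h z) z ∅ ∅ =
      (∏ z ∈ A ∩ A', Real.cosh (2 * h)) * ∏ z ∈ (A \ A') ∪ (A' \ A), Real.cosh h := by
    have hd : Disjoint (A ∩ A') ((A \ A') ∪ (A' \ A)) := by
      rw [Finset.disjoint_left]
      intro z h1 h2
      simp only [mem_inter, mem_union, mem_sdiff] at h1 h2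
      tauto
    have hu : A ∪ A' = (A ∩ A') ∪ ((A \ A') ∪ (A' \ A)) := by
      ext z
      simp only [mem_inter, mem_union, mem_sdiff]
      tauto
    rw [hu, Finset.prod_union hd]
    congr 1
    · refine Finset.prod_congr rfl (fun z hz => ?_)
      rw [mem_inter] at hz
      unfold ph tl
      simp only [Finset.notMem_empty, if_false, hz.1, hz.2, if_true]
      congr 1; ring
    · refine Finset.prod_congr rfl (fun z hz => ?_)
      simp only [mem_union, mem_sdiff] at hz
      unfold ph tl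
      rcases hz with hz | hz
      · simp only [Finset.notMem_empty, if_false, hz.1, hz.2, if_true]
        congr 1; ring
      · simp only [Finset.notMem_empty, if_false, hz.1, hz.2, if_true]
        congr 1; ring
  rw [h1, Finset.prod_const, Finset.prod_const]
  congr 2
  have e1 := Finset.card_sdiff_add_card_inter A A'
  have e2 := Finset.card_sdiff_add_card_inter A' A
  rw [Finset.inter_comm A' A] at e2
  have e3 : ((A \ A') ∪ (A' \ A)).card = (A \ A').card + (A' \ A).card := by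
    apply Finset.card_union_of_disjoint
    rw [Finset.disjoint_left]
    intro z h1 h2
    simp only [mem_sdiff] at h1 h2
    tauto
  omega

end Init

section Games

variable {β : Type*} [DecidableEq β] [Inhabited β] {K : Type*} [DecidableEq K]
variable (E : Finset β) (F : Finset K) (A : K → Finset β)

/-- potential of the majority game -/
noncomputable def LA (n k : ℕ) (hh : ℕ → ℝ) (l : ℝ) (M B : Finset β) : ℝ :=
  (∑ i ∈ F, P (A i) k M B - l * ∑ p ∈ prs F A 2,
    pw (A p.1) (A p.2) n k (hh (A p.1 ∩ A p.2).card) M B) - 1 * (0:ℝ)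

lemma LA_harm (n k : ℕ) (hh : ℕ → ℝ) (l : ℝ) : Harm (LA F A n k hh l) := by
  intro M B x hM hB
  have h1 := Harm_sum F (fun i => P (A i) k) (fun i _ => P_harm _ _) M B x hM hB
  have h2 := Harm_sum (prs F A 2)
    (fun p => pw (A p.1) (A p.2) n k (hh (A p.1 ∩ A p.2).card))
    (fun i _ => pw_harm _ _ _ _ _) M B x hM hB
  unfold LA
  linear_combination h1 - l * h2

lemma LA_D2 {n k : ℕ} {hh : ℕ → ℝ} {l ε : ℝ} (hl : 0 < l) (hε : 0 < ε)
    (hcard : ∀ i ∈ F, (A i).card = n)
    (h0 : ∀ m, 0 ≤ hh m) (h1 : ∀ m, m ≤ n → ε ≤ Real.tanh (2 * hh m)) :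
    D2Le E (LA F A n k hh l) (1 / (4 * ε ^ 2 * l)) := by
  refine D2_bound E F A (fun i => P (A i) k) (prs F A 2)
    (fun p => pw (A p.1) (A p.2) n k (hh (A p.1 ∩ A p.2).card)) (fun _ _ => (0:ℝ))
    (by positivity) hl ?_
  intro M B x y hMB hx hy hxy hxM hxB hyM hyB
  refine ⟨?_, ?_, ?_, ?_, ?_⟩
  · intro i _
    exact P_D2 hxy hxM hxB hyM hyB
  · intro i _
    exact P_nonneg _ _ _ _
  · intro p _
    exact pw_D2_nonneg _ _ _ _ (h0 _) hxy hxM hxB hyM hyB
  · intro i hi j hj a1 a2 a3 a4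
    constructor
    · rw [prs, mem_filter, mem_product]
      refine ⟨⟨hi, hj⟩, ?_⟩
      have : ({x, y} : Finset β) ⊆ A i ∩ A j := by
        intro p hp
        simp only [mem_insert, mem_singleton] at hp
        rw [mem_inter]
        rcases hp with rfl | rfl
        · exact ⟨a1, a3⟩
        · exact ⟨a2, a4⟩
      calc 2 = ({x, y} : Finset β).card := (card_pair hxy).symm
        _ ≤ _ := card_le_card this
    · set h := hh (A i ∩ A j).card with hh'
      have e : D2 (pw (A i) (A j) n k h) M B x y = Real.exp (-(2 * h * (2 * (k : ℝ) - n))) *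
          D2 (W (A i ∪ A j) (tl (A i) (A j) h)) M B x y := smul_D2 _ _ _ _ _ _
      have e2 : tl (A i) (A j) h x = 2 * h := by
        unfold tl; rw [if_pos a1, if_pos a3]; ring
      have e3 : tl (A i) (A j) h y = 2 * h := by
        unfold tl; rw [if_pos a2, if_pos a4]; ring
      simp only
      rw [e, W_D2 hxy hxM hxB hyM hyB, if_pos ⟨mem_union_left _ a1, mem_union_left _ a2⟩, e2, e3]
      have e4 := PP_le_pw (k := k) (h0 (A i ∩ A j).card) (hcard i hi) (hcard j hj) _ M B hMB rfl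
      have e5 : ε ≤ Real.tanh (2 * h) := h1 _ (by
        rw [← hcard i hi]; exact Finset.card_le_card Finset.inter_subset_left)
      have e6 : ε ^ 2 ≤ Real.tanh (2 * h) * Real.tanh (2 * h) := by
        nlinarith
      have e7 := pw_nonneg (A i) (A j) n k h M B
      calc ε ^ 2 * (P (A i) k M B * P (A j) k M B)
          ≤ ε ^ 2 * pw (A i) (A j) n k h M B := mul_le_mul_of_nonneg_left e4 (by positivity)
        _ ≤ (Real.tanh (2 * h) * Real.tanh (2 * h)) * pw (A i) (A j) n k h M B :=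
            mul_le_mul_of_nonneg_right e6 e7
        _ = _ := by unfold pw; ring
  · unfold D2; norm_num

lemma P_empty (A : Finset β) (k : ℕ) : P A k ∅ ∅ = G A.card k := by
  unfold P; simp

/-- the second moment criterion for the majority game -/
theorem maker_alpha {n k : ℕ} {hh : ℕ → ℝ} {l ε : ℝ} (hE : ∀ i ∈ F, A i ⊆ E) (hl : 0 < l)
    (hε : 0 < ε) (hcard : ∀ i ∈ F, (A i).card = n) (h0 : ∀ m, 0 ≤ hh m)
    (h1 : ∀ m, m ≤ n → ε ≤ Real.tanh (2 * hh m))
    (hbig : (E.card : ℝ) / (8 * ε ^ 2 * l) +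
      l * ∑ p ∈ prs F A 2, w0 n k (A p.1 ∩ A p.2).card (hh (A p.1 ∩ A p.2).card) <
        (F.card : ℝ) * G n k) :
    ∃ σ : List β → β, Legal E 0 σ ∧ ∀ h : List β, h.Nodup → (∀ e ∈ h, e ∈ E) →
      (∀ e ∈ E, e ∈ h) → Cons σ 0 h → ∃ i ∈ F, k ≤ (A i ∩ cls 0 h).card := by
  obtain ⟨σ, s1, s2⟩ := M_final (κ := 1 / (4 * ε ^ 2 * l)) (by positivity)
    (LA_harm F A n k hh l) (LA_D2 E F A hl hε hcard h0 h1) (fun M B => ∑ i ∈ F, P (A i) k M B)
    (fun M B => by
      have : 0 ≤ ∑ p ∈ prs F A 2, pw (A p.1) (A p.2) n k (hh (A p.1 ∩ A p.2).card) M B :=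
        Finset.sum_nonneg (fun p _ => pw_nonneg _ _ _ _ _ _ _)
      have := mul_nonneg hl.le this
      unfold LA
      linarith)
    (fun M B x hM hB => Finset.sum_le_sum (fun i _ => P_mono' hM hB))
  refine ⟨σ, s1, fun h hnd hE' hall hc => ?_⟩
  have h3 := s2 h hnd hE' hall hc
  have h4 : LA F A n k hh l ∅ ∅ = (F.card : ℝ) * G n k -
      l * ∑ p ∈ prs F A 2, w0 n k (A p.1 ∩ A p.2).card (hh (A p.1 ∩ A p.2).card) := by
    unfold LA
    have e1 : ∑ i ∈ F, P (A i) k ∅ ∅ = (F.card : ℝ) * G n k := by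
      rw [Finset.sum_congr rfl (fun i hi => by rw [P_empty, hcard i hi]), Finset.sum_const,
        nsmul_eq_mul]
    have e2 : ∑ p ∈ prs F A 2, pw (A p.1) (A p.2) n k (hh (A p.1 ∩ A p.2).card) ∅ ∅ =
        ∑ p ∈ prs F A 2, w0 n k (A p.1 ∩ A p.2).card (hh (A p.1 ∩ A p.2).card) := by
      refine Finset.sum_congr rfl (fun p hp => ?_)
      rw [prs, mem_filter, mem_product] at hp
      exact pw_init (hcard _ hp.1.1) (hcard _ hp.1.2)
    rw [e1, e2]
    ring
  have h5 : 1 / (4 * ε ^ 2 * l) * ((E.card : ℝ) / 2) = (E.card : ℝ) / (8 * ε ^ 2 * l) := by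
    field_simp; ring
  rw [h4, h5] at h3
  have h6 : 0 < ∑ i ∈ F, P (A i) k (cls 0 h) (cls 1 h) := by linarith
  obtain ⟨i, hi, hne⟩ := Finset.exists_ne_zero_of_sum_ne_zero h6.ne'
  refine ⟨i, hi, ?_⟩
  have e1 : (A i \ (cls 0 h ∪ cls 1 h)).card = 0 := by
    rw [Finset.card_eq_zero, Finset.sdiff_eq_empty_iff_subset, cls_union]
    intro z hz
    rw [List.mem_toFinset]
    exact hall z (hE i hi hz)
  unfold P at hne
  rw [e1] at hne
  have := G_zero_left_pos hne
  omega

/-- weight of one set -/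
noncomputable def vs (A : Finset β) (n k : ℕ) (h : ℝ) (M B : Finset β) : ℝ :=
  Real.exp (-(h * (2 * (k : ℝ) - n))) * W A (fun _ => h) M B

lemma vs_nonneg (A : Finset β) (n k : ℕ) (h : ℝ) (M B : Finset β) : 0 ≤ vs A n k h M B :=
  mul_nonneg (Real.exp_pos _).le (W_pos _ _ _ _).le

lemma tanh_lt_one' (x : ℝ) : Real.tanh x < 1 := by
  rw [Real.tanh_eq_sinh_div_cosh, div_lt_one (Real.cosh_pos x)]
  exact Real.sinh_lt_cosh x

/-- the blocking criterion for the majority game -/
theorem breaker_alpha {n k : ℕ} {h : ℝ} (hE : ∀ i ∈ F, A i ⊆ E) (hh : 0 ≤ h)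
    (hne : E.Nonempty) (hcard : ∀ i ∈ F, (A i).card = n)
    (hsmall : 2 * ((F.card : ℝ) * (Real.exp (-(h * (2 * (k : ℝ) - n))) * Real.cosh h ^ n)) < 1) :
    ∃ σ : List β → β, Legal E 1 σ ∧ ∀ l : List β, l.Nodup → (∀ e ∈ l, e ∈ E) →
      (∀ e ∈ E, e ∈ l) → Cons σ 1 l → ∀ i ∈ F, (A i ∩ cls 0 l).card < k := by
  set V : Finset β → Finset β → ℝ := fun M B => ∑ i ∈ F, vs (A i) n k h M B with hV
  have hVh : Harm V := Harm_sum F (fun i => vs (A i) n k h) (fun i _ => smul_harm (W_harm _ _) _)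
  have hVD : ∀ (M B : Finset β) (x y : β), x ≠ y → x ∉ M → x ∉ B → y ∉ M → y ∉ B →
      0 ≤ D2 V M B x y := by
    intro M B x y hxy hxM hxB hyM hyB
    rw [hV, D2_sum F (fun i => vs (A i) n k h) M B x y]
    refine Finset.sum_nonneg (fun i _ => ?_)
    have e : D2 (vs (A i) n k h) M B x y = Real.exp (-(h * (2 * (k : ℝ) - n))) *
        D2 (W (A i) (fun _ => h)) M B x y := smul_D2 _ _ _ _ _ _
    rw [e, W_D2 hxy hxM hxB hyM hyB]
    refine mul_nonneg (Real.exp_pos _).le ?_
    split_ifs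
    · exact mul_nonneg (mul_nonneg (tanh_nonneg hh) (tanh_nonneg hh)) (W_pos _ _ _ _).le
    · exact le_rfl
  have hVins : ∀ (M B : Finset β) (x : β), x ∉ M → x ∉ B → ∀ i ∈ F,
      vs (A i) n k h M B ≤ vs (A i) n k h (insert x M) B ∧
      vs (A i) n k h (insert x M) B ≤ 2 * vs (A i) n k h M B := by
    intro M B x hM hB i _
    unfold vs
    rw [W_insert_M hM hB]
    have hW := (W_pos (A i) (fun _ => h) M B).le
    have ht := tanh_nonneg hh
    have ht1 := (tanh_lt_one' h).le
    have he := (Real.exp_pos (-(h * (2 * (k : ℝ) - n)))).le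
    have hp := mul_nonneg he hW
    split_ifs
    · constructor <;> nlinarith
    · constructor <;> nlinarith
  have hV0 : V ∅ ∅ = (F.card : ℝ) * (Real.exp (-(h * (2 * (k : ℝ) - n))) * Real.cosh h ^ n) := by
    rw [hV]
    simp only
    rw [Finset.sum_congr rfl (fun i hi => ?_), Finset.sum_const, nsmul_eq_mul]
    unfold vs W ph
    simp only [Finset.notMem_empty, if_false]
    rw [Finset.prod_const, hcard i hi]
  obtain ⟨σ, s1, s2⟩ := B_final (E := E) (L := fun M B => (0:ℝ) - 1 * V M B) (κ := 0) (κ' := 0)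
    (m := - (2 * V ∅ ∅)) le_rfl le_rfl
    (Harm_lin (f := fun _ _ => (0:ℝ)) (by intro M B x _ _; norm_num) hVh 1)
    (by
      intro M B x y hMB hx hy hxy hxM hxB hyM hyB
      have e : D2 (fun M B => (0:ℝ) - 1 * V M B) M B x y = - D2 V M B x y := by
        unfold D2; ring
      rw [e]
      have := hVD M B x y hxy hxM hxB hyM hyB
      linarith) hne
    (by
      intro x _
      have h1 : V {x} ∅ ≤ 2 * V ∅ ∅ := by
        rw [hV]
        simp only
        rw [Finset.mul_sum]
        exact Finset.sum_le_sum (fun i hi => (hVins ∅ ∅ x (by simp) (by simp) i hi).2)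
      linarith)
    (by
      intro M B x _ _ hxM hxB _
      have h1 : V M B ≤ V (insert x M) B :=
        Finset.sum_le_sum (fun i hi => (hVins M B x hxM hxB i hi).1)
      linarith)
  refine ⟨σ, s1, fun l hnd hE' hall hc => ?_⟩
  have h3 := s2 l hnd hE' hall hc
  have h4 : V (cls 0 l) (cls 1 l) < 1 := by
    rw [hV0] at h3
    linarith
  intro i hi
  by_contra hcon
  push Not at hcon
  have h5 : vs (A i) n k h (cls 0 l) (cls 1 l) ≤ V (cls 0 l) (cls 1 l) :=
    Finset.single_le_sum (f := fun i => vs (A i) n k h (cls 0 l) (cls 1 l))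
      (fun i _ => vs_nonneg (A i) n k h _ _) hi
  have h6 : 1 ≤ vs (A i) n k h (cls 0 l) (cls 1 l) := by
    have e1 : W (A i) (fun _ => h) (cls 0 l) (cls 1 l) =
        W (A i ∪ ∅) (tl (A i) ∅ h) (cls 0 l) (cls 1 l) := by
      unfold W
      rw [Finset.union_empty]
      refine Finset.prod_congr rfl (fun z hz => ?_)
      unfold tl
      rw [if_pos hz, if_neg (Finset.notMem_empty z)]
      congr 1; ring
    have e2 := W_terminal (A := A i) (A' := ∅) (h := h) (disj_cls l) (by
      intro z hz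
      rw [Finset.union_empty] at hz
      have : z ∈ cls 0 l ∪ cls 1 l := by
        rw [cls_union, List.mem_toFinset]
        exact hall z (hE i hi hz)
      rwa [mem_union] at this)
    unfold vs
    rw [e1, e2, ← Real.exp_add, ← Real.exp_zero]
    apply Real.exp_le_exp.2
    rw [hcard i hi]
    simp only [Finset.empty_inter, Finset.card_empty, Nat.cast_zero]
    have c1 : (k : ℝ) ≤ ((A i ∩ cls 0 l).card : ℝ) := by exact_mod_cast hcon
    nlinarith
  linarith

end Games

end Pool.Agent.Helper40.Tilt
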