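import Pool.Agent.Helper40.AlphaMaker

/-!
Breaker's side of the `α`-clique game and the asymptotic choice of the parameters.
-/

set_option autoImplicit false
set_option linter.unusedVariables false

namespace Pool.Agent.Helper40.AM

open Finset Pool.Agent.Helper40.Game Pool.Agent.Helper40.SM Pool.Agent.Helper40.K9
  Pool.Agent.Helper40.CF Pool.Agent.Helper40.Tilt Pool.Agent.Helper40.Hyp
  Pool.Agent.Helper40.BinLow Pool.Agent.Helper40.Asy

/-- Breaker's strategy -/
theorem breaker_q {α : ℝ} (h0 : 1 / 2 < α) (h1 : α < 1) {N q n k : ℕ} (hn : n = q.choose 2)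
    (hk : k = ⌈α * n⌉₊) (hN : 2 ≤ N) (hq : 1 ≤ q)
    (hL : Real.log N + 2 + rate (HH α) / 2 ≤ Real.log q + rate (HH α) * q / 2)
    [Inhabited (Sym2 (Fin N))] :
    ∃ σ : List (Sym2 (Fin N)) → Sym2 (Fin N), Legal (EE N) 1 σ ∧
      ∀ l : List (Sym2 (Fin N)), l.Nodup → (∀ e ∈ l, e ∈ EE N) → (∀ e ∈ EE N, e ∈ l) →
      Cons σ 1 l → ∀ i ∈ fam N q, (edg i ∩ cls 0 l).card < k := by
  set D := rate (HH α) with hD
  have hNpos : (0:ℝ) < N := by
    have : 0 < N := by omega
    exact_mod_cast this
  have hq0 : (0:ℝ) < q := by exact_mod_cast hq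
  have hq1 : (1:ℝ) ≤ q := by exact_mod_cast hq
  refine breaker_alpha (EE N) (fam N q) edg (n := n) (k := k) (h := HH α)
    (fun i _ => edg_subset_EE i) (HH_pos h0 h1).le ?_
    (fun i hi => by rw [card_edg, mem_fam.1 hi, hn]) ?_
  · rw [← Finset.card_pos, card_EE]
    exact Nat.choose_pos hN
  · have hkn : (n : ℝ) * Real.tanh (HH α) ≤ 2 * (k:ℝ) - n := by
      rw [tanh_HH h0 h1]
      have : α * n ≤ k := by rw [hk]; exact Nat.le_ceil _
      linarith
    have e1 : Real.exp (-(HH α * (2 * (k:ℝ) - n))) * Real.cosh (HH α) ^ n ≤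
        Real.exp (-(n * D)) := by
      rw [pow_eq_exp (Real.cosh_pos _), ← Real.exp_add]
      apply Real.exp_le_exp.2
      have := mul_le_mul_of_nonneg_left hkn (HH_pos h0 h1).le
      rw [hD]
      unfold rate
      nlinarith
    have e2 : (N.choose q : ℝ) ≤ Real.exp (q * (Real.log N + 1 - Real.log q)) := by
      have h2 : (N.choose q : ℝ) ≤ (N:ℝ) ^ q / q.factorial := Nat.choose_le_pow_div q N
      have h3 := Real.pow_div_factorial_le_exp (q:ℝ) hq0.le q
      have hf : (0:ℝ) < q.factorial := by exact_mod_cast Nat.factorial_pos q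
      have h4 : (N:ℝ) ^ q / q.factorial = ((q:ℝ) ^ q / q.factorial) * ((N:ℝ) ^ q / (q:ℝ) ^ q) := by
        field_simp
      have h5 : (N:ℝ) ^ q / (q:ℝ) ^ q = Real.exp (q * (Real.log N - Real.log q)) := by
        rw [pow_eq_exp hNpos, pow_eq_exp hq0, ← Real.exp_sub]
        congr 1; ring
      refine h2.trans ?_
      rw [h4, h5]
      calc (q:ℝ) ^ q / q.factorial * Real.exp (q * (Real.log N - Real.log q))
          ≤ Real.exp q * Real.exp (q * (Real.log N - Real.log q)) :=
            mul_le_mul_of_nonneg_right h3 (Real.exp_pos _).le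
        _ = _ := by rw [← Real.exp_add]; congr 1; ring
    rw [card_fam]
    have hpos1 := (Real.exp_pos (-(HH α * (2 * (k:ℝ) - n)))).le
    have hpos2 := (Real.cosh_pos (HH α)).le
    calc 2 * ((N.choose q : ℝ) * (Real.exp (-(HH α * (2 * (k:ℝ) - n))) * Real.cosh (HH α) ^ n))
        ≤ 2 * (Real.exp (q * (Real.log N + 1 - Real.log q)) * Real.exp (-(n * D))) := by
          refine mul_le_mul_of_nonneg_left ?_ (by norm_num)
          exact mul_le_mul e2 e1 (by positivity) (Real.exp_pos _).le
      _ = Real.exp (Real.log 2 + q * (Real.log N + 1 - Real.log q) + -(n * D)) := by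
          rw [Real.exp_add, Real.exp_add, Real.exp_log (by norm_num)]
          ring
      _ < 1 := by
          refine lt_of_lt_of_eq (Real.exp_lt_exp.2 ?_) Real.exp_zero
          have cq : (n : ℝ) = (q:ℝ) * (q - 1) / 2 := by rw [hn]; exact Nat.cast_choose_two ℝ q
          rw [cq]
          have hlog2 : Real.log 2 < 1 := by
            have := Real.log_two_lt_d9
            linarith
          have h6 : (q:ℝ) * (Real.log N + 2 + D / 2) ≤ q * (Real.log q + D * q / 2) :=
            mul_le_mul_of_nonneg_left hL hq0.le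
          nlinarith

/-- all large reals satisfy the conditions -/
lemma eventually_big {D : ℝ} (hD : 0 < D) : ∀ᶠ x : ℝ in Filter.atTop, Big D (Real.log x) x := by
  have hlo1 : ∀ c : ℝ, 0 < c → ∀ᶠ x : ℝ in Filter.atTop, Real.log x ≤ c * x := by
    intro c hc
    have h := (Real.isLittleO_log_id_atTop.def hc)
    filter_upwards [h, Filter.eventually_ge_atTop (1:ℝ)] with x hx hx1
    rw [id, Real.norm_of_nonneg (Real.log_nonneg hx1), Real.norm_of_nonneg (by linarith)] at hx
    exact hx
  have hlo2 : ∀ c : ℝ, 0 < c → ∀ᶠ x : ℝ in Filter.atTop, Real.log x ^ 2 ≤ c * x := by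
    intro c hc
    have h := ((Real.isLittleO_pow_log_id_atTop (n := 2)).def hc)
    filter_upwards [h, Filter.eventually_ge_atTop (1:ℝ)] with x hx hx1
    rw [id, Real.norm_of_nonneg (by positivity), Real.norm_of_nonneg (by linarith)] at hx
    exact hx
  filter_upwards [hlo1 (D / 100) (by positivity), hlo1 (1 / 100) (by norm_num),
    hlo2 (D / 100) (by positivity), Filter.eventually_ge_atTop (1:ℝ),
    Filter.eventually_ge_atTop (4:ℝ), Filter.eventually_ge_atTop (100 / D),
    Filter.eventually_ge_atTop (100:ℝ), Filter.eventually_ge_atTop (100 * D)] with x h1 h2 h3 h4 h5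
      h6 h7 h8
  have hlog2 : Real.log 2 < 1 := by
    have := Real.log_two_lt_d9
    linarith
  rw [div_le_iff₀ hD] at h6
  refine ⟨hD, Real.log_nonneg h4, h5, ?_, ?_, ?_⟩
  · nlinarith
  · nlinarith
  · have h9 : 4 * Real.log x ^ 2 / D ≤ 4 * x / 100 := by
      rw [div_le_iff₀ hD]
      nlinarith
    linarith

/-- the parameter as a function of `L = log N` -/
noncomputable def QL (D L : ℝ) : ℝ := 2 / D * (L - Real.log (2 * L / D) + 1) - 1

lemma eventually_params {D : ℝ} (hD : 0 < D) (x0 : ℝ) : ∀ᶠ L : ℝ in Filter.atTop,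
    0 < L ∧ 1 ≤ Real.log (2 * L / D) ∧ L / D ≤ QL D L ∧ QL D L ≤ 2 * L / D ∧ x0 ≤ QL D L := by
  have h1 : Filter.Tendsto (fun L : ℝ => 2 * L / D) Filter.atTop Filter.atTop := by
    have : (fun L : ℝ => 2 * L / D) = fun L => L * (2 / D) := by ext L; ring
    rw [this]
    exact Filter.tendsto_id.atTop_mul_const (by positivity)
  have h2 : ∀ᶠ L : ℝ in Filter.atTop, Real.log (2 * L / D) ≤ (D / 8) * (2 * L / D) := by
    have h := h1.eventually ((Real.isLittleO_log_id_atTop.def (show (0:ℝ) < D / 8 by positivity)))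
    filter_upwards [h, h1.eventually (Filter.eventually_ge_atTop (1:ℝ))] with L hL hL1
    rw [id, Real.norm_of_nonneg (Real.log_nonneg hL1), Real.norm_of_nonneg (by linarith)] at hL
    exact hL
  filter_upwards [h2, (Real.tendsto_log_atTop.comp h1).eventually (Filter.eventually_ge_atTop (1:ℝ)),
    Filter.eventually_gt_atTop (0:ℝ), Filter.eventually_ge_atTop (2 * D),
    Filter.eventually_ge_atTop (D * x0)] with L a1 a2 a3 a4 a5
  have a2' : 1 ≤ Real.log (2 * L / D) := a2
  have e1 : (D / 8) * (2 * L / D) = L / 4 := by field_simp; ring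
  rw [e1] at a1
  have b1 : L / D ≤ QL D L := by
    unfold QL
    have : 2 / D * (3 * L / 4) ≤ 2 / D * (L - Real.log (2 * L / D) + 1) :=
      mul_le_mul_of_nonneg_left (by linarith) (by positivity)
    have e2 : 2 / D * (3 * L / 4) = L / D + (L / D) / 2 := by ring
    have e3 : 2 ≤ L / D := by rw [le_div_iff₀ hD]; linarith
    linarith
  have b2 : QL D L ≤ 2 * L / D := by
    unfold QL
    have : 2 / D * (L - Real.log (2 * L / D) + 1) ≤ 2 / D * L :=
      mul_le_mul_of_nonneg_left (by linarith) (by positivity)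
    have e2 : 2 / D * L = 2 * L / D := by ring
    linarith
  refine ⟨a3, a2', b1, b2, ?_⟩
  refine le_trans ?_ b1
  rw [le_div_iff₀ hD]
  linarith

end Pool.Agent.Helper40.AM
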