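import Mathlib

/-!
A two point inequality for `log cosh` and its consequence for the pair weights.
-/

set_option autoImplicit false

namespace Pool.Agent.Helper40.Hyp

open Real

lemma nonneg_of_deriv {f f' : ℝ → ℝ} (hf : ∀ x, HasDerivAt f (f' x) x) (h0 : f 0 = 0)
    (h : ∀ x, 0 < x → 0 ≤ f' x) : ∀ x, 0 ≤ x → 0 ≤ f x := by
  intro x hx
  have hmono : MonotoneOn f (Set.Ici 0) := by
    refine monotoneOn_of_deriv_nonneg (convex_Ici 0)
      (fun y _ => (hf y).continuousAt.continuousWithinAt)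
      (fun y _ => (hf y).differentiableAt.differentiableWithinAt) ?_
    intro y hy
    rw [interior_Ici, Set.mem_Ioi] at hy
    rw [(hf y).deriv]
    exact h y hy
  have := hmono (Set.mem_Ici.2 le_rfl) (Set.mem_Ici.2 hx) hx
  rwa [h0] at this

lemma tanh_nonneg {x : ℝ} (hx : 0 ≤ x) : 0 ≤ tanh x := by
  rw [tanh_eq_sinh_div_cosh]
  exact div_nonneg (sinh_nonneg_iff.2 hx) (cosh_pos x).le

/-- `tanh (μ x) ≥ μ tanh x` -/
lemma tanh_mul_ge {μ : ℝ} (h0 : 0 ≤ μ) (h1 : μ ≤ 1) {x : ℝ} (hx : 0 ≤ x) :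
    μ * tanh x ≤ tanh (μ * x) := by
  have key := nonneg_of_deriv (f := fun x => sinh (μ * x) * cosh x - μ * (sinh x * cosh (μ * x)))
    (f' := fun x => (1 - μ ^ 2) * (sinh (μ * x) * sinh x)) (by
      intro x
      have hm : HasDerivAt (fun x : ℝ => μ * x) μ x := by
        simpa using (hasDerivAt_id x).const_mul μ
      have d1 : HasDerivAt (fun x => sinh (μ * x)) (cosh (μ * x) * μ) x := hm.sinh
      have d2 : HasDerivAt (fun x => cosh (μ * x)) (sinh (μ * x) * μ) x := hm.cosh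
      have d3 := (d1.mul (hasDerivAt_cosh x)).sub (((hasDerivAt_sinh x).mul d2).const_mul μ)
      refine d3.congr_deriv ?_
      ring) (by simp) (by
      intro x hx
      have a1 : 0 ≤ sinh (μ * x) := sinh_nonneg_iff.2 (mul_nonneg h0 hx.le)
      have a2 : 0 ≤ sinh x := sinh_nonneg_iff.2 hx.le
      have a3 : 0 ≤ 1 - μ ^ 2 := by nlinarith
      positivity) x hx
  rw [tanh_eq_sinh_div_cosh, tanh_eq_sinh_div_cosh, ← mul_div_assoc,
    div_le_div_iff₀ (cosh_pos _) (cosh_pos _)]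
  linarith

lemma tanh_le_of {μ : ℝ} (h0 : 0 ≤ μ) (h1 : μ ≤ 1) {x : ℝ} (hx : 0 ≤ x) :
    tanh (μ * x) ≤ tanh x := by
  have h : 0 ≤ sinh (x - μ * x) := sinh_nonneg_iff.2 (by nlinarith)
  rw [sinh_sub] at h
  rw [tanh_eq_sinh_div_cosh, tanh_eq_sinh_div_cosh, div_le_div_iff₀ (cosh_pos _) (cosh_pos _)]
  linarith

lemma tanh_add' (u v : ℝ) : tanh (u + v) = (tanh u + tanh v) / (1 + tanh u * tanh v) := by
  have hu := (cosh_pos u).ne'
  have hv := (cosh_pos v).ne'
  have huv := (cosh_pos (u + v)).ne'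
  rw [cosh_add] at huv
  rw [tanh_eq_sinh_div_cosh, tanh_eq_sinh_div_cosh, tanh_eq_sinh_div_cosh, sinh_add, cosh_add]
  have h2 : 1 + sinh u / cosh u * (sinh v / cosh v) ≠ 0 := by
    have : 1 + sinh u / cosh u * (sinh v / cosh v) =
        (cosh u * cosh v + sinh u * sinh v) / (cosh u * cosh v) := by
      field_simp
    rw [this]
    exact div_ne_zero huv (mul_ne_zero hu hv)
  rw [div_eq_div_iff huv h2]
  field_simp

/-- concavity type inequality for `tanh` -/
lemma tanh_conc {μ : ℝ} (h0 : 0 ≤ μ) (h1 : μ ≤ 1) {x : ℝ} (hx : 0 ≤ x) :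
    μ * tanh (2 * x) + (1 - μ) * tanh x ≤ tanh ((1 + μ) * x) := by
  have e1 : (1 + μ) * x = x + μ * x := by ring
  have e2 : 2 * x = x + x := by ring
  rw [e1, e2, tanh_add', tanh_add']
  set a := tanh x with ha
  set b := tanh (μ * x) with hb
  have a0 : 0 ≤ a := tanh_nonneg hx
  have b0 : 0 ≤ b := tanh_nonneg (mul_nonneg h0 hx)
  have ab : b ≤ a := tanh_le_of h0 h1 hx
  have hmu : μ * a ≤ b := tanh_mul_ge h0 h1 hx
  have a1 : a < 1 := tanh_lt_one x
  have s1 : μ * ((a + a) / (1 + a * a)) + (1 - μ) * a = a + μ * a * ((1 - a ^ 2) / (1 + a * a)) := by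
    have : (1 + a * a) ≠ 0 := by nlinarith
    field_simp
    ring
  have s2 : (a + b) / (1 + a * b) = a + b * ((1 - a ^ 2) / (1 + a * b)) := by
    have : (1 + a * b) ≠ 0 := by nlinarith [mul_nonneg a0 b0]
    field_simp
    ring
  rw [s1, s2]
  have s3 : (1 - a ^ 2) / (1 + a * a) ≤ (1 - a ^ 2) / (1 + a * b) := by
    apply div_le_div_of_nonneg_left (by nlinarith) (by nlinarith [mul_nonneg a0 b0])
    nlinarith
  have s4 : 0 ≤ (1 - a ^ 2) / (1 + a * a) := div_nonneg (by nlinarith) (by nlinarith)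
  have s5 := mul_le_mul hmu s3 s4 b0
  linarith

lemma hasDerivAt_logcosh (x : ℝ) : HasDerivAt (fun x => log (cosh x)) (tanh x) x := by
  have h := (hasDerivAt_cosh x).log (cosh_pos x).ne'
  rwa [← tanh_eq_sinh_div_cosh] at h

/-- the two point inequality -/
theorem logcosh_ineq {μ : ℝ} (h0 : 0 ≤ μ) (h1 : μ ≤ 1) {x : ℝ} (hx : 0 ≤ x) :
    μ * log (cosh (2 * x)) + 2 * (1 - μ) * log (cosh x) ≤
      2 / (1 + μ) * log (cosh ((1 + μ) * x)) := by
  have hc : ∀ c x : ℝ, HasDerivAt (fun x => log (cosh (c * x))) (tanh (c * x) * c) x := by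
    intro c x
    have hm : HasDerivAt (fun x : ℝ => c * x) c x := by
      simpa using (hasDerivAt_id x).const_mul c
    exact (hasDerivAt_logcosh (c * x)).comp x hm
  have key := nonneg_of_deriv
    (f := fun x => 2 / (1 + μ) * log (cosh ((1 + μ) * x)) - μ * log (cosh (2 * x)) -
      2 * (1 - μ) * log (cosh x))
    (f' := fun x => 2 / (1 + μ) * (tanh ((1 + μ) * x) * (1 + μ)) - μ * (tanh (2 * x) * 2) -
      2 * (1 - μ) * tanh x)
    (by
      intro x
      exact (((hc (1 + μ) x).const_mul _).sub ((hc 2 x).const_mul _)).sub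
        ((hasDerivAt_logcosh x).const_mul _)) (by simp) (by
      intro x hx
      have h := tanh_conc h0 h1 hx.le
      have e : 2 / (1 + μ) * (tanh ((1 + μ) * x) * (1 + μ)) = 2 * tanh ((1 + μ) * x) := by
        have : (1 + μ) ≠ 0 := by linarith
        field_simp
      rw [e]
      linarith) x hx
  linarith

lemma pow_eq_exp {c : ℝ} (hc : 0 < c) (n : ℕ) : c ^ n = exp (n * log c) := by
  rw [← rpow_natCast, rpow_def_of_pos hc, mul_comm]

/-- the rate -/
noncomputable def rate (H : ℝ) : ℝ := H * tanh H - log (cosh H)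

/-- bound of the initial pair weight -/
theorem w_bound {n m : ℕ} (hn : 0 < n) (hm : m ≤ n) {H k : ℝ} (hH : 0 ≤ H)
    (hk : (n : ℝ) * tanh H ≤ 2 * k - n) :
    exp (-(2 * ((n : ℝ) * H / (n + m)) * (2 * k - n))) *
      (cosh (2 * ((n : ℝ) * H / (n + m))) ^ m * cosh ((n : ℝ) * H / (n + m)) ^ (2 * (n - m))) ≤
      exp (-(2 * (n : ℝ) ^ 2 * rate H / (n + m))) := by
  have hn' : (0:ℝ) < n := by exact_mod_cast hn
  have hm0 : (0:ℝ) ≤ m := Nat.cast_nonneg m
  have hmn : (m:ℝ) ≤ n := by exact_mod_cast hm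
  set x := (n : ℝ) * H / (n + m) with hx
  set μ := (m : ℝ) / n with hμ
  have hnm : (0:ℝ) < n + m := by linarith
  have hx0 : 0 ≤ x := by positivity
  have hμ0 : 0 ≤ μ := by positivity
  have hμ1 : μ ≤ 1 := by rw [hμ, div_le_one hn']; exact hmn
  have hxH : (1 + μ) * x = H := by
    rw [hx, hμ]; field_simp
  have key := logcosh_ineq hμ0 hμ1 hx0
  rw [hxH] at key
  have e1 : cosh (2 * x) ^ m = exp (m * log (cosh (2 * x))) := pow_eq_exp (cosh_pos _) m
  have e2 : cosh x ^ (2 * (n - m)) = exp ((2 * ((n:ℝ) - m)) * log (cosh x)) := by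
    rw [pow_eq_exp (cosh_pos _)]
    have : (2 * ((n:ℝ) - m)) = ((2 * (n - m) : ℕ) : ℝ) := by
      push_cast [Nat.cast_sub hm]; ring
    rw [this]
  rw [e1, e2, ← exp_add, ← exp_add]
  apply exp_le_exp.2
  have k1 : (n:ℝ) * (μ * log (cosh (2 * x)) + 2 * (1 - μ) * log (cosh x)) =
      m * log (cosh (2 * x)) + 2 * ((n:ℝ) - m) * log (cosh x) := by
    rw [hμ]; field_simp
  have k2 := mul_le_mul_of_nonneg_left key hn'.le
  rw [k1] at k2
  have k3 : (n:ℝ) * (2 / (1 + μ) * log (cosh H)) = 2 * (n:ℝ) ^ 2 / (n + m) * log (cosh H) := by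
    rw [hμ]; field_simp
  rw [k3] at k2
  have k4 := mul_le_mul_of_nonneg_left hk (by positivity : 0 ≤ 2 * x)
  have k5 : 2 * x * (n * tanh H) = 2 * (n:ℝ) ^ 2 / (n + m) * (H * tanh H) := by
    rw [hx]; field_simp
  rw [k5] at k4
  have k6 : 2 * (n : ℝ) ^ 2 * rate H / (n + m) =
      2 * (n:ℝ) ^ 2 / (n + m) * (H * tanh H) - 2 * (n:ℝ) ^ 2 / (n + m) * log (cosh H) := by
    unfold rate; ring
  rw [k6]
  linarith

lemma tanh_mono {x y : ℝ} (h : x ≤ y) : tanh x ≤ tanh y := by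
  have h1 : 0 ≤ sinh (y - x) := sinh_nonneg_iff.2 (by linarith)
  rw [sinh_sub] at h1
  rw [tanh_eq_sinh_div_cosh, tanh_eq_sinh_div_cosh, div_le_div_iff₀ (cosh_pos _) (cosh_pos _)]
  linarith

lemma tilt_ge {n m : ℕ} (hn : 0 < n) (hm : m ≤ n) {H : ℝ} (hH : 0 ≤ H) :
    tanh H ≤ tanh (2 * ((n : ℝ) * H / (n + m))) := by
  apply tanh_mono
  have hn' : (0:ℝ) < n := by exact_mod_cast hn
  have hm0 : (0:ℝ) ≤ m := Nat.cast_nonneg m
  have hmn : (m:ℝ) ≤ n := by exact_mod_cast hm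
  rw [← mul_div_assoc, le_div_iff₀ (by linarith)]
  nlinarith

/-- the tilt belonging to `α` -/
noncomputable def HH (α : ℝ) : ℝ := artanh (2 * α - 1)

lemma HH_pos {α : ℝ} (h1 : 1 / 2 < α) (h2 : α < 1) : 0 < HH α :=
  artanh_pos ⟨by linarith, by linarith⟩

lemma tanh_HH {α : ℝ} (h1 : 1 / 2 < α) (h2 : α < 1) : tanh (HH α) = 2 * α - 1 :=
  tanh_artanh ⟨by linarith, by linarith⟩

lemma rate_HH {α : ℝ} (h1 : 1 / 2 < α) (h2 : α < 1) :
    rate (HH α) = log 2 + α * log α + (1 - α) * log (1 - α) := by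
  have hmem : 2 * α - 1 ∈ Set.Ioo (-1 : ℝ) 1 := ⟨by linarith, by linarith⟩
  have hα : 0 < α := by linarith
  have hβ : 0 < 1 - α := by linarith
  unfold rate
  rw [tanh_HH h1 h2]
  have e1 : HH α = 1 / 2 * (log α - log (1 - α)) := by
    unfold HH
    rw [artanh_eq_half_log ⟨by linarith, by linarith⟩]
    have : (1 + (2 * α - 1)) / (1 - (2 * α - 1)) = α / (1 - α) := by
      rw [div_eq_div_iff (by linarith) (by linarith)]; ring
    rw [this, log_div hα.ne' hβ.ne']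
  have e2 : log (cosh (HH α)) = -(1 / 2) * (2 * log 2 + log α + log (1 - α)) := by
    unfold HH
    rw [cosh_artanh hmem]
    have h4 : 1 - (2 * α - 1) ^ 2 = 2 ^ 2 * α * (1 - α) := by ring
    rw [h4, one_div, log_inv, log_sqrt (by positivity), log_mul (by positivity) hβ.ne',
      log_mul (by positivity) hα.ne', log_pow]
    push_cast
    ring
  rw [e2, e1]
  ring

lemma rate_pos {α : ℝ} (h1 : 1 / 2 < α) (h2 : α < 1) : 0 < rate (HH α) := by
  rw [rate_HH h1 h2]
  have hα : 0 < α := by linarith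
  have hβ : 0 < 1 - α := by linarith
  have a1 : log (1 / (2 * α)) < 1 / (2 * α) - 1 := by
    apply log_lt_sub_one_of_pos (by positivity)
    intro h
    rw [div_eq_one_iff_eq (by positivity)] at h
    linarith
  have a2 : log (1 / (2 * (1 - α))) ≤ 1 / (2 * (1 - α)) - 1 :=
    log_le_sub_one_of_pos (by positivity)
  rw [log_div one_ne_zero (by positivity), log_one, log_mul (by norm_num) hα.ne'] at a1
  rw [log_div one_ne_zero (by positivity), log_one, log_mul (by norm_num) hβ.ne'] at a2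
  have b1 := mul_lt_mul_of_pos_left a1 hα
  have b2 := mul_le_mul_of_nonneg_left a2 hβ.le
  have c1 : α * (1 / (2 * α) - 1) = 1 / 2 - α := by field_simp
  have c2 : (1 - α) * (1 / (2 * (1 - α)) - 1) = 1 / 2 - (1 - α) := by field_simp
  rw [c1] at b1
  rw [c2] at b2
  nlinarith

end Pool.Agent.Helper40.Hyp
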