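import Pool.Agent.Helper40.Tilt
import Pool.Agent.Helper40.Hyp

/-!
Lower bound of a single binomial probability near the mean and of the fair tail.
-/

set_option autoImplicit false

namespace Pool.Agent.Helper40.BinLow

open Finset

/-- binomial probability -/
noncomputable def b (n : ℕ) (α : ℝ) (j : ℕ) : ℝ := (n.choose j : ℝ) * (α ^ j * (1 - α) ^ (n - j))

lemma b_nonneg {n : ℕ} {α : ℝ} (h0 : 0 < α) (h1 : α < 1) (j : ℕ) : 0 ≤ b n α j := by
  unfold b
  have : 0 < 1 - α := by linarith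
  positivity

lemma b_sum (n : ℕ) (α : ℝ) : ∑ j ∈ range (n + 1), b n α j = 1 := by
  have h := add_pow α (1 - α) n
  rw [show α + (1 - α) = 1 by ring, one_pow] at h
  rw [h]
  refine Finset.sum_congr rfl (fun j _ => ?_)
  unfold b
  ring

lemma b_succ {n : ℕ} {α : ℝ} {j : ℕ} (hj : j < n) :
    b n α (j + 1) * (((j : ℝ) + 1) * (1 - α)) = b n α j * (((n : ℝ) - j) * α) := by
  have h := Nat.choose_succ_right_eq n j
  have h' : (n.choose (j + 1) : ℝ) * ((j : ℝ) + 1) = (n.choose j : ℝ) * ((n : ℝ) - j) := by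
    have h2 : ((n.choose (j + 1) * (j + 1) : ℕ) : ℝ) = ((n.choose j * (n - j) : ℕ) : ℝ) := by
      rw [h]
    push_cast [Nat.cast_sub hj.le] at h2
    exact h2
  obtain ⟨t, ht⟩ : ∃ t, n - j = t + 1 := ⟨n - j - 1, by omega⟩
  have ht2 : n - (j + 1) = t := by omega
  unfold b
  rw [ht, ht2, pow_succ, pow_succ]
  calc (n.choose (j + 1) : ℝ) * (α ^ j * α * (1 - α) ^ t) * (((j : ℝ) + 1) * (1 - α))
      = ((n.choose (j + 1) : ℝ) * ((j : ℝ) + 1)) * (α ^ j * α * (1 - α) ^ t * (1 - α)) := by ring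
    _ = ((n.choose j : ℝ) * ((n : ℝ) - j)) * (α ^ j * α * (1 - α) ^ t * (1 - α)) := by rw [h']
    _ = _ := by ring

lemma b_down {n : ℕ} {α : ℝ} (h0 : 0 < α) (h1 : α < 1) {j : ℕ} (hj : j < n)
    (hjα : α * n ≤ j) : b n α (j + 1) ≤ b n α j := by
  have h := b_succ (α := α) hj
  have hb := b_nonneg (n := n) h0 h1 j
  have hb' := b_nonneg (n := n) h0 h1 (j + 1)
  have hβ : 0 < 1 - α := by linarith
  have hjr : (0:ℝ) ≤ j := Nat.cast_nonneg j
  have e1 : ((n : ℝ) - j) * α ≤ ((j : ℝ) + 1) * (1 - α) := by nlinarith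
  have e2 : b n α (j + 1) * (((j : ℝ) + 1) * (1 - α)) ≤ b n α j * (((j : ℝ) + 1) * (1 - α)) := by
    rw [h]; exact mul_le_mul_of_nonneg_left e1 hb
  exact le_of_mul_le_mul_right e2 (by positivity)

lemma b_up {n : ℕ} {α : ℝ} (h0 : 0 < α) (h1 : α < 1) {j : ℕ} (hj : j < n)
    (hjα : (j : ℝ) + 1 ≤ α * n) : b n α j ≤ b n α (j + 1) := by
  have h := b_succ (α := α) hj
  have hb := b_nonneg (n := n) h0 h1 j
  have hb' := b_nonneg (n := n) h0 h1 (j + 1)
  have hβ : 0 < 1 - α := by linarith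
  have hjn : (j:ℝ) < n := by exact_mod_cast hj
  have e1 : ((j : ℝ) + 1) * (1 - α) ≤ ((n : ℝ) - j) * α := by nlinarith
  have e2 : b n α j * (((n : ℝ) - j) * α) ≤ b n α (j + 1) * (((n : ℝ) - j) * α) := by
    rw [← h]; exact mul_le_mul_of_nonneg_left e1 hb'
  exact le_of_mul_le_mul_right e2 (by
    have : 0 < (n:ℝ) - j := by linarith
    positivity)

lemma b_le {n k : ℕ} {α : ℝ} (h0 : 0 < α) (h1 : α < 1) (hk : k = ⌈α * n⌉₊) (hn : 1 ≤ α * n)
    {j : ℕ} (hj : j ≤ n) : b n α j ≤ 2 * b n α k := by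
  have hk1 : α * n ≤ k := by rw [hk]; exact Nat.le_ceil _
  have hk2 : (k : ℝ) < α * n + 1 := by rw [hk]; exact Nat.ceil_lt_add_one (by linarith)
  have hkn : k ≤ n := by
    rw [hk, Nat.ceil_le]
    have : (0:ℝ) ≤ n := Nat.cast_nonneg n
    nlinarith
  have hkpos : 0 < k := by
    have : (0:ℝ) < k := by linarith
    exact_mod_cast this
  have hb := b_nonneg (n := n) h0 h1 k
  rcases le_or_gt k j with hkj | hjk
  · -- above the mean
    have key : ∀ i, k + i ≤ n → b n α (k + i) ≤ b n α k := by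
      intro i
      induction i with
      | zero => intro _; simp
      | succ i ih =>
          intro hi
          have h := b_down (α := α) h0 h1 (j := k + i) (n := n) (by omega) (by
            push_cast
            have : (0:ℝ) ≤ i := Nat.cast_nonneg i
            linarith)
          exact h.trans (ih (by omega))
    obtain ⟨i, rfl⟩ := Nat.exists_eq_add_of_le hkj
    have := key i hj
    linarith
  · -- below the mean
    obtain ⟨k', rfl⟩ : ∃ k', k = k' + 1 := ⟨k - 1, by omega⟩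
    have hk'n : k' < n := by omega
    have hk2' : (k' : ℝ) < α * n := by push_cast at hk2; linarith
    have key : ∀ i, i ≤ k' → b n α (k' - i) ≤ b n α k' := by
      intro i
      induction i with
      | zero => intro _; simp
      | succ i ih =>
          intro hi
          have e : k' - i = (k' - (i + 1)) + 1 := by omega
          have h := b_up (α := α) h0 h1 (j := k' - (i + 1)) (n := n) (by omega) (by
            have : ((k' - (i + 1) : ℕ) : ℝ) + 1 ≤ k' := by
              have h3 : (k' - (i + 1)) + 1 ≤ k' := by omega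
              exact_mod_cast h3
            linarith)
          rw [← e] at h
          exact h.trans (ih (by omega))
    have h3 : b n α j ≤ b n α k' := by
      have h4 := key (k' - j) (by omega)
      rwa [show k' - (k' - j) = j by omega] at h4
    have h5 := b_succ (α := α) hk'n
    have hb' := b_nonneg (n := n) h0 h1 k'
    have hβ : 0 < 1 - α := by linarith
    have e1 : ((k' : ℝ) + 1) * (1 - α) ≤ 2 * (((n : ℝ) - k') * α) := by
      have hk3 : (k' : ℝ) + 1 ≤ 2 * (α * n) := by linarith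
      have hn0 : (0:ℝ) ≤ n := Nat.cast_nonneg n
      nlinarith
    have hpos : 0 < ((n : ℝ) - k') * α := by
      have : (k':ℝ) < n := by exact_mod_cast hk'n
      exact mul_pos (by linarith) h0
    have e2 : b n α k' * (((n : ℝ) - k') * α) ≤ (2 * b n α (k' + 1)) * (((n : ℝ) - k') * α) := by
      rw [← h5]
      calc b n α (k' + 1) * (((k' : ℝ) + 1) * (1 - α))
          ≤ b n α (k' + 1) * (2 * (((n : ℝ) - k') * α)) := mul_le_mul_of_nonneg_left e1 hb
        _ = _ := by ring
    have e3 := le_of_mul_le_mul_right e2 hpos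
    exact h3.trans e3

lemma b_lower {n k : ℕ} {α : ℝ} (h0 : 0 < α) (h1 : α < 1) (hk : k = ⌈α * n⌉₊)
    (hn : 1 ≤ α * n) : 1 / (2 * ((n : ℝ) + 1)) ≤ b n α k := by
  have h := b_sum n α
  have h2 : ∑ j ∈ range (n + 1), b n α j ≤ ∑ j ∈ range (n + 1), 2 * b n α k :=
    Finset.sum_le_sum (fun j hj => b_le h0 h1 hk hn (by rw [mem_range] at hj; omega))
  rw [h, Finset.sum_const, card_range, nsmul_eq_mul] at h2
  push_cast at h2
  rw [div_le_iff₀ (by positivity)]
  linarith

open Pool.Agent.Helper40.Hyp Pool.Agent.Helper40.Tilt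

/-- lower bound of the fair tail -/
theorem G_lower {n k : ℕ} {α : ℝ} (h0 : 1 / 2 < α) (h1 : α < 1) (hk : k = ⌈α * n⌉₊)
    (hn : 1 ≤ α * n) :
    (1 - α) / (2 * α * ((n : ℝ) + 1)) * Real.exp (-(n * rate (HH α))) ≤ G n k := by
  have hα : 0 < α := by linarith
  have hβ : 0 < 1 - α := by linarith
  have hk1 : α * n ≤ k := by rw [hk]; exact Nat.le_ceil _
  have hk2 : (k : ℝ) ≤ α * n + 1 := by rw [hk]; exact (Nat.ceil_lt_add_one (by linarith)).le
  have hkn : k ≤ n := by
    rw [hk, Nat.ceil_le]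
    have : (0:ℝ) ≤ n := Nat.cast_nonneg n
    nlinarith
  refine le_trans ?_ (choose_le_G n k)
  have hb := b_lower hα h1 hk hn
  have e1 : (n.choose k : ℝ) / 2 ^ n = b n α k / ((2 * α) ^ k * (2 * (1 - α)) ^ (n - k)) := by
    unfold b
    rw [mul_pow, mul_pow]
    have e2 : (2:ℝ) ^ n = 2 ^ k * 2 ^ (n - k) := by rw [← pow_add]; congr 1; omega
    rw [e2]
    have p1 : α ^ k ≠ 0 := by positivity
    have p2 : (1 - α) ^ (n - k) ≠ 0 := by positivity
    field_simp
  rw [e1]
  have e3 : (2 * α) ^ k * (2 * (1 - α)) ^ (n - k) ≤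
      Real.exp (n * rate (HH α)) * (α / (1 - α)) := by
    rw [pow_eq_exp (by positivity : 0 < 2 * α), pow_eq_exp (by positivity : 0 < 2 * (1 - α)),
      ← Real.exp_add]
    have e4 : α / (1 - α) = Real.exp (Real.log α - Real.log (1 - α)) := by
      rw [Real.exp_sub, Real.exp_log hα, Real.exp_log hβ]
    rw [e4, ← Real.exp_add]
    apply Real.exp_le_exp.2
    rw [rate_HH h0 h1, Real.log_mul (by norm_num) hα.ne', Real.log_mul (by norm_num) hβ.ne']
    push_cast [Nat.cast_sub hkn]
    have hlog : 0 ≤ Real.log α - Real.log (1 - α) := by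
      have := Real.log_le_log hβ (by linarith : 1 - α ≤ α)
      linarith
    have h3 : ((k:ℝ) - α * n) * (Real.log α - Real.log (1 - α)) ≤
        1 * (Real.log α - Real.log (1 - α)) := mul_le_mul_of_nonneg_right (by linarith) hlog
    nlinarith
  have hpos : 0 < (2 * α) ^ k * (2 * (1 - α)) ^ (n - k) := by positivity
  rw [le_div_iff₀ hpos]
  calc (1 - α) / (2 * α * ((n : ℝ) + 1)) * Real.exp (-(n * rate (HH α))) *
        ((2 * α) ^ k * (2 * (1 - α)) ^ (n - k))
      ≤ (1 - α) / (2 * α * ((n : ℝ) + 1)) * Real.exp (-(n * rate (HH α))) *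
        (Real.exp (n * rate (HH α)) * (α / (1 - α))) := by
        refine mul_le_mul_of_nonneg_left e3 (by positivity)
    _ = 1 / (2 * ((n : ℝ) + 1)) * (Real.exp (-(n * rate (HH α))) * Real.exp (n * rate (HH α))) := by
        field_simp
    _ = 1 / (2 * ((n : ℝ) + 1)) := by rw [← Real.exp_add]; simp
    _ ≤ b n α k := hb

end Pool.Agent.Helper40.BinLow
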