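import Pool.Agent.Helper40.SecMom2
import Pool.Agent.Helper40.Clique

/-!
The family of complete subgraphs: intersections and counting.
-/

set_option autoImplicit false
set_option linter.unusedSectionVars false
set_option linter.unusedVariables false

namespace Pool.Agent.Helper40.CF

open Finset Pool.Agent.Helper40.Game Pool.Agent.Helper40.SM Pool.Agent.Helper40.K9

variable {N : ℕ}

/-- edges inside a vertex set -/
def edg (S : Finset (Fin N)) : Finset (Sym2 (Fin N)) := S.offDiag.image Sym2.mk.uncurry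

lemma mem_edg {S : Finset (Fin N)} {a b : Fin N} : s(a, b) ∈ edg S ↔ a ∈ S ∧ b ∈ S ∧ a ≠ b := by
  unfold edg
  simp only [Finset.mem_image, Finset.mem_offDiag, Prod.exists, Function.uncurry_apply_pair]
  constructor
  · rintro ⟨c, d, ⟨hc, hd, hcd⟩, h⟩
    rw [Sym2.eq_iff] at h
    rcases h with ⟨rfl, rfl⟩ | ⟨rfl, rfl⟩
    · exact ⟨hc, hd, hcd⟩
    · exact ⟨hd, hc, hcd.symm⟩
  · rintro ⟨ha, hb, hab⟩
    exact ⟨a, b, ⟨ha, hb, hab⟩, rfl⟩

lemma card_edg (S : Finset (Fin N)) : (edg S).card = S.card.choose 2 :=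
  Sym2.card_image_offDiag S

lemma edg_inter (S S' : Finset (Fin N)) : edg S ∩ edg S' = edg (S ∩ S') := by
  ext e
  induction e with
  | h a b =>
      rw [mem_inter, mem_edg, mem_edg, mem_edg, mem_inter, mem_inter]
      tauto

lemma edg_subset_EE (S : Finset (Fin N)) : edg S ⊆ EE N := by
  intro e he
  induction e with
  | h a b =>
      rw [mem_edg] at he
      rw [mem_EE, Sym2.mk_isDiag_iff]
      exact he.2.2

lemma EE_eq : EE N = edg (univ : Finset (Fin N)) := by
  ext e
  induction e with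
  | h a b => rw [mem_edg, mem_EE, Sym2.mk_isDiag_iff]; simp

lemma card_EE : (EE N).card = N.choose 2 := by
  rw [EE_eq, card_edg, card_univ, Fintype.card_fin]

lemma card_union (S S' : Finset (Fin N)) :
    (edg S ∪ edg S').card + ((S ∩ S').card).choose 2 = S.card.choose 2 + S'.card.choose 2 := by
  rw [← card_edg (S ∩ S'), ← edg_inter, ← card_edg S, ← card_edg S']
  exact Finset.card_union_add_card_inter _ _

/-- vertex sets of size `q` -/
def fam (N q : ℕ) : Finset (Finset (Fin N)) := powersetCard q univ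

lemma mem_fam {q : ℕ} {S : Finset (Fin N)} : S ∈ fam N q ↔ S.card = q := by
  simp [fam, mem_powersetCard]

lemma card_fam (q : ℕ) : (fam N q).card = N.choose q := by
  simp [fam, card_powersetCard]

lemma count_fiber {q : ℕ} {S : Finset (Fin N)} (hS : S.card = q) (R : Finset (Fin N)) :
    ((fam N q).filter (fun S' => S ∩ S' = R)).card ≤ (N - q).choose (q - R.card) := by
  have h1 : ((univ : Finset (Fin N)) \ S).card = N - q := by
    rw [card_sdiff_of_subset (subset_univ S), card_univ, Fintype.card_fin, hS]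
  have h2 : (powersetCard (q - R.card) ((univ : Finset (Fin N)) \ S)).card =
      (N - q).choose (q - R.card) := by
    rw [card_powersetCard, h1]
  rw [← h2]
  refine Finset.card_le_card_of_injOn (fun S' => S' \ S) ?_ ?_
  · intro S' hS'
    rw [Finset.mem_coe, mem_filter, mem_fam] at hS'
    rw [Finset.mem_coe, mem_powersetCard]
    refine ⟨Finset.sdiff_subset_sdiff (subset_univ _) (Finset.Subset.refl _), ?_⟩
    have h3 := Finset.card_sdiff_add_card_inter S' S
    rw [Finset.inter_comm S' S, hS'.2, hS'.1] at h3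
    show (S' \ S).card = q - R.card
    omega
  · intro S1 h1 S2 h2 h
    rw [Finset.mem_coe, mem_filter] at h1 h2
    simp only at h
    have e1 : S1 = (S1 \ S) ∪ (S ∩ S1) := by
      rw [Finset.inter_comm]; exact (Finset.sdiff_union_inter S1 S).symm
    have e2 : S2 = (S2 \ S) ∪ (S ∩ S2) := by
      rw [Finset.inter_comm]; exact (Finset.sdiff_union_inter S2 S).symm
    rw [e1, e2, h, h1.2, h2.2]

lemma count_one {q : ℕ} {S : Finset (Fin N)} (hS : S.card = q) (g : ℕ → ℝ) (hg : ∀ s, 0 ≤ g s) :
    ∑ S' ∈ fam N q, g (S ∩ S').card ≤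
      ∑ s ∈ range (q + 1), (q.choose s : ℝ) * ((N - q).choose (q - s) : ℝ) * g s := by
  have h1 : ∑ S' ∈ fam N q, g (S ∩ S').card =
      ∑ R ∈ S.powerset, ∑ S' ∈ (fam N q).filter (fun S' => S ∩ S' = R), g (S ∩ S').card := by
    rw [Finset.sum_fiberwise_of_maps_to]
    intro S' _
    rw [mem_powerset]
    exact inter_subset_left
  rw [h1]
  have h2 : ∀ R ∈ S.powerset,
      ∑ S' ∈ (fam N q).filter (fun S' => S ∩ S' = R), g (S ∩ S').card ≤
        ((N - q).choose (q - R.card) : ℝ) * g R.card := by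
    intro R _
    calc ∑ S' ∈ (fam N q).filter (fun S' => S ∩ S' = R), g (S ∩ S').card
        = ∑ S' ∈ (fam N q).filter (fun S' => S ∩ S' = R), g R.card := by
          refine Finset.sum_congr rfl (fun S' hS' => ?_)
          rw [mem_filter] at hS'
          rw [hS'.2]
      _ = (((fam N q).filter (fun S' => S ∩ S' = R)).card : ℝ) * g R.card := by
          rw [Finset.sum_const, nsmul_eq_mul]
      _ ≤ _ := by
          refine mul_le_mul_of_nonneg_right ?_ (hg _)
          exact_mod_cast count_fiber hS R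
  refine (Finset.sum_le_sum h2).trans ?_
  have h3 := Finset.sum_powerset_apply_card (fun s => ((N - q).choose (q - s) : ℝ) * g s) (x := S)
  rw [h3, hS]
  refine le_of_eq (Finset.sum_congr rfl (fun s _ => ?_))
  rw [nsmul_eq_mul]
  ring

/-- summation over pairs of cliques -/
lemma count_pairs (q : ℕ) (g : ℕ → ℝ) (hg : ∀ s, 0 ≤ g s) :
    ∑ p ∈ fam N q ×ˢ fam N q, g (p.1 ∩ p.2).card ≤
      (N.choose q : ℝ) *
        ∑ s ∈ range (q + 1), (q.choose s : ℝ) * ((N - q).choose (q - s) : ℝ) * g s := by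
  rw [Finset.sum_product]
  calc ∑ S ∈ fam N q, ∑ S' ∈ fam N q, g (S ∩ S').card
      ≤ ∑ S ∈ fam N q,
          ∑ s ∈ range (q + 1), (q.choose s : ℝ) * ((N - q).choose (q - s) : ℝ) * g s :=
        Finset.sum_le_sum (fun S hS => count_one (mem_fam.1 hS) g hg)
    _ = _ := by rw [Finset.sum_const, card_fam, nsmul_eq_mul]

lemma T0_clique (q : ℕ) : T0 (fam N q) edg = (N.choose q : ℝ) / 2 ^ (q.choose 2) := by
  unfold T0
  rw [Finset.sum_congr rfl (fun S hS => by rw [card_edg, mem_fam.1 hS])]
  rw [Finset.sum_const, card_fam, nsmul_eq_mul, one_div, inv_pow]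
  rfl

/-- weight as a function of the size of the intersection -/
noncomputable def gr (q r s : ℕ) : ℝ :=
  if r ≤ s.choose 2 then (2:ℝ) ^ (s.choose 2) / 2 ^ (2 * q.choose 2) else 0

lemma gr_nonneg (q r s : ℕ) : 0 ≤ gr q r s := by
  unfold gr; split_ifs <;> positivity

/-- bound of the pair sum -/
lemma U0_clique (q r : ℕ) : U0 (fam N q) edg r ≤ (N.choose q : ℝ) / 2 ^ (q.choose 2) *
    ((∑ s ∈ (range (q + 1)).filter (fun s => r ≤ s.choose 2),
      (q.choose s : ℝ) * ((N - q).choose (q - s) : ℝ) * 2 ^ (s.choose 2)) / 2 ^ (q.choose 2)) := by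
  have h1 : U0 (fam N q) edg r ≤ ∑ p ∈ fam N q ×ˢ fam N q, gr q r (p.1 ∩ p.2).card := by
    unfold U0 prs
    rw [Finset.sum_filter]
    refine Finset.sum_le_sum (fun p hp => ?_)
    rw [mem_product, mem_fam, mem_fam] at hp
    rw [edg_inter, card_edg]
    unfold gr
    split_ifs with h
    · have e := card_union p.1 p.2
      rw [hp.1, hp.2] at e
      rw [le_div_iff₀ (by positivity), one_div, inv_pow, inv_mul_le_iff₀ (by positivity), ← pow_add]
      refine le_of_eq ?_
      congr 1
      omega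
    · exact le_rfl
  refine h1.trans ((count_pairs q (gr q r) (gr_nonneg q r)).trans ?_)
  refine le_of_eq ?_
  rw [Finset.sum_filter, div_mul_eq_mul_div, mul_div_assoc]
  congr 1
  rw [Finset.sum_div, Finset.sum_div]
  refine Finset.sum_congr rfl (fun s _ => ?_)
  unfold gr
  split_ifs
  · rw [two_mul, pow_add]
    field_simp
  · simp

end Pool.Agent.Helper40.CF
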