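import Mathlib

/-!
Beck's weak win criterion in the list model: strategies are functions of the history, a point belongs
to the first player when its first occurrence in the history has even index.
-/

set_option autoImplicit false
set_option linter.unusedSectionVars false
set_option linter.unusedVariables false

namespace Pool.Agent.Helper40.Beck

open Finset

section Model

variable {P : Type} [DecidableEq P]

/-- one step of the play -/
def step (σ τ : List P → P) (h : List P) : List P :=
  h ++ [if Even h.length then σ h else τ h]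

/-- the history after `k` moves -/
def play (σ τ : List P → P) (k : ℕ) : List P := (step σ τ)^[k] []

/-- points owned by the first player -/
def mk (h : List P) : Finset P := h.toFinset.filter (fun p => Even (h.idxOf p))

/-- points owned by the second player -/
def bk (h : List P) : Finset P := h.toFinset.filter (fun p => ¬ Even (h.idxOf p))

lemma mk_union_bk (h : List P) : mk h ∪ bk h = h.toFinset := by
  unfold mk bk
  exact Finset.filter_union_filter_not_eq _ _

lemma disj_mk_bk (h : List P) : Disjoint (mk h) (bk h) := by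
  unfold mk bk
  exact Finset.disjoint_filter_filter_not _ _ _

lemma mem_mk {h : List P} {p : P} : p ∈ mk h ↔ p ∈ h ∧ Even (h.idxOf p) := by
  simp [mk]

lemma mem_bk {h : List P} {p : P} : p ∈ bk h ↔ p ∈ h ∧ ¬ Even (h.idxOf p) := by
  simp [bk]

lemma mk_append_mem {h : List P} {x : P} (hx : x ∈ h) : mk (h ++ [x]) = mk h := by
  ext p
  simp only [mem_mk, List.mem_append, List.mem_singleton]
  constructor
  · rintro ⟨hp, he⟩
    have hp' : p ∈ h := by
      rcases hp with hp | hp
      · exact hp
      · exact hp ▸ hx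
    exact ⟨hp', by rwa [List.idxOf_append_of_mem hp'] at he⟩
  · rintro ⟨hp, he⟩
    exact ⟨Or.inl hp, by rwa [List.idxOf_append_of_mem hp]⟩

lemma bk_append_mem {h : List P} {x : P} (hx : x ∈ h) : bk (h ++ [x]) = bk h := by
  ext p
  simp only [mem_bk, List.mem_append, List.mem_singleton]
  constructor
  · rintro ⟨hp, he⟩
    have hp' : p ∈ h := by
      rcases hp with hp | hp
      · exact hp
      · exact hp ▸ hx
    exact ⟨hp', by rwa [List.idxOf_append_of_mem hp'] at he⟩
  · rintro ⟨hp, he⟩
    exact ⟨Or.inl hp, by rwa [List.idxOf_append_of_mem hp]⟩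

lemma idxOf_new {h : List P} {x : P} (hx : x ∉ h) : (h ++ [x]).idxOf x = h.length := by
  rw [List.idxOf_append_of_notMem hx]
  simp

lemma mk_append_even {h : List P} {x : P} (hx : x ∉ h) (he : Even h.length) :
    mk (h ++ [x]) = insert x (mk h) := by
  ext p
  simp only [mem_mk, List.mem_append, List.mem_singleton, Finset.mem_insert]
  by_cases hpx : p = x
  · subst hpx
    simp [idxOf_new hx, he]
  · constructor
    · rintro ⟨hp | hp, h2⟩
      · rw [List.idxOf_append_of_mem hp] at h2
        exact Or.inr ⟨hp, h2⟩
      · exact absurd hp hpx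
    · rintro (hp | ⟨hp, h2⟩)
      · exact absurd hp hpx
      · refine ⟨Or.inl hp, ?_⟩
        rwa [List.idxOf_append_of_mem hp]

lemma mk_append_odd {h : List P} {x : P} (hx : x ∉ h) (he : ¬ Even h.length) :
    mk (h ++ [x]) = mk h := by
  ext p
  simp only [mem_mk, List.mem_append, List.mem_singleton]
  by_cases hpx : p = x
  · subst hpx
    simp [idxOf_new hx, he, hx]
  · constructor
    · rintro ⟨hp | hp, h2⟩
      · rw [List.idxOf_append_of_mem hp] at h2
        exact ⟨hp, h2⟩
      · exact absurd hp hpx
    · rintro ⟨hp, h2⟩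
      refine ⟨Or.inl hp, ?_⟩
      rwa [List.idxOf_append_of_mem hp]

lemma bk_append_even {h : List P} {x : P} (hx : x ∉ h) (he : Even h.length) :
    bk (h ++ [x]) = bk h := by
  ext p
  simp only [mem_bk, List.mem_append, List.mem_singleton]
  by_cases hpx : p = x
  · subst hpx
    simp [idxOf_new hx, he, hx]
  · constructor
    · rintro ⟨hp | hp, h2⟩
      · rw [List.idxOf_append_of_mem hp] at h2
        exact ⟨hp, h2⟩
      · exact absurd hp hpx
    · rintro ⟨hp, h2⟩
      refine ⟨Or.inl hp, ?_⟩
      rwa [List.idxOf_append_of_mem hp]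

lemma bk_append_odd {h : List P} {x : P} (hx : x ∉ h) (he : ¬ Even h.length) :
    bk (h ++ [x]) = insert x (bk h) := by
  ext p
  simp only [mem_bk, List.mem_append, List.mem_singleton, Finset.mem_insert]
  by_cases hpx : p = x
  · subst hpx
    simp [idxOf_new hx, he]
  · constructor
    · rintro ⟨hp | hp, h2⟩
      · rw [List.idxOf_append_of_mem hp] at h2
        exact Or.inr ⟨hp, h2⟩
      · exact absurd hp hpx
    · rintro (hp | ⟨hp, h2⟩)
      · exact absurd hp hpx
      · refine ⟨Or.inl hp, ?_⟩
        rwa [List.idxOf_append_of_mem hp]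

lemma play_succ (σ τ : List P → P) (k : ℕ) : play σ τ (k + 1) = step σ τ (play σ τ k) := by
  unfold play
  rw [Function.iterate_succ_apply']

lemma play_length (σ τ : List P → P) (k : ℕ) : (play σ τ k).length = k := by
  induction k with
  | zero => simp [play]
  | succ k ih => rw [play_succ]; simp [step, ih]

end Model

section Potential

variable {P : Type} [DecidableEq P] {K : Type} [DecidableEq K]
variable (F : Finset K) (A : K → Finset P)

/-- the potential of a position -/
noncomputable def pot (M B : Finset P) : ℝ :=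
  ∑ a ∈ F, if Disjoint (A a) B then (1/2 : ℝ) ^ (A a \ M).card else 0

/-- the weight of a point -/
noncomputable def wt (M B : Finset P) (x : P) : ℝ :=
  ∑ a ∈ F, if Disjoint (A a) B ∧ x ∈ A a then (1/2 : ℝ) ^ (A a \ M).card else 0

/-- the weight of a pair of points -/
noncomputable def wt2 (M B : Finset P) (x y : P) : ℝ :=
  ∑ a ∈ F, if Disjoint (A a) B ∧ x ∈ A a ∧ y ∈ A a then (1/2 : ℝ) ^ (A a \ M).card else 0

lemma card_sdiff_insert {S M : Finset P} {x : P} (hxS : x ∈ S) (hxM : x ∉ M) :
    (S \ M).card = (S \ insert x M).card + 1 := by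
  have h : S \ M = insert x (S \ insert x M) := by
    ext p
    simp only [mem_sdiff, mem_insert]
    constructor
    · rintro ⟨h1, h2⟩
      by_cases hp : p = x
      · exact Or.inl hp
      · exact Or.inr ⟨h1, by tauto⟩
    · rintro (h | ⟨h1, h2⟩)
      · subst h; exact ⟨hxS, hxM⟩
      · exact ⟨h1, by tauto⟩
  rw [h, card_insert_of_notMem]
  simp

lemma sdiff_insert_of_notMem' {S M : Finset P} {x : P} (hxS : x ∉ S) :
    S \ insert x M = S \ M := by
  ext p
  simp only [mem_sdiff, mem_insert]
  constructor
  · rintro ⟨h1, h2⟩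
    exact ⟨h1, by tauto⟩
  · rintro ⟨h1, h2⟩
    refine ⟨h1, ?_⟩
    rintro (h | h)
    · subst h; exact hxS h1
    · exact h2 h

/-- claiming `x` by Maker -/
lemma pot_maker {M B : Finset P} {x : P} (hxM : x ∉ M) :
    pot F A (insert x M) B = pot F A M B + wt F A M B x := by
  unfold pot wt
  rw [← Finset.sum_add_distrib]
  refine Finset.sum_congr rfl (fun a _ => ?_)
  by_cases hd : Disjoint (A a) B
  · by_cases hx : x ∈ A a
    · simp only [hd, hx, and_self, if_true]
      rw [card_sdiff_insert hx hxM, pow_succ]
      ring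
    · simp [hd, hx, sdiff_insert_of_notMem' hx]
  · simp [hd]

/-- claiming `y` by Breaker -/
lemma pot_breaker {M B : Finset P} {y : P} (hyB : y ∉ B) :
    pot F A M (insert y B) = pot F A M B - wt F A M B y := by
  unfold pot wt
  rw [← Finset.sum_sub_distrib]
  refine Finset.sum_congr rfl (fun a _ => ?_)
  by_cases hd : Disjoint (A a) B
  · by_cases hy : y ∈ A a
    · have : ¬ Disjoint (A a) (insert y B) := by
        rw [Finset.disjoint_insert_right]
        tauto
      simp [hd, hy, this]
    · have : Disjoint (A a) (insert y B) := by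
        rw [Finset.disjoint_insert_right]
        exact ⟨hy, hd⟩
      simp [hd, hy, this]
  · have : ¬ Disjoint (A a) (insert y B) := by
      rw [Finset.disjoint_insert_right]
      tauto
    simp [hd, this]

lemma wt_maker {M B : Finset P} {x y : P} (hxM : x ∉ M) :
    wt F A (insert x M) B y = wt F A M B y + wt2 F A M B x y := by
  unfold wt wt2
  rw [← Finset.sum_add_distrib]
  refine Finset.sum_congr rfl (fun a _ => ?_)
  by_cases hd : Disjoint (A a) B
  · by_cases hy : y ∈ A a
    · by_cases hx : x ∈ A a
      · simp only [hd, hy, hx, and_self, if_true]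
        rw [card_sdiff_insert hx hxM, pow_succ]
        ring
      · simp [hd, hy, hx, sdiff_insert_of_notMem' hx]
    · simp [hd, hy]
  · simp [hd]

lemma wt2_le {M B : Finset P} {x y : P} (hxy : x ≠ y) (hxM : x ∉ M) (hyM : y ∉ M)
    (hpair : ∀ a ∈ F, ∀ b ∈ F, x ∈ A a → y ∈ A a → x ∈ A b → y ∈ A b → a = b) :
    wt2 F A M B x y ≤ 1/4 := by
  unfold wt2
  by_cases hex : ∃ a ∈ F, x ∈ A a ∧ y ∈ A a
  · obtain ⟨a, haF, hxa, hya⟩ := hex
    rw [Finset.sum_eq_single_of_mem a haF]
    · split_ifs with h
      · have h2 : 2 ≤ (A a \ M).card := by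
          have : ({x, y} : Finset P) ⊆ A a \ M := by
            intro p hp
            simp only [mem_insert, mem_singleton] at hp
            rcases hp with rfl | rfl
            · exact mem_sdiff.2 ⟨hxa, hxM⟩
            · exact mem_sdiff.2 ⟨hya, hyM⟩
          calc 2 = ({x, y} : Finset P).card := (card_pair hxy).symm
            _ ≤ _ := card_le_card this
        calc (1/2 : ℝ) ^ (A a \ M).card ≤ (1/2 : ℝ) ^ 2 :=
              pow_le_pow_of_le_one (by norm_num) (by norm_num) h2
          _ = 1/4 := by norm_num
      · norm_num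
    · intro b hbF hba
      rw [if_neg]
      rintro ⟨_, hxb, hyb⟩
      exact hba (hpair b hbF a haF hxb hyb hxa hya)
  · rw [Finset.sum_eq_zero]
    · norm_num
    · intro a haF
      rw [if_neg]
      rintro ⟨_, h1, h2⟩
      exact hex ⟨a, haF, h1, h2⟩

lemma wt_nonneg (M B : Finset P) (x : P) : 0 ≤ wt F A M B x := by
  unfold wt
  refine Finset.sum_nonneg (fun a _ => ?_)
  split_ifs <;> positivity

lemma wt_outside {U M B : Finset P} {x : P} (hU : ∀ a ∈ F, A a ⊆ U) (hx : x ∉ U) :
    wt F A M B x = 0 := by
  unfold wt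
  refine Finset.sum_eq_zero (fun a ha => ?_)
  rw [if_neg]
  rintro ⟨_, h⟩
  exact hx (hU a ha h)

lemma wt2_outside {U M B : Finset P} {x y : P} (hU : ∀ a ∈ F, A a ⊆ U) (hy : y ∉ U) :
    wt2 F A M B x y = 0 := by
  unfold wt2
  refine Finset.sum_eq_zero (fun a ha => ?_)
  rw [if_neg]
  rintro ⟨_, _, h⟩
  exact hy (hU a ha h)

end Potential

section Strategy

variable {P : Type} [DecidableEq P] [Inhabited P] {K : Type} [DecidableEq K]
variable (F : Finset K) (A : K → Finset P) (U : Finset P)

lemma exists_max (h : List P) (hne : (U \ h.toFinset).Nonempty) :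
    ∃ x ∈ U \ h.toFinset, ∀ y ∈ U \ h.toFinset,
      wt F A (mk h) (bk h) y ≤ wt F A (mk h) (bk h) x :=
  Finset.exists_max_image _ _ hne

open Classical in
/-- the greedy strategy of the first player -/
noncomputable def greedy (h : List P) : P :=
  if hne : (U \ h.toFinset).Nonempty then (exists_max F A U h hne).choose else default

lemma greedy_mem {h : List P} (hne : (U \ h.toFinset).Nonempty) :
    greedy F A U h ∈ U \ h.toFinset := by
  unfold greedy
  rw [dif_pos hne]
  exact (exists_max F A U h hne).choose_spec.1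

lemma greedy_max {h : List P} (hne : (U \ h.toFinset).Nonempty) :
    ∀ y ∈ U \ h.toFinset, wt F A (mk h) (bk h) y ≤ wt F A (mk h) (bk h) (greedy F A U h) := by
  unfold greedy
  rw [dif_pos hne]
  exact (exists_max F A U h hne).choose_spec.2

/-- the total potential with the correction term -/
noncomputable def Psi (h : List P) : ℝ :=
  pot F A (mk h) (bk h) + ((U ∩ h.toFinset).card : ℝ) / 8

lemma toFinset_append_one (h : List P) (x : P) : (h ++ [x]).toFinset = insert x h.toFinset := by
  ext p; simp [or_comm]

lemma card_inter_insert_new {h : List P} {x : P} (hxU : x ∈ U) (hx : x ∉ h) :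
    (U ∩ (h ++ [x]).toFinset).card = (U ∩ h.toFinset).card + 1 := by
  rw [toFinset_append_one, Finset.inter_insert_of_mem hxU, card_insert_of_notMem]
  simp [hx]

lemma card_inter_mono (h : List P) (x : P) :
    (U ∩ h.toFinset).card ≤ (U ∩ (h ++ [x]).toFinset).card := by
  apply card_le_card
  rw [toFinset_append_one]
  exact Finset.inter_subset_inter_left (Finset.subset_insert _ _)

/-- a Breaker move after a Maker move never loses more than the weight of the point -/
lemma pot_odd_move (h : List P) (y : P) (ho : ¬ Even h.length) (hU : ∀ a ∈ F, A a ⊆ U) :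
    pot F A (mk (h ++ [y])) (bk (h ++ [y])) =
      pot F A (mk h) (bk h) - (if y ∈ h ∨ y ∉ U then 0 else wt F A (mk h) (bk h) y) := by
  by_cases hy : y ∈ h
  · rw [mk_append_mem hy, bk_append_mem hy]
    simp [hy]
  · rw [mk_append_odd hy ho, bk_append_odd hy ho, pot_breaker]
    · by_cases hyU : y ∈ U
      · simp [hy, hyU]
      · simp [hy, hyU, wt_outside F A hU hyU]
    · intro hb
      exact hy (mem_bk.1 hb).1

lemma Psi_round (hU : ∀ a ∈ F, A a ⊆ U)
    (hpair : ∀ a ∈ F, ∀ b ∈ F, ∀ x y, x ≠ y → x ∈ A a → y ∈ A a → x ∈ A b → y ∈ A b → a = b)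
    (h : List P) (he : Even h.length) (y : P) :
    Psi F A U h ≤ Psi F A U ((h ++ [greedy F A U h]) ++ [y]) := by
  set x := greedy F A U h with hxdef
  have ho : ¬ Even (h ++ [x]).length := by
    rw [List.length_append, List.length_singleton]
    rw [Nat.even_add_one]
    exact not_not.2 he
  by_cases hne : (U \ h.toFinset).Nonempty
  · have hxm := greedy_mem F A U hne
    rw [← hxdef] at hxm
    rw [mem_sdiff, List.mem_toFinset] at hxm
    obtain ⟨hxU, hxh⟩ := hxm
    have hxM : x ∉ mk h := fun hx => hxh (mem_mk.1 hx).1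
    have e1 : pot F A (mk (h ++ [x])) (bk (h ++ [x])) =
        pot F A (mk h) (bk h) + wt F A (mk h) (bk h) x := by
      rw [mk_append_even hxh he, bk_append_even hxh he, pot_maker F A hxM]
    have e2 := pot_odd_move F A U (h ++ [x]) y ho hU
    have hw0 := wt_nonneg F A (mk h) (bk h) x
    have c1 := card_inter_insert_new U hxU hxh
    have c1' : ((U ∩ (h ++ [x]).toFinset).card : ℝ) = ((U ∩ h.toFinset).card : ℝ) + 1 := by
      rw [c1]; push_cast; ring
    unfold Psi
    rw [e2, e1]
    by_cases hy : y ∈ h ++ [x] ∨ y ∉ U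
    · rw [if_pos hy]
      have c2 := card_inter_mono U (h ++ [x]) y
      have c2' : ((U ∩ (h ++ [x]).toFinset).card : ℝ) ≤
          ((U ∩ ((h ++ [x]) ++ [y]).toFinset).card : ℝ) := by exact_mod_cast c2
      linarith
    · rw [if_neg hy]
      push Not at hy
      obtain ⟨hyh, hyU⟩ := hy
      have c2 := card_inter_insert_new U hyU hyh
      have c2' : ((U ∩ ((h ++ [x]) ++ [y]).toFinset).card : ℝ) =
          ((U ∩ (h ++ [x]).toFinset).card : ℝ) + 1 := by
        rw [c2]; push_cast; ring
      have hyh' : y ∉ h := fun hh => hyh (List.mem_append_left _ hh)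
      have hyx : x ≠ y := by
        intro hh
        apply hyh
        rw [hh]
        simp
      have hyM : y ∉ mk h := fun hy => hyh' (mem_mk.1 hy).1
      have hmax := greedy_max F A U hne y (mem_sdiff.2 ⟨hyU, by simpa using hyh'⟩)
      rw [← hxdef] at hmax
      have e3 : wt F A (mk (h ++ [x])) (bk (h ++ [x])) y =
          wt F A (mk h) (bk h) y + wt2 F A (mk h) (bk h) x y := by
        rw [mk_append_even hxh he, bk_append_even hxh he, wt_maker F A hxM]
      have e4 : wt2 F A (mk h) (bk h) x y ≤ 1/4 :=
        wt2_le F A hyx hxM hyM (fun a ha b hb h1 h2 h3 h4 => hpair a ha b hb x y hyx h1 h2 h3 h4)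
      rw [e3]
      linarith
  · -- everything in U is claimed
    have hUh : ∀ z ∈ U, z ∈ h := by
      intro z hz
      by_contra hzh
      exact hne ⟨z, mem_sdiff.2 ⟨hz, by simpa using hzh⟩⟩
    have key : ∀ (h' : List P) (z : P), (∀ u ∈ U, u ∈ h') →
        pot F A (mk h') (bk h') ≤ pot F A (mk (h' ++ [z])) (bk (h' ++ [z])) := by
      intro h' z hh'
      by_cases hz : z ∈ h'
      · rw [mk_append_mem hz, bk_append_mem hz]
      · have hzU : z ∉ U := fun hzU => hz (hh' z hzU)
        by_cases hev : Even h'.length
        · have hzM : z ∉ mk h' := fun hx => hz (mem_mk.1 hx).1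
          rw [mk_append_even hz hev, bk_append_even hz hev, pot_maker F A hzM]
          linarith [wt_nonneg F A (mk h') (bk h') z]
        · have hzB : z ∉ bk h' := fun hx => hz (mem_bk.1 hx).1
          rw [mk_append_odd hz hev, bk_append_odd hz hev, pot_breaker F A hzB,
            wt_outside F A hU hzU]
          linarith
    have k1 := key h x hUh
    have k2 := key (h ++ [x]) y (fun u hu => List.mem_append_left _ (hUh u hu))
    have c1 := card_inter_mono U h x
    have c2 := card_inter_mono U (h ++ [x]) y
    have c : ((U ∩ h.toFinset).card : ℝ) ≤ ((U ∩ ((h ++ [x]) ++ [y]).toFinset).card : ℝ) := by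
      exact_mod_cast le_trans c1 c2
    unfold Psi
    linarith

lemma play_two (σ τ : List P → P) (r : ℕ) :
    play σ τ (2 * (r + 1)) =
      (play σ τ (2 * r) ++ [σ (play σ τ (2 * r))]) ++ [τ (play σ τ (2 * r) ++ [σ (play σ τ (2 * r))])] := by
  have h1 : play σ τ (2 * r + 1) = play σ τ (2 * r) ++ [σ (play σ τ (2 * r))] := by
    rw [play_succ]
    unfold step
    rw [if_pos]
    rw [play_length]; exact even_two_mul r
  have h2 : 2 * (r + 1) = (2 * r + 1) + 1 := by ring
  rw [h2, play_succ, h1]
  unfold step
  rw [if_neg]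
  rw [List.length_append, List.length_singleton, play_length]
  rw [Nat.even_add_one]
  exact not_not.2 (even_two_mul r)

/-- Beck's weak win criterion for indexed families with pair degree at most one. -/
theorem maker_wins (hU : ∀ a ∈ F, A a ⊆ U)
    (hpair : ∀ a ∈ F, ∀ b ∈ F, ∀ x y, x ≠ y → x ∈ A a → y ∈ A a → x ∈ A b → y ∈ A b → a = b)
    (n : ℕ) (hn : ∀ a ∈ F, (A a).card = n)
    (hbig : (U.card : ℝ) / 8 < (F.card : ℝ) * (1/2) ^ n)
    (τ : List P → P) :
    ∃ a ∈ F, ∀ x ∈ A a, x ∈ play (greedy F A U) τ (2 * U.card) ∧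
      Even ((play (greedy F A U) τ (2 * U.card)).idxOf x) := by
  set σ := greedy F A U with hσ
  have hPsi : ∀ r, Psi F A U [] ≤ Psi F A U (play σ τ (2 * r)) := by
    intro r
    induction r with
    | zero => simp [play]
    | succ r ih =>
      rw [play_two]
      refine le_trans ih ?_
      exact Psi_round F A U hU hpair _ (by rw [play_length]; exact even_two_mul r) _
  have hcard : ∀ r, min r U.card ≤ (U ∩ (play σ τ (2 * r)).toFinset).card := by
    intro r
    induction r with
    | zero => simp
    | succ r ih =>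
      rw [play_two]
      set h := play σ τ (2 * r) with hh
      by_cases hne : (U \ h.toFinset).Nonempty
      · have hxm := greedy_mem F A U hne
        rw [mem_sdiff, List.mem_toFinset] at hxm
        have c1 := card_inter_insert_new U hxm.1 hxm.2
        have c2 := card_inter_mono U (h ++ [σ h]) (τ (h ++ [σ h]))
        rw [← hσ] at c1
        omega
      · have hUh : U ⊆ h.toFinset := by
          intro z hz
          by_contra hzh
          exact hne ⟨z, mem_sdiff.2 ⟨hz, hzh⟩⟩
        have : U ∩ h.toFinset = U := Finset.inter_eq_left.2 hUh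
        have c1 := card_inter_mono U h (σ h)
        have c2 := card_inter_mono U (h ++ [σ h]) (τ (h ++ [σ h]))
        rw [this] at c1
        omega
  set h := play σ τ (2 * U.card) with hh
  have hfull : U ⊆ h.toFinset := by
    have h1 := hcard U.card
    rw [min_self] at h1
    have h2 : U ∩ h.toFinset = U := Finset.eq_of_subset_of_card_le Finset.inter_subset_left h1
    exact Finset.inter_eq_left.1 h2
  have hpot0 : Psi F A U [] = (F.card : ℝ) * (1/2) ^ n := by
    unfold Psi pot
    have hm : mk ([] : List P) = ∅ := by simp [mk]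
    have hb : bk ([] : List P) = ∅ := by simp [bk]
    rw [hm, hb]
    simp only [Finset.disjoint_empty_right, if_true, Finset.sdiff_empty, List.toFinset_nil,
      Finset.inter_empty, Finset.card_empty, Nat.cast_zero, zero_div, add_zero]
    rw [Finset.sum_congr rfl (fun a ha => by rw [hn a ha])]
    simp
  have hpos : 0 < pot F A (mk h) (bk h) := by
    have h1 := hPsi U.card
    rw [hpot0, ← hh] at h1
    unfold Psi at h1
    rw [Finset.inter_eq_left.2 hfull] at h1
    linarith
  unfold pot at hpos
  obtain ⟨a, haF, ha⟩ := Finset.exists_ne_zero_of_sum_ne_zero hpos.ne'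
  refine ⟨a, haF, ?_⟩
  intro x hx
  have hd : Disjoint (A a) (bk h) := by
    by_contra hd
    rw [if_neg hd] at ha
    exact ha rfl
  have hxh : x ∈ h.toFinset := hfull (hU a haF hx)
  rw [← mk_union_bk, mem_union] at hxh
  rcases hxh with hxh | hxh
  · exact mem_mk.1 hxh
  · exact absurd hxh (Finset.disjoint_left.1 hd hx)

end Strategy

end Pool.Agent.Helper40.Beck
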