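import Pool.Agent.Helper40.CliqueFam

/-!
A potential strategy for the player who takes two elements per turn.
-/

set_option autoImplicit false
set_option linter.unusedSectionVars false
set_option linter.unusedVariables false

namespace Pool.Agent.Helper40.CQ

open Finset

section Potential

variable {α κ : Type*} [DecidableEq α] (I : Finset κ) (F : κ → Finset α) (c δ : κ → ℝ)

/-- weight of a set: first player elements count `1 + 2δ`, second player elements `1 - δ` -/
noncomputable def wt (p q : Finset α) (k : κ) : ℝ :=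
  c k * (1 + 2 * δ k) ^ (F k ∩ p).card * (1 - δ k) ^ (F k ∩ q).card

/-- total weight -/
noncomputable def Phi (p q : Finset α) : ℝ := ∑ k ∈ I, wt F c δ p q k

/-- derivative at an element -/
noncomputable def Dv (p q : Finset α) (e : α) : ℝ :=
  ∑ k ∈ I, (if e ∈ F k then δ k * wt F c δ p q k else 0)

variable {I F c δ}

lemma wt_nonneg (hc : ∀ k, 0 ≤ c k) (h0 : ∀ k, 0 ≤ δ k) (h1 : ∀ k, δ k ≤ 1)
    (p q : Finset α) (k : κ) : 0 ≤ wt F c δ p q k := by
  unfold wt
  have := h0 k
  have := h1 k
  have := hc k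
  have h2 : 0 ≤ 1 + 2 * δ k := by linarith
  have h3 : 0 ≤ 1 - δ k := by linarith
  positivity

lemma wt_insert_left {p q : Finset α} {e : α} (he : e ∉ p) (k : κ) :
    wt F c δ (insert e p) q k =
      wt F c δ p q k + 2 * (if e ∈ F k then δ k * wt F c δ p q k else 0) := by
  unfold wt
  by_cases h : e ∈ F k
  · rw [if_pos h, Finset.inter_insert_of_mem h, Finset.card_insert_of_notMem]
    · rw [pow_succ]; ring
    · intro h2
      exact he (mem_inter.mp h2).2
  · rw [if_neg h, Finset.inter_insert_of_notMem h]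
    ring

lemma wt_insert_right {p q : Finset α} {e : α} (he : e ∉ q) (k : κ) :
    wt F c δ p (insert e q) k =
      wt F c δ p q k - (if e ∈ F k then δ k * wt F c δ p q k else 0) := by
  unfold wt
  by_cases h : e ∈ F k
  · rw [if_pos h, Finset.inter_insert_of_mem h, Finset.card_insert_of_notMem]
    · rw [pow_succ]; ring
    · intro h2
      exact he (mem_inter.mp h2).2
  · rw [if_neg h, Finset.inter_insert_of_notMem h]
    ring

lemma Phi_insert_left {p q : Finset α} {e : α} (he : e ∉ p) :
    Phi I F c δ (insert e p) q = Phi I F c δ p q + 2 * Dv I F c δ p q e := by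
  unfold Phi Dv
  rw [Finset.mul_sum, ← Finset.sum_add_distrib]
  exact Finset.sum_congr rfl (fun k _ => wt_insert_left he k)

lemma Phi_insert_right {p q : Finset α} {e : α} (he : e ∉ q) :
    Phi I F c δ p (insert e q) = Phi I F c δ p q - Dv I F c δ p q e := by
  unfold Phi Dv
  rw [← Finset.sum_sub_distrib]
  exact Finset.sum_congr rfl (fun k _ => wt_insert_right he k)

lemma Dv_nonneg (hc : ∀ k, 0 ≤ c k) (h0 : ∀ k, 0 ≤ δ k) (h1 : ∀ k, δ k ≤ 1)
    (p q : Finset α) (e : α) : 0 ≤ Dv I F c δ p q e := by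
  unfold Dv
  refine Finset.sum_nonneg (fun k _ => ?_)
  split_ifs
  · exact mul_nonneg (h0 k) (wt_nonneg hc h0 h1 p q k)
  · exact le_refl 0

lemma Dv_le (hc : ∀ k, 0 ≤ c k) (h0 : ∀ k, 0 ≤ δ k) (h1 : ∀ k, δ k ≤ 1)
    (p q : Finset α) (e : α) : Dv I F c δ p q e ≤ Phi I F c δ p q := by
  unfold Dv Phi
  refine Finset.sum_le_sum (fun k _ => ?_)
  have h := wt_nonneg (F := F) hc h0 h1 p q k
  split_ifs
  · calc δ k * wt F c δ p q k ≤ 1 * wt F c δ p q k := mul_le_mul_of_nonneg_right (h1 k) h
      _ = _ := one_mul _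
  · exact h

lemma Dv_insert_right (hc : ∀ k, 0 ≤ c k) (h0 : ∀ k, 0 ≤ δ k) (h1 : ∀ k, δ k ≤ 1)
    {p q : Finset α} {e : α} (he : e ∉ q) (x : α) :
    Dv I F c δ p (insert e q) x ≤ Dv I F c δ p q x := by
  unfold Dv
  refine Finset.sum_le_sum (fun k _ => ?_)
  split_ifs
  · refine mul_le_mul_of_nonneg_left ?_ (h0 k)
    rw [wt_insert_right he]
    have h := wt_nonneg (F := F) hc h0 h1 p q k
    have : 0 ≤ (if e ∈ F k then δ k * wt F c δ p q k else 0) := by
      split_ifs
      · exact mul_nonneg (h0 k) h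
      · exact le_refl 0
    linarith
  · exact le_refl 0

/-- the positions kept by the strategy -/
def Good (I : Finset κ) (F : κ → Finset α) (c δ : κ → ℝ) (E : Finset α) :
    Set (Finset α × Finset α) :=
  {p | p.1 ⊆ E ∧ p.2 ⊆ E ∧ Disjoint p.1 p.2 ∧ Phi I F c δ p.1 p.2 < 1 ∧
    ∀ x ∈ E, x ∉ p.1 → x ∉ p.2 → Phi I F c δ p.1 p.2 + 2 * Dv I F c δ p.1 p.2 x < 1}

theorem good_step (hc : ∀ k, 0 ≤ c k) (h0 : ∀ k, 0 ≤ δ k) (h1 : ∀ k, δ k ≤ 1)
    {E : Finset α} {p : Finset α × Finset α} (hp : p ∈ Good I F c δ E)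
    {e : α} (he : e ∈ E) (he1 : e ∉ p.1) (he2 : e ∉ p.2)
    (hne : insert e p.1 ∪ p.2 ≠ E) :
    ∃ T : Finset α, T ⊆ E ∧ Disjoint T (insert e p.1 ∪ p.2) ∧
      T.card = min 2 (E.card - (insert e p.1 ∪ p.2).card) ∧
      (insert e p.1, p.2 ∪ T) ∈ Good I F c δ E := by
  obtain ⟨hp1, hp2, hdis, hphi, hall⟩ := hp
  set P := insert e p.1 with hP
  set Q := p.2 with hQ
  have hPE : P ⊆ E := insert_subset he hp1
  have hPQ : Disjoint P Q := by
    rw [hP, disjoint_insert_left]
    exact ⟨he2, hdis⟩
  have hPhi : Phi I F c δ P Q < 1 := by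
    rw [hP, Phi_insert_left he1]
    exact hall e he he1 he2
  have hUE : P ∪ Q ⊆ E := union_subset hPE hp2
  set U := E \ (P ∪ Q) with hU
  have hUc : U.card = E.card - (P ∪ Q).card := card_sdiff_of_subset hUE
  have hUne : U.Nonempty := by
    rw [hU, sdiff_nonempty]
    intro h
    exact hne (Finset.Subset.antisymm hUE h)
  obtain ⟨y, hyU, hy⟩ := Finset.exists_max_image U (Dv I F c δ P Q) hUne
  have hy' := mem_sdiff.mp hyU
  rw [mem_union, not_or] at hy'
  obtain ⟨hyE, hyP, hyQ⟩ := hy'
  have hDy := Dv_nonneg (I := I) (F := F) hc h0 h1 P Q y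
  by_cases hU1 : (U.erase y).Nonempty
  · obtain ⟨z, hzU, hz⟩ := Finset.exists_max_image (U.erase y) (Dv I F c δ P (insert y Q)) hU1
    have hzU' := mem_erase.mp hzU
    have hz' := mem_sdiff.mp hzU'.2
    rw [mem_union, not_or] at hz'
    obtain ⟨hzE, hzP, hzQ⟩ := hz'
    have hzQ1 : z ∉ insert y Q := by
      rw [mem_insert, not_or]
      exact ⟨hzU'.1, hzQ⟩
    refine ⟨{y, z}, ?_, ?_, ?_, ?_⟩
    · intro a ha
      rw [mem_insert, mem_singleton] at ha
      rcases ha with rfl | rfl
      · exact hyE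
      · exact hzE
    · rw [Finset.disjoint_left]
      intro a ha
      rw [mem_insert, mem_singleton] at ha
      rw [mem_union, not_or]
      rcases ha with rfl | rfl
      · exact ⟨hyP, hyQ⟩
      · exact ⟨hzP, hzQ⟩
    · rw [Finset.card_pair (Ne.symm hzU'.1), ← hUc]
      have h2 : 2 ≤ U.card := by
        have h3 := Finset.card_erase_of_mem hyU
        have h4 := hU1.card_pos
        have h5 := Finset.card_pos.mpr ⟨y, hyU⟩
        omega
      rw [min_eq_left h2]
    · have hTQ : Q ∪ {y, z} = insert z (insert y Q) := by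
        ext a
        simp only [mem_union, mem_insert, mem_singleton]
        tauto
      rw [hTQ]
      have hDz := Dv_nonneg (I := I) (F := F) hc h0 h1 P (insert y Q) z
      have hzy : Dv I F c δ P (insert y Q) z ≤ Dv I F c δ P Q y :=
        le_trans (Dv_insert_right hc h0 h1 hyQ z) (hy z hzU'.2)
      have hval : Phi I F c δ P (insert z (insert y Q)) =
          Phi I F c δ P Q - Dv I F c δ P Q y - Dv I F c δ P (insert y Q) z := by
        rw [Phi_insert_right hzQ1, Phi_insert_right hyQ]
      refine ⟨hPE, ?_, ?_, ?_, ?_⟩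
      · exact insert_subset hzE (insert_subset hyE hp2)
      · show Disjoint P (insert z (insert y Q))
        rw [disjoint_insert_right, disjoint_insert_right]
        exact ⟨hzP, hyP, hPQ⟩
      · show Phi I F c δ P (insert z (insert y Q)) < 1
        rw [hval]; linarith
      · intro x hxE hxP hxQ
        show Phi I F c δ P (insert z (insert y Q)) +
          2 * Dv I F c δ P (insert z (insert y Q)) x < 1
        have hxQ' : x ∉ insert z (insert y Q) := hxQ
        rw [mem_insert, mem_insert, not_or, not_or] at hxQ'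
        have hxU : x ∈ U.erase y := by
          rw [mem_erase, hU, mem_sdiff, mem_union, not_or]
          exact ⟨hxQ'.2.1, hxE, hxP, hxQ'.2.2⟩
        have hx1 : Dv I F c δ P (insert z (insert y Q)) x ≤ Dv I F c δ P (insert y Q) z :=
          le_trans (Dv_insert_right hc h0 h1 hzQ1 x) (hz x hxU)
        rw [hval]; linarith
  · refine ⟨{y}, ?_, ?_, ?_, ?_⟩
    · intro a ha
      rw [mem_singleton] at ha
      rw [ha]; exact hyE
    · rw [Finset.disjoint_left]
      intro a ha
      rw [mem_singleton] at ha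
      rw [mem_union, not_or, ha]
      exact ⟨hyP, hyQ⟩
    · rw [Finset.card_singleton, ← hUc]
      have h3 := Finset.card_erase_of_mem hyU
      have h4 : (U.erase y).card = 0 := by
        rw [Finset.card_eq_zero]; exact Finset.not_nonempty_iff_eq_empty.mp hU1
      have h5 := Finset.card_pos.mpr ⟨y, hyU⟩
      have h6 : U.card = 1 := by omega
      rw [h6]; rfl
    · have hTQ : Q ∪ {y} = insert y Q := by
        ext a
        simp only [mem_union, mem_insert, mem_singleton]
        tauto
      rw [hTQ]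
      refine ⟨hPE, insert_subset hyE hp2, ?_, ?_, ?_⟩
      · show Disjoint P (insert y Q)
        rw [disjoint_insert_right]
        exact ⟨hyP, hPQ⟩
      · show Phi I F c δ P (insert y Q) < 1
        rw [Phi_insert_right hyQ]; linarith
      · intro x hxE hxP hxQ
        exfalso
        apply hU1
        have hxQ' : x ∉ insert y Q := hxQ
        rw [mem_insert, not_or] at hxQ'
        refine ⟨x, ?_⟩
        rw [mem_erase, hU, mem_sdiff, mem_union, not_or]
        exact ⟨hxQ'.1, hxE, hxP, hxQ'.2⟩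

theorem good_start (hc : ∀ k, 0 ≤ c k) (h0 : ∀ k, 0 ≤ δ k) (h1 : ∀ k, δ k ≤ 1)
    {E : Finset α} (h : 3 * Phi I F c δ ∅ ∅ < 1) :
    ((∅ : Finset α), (∅ : Finset α)) ∈ Good I F c δ E := by
  have hn : 0 ≤ Phi I F c δ (∅ : Finset α) ∅ :=
    Finset.sum_nonneg (fun k _ => wt_nonneg hc h0 h1 _ _ k)
  refine ⟨empty_subset _, empty_subset _, disjoint_empty_left _, ?_, ?_⟩
  · show Phi I F c δ ∅ ∅ < 1
    linarith
  · intro x _ _ _
    show Phi I F c δ ∅ ∅ + 2 * Dv I F c δ ∅ ∅ x < 1
    have := Dv_le (I := I) (F := F) hc h0 h1 (∅ : Finset α) ∅ x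
    linarith

theorem good_after (hc : ∀ k, 0 ≤ c k) (h0 : ∀ k, 0 ≤ δ k) (h1 : ∀ k, δ k ≤ 1)
    {E : Finset α} {p : Finset α × Finset α} (hp : p ∈ Good I F c δ E)
    {e : α} (he : e ∈ E) (he1 : e ∉ p.1) (he2 : e ∉ p.2) :
    Phi I F c δ (insert e p.1) p.2 < 1 := by
  rw [Phi_insert_left he1]
  exact hp.2.2.2.2 e he he1 he2

end Potential

section Graph

open Pool.Agent.Helper40.CF

variable {n : ℕ}

/-- degree inside a vertex set -/
def dg (q : Finset (Sym2 (Fin n))) (B : Finset (Fin n)) (v : Fin n) : ℕ :=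
  (B.filter (fun u => s(v, u) ∈ q)).card

/-- sum of the degrees inside a vertex set -/
def dd (q : Finset (Sym2 (Fin n))) (B : Finset (Fin n)) : ℕ := ∑ v ∈ B, dg q B v

lemma dg_insert {q : Finset (Sym2 (Fin n))} {B : Finset (Fin n)} {u : Fin n} (hu : u ∉ B)
    (v : Fin n) : dg q (insert u B) v = dg q B v + (if s(v, u) ∈ q then 1 else 0) := by
  unfold dg
  rw [Finset.filter_insert]
  split_ifs with h
  · rw [Finset.card_insert_of_notMem]
    intro h2
    exact hu (mem_filter.mp h2).1
  · rfl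

lemma dd_insert {q : Finset (Sym2 (Fin n))} (hq : ∀ e ∈ q, ¬ e.IsDiag) {B : Finset (Fin n)}
    {u : Fin n} (hu : u ∉ B) : dd q (insert u B) = dd q B + 2 * dg q B u := by
  unfold dd
  rw [Finset.sum_insert hu, dg_insert hu]
  have h1 : s(u, u) ∉ q := fun h => hq _ h (by rw [Sym2.mk_isDiag_iff])
  rw [if_neg h1]
  have h2 : ∑ v ∈ B, dg q (insert u B) v = ∑ v ∈ B, dg q B v + dg q B u := by
    rw [Finset.sum_congr rfl (fun v _ => dg_insert hu v), Finset.sum_add_distrib]
    congr 1
    rw [← Finset.card_filter]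
    unfold dg
    congr 1
    ext v
    rw [mem_filter, mem_filter, Sym2.eq_swap]
  rw [h2]
  ring

lemma card_edg_inter_insert {q : Finset (Sym2 (Fin n))} {B : Finset (Fin n)} {u : Fin n}
    (hu : u ∉ B) : (edg (insert u B) ∩ q).card = (edg B ∩ q).card + dg q B u := by
  have h1 : edg (insert u B) ∩ q = (edg B ∩ q) ∪ (B.filter (fun v => s(u, v) ∈ q)).image
      (fun v => s(u, v)) := by
    ext e
    induction e with
    | h a b =>
        rw [mem_inter, mem_union, mem_inter, mem_edg, mem_edg, mem_image]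
        constructor
        · rintro ⟨⟨ha, hb, hab⟩, hq⟩
          rw [mem_insert] at ha hb
          rcases ha with rfl | ha
          · rcases hb with rfl | hb
            · exact absurd rfl hab
            · right
              exact ⟨b, mem_filter.mpr ⟨hb, hq⟩, rfl⟩
          · rcases hb with rfl | hb
            · right
              refine ⟨a, mem_filter.mpr ⟨ha, ?_⟩, Sym2.eq_swap⟩
              rw [Sym2.eq_swap]; exact hq
            · left
              exact ⟨⟨ha, hb, hab⟩, hq⟩
        · rintro (⟨⟨ha, hb, hab⟩, hq⟩ | ⟨v, hv, he⟩)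
          · exact ⟨⟨mem_insert_of_mem ha, mem_insert_of_mem hb, hab⟩, hq⟩
          · rw [mem_filter] at hv
            have huv : u ≠ v := fun h => hu (h ▸ hv.1)
            rw [Sym2.eq_iff] at he
            rcases he with ⟨rfl, rfl⟩ | ⟨rfl, rfl⟩
            · exact ⟨⟨mem_insert_self _ _, mem_insert_of_mem hv.1, huv⟩, hv.2⟩
            · refine ⟨⟨mem_insert_of_mem hv.1, mem_insert_self _ _, huv.symm⟩, ?_⟩
              rw [Sym2.eq_swap]; exact hv.2
  rw [h1, Finset.card_union_of_disjoint, Finset.card_image_of_injOn]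
  · rfl
  · intro v _ v' _ h
    simp only at h
    rw [Sym2.eq_iff] at h
    rcases h with ⟨_, h⟩ | ⟨h1, h2⟩
    · exact h
    · rw [← h1, h2]
  · rw [Finset.disjoint_left]
    intro e he he'
    rw [mem_image] at he'
    obtain ⟨v, _, rfl⟩ := he'
    rw [mem_inter, mem_edg] at he
    exact hu he.1.1

lemma dd_eq {q : Finset (Sym2 (Fin n))} (hq : ∀ e ∈ q, ¬ e.IsDiag) (B : Finset (Fin n)) :
    dd q B = 2 * (edg B ∩ q).card := by
  induction B using Finset.induction_on with
  | empty => simp [dd, edg]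
  | insert u B hu ih =>
      rw [dd_insert hq hu, card_edg_inter_insert hu, ih]; ring

/-- density of sets of size `a` passes to larger sets -/
lemma dd_large {q : Finset (Sym2 (Fin n))} (hq : ∀ e ∈ q, ¬ e.IsDiag) {a : ℕ} (ha : 2 ≤ a)
    (h : ∀ A : Finset (Fin n), A.card = a → 5 * (a * (a - 1)) < 8 * dd q A) :
    ∀ k : ℕ, ∀ B : Finset (Fin n), B.card = a + k →
      5 * ((a + k) * (a + k - 1)) < 8 * dd q B := by
  intro k
  induction k with
  | zero => intro B hB; exact h B hB
  | succ k ih =>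
      intro B hB
      have h1 : ∀ u ∈ B, 5 * ((a + k) * (a + k - 1)) + 1 + 16 * dg q B u ≤ 8 * dd q B := by
        intro u hu
        have h2 := ih (B.erase u) (by rw [card_erase_of_mem hu, hB]; omega)
        have h3 := dd_insert (q := q) hq (B := B.erase u) (u := u) (notMem_erase u B)
        have h4 := dg_insert (q := q) (B := B.erase u) (u := u) (notMem_erase u B) u
        rw [insert_erase hu] at h3 h4
        have h5 : s(u, u) ∉ q := fun h => hq _ h (by rw [Sym2.mk_isDiag_iff])
        rw [if_neg h5] at h4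
        omega
      have h2 := Finset.sum_le_sum h1
      rw [Finset.sum_add_distrib, Finset.sum_const, Finset.sum_const, ← Finset.mul_sum, hB] at h2
      have h3 : ∑ u ∈ B, dg q B u = dd q B := rfl
      rw [h3, smul_eq_mul, smul_eq_mul] at h2
      obtain ⟨b, hb⟩ : ∃ b, a + k = b + 1 := ⟨a + k - 1, by omega⟩
      have hb1 : 1 ≤ b := by omega
      have e1 : a + (k + 1) = b + 2 := by omega
      rw [e1] at h2 ⊢
      rw [hb] at h2
      have e2 : b + 2 - 1 = b + 1 := by omega
      have e3 : b + 1 - 1 = b := by omega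
      rw [e3] at h2
      rw [e2]
      by_contra hcon
      push Not at hcon
      have h4 : 8 * dd q B * b ≤ 5 * ((b + 2) * (b + 1)) * b := Nat.mul_le_mul_right _ hcon
      nlinarith [h2, h4]

/-- greedy construction of a complete subgraph -/
lemma chain {q : Finset (Sym2 (Fin n))} (hq : ∀ e ∈ q, ¬ e.IsDiag) {a : ℕ} (ha : 2 ≤ a)
    (h : ∀ B : Finset (Fin n), a ≤ B.card → 5 * (B.card * (B.card - 1)) < 8 * dd q B) :
    ∀ j : ℕ, ∀ B : Finset (Fin n), (8 / 5 : ℝ) ^ j * (a + 5 / 3) ≤ B.card + 5 / 3 →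
      ∃ K : Finset (Fin n), K ⊆ B ∧ K.card = j + 1 ∧ ∀ x ∈ K, ∀ y ∈ K, x ≠ y → s(x, y) ∈ q := by
  intro j
  induction j with
  | zero =>
      intro B hB
      rw [pow_zero, one_mul] at hB
      have h1 : (a : ℝ) ≤ B.card := by linarith
      have h2 : a ≤ B.card := by exact_mod_cast h1
      obtain ⟨v, hv⟩ := Finset.card_pos.mp (by omega : 0 < B.card)
      refine ⟨{v}, by rw [singleton_subset_iff]; exact hv, card_singleton _, ?_⟩
      intro x hx y hy hxy
      rw [mem_singleton] at hx hy
      exact absurd (hx.trans hy.symm) hxy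
  | succ j ih =>
      intro B hB
      have hp : (1 : ℝ) ≤ (8 / 5 : ℝ) ^ (j + 1) := one_le_pow₀ (by norm_num)
      have h1 : (a : ℝ) ≤ B.card := by
        have : (a : ℝ) + 5 / 3 ≤ (8 / 5 : ℝ) ^ (j + 1) * (a + 5 / 3) := by
          have h0 : (0 : ℝ) ≤ (a : ℝ) + 5 / 3 := by positivity
          nlinarith
        linarith
      have h2 : a ≤ B.card := by exact_mod_cast h1
      have h3 := h B h2
      obtain ⟨v, hv, hvd⟩ : ∃ v ∈ B, 5 * (B.card - 1) < 8 * dg q B v := by
        by_contra hcon
        push Not at hcon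
        have h4 := Finset.sum_le_sum hcon
        rw [← Finset.mul_sum, Finset.sum_const, smul_eq_mul] at h4
        have h5 : ∑ u ∈ B, dg q B u = dd q B := rfl
        rw [h5] at h4
        have h6 : B.card * (5 * (B.card - 1)) = 5 * (B.card * (B.card - 1)) := by ring
        omega
      have h4 : (5 : ℝ) / 8 * (B.card - 1) ≤ (dg q B v : ℝ) := by
        have h5 : (5 : ℝ) * ((B.card - 1 : ℕ) : ℝ) ≤ 8 * (dg q B v : ℝ) := by
          exact_mod_cast hvd.le
        rw [Nat.cast_sub (by omega : 1 ≤ B.card)] at h5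
        push_cast at h5
        linarith
      obtain ⟨K, hK1, hK2, hK3⟩ := ih (B.filter (fun u => s(v, u) ∈ q)) (by
        have h5 : ((B.filter (fun u => s(v, u) ∈ q)).card : ℝ) = (dg q B v : ℝ) := rfl
        rw [h5]
        rw [pow_succ] at hB
        have h6 : (8 / 5 : ℝ) * ((8 / 5 : ℝ) ^ j * (a + 5 / 3)) ≤ B.card + 5 / 3 := by
          calc (8 / 5 : ℝ) * ((8 / 5 : ℝ) ^ j * (a + 5 / 3))
              = (8 / 5 : ℝ) ^ j * (8 / 5) * (a + 5 / 3) := by ring
            _ ≤ _ := hB
        linarith)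
      have hvK : v ∉ K := by
        intro hvK
        have := (mem_filter.mp (hK1 hvK)).2
        exact hq _ this (by rw [Sym2.mk_isDiag_iff])
      refine ⟨insert v K, ?_, ?_, ?_⟩
      · rw [insert_subset_iff]
        exact ⟨hv, hK1.trans (filter_subset _ _)⟩
      · rw [card_insert_of_notMem hvK, hK2]
      · intro x hx y hy hxy
        rw [mem_insert] at hx hy
        rcases hx with rfl | hx
        · rcases hy with rfl | hy
          · exact absurd rfl hxy
          · exact (mem_filter.mp (hK1 hy)).2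
        · rcases hy with rfl | hy
          · rw [Sym2.eq_swap]
            exact (mem_filter.mp (hK1 hx)).2
          · exact hK3 x hx y hy hxy

end Graph

end Pool.Agent.Helper40.CQ
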