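import Pool.Agent.Helper40.Clq12

/-!
The potential used in the clique building game, and its initial value.
-/

set_option autoImplicit false
set_option linter.unusedSectionVars false
set_option linter.unusedVariables false

namespace Pool.Agent.Helper40.CQ

open Finset Pool.Agent.Helper40.CF

variable {n : ℕ}

/-- base of the second family -/
noncomputable def W8 : ℝ := (9 / 8) ^ 3 * (15 / 16) ^ 5

/-- constants -/
noncomputable def cc (n r t : ℕ) (K : Finset (Fin n)) : ℝ :=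
  if K.card = r then (1 / 3) ^ (r.choose 2) else (1 / W8) ^ (t * (16 * t + 1))

/-- exponents -/
noncomputable def de (n r : ℕ) (K : Finset (Fin n)) : ℝ := if K.card = r then 1 else 1 / 16

/-- the two families -/
def II (n r t : ℕ) : Finset (Finset (Fin n)) := fam n r ∪ fam n (16 * t + 1)

lemma W8_pos : 0 < W8 := by unfold W8; positivity

lemma cc_nonneg (r t : ℕ) (K : Finset (Fin n)) : 0 ≤ cc n r t K := by
  unfold cc
  have := W8_pos
  split_ifs <;> positivity

lemma de_nonneg (r : ℕ) (K : Finset (Fin n)) : 0 ≤ de n r K := by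
  unfold de
  split_ifs <;> norm_num

lemma de_le (r : ℕ) (K : Finset (Fin n)) : de n r K ≤ 1 := by
  unfold de
  split_ifs <;> norm_num

lemma Phi_init {r t : ℕ} (hr : r ≠ 16 * t + 1) :
    Phi (II n r t) (edg (N := n)) (cc n r t) (de n r) ∅ ∅ =
      (n.choose r : ℝ) * (1 / 3) ^ (r.choose 2) +
      (n.choose (16 * t + 1) : ℝ) * (1 / W8) ^ (t * (16 * t + 1)) := by
  unfold Phi II
  rw [Finset.sum_union]
  · congr 1
    · have h : ∀ K ∈ fam n r, wt (edg (N := n)) (cc n r t) (de n r) ∅ ∅ K =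
          (1 / 3) ^ (r.choose 2) := by
        intro K hK
        rw [mem_fam] at hK
        unfold wt cc
        rw [if_pos hK]
        simp
      rw [Finset.sum_congr rfl h, Finset.sum_const, card_fam, nsmul_eq_mul]
    · have h : ∀ K ∈ fam n (16 * t + 1), wt (edg (N := n)) (cc n r t) (de n r) ∅ ∅ K =
          (1 / W8) ^ (t * (16 * t + 1)) := by
        intro K hK
        rw [mem_fam] at hK
        unfold wt cc
        rw [if_neg (by rw [hK]; exact hr.symm)]
        simp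
      rw [Finset.sum_congr rfl h, Finset.sum_const, card_fam, nsmul_eq_mul]
  · rw [Finset.disjoint_left]
    intro K h1 h2
    rw [mem_fam] at h1 h2
    exact hr (h1.symm.trans h2)

lemma wt_lt {r t : ℕ} {p q : Finset (Sym2 (Fin n))}
    (h : Phi (II n r t) (edg (N := n)) (cc n r t) (de n r) p q < 1) {K : Finset (Fin n)}
    (hK : K ∈ II n r t) : wt (edg (N := n)) (cc n r t) (de n r) p q K < 1 := by
  refine lt_of_le_of_lt ?_ h
  unfold Phi
  exact Finset.single_le_sum (f := fun K => wt (edg (N := n)) (cc n r t) (de n r) p q K)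
    (fun K _ => wt_nonneg (cc_nonneg r t) (de_nonneg r) (de_le r) p q K) hK

lemma no_clique {r t : ℕ} {p q : Finset (Sym2 (Fin n))} (hpq : Disjoint p q)
    (h : Phi (II n r t) (edg (N := n)) (cc n r t) (de n r) p q < 1) :
    (SimpleGraph.fromEdgeSet (p : Set (Sym2 (Fin n)))).CliqueFree r := by
  intro K hK
  rw [SimpleGraph.isNClique_iff] at hK
  obtain ⟨hcl, hcard⟩ := hK
  have hsub : edg K ⊆ p := by
    intro e he
    induction e with
    | h a b =>
        rw [mem_edg] at he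
        have h1 := hcl he.1 he.2.1 he.2.2
        rw [SimpleGraph.fromEdgeSet_adj] at h1
        exact_mod_cast h1.1
  have h1 := wt_lt h (K := K) (by unfold II; rw [mem_union, mem_fam]; exact Or.inl hcard)
  have h2 : edg K ∩ p = edg K := inter_eq_left.mpr hsub
  have h3 : edg K ∩ q = ∅ := by
    rw [← disjoint_iff_inter_eq_empty]
    exact Disjoint.mono_left hsub hpq
  unfold wt cc de at h1
  rw [if_pos hcard, if_pos hcard, h2, h3, card_edg, hcard, card_empty, pow_zero, mul_one,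
    ← mul_pow] at h1
  norm_num at h1

lemma dense {r t : ℕ} (ht : 1 ≤ t) (hr : r ≠ 16 * t + 1) {p q E : Finset (Sym2 (Fin n))}
    (hE : ∀ e : Sym2 (Fin n), e ∈ E ↔ ¬ e.IsDiag) (hpq : Disjoint p q) (hu : p ∪ q = E)
    (h : Phi (II n r t) (edg (N := n)) (cc n r t) (de n r) p q < 1)
    (A : Finset (Fin n)) (hA : A.card = 16 * t + 1) :
    5 * ((16 * t + 1) * (16 * t + 1 - 1)) < 8 * dd q A := by
  have hq : ∀ e ∈ q, ¬ e.IsDiag := fun e he => (hE e).mp (hu ▸ mem_union_right p he)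
  rw [dd_eq hq]
  have h1 := wt_lt h (K := A) (by unfold II; rw [mem_union, mem_fam, mem_fam]; exact Or.inr hA)
  have hsum : (edg A ∩ p).card + (edg A ∩ q).card = 8 * (t * (16 * t + 1)) := by
    rw [← card_union_of_disjoint, ← inter_union_distrib_left, hu]
    · have h2 : edg A ∩ E = edg A := by
        rw [inter_eq_left]
        intro e he
        rw [hE]
        have := edg_subset_EE A he
        rwa [Pool.Agent.Helper40.K9.mem_EE] at this
      rw [h2, card_edg, hA, Nat.choose_two_right]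
      have : (16 * t + 1) * (16 * t + 1 - 1) = 2 * (8 * (t * (16 * t + 1))) := by
        rw [Nat.add_sub_cancel]; ring
      omega
    · exact Disjoint.mono inter_subset_right inter_subset_right hpq
  set M := t * (16 * t + 1) with hM
  set x := (edg A ∩ p).card with hx
  set y := (edg A ∩ q).card with hy
  have h3 : 5 * M < y := by
    by_contra hcon
    push Not at hcon
    have hx3 : 3 * M ≤ x := by omega
    unfold wt cc de at h1
    rw [if_neg (by rw [hA]; exact hr.symm), if_neg (by rw [hA]; exact hr.symm),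
      ← hx, ← hy] at h1
    obtain ⟨d, hd⟩ : ∃ d, x = 3 * M + d := ⟨x - 3 * M, by omega⟩
    have hyd : 5 * M = y + d := by omega
    have h4 : (1 : ℝ) ≤ (1 / W8) ^ M * (1 + 2 * (1 / 16)) ^ x * (1 - 1 / 16) ^ y := by
      have e1 : (1 + 2 * (1 / 16) : ℝ) = 9 / 8 := by norm_num
      have e2 : (1 - 1 / 16 : ℝ) = 15 / 16 := by norm_num
      rw [e1, e2, hd, pow_add, pow_mul (9 / 8 : ℝ) 3 M]
      have e3 : (15 / 16 : ℝ) ^ (5 * M) ≤ (9 / 8 : ℝ) ^ d * (15 / 16 : ℝ) ^ y := by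
        rw [hyd, pow_add, mul_comm]
        refine mul_le_mul_of_nonneg_right ?_ (by positivity)
        exact pow_le_pow_left₀ (by norm_num) (by norm_num) _
      have e4 : (1 / W8) ^ M * (((9 / 8 : ℝ) ^ 3) ^ M * (15 / 16 : ℝ) ^ (5 * M)) = 1 := by
        rw [pow_mul (15 / 16 : ℝ) 5 M, ← mul_pow, ← mul_pow]
        have : (1 / W8) * ((9 / 8 : ℝ) ^ 3 * (15 / 16) ^ 5) = 1 := by
          have := W8_pos
          rw [show ((9 / 8 : ℝ) ^ 3 * (15 / 16) ^ 5) = W8 from rfl]
          field_simp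
        rw [this, one_pow]
      calc (1 : ℝ) = (1 / W8) ^ M * (((9 / 8 : ℝ) ^ 3) ^ M * (15 / 16 : ℝ) ^ (5 * M)) := e4.symm
        _ ≤ (1 / W8) ^ M * (((9 / 8 : ℝ) ^ 3) ^ M * ((9 / 8 : ℝ) ^ d * (15 / 16 : ℝ) ^ y)) := by
            have := W8_pos
            gcongr
        _ = _ := by ring
    linarith
  rw [Nat.add_sub_cancel]
  have h5 : (16 * t + 1) * (16 * t) = 16 * M := by rw [hM]; ring
  rw [h5]
  omega

theorem final {s t : ℕ} (ht : 1 ≤ t) (hr : 2 * s + 1 ≠ 16 * t + 1)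
    (hbig : (8 / 5 : ℝ) ^ (2 * s) * ((16 * t + 1 : ℕ) + 5 / 3) ≤ n)
    {p q E : Finset (Sym2 (Fin n))}
    (hE : ∀ e : Sym2 (Fin n), e ∈ E ↔ ¬ e.IsDiag) (hpq : Disjoint p q) (hu : p ∪ q = E)
    (h : Phi (II n (2 * s + 1) t) (edg (N := n)) (cc n (2 * s + 1) t) (de n (2 * s + 1)) p q < 1) :
    ∃ k : ℕ, ¬ (SimpleGraph.fromEdgeSet (q : Set (Sym2 (Fin n)))).CliqueFree k ∧
      (SimpleGraph.fromEdgeSet (p : Set (Sym2 (Fin n)))).CliqueFree k := by
  refine ⟨2 * s + 1, ?_, no_clique hpq h⟩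
  have hq : ∀ e ∈ q, ¬ e.IsDiag := fun e he => (hE e).mp (hu ▸ mem_union_right p he)
  have h1 := dd_large (q := q) hq (a := 16 * t + 1) (by omega)
    (fun A hA => dense ht hr hE hpq hu h A hA)
  have h2 : ∀ B : Finset (Fin n), 16 * t + 1 ≤ B.card →
      5 * (B.card * (B.card - 1)) < 8 * dd q B := by
    intro B hB
    obtain ⟨k, hk⟩ : ∃ k, B.card = 16 * t + 1 + k := ⟨B.card - (16 * t + 1), by omega⟩
    rw [hk]
    exact h1 k B hk
  obtain ⟨K, _, hK2, hK3⟩ := chain (q := q) hq (a := 16 * t + 1) (by omega) h2 (2 * s) univ (by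
    rw [card_univ, Fintype.card_fin]
    linarith)
  intro hfree
  refine hfree K ?_
  rw [SimpleGraph.isNClique_iff]
  refine ⟨?_, hK2⟩
  intro x hx y hy hxy
  rw [SimpleGraph.fromEdgeSet_adj]
  exact ⟨by exact_mod_cast hK3 x (by exact_mod_cast hx) y (by exact_mod_cast hy) hxy, hxy⟩

theorem game {s t : ℕ} (ht : 1 ≤ t) (hr : 2 * s + 1 ≠ 16 * t + 1)
    (hbig : (8 / 5 : ℝ) ^ (2 * s) * ((16 * t + 1 : ℕ) + 5 / 3) ≤ n)
    (hsmall : 3 * ((n.choose (2 * s + 1) : ℝ) * (1 / 3) ^ ((2 * s + 1).choose 2) +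
      (n.choose (16 * t + 1) : ℝ) * (1 / W8) ^ (t * (16 * t + 1))) < 1)
    (E : Finset (Sym2 (Fin n))) (hE : ∀ e : Sym2 (Fin n), e ∈ E ↔ ¬ e.IsDiag) :
    ∃ S : Set (Finset (Sym2 (Fin n)) × Finset (Sym2 (Fin n))),
      ((∅ : Finset (Sym2 (Fin n))), (∅ : Finset (Sym2 (Fin n)))) ∈ S ∧
      ∀ p ∈ S,
        (p.1 ∪ p.2 = E →
          ∃ k : ℕ, ¬ (SimpleGraph.fromEdgeSet (p.2 : Set (Sym2 (Fin n)))).CliqueFree k ∧
            (SimpleGraph.fromEdgeSet (p.1 : Set (Sym2 (Fin n)))).CliqueFree k) ∧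
        (∀ e ∈ E, e ∉ p.1 → e ∉ p.2 →
          (insert e p.1 ∪ p.2 = E →
            ∃ k : ℕ, ¬ (SimpleGraph.fromEdgeSet (p.2 : Set (Sym2 (Fin n)))).CliqueFree k ∧
              (SimpleGraph.fromEdgeSet ((insert e p.1 : Finset (Sym2 (Fin n))) :
                Set (Sym2 (Fin n)))).CliqueFree k) ∧
          (insert e p.1 ∪ p.2 ≠ E →
            ∃ T : Finset (Sym2 (Fin n)), T ⊆ E ∧ Disjoint T (insert e p.1 ∪ p.2) ∧
              T.card = min 2 (E.card - (insert e p.1 ∪ p.2).card) ∧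
              (insert e p.1, p.2 ∪ T) ∈ S)) := by
  have hc := cc_nonneg (n := n) (2 * s + 1) t
  have h0 := de_nonneg (n := n) (2 * s + 1)
  have h1 := de_le (n := n) (2 * s + 1)
  refine ⟨Good (II n (2 * s + 1) t) (edg (N := n)) (cc n (2 * s + 1) t) (de n (2 * s + 1)) E,
    ?_, ?_⟩
  · apply good_start hc h0 h1
    rw [Phi_init hr]
    exact hsmall
  · intro p hp
    refine ⟨fun hu => final ht hr hbig hE hp.2.2.1 hu hp.2.2.2.1, ?_⟩
    intro e he he1 he2
    refine ⟨fun hu => ?_, fun hne => good_step hc h0 h1 hp he he1 he2 hne⟩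
    refine final ht hr hbig hE ?_ hu (good_after hc h0 h1 hp he he1 he2)
    rw [disjoint_insert_left]
    exact ⟨he2, hp.2.2.1⟩

end Pool.Agent.Helper40.CQ
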