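import Pool.Agent.Helper40.Clq12b

/-!
Choice of the parameters in the clique building game.
-/

set_option autoImplicit false
set_option linter.unusedSectionVars false
set_option linter.unusedVariables false

namespace Pool.Agent.Helper40.CQ

open Finset

lemma poly_le (m : ℕ) (hm : 131 ≤ m) : (368 * m + 739) ^ 7 * 2 ^ 21 ≤ 2 ^ m := by
  induction m, hm using Nat.le_induction with
  | base => norm_num
  | succ m hm ih =>
      have h1 : (368 * (m + 1) + 739) ^ 7 ≤ 2 * (368 * m + 739) ^ 7 := by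
        have h2 : 100 * (368 * (m + 1) + 739) ≤ 101 * (368 * m + 739) := by
          clear ih
          omega
        have h3 := Nat.pow_le_pow_left h2 7
        rw [mul_pow, mul_pow] at h3
        generalize (368 * (m + 1) + 739) ^ 7 = X at h3 ⊢
        generalize (368 * m + 739) ^ 7 = Y at h3 ⊢
        norm_num at h3
        omega
      rw [pow_succ 2 m]
      generalize (368 * (m + 1) + 739) ^ 7 = X at h1 ⊢
      generalize (368 * m + 739) ^ 7 = Y at h1 ih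
      generalize 2 ^ m = Z at ih ⊢
      generalize 2 ^ 21 = T at ih ⊢
      nlinarith [Nat.mul_le_mul_right T h1]

lemma W8_low : (2 : ℝ) ≤ W8 ^ 23 := by
  unfold W8
  norm_num

lemma chain_num {m s : ℕ} (hm : 131 ≤ m) (hs : 19 * s ≤ 12 * m + 42) :
    (8 / 5 : ℝ) ^ (2 * s) * (368 * m + 739) ≤ 2 ^ m := by
  have h1 : (8 / 5 : ℝ) ^ (14 * s) ≤ 2 ^ (6 * m + 21) := by
    have h2 : ((8 / 5 : ℝ) ^ (14 * s)) ^ 38 ≤ (2 ^ (6 * m + 21)) ^ 38 := by
      rw [← pow_mul, ← pow_mul]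
      have e1 : 14 * s * 38 = 28 * (19 * s) := by ring
      have e2 : (6 * m + 21) * 38 = 19 * (12 * m + 42) := by ring
      rw [e1, e2, pow_mul (8 / 5 : ℝ) 28 (19 * s), pow_mul (2 : ℝ) 19 (12 * m + 42)]
      calc ((8 / 5 : ℝ) ^ 28) ^ (19 * s) ≤ ((2 : ℝ) ^ 19) ^ (19 * s) :=
            pow_le_pow_left₀ (by positivity) (by norm_num) _
        _ ≤ ((2 : ℝ) ^ 19) ^ (12 * m + 42) := pow_le_pow_right₀ (by norm_num) hs
    exact le_of_pow_le_pow_left₀ (by norm_num) (by positivity) h2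
  have h3 : ((368 * m + 739 : ℕ) : ℝ) ^ 7 * 2 ^ 21 ≤ 2 ^ m := by
    exact_mod_cast poly_le m hm
  have h4 : ((8 / 5 : ℝ) ^ (2 * s) * (368 * m + 739)) ^ 7 ≤ (2 ^ m) ^ 7 := by
    rw [mul_pow, ← pow_mul]
    have e1 : 2 * s * 7 = 14 * s := by ring
    rw [e1]
    push_cast at h3
    calc (8 / 5 : ℝ) ^ (14 * s) * (368 * m + 739) ^ 7
        ≤ 2 ^ (6 * m + 21) * (368 * m + 739) ^ 7 :=
          mul_le_mul_of_nonneg_right h1 (by positivity)
      _ = 2 ^ (6 * m) * ((368 * m + 739) ^ 7 * 2 ^ 21) := by rw [pow_add]; ring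
      _ ≤ 2 ^ (6 * m) * 2 ^ m := mul_le_mul_of_nonneg_left h3 (by positivity)
      _ = (2 ^ m) ^ 7 := by rw [← pow_mul, ← pow_add]; congr 1; omega
  exact le_of_pow_le_pow_left₀ (by norm_num) (by positivity) h4

lemma three_num {m s : ℕ} (hs : 12 * m + 24 ≤ 19 * s) : (2 : ℝ) ^ (m + 2) ≤ 3 ^ s := by
  have h2 : ((2 : ℝ) ^ (m + 2)) ^ 19 ≤ (3 ^ s) ^ 19 := by
    rw [← pow_mul, ← pow_mul]
    have e1 : (m + 2) * 19 = 19 * (m + 2) := by ring
    have e2 : s * 19 = 19 * s := by ring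
    rw [e1, e2, pow_mul]
    calc ((2 : ℝ) ^ 19) ^ (m + 2) ≤ ((3 : ℝ) ^ 12) ^ (m + 2) :=
          pow_le_pow_left₀ (by positivity) (by norm_num) _
      _ = 3 ^ (12 * m + 24) := by rw [← pow_mul]; congr 1
      _ ≤ 3 ^ (19 * s) := pow_le_pow_right₀ (by norm_num) hs
  exact le_of_pow_le_pow_left₀ (by norm_num) (by positivity) h2

lemma small_term {n m k : ℕ} {x : ℝ} (hn : n < 2 ^ (m + 1)) (hx : 2 ^ (m + 2) ≤ x)
    (hk : 4 ≤ k) : (n.choose k : ℝ) * (1 / x) ^ k ≤ 1 / 16 := by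
  have hx0 : 0 < x := lt_of_lt_of_le (by positivity) hx
  have h1 : (n.choose k : ℝ) ≤ (n : ℝ) ^ k := by exact_mod_cast Nat.choose_le_pow n k
  have h2 : (n : ℝ) ≤ 2 ^ (m + 1) := by exact_mod_cast hn.le
  have h3 : (n : ℝ) * (1 / x) ≤ 1 / 2 := by
    rw [mul_one_div, div_le_div_iff₀ hx0 (by norm_num)]
    have : (2 : ℝ) ^ (m + 2) = 2 ^ (m + 1) * 2 := by ring
    linarith
  calc (n.choose k : ℝ) * (1 / x) ^ k ≤ (n : ℝ) ^ k * (1 / x) ^ k :=
        mul_le_mul_of_nonneg_right h1 (by positivity)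
    _ = ((n : ℝ) * (1 / x)) ^ k := by rw [mul_pow]
    _ ≤ (1 / 2) ^ k := pow_le_pow_left₀ (by positivity) h3 k
    _ ≤ (1 / 2) ^ 4 := pow_le_pow_of_le_one (by norm_num) (by norm_num) hk
    _ = 1 / 16 := by norm_num

theorem params (n : ℕ) (hn : 10 ^ 40 ≤ n) : ∃ s t : ℕ, 1 ≤ t ∧ 2 * s + 1 ≠ 16 * t + 1 ∧
    (8 / 5 : ℝ) ^ (2 * s) * ((16 * t + 1 : ℕ) + 5 / 3) ≤ n ∧
    3 * ((n.choose (2 * s + 1) : ℝ) * (1 / 3) ^ ((2 * s + 1).choose 2) +
      (n.choose (16 * t + 1) : ℝ) * (1 / W8) ^ (t * (16 * t + 1))) < 1 := by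
  have hn0 : n ≠ 0 := by
    intro h
    rw [h] at hn
    norm_num at hn
  obtain ⟨m, hm⟩ : ∃ m, m = Nat.log 2 n := ⟨_, rfl⟩
  have hlow : 2 ^ m ≤ n := by rw [hm]; exact Nat.pow_log_le_self 2 hn0
  have hup : n < 2 ^ (m + 1) := by rw [hm]; exact Nat.lt_pow_succ_log_self (by norm_num) n
  have hm1 : 131 ≤ m := by
    by_contra hcon
    push Not at hcon
    have h1 : n < 2 ^ 131 := lt_of_lt_of_le hup (Nat.pow_le_pow_right (by norm_num) (by omega))
    have h2 : (2 : ℕ) ^ 131 ≤ 10 ^ 40 := by norm_num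
    omega
  refine ⟨(12 * m + 42) / 19, 23 * (m + 2), by omega, by omega, ?_, ?_⟩
  · have h1 := chain_num (m := m) (s := (12 * m + 42) / 19) hm1 (by omega)
    have h2 : (2 : ℝ) ^ m ≤ n := by exact_mod_cast hlow
    have h3 : (((16 * (23 * (m + 2)) + 1 : ℕ) : ℝ) + 5 / 3) ≤ 368 * m + 739 := by
      push_cast
      linarith
    calc (8 / 5 : ℝ) ^ (2 * ((12 * m + 42) / 19)) * ((16 * (23 * (m + 2)) + 1 : ℕ) + 5 / 3)
        ≤ (8 / 5 : ℝ) ^ (2 * ((12 * m + 42) / 19)) * (368 * m + 739) :=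
          mul_le_mul_of_nonneg_left h3 (by positivity)
      _ ≤ 2 ^ m := h1
      _ ≤ n := h2
  · set s := (12 * m + 42) / 19 with hs
    set t := 23 * (m + 2) with ht
    have h1 : (n.choose (2 * s + 1) : ℝ) * (1 / 3) ^ ((2 * s + 1).choose 2) ≤ 1 / 16 := by
      have e1 : (2 * s + 1).choose 2 = s * (2 * s + 1) := by
        rw [Nat.choose_two_right, Nat.add_sub_cancel]
        have : (2 * s + 1) * (2 * s) = 2 * (s * (2 * s + 1)) := by ring
        omega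
      rw [e1, pow_mul]
      have e2 : ((1 / 3 : ℝ) ^ s) = 1 / 3 ^ s := by rw [div_pow, one_pow]
      rw [e2]
      exact small_term hup (three_num (by omega)) (by omega)
    have h2 : (n.choose (16 * t + 1) : ℝ) * (1 / W8) ^ (t * (16 * t + 1)) ≤ 1 / 16 := by
      rw [pow_mul]
      have e2 : ((1 / W8 : ℝ) ^ t) = 1 / W8 ^ t := by rw [div_pow, one_pow]
      rw [e2]
      refine small_term hup ?_ (by omega)
      rw [ht, pow_mul]
      exact pow_le_pow_left₀ (by norm_num) W8_low _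
    linarith

end Pool.Agent.Helper40.CQ
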