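import Mathlib
import Pool.Agent.Helper40.Beck

/-!
A regular sub-family of the combinatorial lines of `[n]^d`.
-/

set_option autoImplicit false
set_option linter.unusedSectionVars false
set_option linter.unusedVariables false

namespace Pool.Agent.Helper40.Comb

open Finset

/-- the point of the line with template `w` at parameter `t` -/
def pt {d n : ℕ} (w : Fin d → Option (Fin n)) (t : Fin n) : Fin d → Fin n :=
  fun j => (w j).getD t

/-- templates with `i` moving coordinates and each value occurring exactly `c` times -/
def fam (d n i c : ℕ) : Finset (Fin d → Option (Fin n)) :=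
  univ.filter (fun w => (univ.filter (fun j => w j = none)).card = i ∧
    ∀ k, (univ.filter (fun j => w j = some k)).card = c)

/-- the points of a template -/
def pts {d n : ℕ} (w : Fin d → Option (Fin n)) : Finset (Fin d → Fin n) := univ.image (pt w)

/-- all points on the lines of the family -/
def cover (d n i c : ℕ) : Finset (Fin d → Fin n) :=
  (fam d n i c ×ˢ (univ : Finset (Fin n))).image (fun p => pt p.1 p.2)

lemma mem_fam {d n i c : ℕ} {w : Fin d → Option (Fin n)} :
    w ∈ fam d n i c ↔ (univ.filter (fun j => w j = none)).card = i ∧
      ∀ k, (univ.filter (fun j => w j = some k)).card = c := by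
  simp [fam]

lemma pts_subset {d n i c : ℕ} {w : Fin d → Option (Fin n)} (hw : w ∈ fam d n i c) :
    pts w ⊆ cover d n i c := by
  intro x hx
  simp only [pts, mem_image, mem_univ, true_and] at hx
  obtain ⟨t, rfl⟩ := hx
  simp only [cover, mem_image, mem_product, mem_univ, and_true, Prod.exists]
  exact ⟨w, t, hw, rfl⟩

lemma exists_none {d n i c : ℕ} (hi : 0 < i) {w : Fin d → Option (Fin n)}
    (hw : w ∈ fam d n i c) : ∃ j, w j = none := by
  rw [mem_fam] at hw
  have : 0 < (univ.filter (fun j => w j = none)).card := by omega
  obtain ⟨j, hj⟩ := card_pos.1 this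
  exact ⟨j, by simpa using hj⟩

lemma pt_injective {d n i c : ℕ} (hi : 0 < i) {w : Fin d → Option (Fin n)}
    (hw : w ∈ fam d n i c) : Function.Injective (pt w) := by
  obtain ⟨j, hj⟩ := exists_none hi hw
  intro t t' h
  have := congrFun h j
  simpa [pt, hj] using this

lemma card_pts {d n i c : ℕ} (hi : 0 < i) {w : Fin d → Option (Fin n)}
    (hw : w ∈ fam d n i c) : (pts w).card = n := by
  unfold pts
  rw [card_image_of_injective _ (pt_injective hi hw)]
  simp

/-- a template is determined by two different points on its line -/
lemma template_eq {d n : ℕ} {w : Fin d → Option (Fin n)} {x y : Fin d → Fin n} (hxy : x ≠ y)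
    (hx : x ∈ pts w) (hy : y ∈ pts w) :
    w = fun j => if x j = y j then some (x j) else none := by
  simp only [pts, mem_image, mem_univ, true_and] at hx hy
  obtain ⟨t, rfl⟩ := hx
  obtain ⟨s, rfl⟩ := hy
  have hts : t ≠ s := fun h => hxy (by rw [h])
  funext j
  cases hj : w j with
  | none => simp [pt, hj, hts]
  | some k => simp [pt, hj]

lemma pair_unique {d n : ℕ} {w w' : Fin d → Option (Fin n)} {x y : Fin d → Fin n} (hxy : x ≠ y)
    (hx : x ∈ pts w) (hy : y ∈ pts w) (hx' : x ∈ pts w') (hy' : y ∈ pts w') : w = w' := by
  rw [template_eq hxy hx hy, template_eq hxy hx' hy']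

/-- replace the coordinates in `I` by the moving symbol -/
def tmpl {d n : ℕ} (x : Fin d → Fin n) (I : Finset (Fin d)) : Fin d → Option (Fin n) :=
  fun j => if j ∈ I then none else some (x j)

lemma tmpl_mem {d n : ℕ} {x : Fin d → Fin n} {I : Finset (Fin d)} {j : Fin d} (h : j ∈ I) :
    tmpl x I j = none := if_pos h

lemma tmpl_not_mem {d n : ℕ} {x : Fin d → Fin n} {I : Finset (Fin d)} {j : Fin d} (h : j ∉ I) :
    tmpl x I j = some (x j) := if_neg h

lemma tmpl_injective {d n : ℕ} (x : Fin d → Fin n) : Function.Injective (tmpl x) := by
  intro I J h
  ext j
  have := congrFun h j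
  unfold tmpl at this
  by_cases h1 : j ∈ I <;> by_cases h2 : j ∈ J <;> simp_all

/-- every point of the cover lies on at least `choose (c+i) i` lines of the family -/
lemma degree {d n i c : ℕ} (x : Fin d → Fin n) (hx : x ∈ cover d n i c) :
    (c + i).choose i ≤ ((fam d n i c ×ˢ (univ : Finset (Fin n))).filter
      (fun p => pt p.1 p.2 = x)).card := by
  simp only [cover, mem_image, mem_product, mem_univ, and_true, Prod.exists] at hx
  obtain ⟨w, t, hw, rfl⟩ := hx
  rw [mem_fam] at hw
  obtain ⟨hw0, hwk⟩ := hw
  set x := pt w t with hxdef
  -- the class of t
  have hS : univ.filter (fun j => x j = t) =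
      univ.filter (fun j => w j = some t) ∪ univ.filter (fun j => w j = none) := by
    ext j
    simp only [mem_filter, mem_univ, true_and, mem_union, hxdef, pt]
    cases hj : w j with
    | none => simp
    | some k => simp
  have hScard : (univ.filter (fun j => x j = t)).card = c + i := by
    rw [hS, card_union_of_disjoint, hwk, hw0]
    rw [Finset.disjoint_filter]
    intro j _ h1 h2
    rw [h1] at h2
    exact absurd h2 (by simp)
  have hother : ∀ k, k ≠ t → univ.filter (fun j => x j = k) = univ.filter (fun j => w j = some k) := by
    intro k hk
    ext j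
    simp only [mem_filter, mem_univ, true_and, hxdef, pt]
    cases hj : w j with
    | none => simp [Ne.symm hk]
    | some l => simp
  calc (c + i).choose i = ((univ.filter (fun j => x j = t)).powersetCard i).card := by
        rw [card_powersetCard, hScard]
    _ = (((univ.filter (fun j => x j = t)).powersetCard i).image (fun I => (tmpl x I, t))).card := by
        rw [card_image_of_injective]
        intro I J h
        exact tmpl_injective x (Prod.ext_iff.1 h).1
    _ ≤ _ := by
        apply card_le_card
        intro p hp
        simp only [mem_image, mem_powersetCard] at hp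
        obtain ⟨I, ⟨hI, hIc⟩, rfl⟩ := hp
        simp only [mem_filter, mem_product, mem_univ, and_true, mem_fam]
        refine ⟨⟨?_, ?_⟩, ?_⟩
        · have : univ.filter (fun j => tmpl x I j = none) = I := by
            ext j
            simp only [mem_filter, mem_univ, true_and]
            by_cases hj : j ∈ I
            · rw [tmpl_mem hj]; simp [hj]
            · rw [tmpl_not_mem hj]; simp [hj]
          rw [this, hIc]
        · intro k
          by_cases hk : k = t
          · subst hk
            have : univ.filter (fun j => tmpl x I j = some k) =
                univ.filter (fun j => x j = k) \ I := by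
              ext j
              simp only [mem_filter, mem_univ, true_and, mem_sdiff]
              by_cases hj : j ∈ I
              · rw [tmpl_mem hj]
                simp [hj]
              · rw [tmpl_not_mem hj]
                simp [hj]
            rw [this, card_sdiff_of_subset hI, hScard, hIc]
            omega
          · have : univ.filter (fun j => tmpl x I j = some k) =
                univ.filter (fun j => x j = k) := by
              ext j
              simp only [mem_filter, mem_univ, true_and]
              by_cases hj : j ∈ I
              · have hjt : x j = t := by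
                  have := hI hj
                  simpa using this
                rw [tmpl_mem hj, hjt]
                simp [Ne.symm hk]
              · rw [tmpl_not_mem hj]
                simp
            rw [this, hother k hk, hwk]
        · funext j
          by_cases hj : j ∈ I
          · have hjt : x j = t := by
              have := hI hj
              simpa using this
            simp only [pt]
            rw [tmpl_mem hj, hjt]
            rfl
          · simp only [pt]
            rw [tmpl_not_mem hj]
            rfl

lemma count {d n i c : ℕ} :
    (c + i).choose i * (cover d n i c).card ≤ (fam d n i c).card * n := by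
  have h := Finset.mul_card_image_le_card (fam d n i c ×ˢ (univ : Finset (Fin n)))
    (f := fun p => pt p.1 p.2) ((c + i).choose i) (fun x hx => degree x hx)
  rw [card_product, card_univ, Fintype.card_fin] at h
  exact h

lemma fam_nonempty {d n i c : ℕ} (hd : d = i + n * c) : (fam d n i c).Nonempty := by
  have hcard : Fintype.card (Fin i ⊕ (Fin n × Fin c)) = Fintype.card (Fin d) := by
    simp [hd]
  let e : Fin i ⊕ (Fin n × Fin c) ≃ Fin d := Fintype.equivOfCardEq hcard
  let g : Fin i ⊕ (Fin n × Fin c) → Option (Fin n) :=
    fun s => match s with
      | Sum.inl _ => none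
      | Sum.inr p => some p.1
  refine ⟨fun j => g (e.symm j), ?_⟩
  rw [mem_fam]
  have key : ∀ o : Option (Fin n), (univ.filter (fun j => g (e.symm j) = o)).card =
      (univ.filter (fun s => g s = o)).card := by
    intro o
    apply card_bij (fun j _ => e.symm j)
    · intro j hj
      simpa using hj
    · intro a _ b _ h
      exact e.symm.injective h
    · intro s hs
      refine ⟨e s, ?_, ?_⟩
      · simpa using hs
      · simp
  constructor
  · rw [key]
    have : univ.filter (fun s => g s = none) = univ.image (Sum.inl : Fin i → Fin i ⊕ (Fin n × Fin c)) := by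
      ext s
      cases s with
      | inl a => simp [g]
      | inr p => simp [g]
    rw [this, card_image_of_injective _ Sum.inl_injective]
    simp
  · intro k
    rw [key]
    have : univ.filter (fun s => g s = some k) =
        univ.image (fun a : Fin c => (Sum.inr (k, a) : Fin i ⊕ (Fin n × Fin c))) := by
      ext s
      cases s with
      | inl a => simp [g]
      | inr p =>
        obtain ⟨p1, p2⟩ := p
        simp [g]
        constructor
        · intro h; exact h.symm
        · intro h; exact h.symm
    rw [this, card_image_of_injective]
    · simp
    · intro a b h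
      simpa using h

/-- If `8 * choose (c+i) i > n * 2^n`, the first player wins weakly on `[n]^(i+nc)`
already with combinatorial lines. -/
theorem comb_win {d n i c : ℕ} (hd : d = i + n * c) (hi : 0 < i) (hn : 0 < n)
    (hbig : n * 2 ^ n < 8 * (c + i).choose i) :
    ∃ σ : List (Fin d → Fin n) → (Fin d → Fin n), ∀ τ : List (Fin d → Fin n) → (Fin d → Fin n),
      ∃ k : ℕ, ∃ w : Fin d → Option (Fin n), (∃ j, w j = none) ∧
        ∀ t : Fin n, pt w t ∈ Beck.play σ τ k ∧ Even ((Beck.play σ τ k).idxOf (pt w t)) := by
  have : NeZero n := ⟨hn.ne'⟩
  have : Inhabited (Fin d → Fin n) := ⟨fun _ => 0⟩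
  have hcov : (cover d n i c).Nonempty := by
    obtain ⟨w, hw⟩ := fam_nonempty hd
    exact ⟨pt w 0, pts_subset hw (by simp [pts])⟩
  have hcount := @count d n i c
  have hineq : n * 2 ^ n * (cover d n i c).card < 8 * (fam d n i c).card * n := by
    calc n * 2 ^ n * (cover d n i c).card < 8 * (c + i).choose i * (cover d n i c).card :=
          Nat.mul_lt_mul_of_pos_right hbig hcov.card_pos
      _ = 8 * ((c + i).choose i * (cover d n i c).card) := by ring
      _ ≤ 8 * ((fam d n i c).card * n) := Nat.mul_le_mul_left _ hcount
      _ = 8 * (fam d n i c).card * n := by ring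
  have hineq2 : 2 ^ n * (cover d n i c).card < 8 * (fam d n i c).card := by
    have : n * (2 ^ n * (cover d n i c).card) < n * (8 * (fam d n i c).card) := by
      calc n * (2 ^ n * (cover d n i c).card) = n * 2 ^ n * (cover d n i c).card := by ring
        _ < 8 * (fam d n i c).card * n := hineq
        _ = n * (8 * (fam d n i c).card) := by ring
    exact Nat.lt_of_mul_lt_mul_left this
  have hreal : ((cover d n i c).card : ℝ) / 8 < ((fam d n i c).card : ℝ) * (1/2) ^ n := by
    have h2 : ((2:ℝ) ^ n) * ((cover d n i c).card : ℝ) < 8 * ((fam d n i c).card : ℝ) := by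
      exact_mod_cast hineq2
    have h3 : (0:ℝ) < 2 ^ n := by positivity
    rw [one_div, inv_pow, ← div_eq_mul_inv, div_lt_div_iff₀ (by norm_num) h3]
    linarith
  refine ⟨Beck.greedy (fam d n i c) pts (cover d n i c), fun τ => ?_⟩
  obtain ⟨w, hw, hwin⟩ := Beck.maker_wins (fam d n i c) pts (cover d n i c)
    (fun a ha => pts_subset ha)
    (fun a _ b _ x y hxy h1 h2 h3 h4 => pair_unique hxy h1 h2 h3 h4)
    n (fun a ha => card_pts hi ha) hreal τ
  refine ⟨_, w, exists_none hi hw, fun t => hwin (pt w t) (by simp [pts])⟩

end Pool.Agent.Helper40.Comb
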