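import Mathlib

set_option autoImplicit false

open scoped TensorProduct RealInnerProductSpace
namespace Pool.Agent.Helper40.Tet
abbrev P3 := EuclideanSpace ℝ (Fin 3)

/-- The component of `w` orthogonal to `e`. -/
noncomputable def perp (e w : P3) : P3 := w - (⟪e, w⟫ / ⟪e, e⟫) • e

/-- The dihedral angle of the tetrahedron `ABCD` at the edge `AB`. -/
noncomputable def dihedral (A B C D : P3) : ℝ :=
  InnerProductGeometry.angle (perp (B - A) (C - A)) (perp (B - A) (D - A))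

/-- The group `ℝ / πℤ`. -/
abbrev AngMod := ℝ ⧸ AddSubgroup.zmultiples Real.pi

/-- The Dehn invariant of the tetrahedron with vertices `v 0, v 1, v 2, v 3`. -/
noncomputable def dehn (v : Fin 4 → P3) : ℝ ⊗[ℤ] AngMod :=
  dist (v 0) (v 1) ⊗ₜ[ℤ] (dihedral (v 0) (v 1) (v 2) (v 3) : AngMod)
  + dist (v 0) (v 2) ⊗ₜ[ℤ] (dihedral (v 0) (v 2) (v 1) (v 3) : AngMod)
  + dist (v 0) (v 3) ⊗ₜ[ℤ] (dihedral (v 0) (v 3) (v 1) (v 2) : AngMod)
  + dist (v 1) (v 2) ⊗ₜ[ℤ] (dihedral (v 1) (v 2) (v 0) (v 3) : AngMod)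
  + dist (v 1) (v 3) ⊗ₜ[ℤ] (dihedral (v 1) (v 3) (v 0) (v 2) : AngMod)
  + dist (v 2) (v 3) ⊗ₜ[ℤ] (dihedral (v 2) (v 3) (v 0) (v 1) : AngMod)

lemma inner_perp (e x y : P3) (he : ⟪e, e⟫ ≠ 0) :
    ⟪perp e x, perp e y⟫ = (⟪x, y⟫ * ⟪e, e⟫ - ⟪e, x⟫ * ⟪e, y⟫) / ⟪e, e⟫ := by
  unfold perp
  rw [inner_sub_left, inner_sub_right, inner_sub_right, inner_smul_left, inner_smul_right,
    inner_smul_left, inner_smul_right, real_inner_comm x e]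
  simp only [conj_trivial]
  field_simp
  ring

lemma inner_of_dist (A B C : P3) :
    ⟪B - A, C - A⟫ = (dist A B ^ 2 + dist A C ^ 2 - dist B C ^ 2) / 2 := by
  have h := real_inner_eq_norm_mul_self_add_norm_mul_self_sub_norm_sub_mul_self_div_two (B - A) (C - A)
  rw [h, dist_comm A B, dist_comm A C, dist_eq_norm, dist_eq_norm, dist_eq_norm]
  rw [show B - A - (C - A) = B - C by abel]
  ring

/-- cosine of the dihedral angle from the Gram entries -/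
lemma cos_dihedral (A B C D : P3) {e2 x2 y2 ex ey xy : ℝ}
    (he : ⟪B - A, B - A⟫ = e2) (hx : ⟪C - A, C - A⟫ = x2) (hy : ⟪D - A, D - A⟫ = y2)
    (hex : ⟪B - A, C - A⟫ = ex) (hey : ⟪B - A, D - A⟫ = ey) (hxy : ⟪C - A, D - A⟫ = xy)
    (hpos : 0 < e2) :
    Real.cos (dihedral A B C D) = (xy * e2 - ex * ey) /
      (Real.sqrt (x2 * e2 - ex ^ 2) * Real.sqrt (y2 * e2 - ey ^ 2)) := by
  have he' : ⟪B - A, B - A⟫ ≠ 0 := by rw [he]; exact hpos.ne'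
  unfold dihedral
  rw [InnerProductGeometry.cos_angle, inner_perp _ _ _ he', ← Real.sqrt_sq (norm_nonneg (perp (B - A) (C - A))),
    ← Real.sqrt_sq (norm_nonneg (perp (B - A) (D - A))), ← real_inner_self_eq_norm_sq,
    ← real_inner_self_eq_norm_sq, inner_perp _ _ _ he', inner_perp _ _ _ he', he, hx, hy, hex, hey, hxy]
  rw [Real.sqrt_div' _ hpos.le, Real.sqrt_div' _ hpos.le]
  have h2 : Real.sqrt e2 * Real.sqrt e2 = e2 := Real.mul_self_sqrt hpos.le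
  have h3 : Real.sqrt e2 ≠ 0 := (Real.sqrt_pos.mpr hpos).ne'
  rw [div_mul_div_comm, h2, div_div_div_cancel_right₀ hpos.ne']
  simp only [sq]


section
open Real


lemma trig_family (s : ℝ) (hs : 4 < s) (a b c d r : ℝ) (ha : 0 < a) (hb : 0 < b) (hc : 0 < c) (hd : 0 < d)
    (hr : 0 < r) (ha2 : a ^ 2 = s + 4) (hb2 : b ^ 2 = s - 4) (hc2 : c ^ 2 = s + 2) (hd2 : d ^ 2 = s - 2)
    (hr2 : r ^ 2 = 3) (A B φ Θ : ℝ) (hA0 : 0 ≤ A) (hA1 : A ≤ π) (hB0 : 0 ≤ B) (hB1 : B ≤ π)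
    (hφ0 : 0 ≤ φ) (hφ1 : φ ≤ π) (hΘ0 : 0 ≤ Θ) (hΘ1 : Θ ≤ π)
    (hA : cos A = r * a / (c * d ^ 2)) (hB : cos B = r * b / (c ^ 2 * d))
    (hφ : cos φ = a * b / (2 * c * d)) (hΘ : cos Θ = (s ^ 2 - 28) / (c ^ 2 * d ^ 2)) :
    2 * A + 2 * B + Θ = 2 * π ∧ 3 * φ = π + B - A := by
  have hc' : c ≠ 0 := hc.ne'
  have hd' : d ≠ 0 := hd.ne'
  have key : ∀ x y : ℝ, 0 ≤ x → 0 ≤ y → x ^ 2 = y ^ 2 → x = y := fun x y hx hy h => by
    have := abs_eq_abs.mpr (sq_eq_sq_iff_eq_or_eq_neg.mp h)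
    rwa [abs_of_nonneg hx, abs_of_nonneg hy] at this
  have hsA : sin A = (s + 1) * b / (c * d ^ 2) := by
    apply key _ _ (sin_nonneg_of_nonneg_of_le_pi hA0 hA1) (by positivity)
    rw [sin_sq, hA, div_pow, div_pow, mul_pow, mul_pow, mul_pow, ← pow_mul, hr2, ha2, hb2, hc2,
      show d ^ (2 * 2) = (d ^ 2) ^ 2 by ring, hd2]
    have h1 : (s + 2) ≠ 0 := by linarith
    have h2 : (s - 2) ≠ 0 := by linarith
    field_simp
    ring
  have hsB : sin B = (s - 1) * a / (c ^ 2 * d) := by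
    have h1s : 0 < s - 1 := by linarith
    apply key _ _ (sin_nonneg_of_nonneg_of_le_pi hB0 hB1) (by positivity)
    rw [sin_sq, hB, div_pow, div_pow, mul_pow, mul_pow, mul_pow, ← pow_mul, hr2, ha2, hb2, hd2,
      show c ^ (2 * 2) = (c ^ 2) ^ 2 by ring, hc2]
    have h1 : (s + 2) ≠ 0 := by linarith
    have h2 : (s - 2) ≠ 0 := by linarith
    field_simp
    ring
  have hsφ : sin φ = r * s / (2 * c * d) := by
    apply key _ _ (sin_nonneg_of_nonneg_of_le_pi hφ0 hφ1) (by positivity)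
    rw [sin_sq, hφ, div_pow, div_pow, mul_pow, mul_pow, mul_pow, mul_pow, hr2, ha2, hb2, hc2, hd2]
    have h1 : (s + 2) ≠ 0 := by linarith
    have h2 : (s - 2) ≠ 0 := by linarith
    field_simp
    ring
  have hC : cos (Θ / 2) = a * b / (c * d) := by
    apply key _ _ (cos_nonneg_of_neg_pi_div_two_le_of_le (by linarith) (by linarith)) (by positivity)
    rw [cos_sq, show 2 * (Θ / 2) = Θ by ring, hΘ, div_pow, mul_pow, mul_pow, ha2, hb2, hc2, hd2]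
    have h1 : (s + 2) ≠ 0 := by linarith
    have h2 : (s - 2) ≠ 0 := by linarith
    field_simp
    ring
  have hcA0 : 0 ≤ cos A := by rw [hA]; positivity
  have hcB0 : 0 ≤ cos B := by rw [hB]; positivity
  have hcφ0 : 0 ≤ cos φ := by rw [hφ]; positivity
  have half : ∀ x : ℝ, 0 ≤ x → x ≤ π → 0 ≤ cos x → x ≤ π / 2 := fun x hx0 hx1 hx => by
    by_contra hcon
    push Not at hcon
    have := cos_neg_of_pi_div_two_lt_of_lt hcon (by linarith [pi_pos])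
    linarith
  have hA2 := half A hA0 hA1 hcA0
  have hB2 := half B hB0 hB1 hcB0
  have hφ2 := half φ hφ0 hφ1 hcφ0
  constructor
  · have h1 : cos (A + B) = cos (π - Θ / 2) := by
      rw [cos_add, cos_pi_sub, hA, hB, hsA, hsB, hC]
      have : (c^2) * (d^2) = s ^ 2 - 4 := by rw [hc2, hd2]; ring
      field_simp
      rw [hr2, this]
      ring
    have h2 := injOn_cos (Set.mem_Icc.mpr ⟨by linarith, by linarith⟩) (Set.mem_Icc.mpr ⟨by linarith, by linarith⟩) h1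
    linarith
  · have h13 : π / 3 ≤ φ := by
      by_contra hcon
      push Not at hcon
      have h1 : cos (π / 3) < cos φ := cos_lt_cos_of_nonneg_of_le_pi hφ0 (by linarith [pi_pos]) hcon
      rw [cos_pi_div_three, hφ] at h1
      rw [div_lt_div_iff₀ (by norm_num) (by positivity)] at h1
      have h2 : (a * b) ^ 2 < (c * d) ^ 2 := by
        rw [mul_pow, mul_pow, ha2, hb2, hc2, hd2]; nlinarith
      have h3 : a * b < c * d := lt_of_pow_lt_pow_left₀ 2 (by positivity) h2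
      nlinarith
    have h1 : sin (3 * φ - π) = sin (B - A) := by
      rw [sin_sub_pi, sin_three_mul, sin_sub, hA, hB, hsA, hsB, hsφ]
      have e1 : (c^2) * (d^2) = s ^ 2 - 4 := by rw [hc2, hd2]; ring
      have e2 : (r * s / (2 * c * d)) ^ 2 = 3 * s ^ 2 / (4 * (s ^ 2 - 4)) := by
        rw [div_pow, mul_pow, mul_pow, mul_pow, hr2, ← e1]; ring
      have e3 : s ^ 2 - 4 ≠ 0 := by nlinarith
      have L : -(3 * (r * s / (2 * c * d)) - 4 * (r * s / (2 * c * d)) ^ 3) = 6 * r * s / (c * d * (s ^ 2 - 4)) := by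
        rw [show (r * s / (2 * c * d)) ^ 3 = (r * s / (2 * c * d)) ^ 2 * (r * s / (2 * c * d)) by ring, e2]
        field_simp
        ring
      rw [L]
      have R : (s - 1) * a / (c ^ 2 * d) * (r * a / (c * d ^ 2)) - r * b / (c ^ 2 * d) * ((s + 1) * b / (c * d ^ 2))
          = r * ((s - 1) * a ^ 2 - (s + 1) * b ^ 2) / (c * d * (c ^ 2 * d ^ 2)) := by
        field_simp
      rw [R, e1, ha2, hb2]
      congr 1
      ring
    have h2 := injOn_sin (Set.mem_Icc.mpr ⟨by linarith, by linarith⟩) (Set.mem_Icc.mpr ⟨by linarith, by linarith⟩) h1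
    linarith

end

lemma dihedral_nonneg (A B C D : P3) : 0 ≤ dihedral A B C D := InnerProductGeometry.angle_nonneg _ _
lemma dihedral_le_pi (A B C D : P3) : dihedral A B C D ≤ Real.pi := InnerProductGeometry.angle_le_pi _ _

/-- cosine of the dihedral angle from the six distances -/
lemma cos_dihedral_dist (A B C D : P3) {ab ac ad bc bd cd : ℝ} (h1 : dist A B = ab) (h2 : dist A C = ac)
    (h3 : dist A D = ad) (h4 : dist B C = bc) (h5 : dist B D = bd) (h6 : dist C D = cd) (hab : ab ≠ 0) :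
    Real.cos (dihedral A B C D) =
      ((ac ^ 2 + ad ^ 2 - cd ^ 2) / 2 * ab ^ 2
        - (ab ^ 2 + ac ^ 2 - bc ^ 2) / 2 * ((ab ^ 2 + ad ^ 2 - bd ^ 2) / 2)) /
      (Real.sqrt (ac ^ 2 * ab ^ 2 - ((ab ^ 2 + ac ^ 2 - bc ^ 2) / 2) ^ 2) *
        Real.sqrt (ad ^ 2 * ab ^ 2 - ((ab ^ 2 + ad ^ 2 - bd ^ 2) / 2) ^ 2)) := by
  have hs : ∀ X Y : P3, ⟪Y - X, Y - X⟫ = dist X Y ^ 2 := fun X Y => by
    rw [inner_of_dist]; simp
  apply cos_dihedral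
  · rw [hs, h1]
  · rw [hs, h2]
  · rw [hs, h3]
  · rw [inner_of_dist, h1, h2, h4]
  · rw [inner_of_dist, h1, h3, h5]
  · rw [inner_of_dist, h2, h3, h6]
  · positivity

theorem dehn_family (s : ℝ) (hs : 4 < s) (v : Fin 4 → P3)
    (h01 : dist (v 0) (v 1) = s + 1) (h02 : dist (v 0) (v 2) = s - 1) (h03 : dist (v 0) (v 3) = 6)
    (h12 : dist (v 1) (v 2) = s) (h13 : dist (v 1) (v 3) = s + 1) (h23 : dist (v 2) (v 3) = s - 1) :
    dehn v = 0 := by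
  obtain ⟨a, ha, ha2⟩ : ∃ a : ℝ, 0 < a ∧ a ^ 2 = s + 4 := ⟨Real.sqrt (s + 4), Real.sqrt_pos.mpr (by linarith), Real.sq_sqrt (by linarith)⟩
  obtain ⟨b, hb, hb2⟩ : ∃ b : ℝ, 0 < b ∧ b ^ 2 = s - 4 := ⟨Real.sqrt (s - 4), Real.sqrt_pos.mpr (by linarith), Real.sq_sqrt (by linarith)⟩
  obtain ⟨c, hc, hc2⟩ : ∃ c : ℝ, 0 < c ∧ c ^ 2 = s + 2 := ⟨Real.sqrt (s + 2), Real.sqrt_pos.mpr (by linarith), Real.sq_sqrt (by linarith)⟩
  obtain ⟨d, hd, hd2⟩ : ∃ d : ℝ, 0 < d ∧ d ^ 2 = s - 2 := ⟨Real.sqrt (s - 2), Real.sqrt_pos.mpr (by linarith), Real.sq_sqrt (by linarith)⟩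
  obtain ⟨r, hr, hr2⟩ : ∃ r : ℝ, 0 < r ∧ r ^ 2 = 3 := ⟨Real.sqrt 3, Real.sqrt_pos.mpr (by norm_num), Real.sq_sqrt (by norm_num)⟩
  have hs0 : 0 < s := by linarith
  have hs1 : 0 < s - 1 := by linarith
  have h10 : dist (v 1) (v 0) = s + 1 := by rw [dist_comm]; exact h01
  have h20 : dist (v 2) (v 0) = s - 1 := by rw [dist_comm]; exact h02
  have h30 : dist (v 3) (v 0) = 6 := by rw [dist_comm]; exact h03
  have h21 : dist (v 2) (v 1) = s := by rw [dist_comm]; exact h12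
  have h31 : dist (v 3) (v 1) = s + 1 := by rw [dist_comm]; exact h13
  have h32 : dist (v 3) (v 2) = s - 1 := by rw [dist_comm]; exact h23
  have F1 : Real.sqrt (3 * s ^ 2 * (s ^ 2 - 4) / 4) = r * s * c * d / 2 := by
    rw [show 3 * s ^ 2 * (s ^ 2 - 4) / 4 = (r * s * c * d / 2) ^ 2 by
      rw [div_pow, mul_pow, mul_pow, mul_pow, hr2, hc2, hd2]; ring]
    exact Real.sqrt_sq (by positivity)
  have F2 : Real.sqrt (36 * (s + 4) * (s - 2)) = 6 * a * d := by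
    rw [show 36 * (s + 4) * (s - 2) = (6 * a * d) ^ 2 by rw [mul_pow, mul_pow, ha2, hd2]; ring]
    exact Real.sqrt_sq (by positivity)
  have F3 : Real.sqrt (36 * (s - 4) * (s + 2)) = 6 * b * c := by
    rw [show 36 * (s - 4) * (s + 2) = (6 * b * c) ^ 2 by rw [mul_pow, mul_pow, hb2, hc2]; ring]
    exact Real.sqrt_sq (by positivity)
  have c01 : Real.cos (dihedral (v 0) (v 1) (v 2) (v 3)) = r * a / (c * d ^ 2) := by
    rw [cos_dihedral_dist _ _ _ _ h01 h02 h03 h12 h13 h23 (by linarith)]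
    rw [show (s - 1) ^ 2 * (s + 1) ^ 2 - (((s + 1) ^ 2 + (s - 1) ^ 2 - s ^ 2) / 2) ^ 2 = 3 * s ^ 2 * (s ^ 2 - 4) / 4 by ring,
      show (6:ℝ) ^ 2 * (s + 1) ^ 2 - (((s + 1) ^ 2 + 6 ^ 2 - (s + 1) ^ 2) / 2) ^ 2 = 36 * (s + 4) * (s - 2) by ring,
      F1, F2, show ((s - 1) ^ 2 + 6 ^ 2 - (s - 1) ^ 2) / 2 * (s + 1) ^ 2 - ((s + 1) ^ 2 + (s - 1) ^ 2 - s ^ 2) / 2 *
        (((s + 1) ^ 2 + 6 ^ 2 - (s + 1) ^ 2) / 2) = 3 * r ^ 2 * s * a ^ 2 by rw [hr2, ha2]; ring]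
    field_simp
    ring
  have c13 : Real.cos (dihedral (v 1) (v 3) (v 0) (v 2)) = r * a / (c * d ^ 2) := by
    rw [cos_dihedral_dist _ _ _ _ h13 h10 h12 h30 h32 h02 (by linarith)]
    rw [show (s + 1) ^ 2 * (s + 1) ^ 2 - (((s + 1) ^ 2 + (s + 1) ^ 2 - 6 ^ 2) / 2) ^ 2 = 36 * (s + 4) * (s - 2) by ring,
      show s ^ 2 * (s + 1) ^ 2 - (((s + 1) ^ 2 + s ^ 2 - (s - 1) ^ 2) / 2) ^ 2 = 3 * s ^ 2 * (s ^ 2 - 4) / 4 by ring,
      F1, F2, show ((s + 1) ^ 2 + s ^ 2 - (s - 1) ^ 2) / 2 * (s + 1) ^ 2 - ((s + 1) ^ 2 + (s + 1) ^ 2 - 6 ^ 2) / 2 *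
        (((s + 1) ^ 2 + s ^ 2 - (s - 1) ^ 2) / 2) = 3 * r ^ 2 * s * a ^ 2 by rw [hr2, ha2]; ring]
    field_simp
    ring
  have c02 : Real.cos (dihedral (v 0) (v 2) (v 1) (v 3)) = r * b / (c ^ 2 * d) := by
    rw [cos_dihedral_dist _ _ _ _ h02 h01 h03 h21 h23 h13 (by linarith)]
    rw [show (s + 1) ^ 2 * (s - 1) ^ 2 - (((s - 1) ^ 2 + (s + 1) ^ 2 - s ^ 2) / 2) ^ 2 = 3 * s ^ 2 * (s ^ 2 - 4) / 4 by ring,
      show (6:ℝ) ^ 2 * (s - 1) ^ 2 - (((s - 1) ^ 2 + 6 ^ 2 - (s - 1) ^ 2) / 2) ^ 2 = 36 * (s - 4) * (s + 2) by ring,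
      F1, F3, show ((s + 1) ^ 2 + 6 ^ 2 - (s + 1) ^ 2) / 2 * (s - 1) ^ 2 - ((s - 1) ^ 2 + (s + 1) ^ 2 - s ^ 2) / 2 *
        (((s - 1) ^ 2 + 6 ^ 2 - (s - 1) ^ 2) / 2) = 3 * r ^ 2 * s * b ^ 2 by rw [hr2, hb2]; ring]
    field_simp
    ring
  have c23 : Real.cos (dihedral (v 2) (v 3) (v 0) (v 1)) = r * b / (c ^ 2 * d) := by
    rw [cos_dihedral_dist _ _ _ _ h23 h20 h21 h30 h31 h01 (by linarith)]
    rw [show (s - 1) ^ 2 * (s - 1) ^ 2 - (((s - 1) ^ 2 + (s - 1) ^ 2 - 6 ^ 2) / 2) ^ 2 = 36 * (s - 4) * (s + 2) by ring,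
      show s ^ 2 * (s - 1) ^ 2 - (((s - 1) ^ 2 + s ^ 2 - (s + 1) ^ 2) / 2) ^ 2 = 3 * s ^ 2 * (s ^ 2 - 4) / 4 by ring,
      F1, F3, show ((s - 1) ^ 2 + s ^ 2 - (s + 1) ^ 2) / 2 * (s - 1) ^ 2 - ((s - 1) ^ 2 + (s - 1) ^ 2 - 6 ^ 2) / 2 *
        (((s - 1) ^ 2 + s ^ 2 - (s + 1) ^ 2) / 2) = 3 * r ^ 2 * s * b ^ 2 by rw [hr2, hb2]; ring]
    field_simp
    ring
  have c03 : Real.cos (dihedral (v 0) (v 3) (v 1) (v 2)) = a * b / (2 * c * d) := by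
    rw [cos_dihedral_dist _ _ _ _ h03 h01 h02 h31 h32 h12 (by norm_num)]
    rw [show (s + 1) ^ 2 * 6 ^ 2 - ((6 ^ 2 + (s + 1) ^ 2 - (s + 1) ^ 2) / 2) ^ 2 = 36 * (s + 4) * (s - 2) by ring,
      show (s - 1) ^ 2 * 6 ^ 2 - ((6 ^ 2 + (s - 1) ^ 2 - (s - 1) ^ 2) / 2) ^ 2 = 36 * (s - 4) * (s + 2) by ring,
      F2, F3, show ((s + 1) ^ 2 + (s - 1) ^ 2 - s ^ 2) / 2 * 6 ^ 2 - (6 ^ 2 + (s + 1) ^ 2 - (s + 1) ^ 2) / 2 *
        ((6 ^ 2 + (s - 1) ^ 2 - (s - 1) ^ 2) / 2) = 18 * a ^ 2 * b ^ 2 by rw [ha2, hb2]; ring]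
    field_simp
    ring
  have c12 : Real.cos (dihedral (v 1) (v 2) (v 0) (v 3)) = (s ^ 2 - 28) / (c ^ 2 * d ^ 2) := by
    rw [cos_dihedral_dist _ _ _ _ h12 h10 h13 h20 h23 h03 (by linarith)]
    rw [show (s + 1) ^ 2 * s ^ 2 - ((s ^ 2 + (s + 1) ^ 2 - (s - 1) ^ 2) / 2) ^ 2 = 3 * s ^ 2 * (s ^ 2 - 4) / 4 by ring,
      F1, show ((s + 1) ^ 2 + (s + 1) ^ 2 - 6 ^ 2) / 2 * s ^ 2 - (s ^ 2 + (s + 1) ^ 2 - (s - 1) ^ 2) / 2 *
        ((s ^ 2 + (s + 1) ^ 2 - (s - 1) ^ 2) / 2) = r ^ 2 * s ^ 2 * (s ^ 2 - 28) / 4 by rw [hr2]; ring]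
    field_simp
    ring
  have eA : dihedral (v 1) (v 3) (v 0) (v 2) = dihedral (v 0) (v 1) (v 2) (v 3) :=
    Real.injOn_cos ⟨dihedral_nonneg _ _ _ _, dihedral_le_pi _ _ _ _⟩ ⟨dihedral_nonneg _ _ _ _, dihedral_le_pi _ _ _ _⟩
      (by rw [c13, c01])
  have eB : dihedral (v 2) (v 3) (v 0) (v 1) = dihedral (v 0) (v 2) (v 1) (v 3) :=
    Real.injOn_cos ⟨dihedral_nonneg _ _ _ _, dihedral_le_pi _ _ _ _⟩ ⟨dihedral_nonneg _ _ _ _, dihedral_le_pi _ _ _ _⟩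
      (by rw [c23, c02])
  obtain ⟨t1, t2⟩ := trig_family s hs a b c d r ha hb hc hd hr ha2 hb2 hc2 hd2 hr2
    (dihedral (v 0) (v 1) (v 2) (v 3)) (dihedral (v 0) (v 2) (v 1) (v 3)) (dihedral (v 0) (v 3) (v 1) (v 2))
    (dihedral (v 1) (v 2) (v 0) (v 3)) (dihedral_nonneg _ _ _ _) (dihedral_le_pi _ _ _ _) (dihedral_nonneg _ _ _ _)
    (dihedral_le_pi _ _ _ _) (dihedral_nonneg _ _ _ _) (dihedral_le_pi _ _ _ _) (dihedral_nonneg _ _ _ _)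
    (dihedral_le_pi _ _ _ _) c01 c02 c03 c12
  unfold dehn
  rw [h01, h02, h03, h12, h13, h23, eA, eB]
  generalize dihedral (v 0) (v 1) (v 2) (v 3) = A at *
  generalize dihedral (v 0) (v 2) (v 1) (v 3) = B at *
  generalize dihedral (v 0) (v 3) (v 1) (v 2) = φ at *
  generalize dihedral (v 1) (v 2) (v 0) (v 3) = Θ at *
  have p0 : ((Real.pi : ℝ) : AngMod) = 0 := by
    rw [QuotientAddGroup.eq_zero_iff]; exact AddSubgroup.mem_zmultiples _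
  have e1 : ((2 * A + 2 * B + Θ : ℝ) : AngMod) = 0 := by
    rw [t1, two_mul, QuotientAddGroup.mk_add, p0, add_zero]
  have e2 : ((2 * A - 2 * B + 6 * φ : ℝ) : AngMod) = 0 := by
    rw [show 2 * A - 2 * B + 6 * φ = Real.pi + Real.pi by linarith, QuotientAddGroup.mk_add, p0, add_zero]
  have key : (s + 1) ⊗ₜ[ℤ] (A : AngMod) + (s - 1) ⊗ₜ[ℤ] (B : AngMod) + (6:ℝ) ⊗ₜ[ℤ] (φ : AngMod)
      + s ⊗ₜ[ℤ] (Θ : AngMod) + (s + 1) ⊗ₜ[ℤ] (A : AngMod) + (s - 1) ⊗ₜ[ℤ] (B : AngMod)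
      = s ⊗ₜ[ℤ] ((2 * A + 2 * B + Θ : ℝ) : AngMod) + (1:ℝ) ⊗ₜ[ℤ] ((2 * A - 2 * B + 6 * φ : ℝ) : AngMod) := by
    have h6 : (6:ℝ) ⊗ₜ[ℤ] (φ : AngMod) = (1:ℝ) ⊗ₜ[ℤ] ((6 * φ : ℝ) : AngMod) := by
      rw [show (6 * φ : ℝ) = (6:ℤ) • φ by simp, QuotientAddGroup.mk_zsmul, TensorProduct.tmul_smul, TensorProduct.smul_tmul',
        show (6:ℤ) • (1:ℝ) = 6 by simp]
    rw [h6]
    simp only [two_mul, QuotientAddGroup.mk_add, QuotientAddGroup.mk_sub, TensorProduct.add_tmul, TensorProduct.sub_tmul,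
      TensorProduct.tmul_add, TensorProduct.tmul_sub]
    abel
  rw [key, e1, e2, TensorProduct.tmul_zero, TensorProduct.tmul_zero, add_zero]


theorem exists_family (s : ℝ) (hs : 4 < s) : ∃ v : Fin 4 → P3, AffineIndependent ℝ v ∧
    dist (v 0) (v 1) = s + 1 ∧ dist (v 0) (v 2) = s - 1 ∧ dist (v 0) (v 3) = 6 ∧
    dist (v 1) (v 2) = s ∧ dist (v 1) (v 3) = s + 1 ∧ dist (v 2) (v 3) = s - 1 := by
  obtain ⟨p, hp, hp2⟩ : ∃ p : ℝ, 0 < p ∧ p ^ 2 = (s + 4) * (s - 2) :=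
    ⟨Real.sqrt ((s + 4) * (s - 2)), Real.sqrt_pos.mpr (by nlinarith), Real.sq_sqrt (by nlinarith)⟩
  obtain ⟨q, hq, hq2⟩ : ∃ q : ℝ, 0 < q ∧ q ^ 2 = 3 * s ^ 2 * (s ^ 2 - 16) / 4 :=
    ⟨Real.sqrt (3 * s ^ 2 * (s ^ 2 - 16) / 4), Real.sqrt_pos.mpr (by
      have : 0 < s ^ 2 - 16 := by nlinarith
      positivity), Real.sq_sqrt (by
      have : 0 < s ^ 2 - 16 := by nlinarith
      positivity)⟩
  have hd : ∀ x y z x' y' z' R : ℝ, 0 ≤ R → (x - x') ^ 2 + (y - y') ^ 2 + (z - z') ^ 2 = R ^ 2 →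
      dist (!₂[x, y, z] : P3) !₂[x', y', z'] = R := fun x y z x' y' z' R hR h => by
    rw [EuclideanSpace.dist_eq, Fin.sum_univ_three]
    simp only [Matrix.cons_val_zero, Matrix.cons_val_one, Matrix.cons_val, Real.dist_eq, sq_abs]
    rw [h, Real.sqrt_sq hR]
  refine ⟨![!₂[0, 0, 3], !₂[p, 0, 0], !₂[(s ^ 2 - 16) / (2 * p), q / p, 0], !₂[0, 0, -3]], ?_, ?_, ?_, ?_, ?_, ?_, ?_⟩
  · rw [affineIndependent_iff_of_fintype]
    intro w hw hv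
    rw [Finset.weightedVSub_eq_linear_combination _ hw] at hv
    have h0 := congrFun (congrArg (fun x : P3 => (x : Fin 3 → ℝ)) hv) 0
    have h1 := congrFun (congrArg (fun x : P3 => (x : Fin 3 → ℝ)) hv) 1
    have h2 := congrFun (congrArg (fun x : P3 => (x : Fin 3 → ℝ)) hv) 2
    simp [Fin.sum_univ_four] at h0 h1 h2
    rw [Fin.sum_univ_four] at hw
    have hw2 : w 2 = 0 := by
      rcases h1 with h | h | h
      · exact h
      · exact absurd h hq.ne'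
      · exact absurd h hp.ne'
    have hw1 : w 1 = 0 := by
      rw [hw2] at h0
      simp at h0
      rcases h0 with h | h
      · exact h
      · exact absurd h hp.ne'
    have h03 : w 0 = w 3 := by linarith
    have hw0 : w 0 = 0 := by linarith
    intro i
    fin_cases i
    · exact hw0
    · exact hw1
    · exact hw2
    · simpa [← h03] using hw0
  · exact hd _ _ _ _ _ _ _ (by linarith) (by nlinarith)
  · apply hd _ _ _ _ _ _ _ (by linarith)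
    field_simp
    nlinarith
  · exact hd _ _ _ _ _ _ _ (by norm_num) (by norm_num)
  · apply hd _ _ _ _ _ _ _ (by linarith)
    field_simp
    nlinarith
  · exact hd _ _ _ _ _ _ _ (by linarith) (by nlinarith)
  · apply hd _ _ _ _ _ _ _ (by linarith)
    field_simp
    nlinarith

end Pool.Agent.Helper40.Tet
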