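import Pool.Agent.Helper40.Dehn

set_option autoImplicit false

/-!
Tetrahedra with a symmetry of order at least 3: the Dehn invariant vanishes only for the
Sommerville disphenoid.
-/

open Real Polynomial
open scoped TensorProduct RealInnerProductSpace
namespace Pool.Agent.Helper40.Tet

/-- z non-real root of X² - tX + n; two integer polynomials agreeing at z agree at 0 modulo n. -/
theorem dvd_of_aeval_eq (z : ℂ) (t n : ℤ) (hz : z ^ 2 - t * z + n = 0) (him : z.im ≠ 0)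
    (P Q : Polynomial ℤ) (h : Polynomial.aeval z P = Polynomial.aeval z Q) :
    n ∣ P.eval 0 - Q.eval 0 := by
  classical
  set F : Polynomial ℤ := Polynomial.X ^ 2 + (Polynomial.C (-t) * Polynomial.X + Polynomial.C n) with hF
  have hlin : (Polynomial.C (-t) * Polynomial.X + Polynomial.C n : Polynomial ℤ).degree < ((2 : ℕ) : WithBot ℕ) :=
    lt_of_le_of_lt Polynomial.degree_linear_le (by norm_num)
  have hmon : F.Monic := Polynomial.monic_X_pow_add hlin
  have hdeg : F.degree = ((2 : ℕ) : WithBot ℕ) := by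
    rw [hF, Polynomial.degree_add_eq_left_of_degree_lt, Polynomial.degree_X_pow]
    rw [Polynomial.degree_X_pow]
    exact hlin
  have hFz : Polynomial.aeval z F = 0 := by
    rw [hF]
    simp only [map_add, map_mul, map_pow, Polynomial.aeval_X, Polynomial.aeval_C]
    have : (algebraMap ℤ ℂ) (-t) = -(t : ℂ) := by simp
    have h2 : (algebraMap ℤ ℂ) n = (n : ℂ) := by simp
    rw [this, h2, ← hz]
    ring
  set R := P - Q with hR
  have hRz : Polynomial.aeval z R = 0 := by rw [hR, map_sub, h, sub_self]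
  have hdiv := Polynomial.modByMonic_add_div R F
  set r := R %ₘ F with hr
  have hrdeg : r.degree ≤ 1 := by
    have h1 : r.degree < F.degree := Polynomial.degree_modByMonic_lt R hmon
    rw [hdeg] at h1
    exact Order.le_of_lt_succ (by exact_mod_cast h1)
  have hre := Polynomial.eq_X_add_C_of_degree_le_one hrdeg
  have hrz : Polynomial.aeval z r = 0 := by
    have h1 := congrArg (Polynomial.aeval z) hdiv
    rw [map_add, map_mul, hFz, zero_mul, add_zero, hRz] at h1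
    exact h1
  rw [hre] at hrz
  simp only [map_add, map_mul, Polynomial.aeval_X, Polynomial.aeval_C] at hrz
  have e1 : (algebraMap ℤ ℂ) (r.coeff 1) = ((r.coeff 1 : ℤ) : ℂ) := by simp
  have e0 : (algebraMap ℤ ℂ) (r.coeff 0) = ((r.coeff 0 : ℤ) : ℂ) := by simp
  rw [e1, e0] at hrz
  have him2 := congrArg Complex.im hrz
  have hre2 := congrArg Complex.re hrz
  simp only [Complex.add_im, Complex.mul_im, Complex.intCast_re, Complex.intCast_im, zero_mul,
    add_zero, Complex.zero_im, Complex.add_re, Complex.mul_re, sub_zero, Complex.zero_re] at him2 hre2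
  have hb : ((r.coeff 1 : ℤ) : ℝ) = 0 := by
    rcases mul_eq_zero.1 him2 with h1 | h1
    · exact h1
    · exact absurd h1 him
  rw [hb, zero_mul, zero_add] at hre2
  have ha0 : r.coeff 0 = 0 := by exact_mod_cast hre2
  have hr0 : r.eval 0 = 0 := by
    rw [← Polynomial.coeff_zero_eq_eval_zero, ha0]
  have h3 := congrArg (Polynomial.eval 0) hdiv
  rw [Polynomial.eval_add, Polynomial.eval_mul, hr0, zero_add] at h3
  have hF0 : F.eval 0 = n := by
    rw [hF]
    simp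
  rw [hF0, hR, Polynomial.eval_sub] at h3
  exact ⟨_, h3.symm⟩

/-- if no odd prime divides m ≥ 1 then m is a power of two -/
lemma pow_two_of_no_odd (m : ℕ) (hm : m ≠ 0) (h : ∀ r : ℕ, r.Prime → r ∣ m → r = 2) : ∃ c, m = 2 ^ c :=
  ⟨_, Nat.eq_prime_pow_of_unique_prime_dvd hm (fun {d} hd hd' => h d hd hd')⟩

theorem no_rel_pyramid (p q : ℤ) (hp : 0 < p) (hq : 0 < q) (hcop : IsCoprime p q)
    (hpos : q ^ 2 < 3 * p ^ 2) (w : ℝ) (hw : w ^ 2 = 3 * p ^ 2 - q ^ 2) (hw0 : w ≠ 0)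
    (A B : ℕ) (hA : 0 < A) (hB : 0 < B)
    (h : ((q : ℂ) + 2 * (w * Complex.I)) ^ A * ((p : ℂ) - w * Complex.I) ^ B
      = ((q : ℂ) - 2 * (w * Complex.I)) ^ A * ((p : ℂ) + w * Complex.I) ^ B) : False := by
  have hI : ((w : ℂ) * Complex.I) ^ 2 = -(3 * p ^ 2 - q ^ 2) := by
    rw [mul_pow, Complex.I_sq]
    have : ((w : ℂ)) ^ 2 = 3 * p ^ 2 - q ^ 2 := by exact_mod_cast congrArg (fun x : ℝ => (x : ℂ)) hw
    rw [this]; ring
  set W : ℂ := (w : ℂ) * Complex.I with hW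
  have hWim : W.im ≠ 0 := by simp [hW, hw0]
  by_cases hex : ∃ r : ℕ, r.Prime ∧ r ≠ 2 ∧ (r : ℤ) ∣ 2 * p + q
  · obtain ⟨r, hr, hr2, hrd⟩ := hex
    have hrp : Prime (r : ℤ) := Nat.prime_iff_prime_int.mp hr
    have hd := dvd_of_aeval_eq ((p : ℂ) + W) (2 * p) (4 * p ^ 2 - q ^ 2)
      (by push_cast; linear_combination hI) (by simpa using hWim)
      ((2 * X + C (q - 2 * p)) ^ A * (C (2 * p) - X) ^ B)
      ((C (q + 2 * p) - 2 * X) ^ A * X ^ B) (by
        simp only [map_mul, map_pow, map_add, map_sub, aeval_X, aeval_C, map_ofNat]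
        simp only [algebraMap_int_eq, eq_intCast]
        rw [show (2 : ℂ) * (p + W) + (q - 2 * p) = q + 2 * W by ring, show (2 : ℂ) * p - (p + W) = p - W by ring,
          show (q : ℂ) + 2 * p - 2 * (p + W) = q - 2 * W by ring]
        exact h)
    simp only [eval_mul, eval_pow, eval_add, eval_sub, eval_X, eval_C, eval_ofNat, mul_zero, zero_add, sub_zero,
      zero_pow hB.ne'] at hd
    have hd2 : (r : ℤ) ∣ (q - 2 * p) ^ A * (2 * p) ^ B :=
      dvd_trans (dvd_trans hrd ⟨2 * p - q, by ring⟩) hd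
    have two_odd : ¬ (r : ℤ) ∣ 2 := fun hc => hr2 ((Nat.prime_dvd_prime_iff_eq hr Nat.prime_two).mp (by exact_mod_cast hc))
    have fin : (r : ℤ) ∣ p → False := fun h1 => by
      have h2 : (r : ℤ) ∣ q := by
        have := dvd_sub hrd (dvd_mul_of_dvd_right h1 2)
        simpa using this
      exact hrp.not_isUnit (hcop.isUnit_of_dvd' h1 h2)
    rcases hrp.dvd_or_dvd hd2 with h1 | h1
    · have h2 := hrp.dvd_of_dvd_pow h1
      have h3 : (r : ℤ) ∣ 2 * (2 * p) := by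
        have := dvd_sub hrd h2
        rwa [show 2 * p + q - (q - 2 * p) = 2 * (2 * p) by ring] at this
      rcases hrp.dvd_or_dvd h3 with h4 | h4
      · exact two_odd h4
      · rcases hrp.dvd_or_dvd h4 with h5 | h5
        · exact two_odd h5
        · exact fin h5
    · have h2 := hrp.dvd_of_dvd_pow h1
      rcases hrp.dvd_or_dvd h2 with h5 | h5
      · exact two_odd h5
      · exact fin h5
  · push Not at hex
    obtain ⟨c, hc⟩ := pow_two_of_no_odd (2 * p + q).toNat (by omega) (fun r hr hrd => by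
      by_contra hne
      exact hex r hr hne (by
        have : ((r : ℕ) : ℤ) ∣ ((2 * p + q).toNat : ℤ) := by exact_mod_cast hrd
        rwa [Int.toNat_of_nonneg (by omega)] at this))
    have hc' : 2 * p + q = 2 ^ c := by
      have : ((2 * p + q).toNat : ℤ) = 2 ^ c := by exact_mod_cast hc
      rwa [Int.toNat_of_nonneg (by omega)] at this
    have hc1 : 3 ≤ c := by
      by_contra hlt
      push Not at hlt
      have hp1 : q < 2 * p := by nlinarith
      interval_cases c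
      · omega
      · omega
      · have : p = 1 ∧ q = 2 ∨ p = 1 := by omega
        rcases this with h1 | h1
        · rw [h1.1, h1.2] at hpos; norm_num at hpos
        · rw [h1] at hpos hc'; have : q = 2 := by omega
          rw [this] at hpos; norm_num at hpos
    obtain ⟨k, rfl⟩ : ∃ k, c = k + 3 := ⟨c - 3, by omega⟩
    have hq2 : ∃ q', q = 2 * q' := ⟨2 ^ (k + 2) - p, by rw [pow_succ] at hc'; linarith⟩
    obtain ⟨q', rfl⟩ := hq2
    have hpq : p + q' = 2 * (2 * 2 ^ k) * 1 := by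
      have : (2:ℤ) ^ (k + 3) = 8 * 2 ^ k := by ring
      omega
    set g : ℤ := 2 * 2 ^ k with hg
    set e : ℤ := p - g with he
    have hq' : q' = 2 * g - p := by linarith
    have hpodd : ¬ (2 : ℤ) ∣ p := fun h2 => by
      have : IsUnit (2 : ℤ) := hcop.isUnit_of_dvd' h2 (dvd_mul_right 2 q')
      exact absurd (Int.isUnit_iff.mp this) (by norm_num)
    have heodd : ¬ (2 : ℤ) ∣ e := fun h2 => by
      apply hpodd
      have : (2 : ℤ) ∣ e + g := dvd_add h2 ⟨2 ^ k, by rw [hg]⟩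
      simpa [he] using this
    have h2' : ((W + p) / 2) ^ 2 - (p : ℤ) * ((W + p) / 2) + ((p ^ 2 - q' ^ 2 : ℤ) : ℂ) = 0 := by
      push_cast at hI ⊢
      linear_combination hI / 4
    have hd := dvd_of_aeval_eq ((W + p) / 2) p (p ^ 2 - q' ^ 2) h2'
      (by simpa using hWim)
      ((X - C e) ^ A * (C p - X) ^ B)
      ((C g - X) ^ A * X ^ B) (by
        simp only [map_mul, map_pow, map_sub, aeval_X, aeval_C]
        simp only [algebraMap_int_eq, eq_intCast]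
        have e1 : ((2 * q' : ℤ) : ℂ) + 2 * W = 4 * ((W + p) / 2 - (e : ℂ)) := by
          rw [he, hq']; push_cast; ring
        have e2 : (p : ℂ) - W = 2 * ((p : ℂ) - (W + p) / 2) := by ring
        have e3 : ((2 * q' : ℤ) : ℂ) - 2 * W = 4 * ((g : ℂ) - (W + p) / 2) := by
          rw [hq']; push_cast; ring
        have e4 : (p : ℂ) + W = 2 * ((W + p) / 2) := by ring
        rw [e1, e2, e3, e4, mul_pow, mul_pow, mul_pow, mul_pow] at h
        have h4 : (4 : ℂ) ^ A * 2 ^ B ≠ 0 := mul_ne_zero (pow_ne_zero _ (by norm_num)) (pow_ne_zero _ (by norm_num))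
        apply mul_left_cancel₀ h4
        linear_combination h)
    simp only [eval_mul, eval_pow, eval_sub, eval_X, eval_C, zero_sub, sub_zero,
      zero_pow hB.ne', mul_zero] at hd
    have h2d : (2 : ℤ) ∣ (-e) ^ A * p ^ B := by
      apply dvd_trans _ hd
      refine ⟨g * (p - q'), ?_⟩
      rw [show p ^ 2 - q' ^ 2 = (p + q') * (p - q') by ring, hpq]; ring
    rcases Int.prime_two.dvd_or_dvd h2d with h1 | h1
    · exact heodd ((dvd_neg).mp (Int.prime_two.dvd_of_dvd_pow h1))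
    · exact hpodd (Int.prime_two.dvd_of_dvd_pow h1)

theorem no_rel_disphenoid (p q : ℤ) (hp : 0 < p) (hq : 0 < q) (hcop : IsCoprime p q)
    (hpos : p ^ 2 < 2 * q ^ 2) (w : ℝ) (hw : w ^ 2 = 4 * q ^ 2 - 2 * p ^ 2) (hw0 : w ≠ 0)
    (A B : ℕ) (hA : 0 < A) (hB : 0 < B)
    (h : (2 * (q : ℂ) + w * Complex.I) ^ A * ((p : ℂ) - w * Complex.I) ^ B
      = (2 * (q : ℂ) - w * Complex.I) ^ A * ((p : ℂ) + w * Complex.I) ^ B) : False := by
  have hI : ((w : ℂ) * Complex.I) ^ 2 = -(4 * q ^ 2 - 2 * p ^ 2) := by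
    rw [mul_pow, Complex.I_sq]
    have : ((w : ℂ)) ^ 2 = 4 * q ^ 2 - 2 * p ^ 2 := by exact_mod_cast congrArg (fun x : ℝ => (x : ℂ)) hw
    rw [this]; ring
  set W : ℂ := (w : ℂ) * Complex.I with hW
  have hWim : W.im ≠ 0 := by simp [hW, hw0]
  by_cases hex : ∃ r : ℕ, r.Prime ∧ r ≠ 2 ∧ (r : ℤ) ∣ 2 * q + p
  · obtain ⟨r, hr, hr2, hrd⟩ := hex
    have hrp : Prime (r : ℤ) := Nat.prime_iff_prime_int.mp hr
    have hd := dvd_of_aeval_eq ((p : ℂ) + W) (2 * p) (4 * q ^ 2 - p ^ 2)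
      (by push_cast; linear_combination hI) (by simpa using hWim)
      ((X + C (2 * q - p)) ^ A * (C (2 * p) - X) ^ B)
      ((C (2 * q + p) - X) ^ A * X ^ B) (by
        simp only [map_mul, map_pow, map_add, map_sub, aeval_X, aeval_C, map_ofNat]
        simp only [algebraMap_int_eq, eq_intCast]
        rw [show (p : ℂ) + W + (2 * q - p) = 2 * q + W by ring, show (2 : ℂ) * p - (p + W) = p - W by ring,
          show (2 : ℂ) * q + p - (p + W) = 2 * q - W by ring]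
        exact h)
    simp only [eval_mul, eval_pow, eval_add, eval_sub, eval_X, eval_C, zero_add, sub_zero,
      zero_pow hB.ne', mul_zero] at hd
    have hd2 : (r : ℤ) ∣ (2 * q - p) ^ A * (2 * p) ^ B :=
      dvd_trans (dvd_trans hrd ⟨2 * q - p, by ring⟩) hd
    have two_odd : ¬ (r : ℤ) ∣ 2 := fun hc => hr2 ((Nat.prime_dvd_prime_iff_eq hr Nat.prime_two).mp (by exact_mod_cast hc))
    have fin : (r : ℤ) ∣ q → False := fun h1 => by
      have h2 : (r : ℤ) ∣ p := by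
        have := dvd_sub hrd (dvd_mul_of_dvd_right h1 2)
        simpa using this
      exact hrp.not_isUnit (hcop.isUnit_of_dvd' h2 h1)
    rcases hrp.dvd_or_dvd hd2 with h1 | h1
    · have h2 := hrp.dvd_of_dvd_pow h1
      have h3 : (r : ℤ) ∣ 2 * (2 * q) := by
        have := dvd_add hrd h2
        rwa [show 2 * q + p + (2 * q - p) = 2 * (2 * q) by ring] at this
      rcases hrp.dvd_or_dvd h3 with h4 | h4
      · exact two_odd h4
      · rcases hrp.dvd_or_dvd h4 with h5 | h5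
        · exact two_odd h5
        · exact fin h5
    · have h2 := hrp.dvd_of_dvd_pow h1
      rcases hrp.dvd_or_dvd h2 with h5 | h5
      · exact two_odd h5
      · have h6 : (r : ℤ) ∣ 2 * q := by
          have := dvd_sub hrd h5
          simpa using this
        rcases hrp.dvd_or_dvd h6 with h7 | h7
        · exact two_odd h7
        · exact fin h7
  · push Not at hex
    obtain ⟨c, hc⟩ := pow_two_of_no_odd (2 * q + p).toNat (by omega) (fun r hr hrd => by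
      by_contra hne
      exact hex r hr hne (by
        have : ((r : ℕ) : ℤ) ∣ ((2 * q + p).toNat : ℤ) := by exact_mod_cast hrd
        rwa [Int.toNat_of_nonneg (by omega)] at this))
    have hc' : 2 * q + p = 2 ^ c := by
      have : ((2 * q + p).toNat : ℤ) = 2 ^ c := by exact_mod_cast hc
      rwa [Int.toNat_of_nonneg (by omega)] at this
    have hc1 : 3 ≤ c := by
      by_contra hlt
      push Not at hlt
      interval_cases c
      · omega
      · omega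
      · have h1 : q = 1 := by omega
        rw [h1] at hpos hc'; have : p = 2 := by omega
        rw [this] at hpos; norm_num at hpos
    obtain ⟨k, rfl⟩ : ∃ k, c = k + 3 := ⟨c - 3, by omega⟩
    have hp2 : ∃ p', p = 2 * p' := ⟨2 ^ (k + 2) - q, by rw [pow_succ] at hc'; linarith⟩
    obtain ⟨p', rfl⟩ := hp2
    have hpq : q + p' = 2 * (2 * 2 ^ k) * 1 := by
      have : (2:ℤ) ^ (k + 3) = 8 * 2 ^ k := by ring
      omega
    set g : ℤ := 2 * 2 ^ k with hg
    set e : ℤ := q - g with he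
    have hq' : p' = 2 * g - q := by linarith
    have hqodd : ¬ (2 : ℤ) ∣ q := fun h2 => by
      have : IsUnit (2 : ℤ) := hcop.isUnit_of_dvd' (dvd_mul_right 2 p') h2
      exact absurd (Int.isUnit_iff.mp this) (by norm_num)
    have heodd : ¬ (2 : ℤ) ∣ e := fun h2 => by
      apply hqodd
      have : (2 : ℤ) ∣ e + g := dvd_add h2 ⟨2 ^ k, by rw [hg]⟩
      simpa [he] using this
    have hp'odd : ¬ (2 : ℤ) ∣ p' := fun h2 => by
      apply hqodd
      have : (2 : ℤ) ∣ 2 * g - p' := dvd_sub (dvd_mul_right 2 g) h2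
      rwa [show 2 * g - p' = q by linarith] at this
    have h2' : ((W + 2 * p') / 4) ^ 2 - (p' : ℤ) * ((W + 2 * p') / 4) + ((e * g : ℤ) : ℂ) = 0 := by
      have : (e : ℂ) * g = (q ^ 2 - p' ^ 2) / 4 := by
        rw [hq', he]; push_cast; ring
      push_cast at hI ⊢
      rw [this]
      linear_combination hI / 16
    have hd := dvd_of_aeval_eq ((W + 2 * p') / 4) p' (e * g) h2'
      (by simpa using hWim)
      ((X + C e) ^ A * (C p' - X) ^ B)
      ((C g - X) ^ A * X ^ B) (by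
        simp only [map_mul, map_pow, map_sub, map_add, aeval_X, aeval_C]
        simp only [algebraMap_int_eq, eq_intCast]
        have e1 : 2 * (q : ℂ) + W = 4 * ((W + 2 * p') / 4 + (e : ℂ)) := by
          rw [he, hq']; push_cast; ring
        have e2 : ((2 * p' : ℤ) : ℂ) - W = 4 * ((p' : ℂ) - (W + 2 * p') / 4) := by push_cast; ring
        have e3 : 2 * (q : ℂ) - W = 4 * ((g : ℂ) - (W + 2 * p') / 4) := by
          rw [hq']; push_cast; ring
        have e4 : ((2 * p' : ℤ) : ℂ) + W = 4 * ((W + 2 * p') / 4) := by push_cast; ring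
        rw [e1, e2, e3, e4, mul_pow, mul_pow, mul_pow, mul_pow] at h
        have h4 : (4 : ℂ) ^ A * 4 ^ B ≠ 0 := mul_ne_zero (pow_ne_zero _ (by norm_num)) (pow_ne_zero _ (by norm_num))
        apply mul_left_cancel₀ h4
        linear_combination h)
    simp only [eval_mul, eval_pow, eval_sub, eval_add, eval_X, eval_C, zero_add, sub_zero,
      zero_pow hB.ne', mul_zero] at hd
    have h2d : (2 : ℤ) ∣ e ^ A * p' ^ B := by
      apply dvd_trans _ hd
      exact ⟨e * 2 ^ k, by rw [hg]; ring⟩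
    rcases Int.prime_two.dvd_or_dvd h2d with h1 | h1
    · exact heodd (Int.prime_two.dvd_of_dvd_pow h1)
    · exact hp'odd (Int.prime_two.dvd_of_dvd_pow h1)

/-- If the cosine of a rational multiple of π is an algebraic integer, it is 0, 1 or -1. -/
theorem cos_integral_rat (r : ℚ) (hi : IsIntegral ℤ (Real.cos (r * Real.pi))) :
    Real.cos (r * Real.pi) = 0 ∨ Real.cos (r * Real.pi) = 1 ∨ Real.cos (r * Real.pi) = -1 := by
  classical
  by_cases h0 : Real.cos (r * Real.pi) = 0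
  · exact Or.inl h0
  right
  set z : ℂ := Complex.exp (r * Real.pi * Complex.I) with hz
  have hz1 : z ^ (2 * r.den) = 1 := Complex.exp_rat_mul_pi_mul_I_pow_two_mul_den r
  have hd : 0 < 2 * r.den := Nat.mul_pos zero_lt_two r.den_pos
  have hzi : IsIntegral ℤ z := Complex.isIntegral_exp_rat_mul_pi_mul_I r
  let K := IntermediateField.adjoin ℚ {z}
  have : NumberField K := {
    to_charZero := (IntermediateField.adjoin ℚ {z}).charZero,
    to_finiteDimensional := IntermediateField.adjoin.finiteDimensional hzi.tower_top }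
  let zK : K := ⟨z, IntermediateField.mem_adjoin_simple_self ℚ z⟩
  have hzK : zK ^ (2 * r.den) = 1 := by
    apply Subtype.ext
    simpa using hz1
  let cK : K := (zK + zK⁻¹) / 2
  have hc : (cK : ℂ) = (Real.cos (r * Real.pi) : ℂ) := by
    have h1 : (cK : ℂ) = (z + z⁻¹) / 2 := by
      change algebraMap K ℂ ((zK + zK⁻¹) / 2) = _
      rw [map_div₀, map_add, map_inv₀, map_ofNat]
      rfl
    rw [h1, Complex.ofReal_cos, Complex.cos, hz, ← Complex.exp_neg]
    push_cast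
    congr 3
    ring
  have hcK0 : cK ≠ 0 := by
    intro h
    rw [h] at hc
    have h2 : ((Real.cos (r * Real.pi) : ℝ) : ℂ) = 0 := by
      rw [← hc]; simp
    exact h0 (by exact_mod_cast h2)
  have hcKi : IsIntegral ℤ cK := by
    have h1 : IsIntegral ℤ ((Real.cos (r * Real.pi) : ℝ) : ℂ) := hi.algebraMap (B := ℂ)
    rw [← hc] at h1
    exact (isIntegral_algebraMap_iff (A := K) (B := ℂ) (algebraMap K ℂ).injective).1 h1
  obtain ⟨n, hn, hpow⟩ := NumberField.Embeddings.pow_eq_one_of_norm_le_one K ℂ hcK0 hcKi (by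
    intro φ
    have h1 : φ zK ^ (2 * r.den) = 1 := by rw [← map_pow, hzK, map_one]
    have h2 : ‖φ zK‖ = 1 := Complex.norm_eq_one_of_pow_eq_one h1 hd.ne'
    have h3 : φ cK = (φ zK + (φ zK)⁻¹) / 2 := by
      simp only [cK, map_div₀, map_add, map_inv₀, map_ofNat]
    rw [h3, norm_div]
    have h4 : ‖φ zK + (φ zK)⁻¹‖ ≤ 2 := by
      refine (norm_add_le _ _).trans ?_
      rw [norm_inv, h2]; norm_num
    rw [Complex.norm_ofNat]
    linarith)
  have h5 : (Real.cos (r * Real.pi)) ^ n = 1 := by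
    have h6 : ((cK : ℂ)) ^ n = 1 := by
      have := congrArg (fun x : K => (x : ℂ)) hpow
      simpa using this
    rw [hc] at h6
    exact_mod_cast h6
  have h7 : |Real.cos (r * Real.pi)| = 1 := by
    have h8 : |Real.cos (r * Real.pi)| ^ n = 1 := by rw [← abs_pow, h5, abs_one]
    exact (pow_eq_one_iff_of_nonneg (abs_nonneg _) hn.ne').1 h8
  rcases abs_eq (zero_le_one) |>.1 h7 with h | h
  · exact Or.inl h
  · exact Or.inr h

/-- The functional on ℝ ⊗ ℝ/πℤ attached to a ℚ-linear functional f on ℝ. -/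
theorem exists_functional (f : ℝ →ₗ[ℚ] ℚ) :
    ∃ Φ : (ℝ ⊗[ℤ] (ℝ ⧸ AddSubgroup.zmultiples Real.pi)) →+ (ℝ ⧸ Submodule.span ℚ {Real.pi}),
      ∀ x θ : ℝ, Φ (x ⊗ₜ[ℤ] (θ : ℝ ⧸ AddSubgroup.zmultiples Real.pi)) =
        Submodule.Quotient.mk ((f x : ℝ) * θ) := by
  let g : (ℝ ⧸ AddSubgroup.zmultiples Real.pi) →+ (ℝ ⧸ Submodule.span ℚ {Real.pi}) :=
    QuotientAddGroup.lift (AddSubgroup.zmultiples Real.pi)
      ((Submodule.span ℚ {Real.pi}).mkQ.toAddMonoidHom) (by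
        intro z hz
        obtain ⟨k, rfl⟩ := AddSubgroup.mem_zmultiples_iff.mp hz
        rw [AddMonoidHom.mem_ker]
        show (Submodule.span ℚ {Real.pi}).mkQ (k • Real.pi) = 0
        rw [Submodule.mkQ_apply, Submodule.Quotient.mk_eq_zero]
        exact Submodule.smul_of_tower_mem _ k (Submodule.mem_span_singleton_self _))
  let B : ℝ →+ (ℝ ⧸ AddSubgroup.zmultiples Real.pi) →+ (ℝ ⧸ Submodule.span ℚ {Real.pi}) :=
    AddMonoidHom.mk' (fun x => (DistribSMul.toAddMonoidHom (ℝ ⧸ Submodule.span ℚ {Real.pi}) (f x)).comp g) (by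
      intro a b
      apply AddMonoidHom.ext
      intro z
      simp only [AddMonoidHom.comp_apply, DistribSMul.toAddMonoidHom_apply, AddMonoidHom.add_apply,
        map_add, add_smul])
  have hB : ∀ x z, B x z = f x • g z := fun x z => rfl
  refine ⟨TensorProduct.liftAddHom B ?_, ?_⟩
  · intro r m n
    rw [hB, hB, map_zsmul, map_zsmul, smul_assoc, smul_comm]
  · intro x θ
    rw [TensorProduct.liftAddHom_tmul, hB]
    show f x • (Submodule.Quotient.mk θ : ℝ ⧸ Submodule.span ℚ {Real.pi}) = _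
    rw [← Submodule.Quotient.mk_smul, Rat.smul_def]

theorem exists_rat_of_tensor_eq_zero (f : ℝ →ₗ[ℚ] ℚ) (x y α β : ℝ)
    (h : x ⊗ₜ[ℤ] (α : ℝ ⧸ AddSubgroup.zmultiples Real.pi) + y ⊗ₜ[ℤ] (β : ℝ ⧸ AddSubgroup.zmultiples Real.pi) = 0) :
    ∃ r : ℚ, (f x : ℝ) * α + (f y : ℝ) * β = r * Real.pi := by
  obtain ⟨Φ, hΦ⟩ := exists_functional f
  have h1 := congrArg Φ h
  rw [map_add, map_zero, hΦ, hΦ, ← Submodule.Quotient.mk_add, Submodule.Quotient.mk_eq_zero,
    Submodule.mem_span_singleton] at h1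
  obtain ⟨r, hr⟩ := h1
  exact ⟨r, by rw [← hr, Rat.smul_def]⟩

lemma exp_of_cos_sin (θ c s : ℝ) (hc : cos θ = c) (hs : sin θ = s) :
    Complex.exp (θ * Complex.I) = c + s * Complex.I := by
  rw [Complex.exp_mul_I, ← Complex.ofReal_cos, ← Complex.ofReal_sin, hc, hs]

/-- exp (2 i N x) = 1 when N x is an integer multiple of π -/
lemma exp_two_eq_one (N : ℕ) (a : ℤ) (x : ℝ) (h : N * x = a * π) :
    Complex.exp (2 * (N * x) * Complex.I) = 1 := by
  have : (2 * ((N : ℂ) * x) * Complex.I) = a * (2 * π * Complex.I) := by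
    have h' : ((N : ℂ) * x) = a * π := by exact_mod_cast congrArg (fun t : ℝ => (t : ℂ)) h
    rw [h']; ring
  rw [this]
  exact Complex.exp_int_mul_two_pi_mul_I a

lemma rat_mul (x : ℝ) (r : ℚ) (h : x = r * π) : (r.den : ℝ) * x = (r.num : ℝ) * π := by
  rw [h, ← mul_assoc]
  congr 1
  have := Rat.den_mul_eq_num r
  exact_mod_cast this

theorem pyramid_irr (p q : ℕ) (hp : 0 < p) (hq : 0 < q) (hcop : Nat.Coprime p q)
    (hpos : (q:ℝ) ^ 2 < 3 * (p:ℝ) ^ 2) (α β : ℝ) (hα0 : 0 ≤ α) (hα1 : α ≤ π) (hβ0 : 0 ≤ β) (hβ1 : β ≤ π)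
    (hα : cos α ^ 2 = q ^ 2 / (3 * (4 * p ^ 2 - q ^ 2))) (hαp : 0 ≤ cos α)
    (hβ : cos β = (2 * p ^ 2 - q ^ 2) / (4 * p ^ 2 - q ^ 2))
    (r : ℚ) (h : q * α + p * β = r * π) : False := by
  have hp' : (0:ℝ) < p := by exact_mod_cast hp
  have hq' : (0:ℝ) < q := by exact_mod_cast hq
  set n : ℝ := 4 * p ^ 2 - q ^ 2 with hn
  have hn0 : 0 < n := by nlinarith
  obtain ⟨w, hw0, hw2⟩ : ∃ w : ℝ, 0 < w ∧ w ^ 2 = 3 * p ^ 2 - q ^ 2 :=
    ⟨Real.sqrt (3 * p ^ 2 - q ^ 2), Real.sqrt_pos.mpr (by linarith), Real.sq_sqrt (by linarith)⟩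
  have key : ∀ x y : ℝ, 0 ≤ x → 0 ≤ y → x ^ 2 = y ^ 2 → x = y := fun x y hx hy h => by
    have := abs_eq_abs.mpr (sq_eq_sq_iff_eq_or_eq_neg.mp h)
    rwa [abs_of_nonneg hx, abs_of_nonneg hy] at this
  have hsβ : sin β = 2 * p * w / n := by
    apply key _ _ (sin_nonneg_of_nonneg_of_le_pi hβ0 hβ1) (by positivity)
    rw [sin_sq, hβ, div_pow, div_pow, mul_pow, mul_pow, hw2, eq_div_iff (by positivity), sub_mul,
      div_mul_cancel₀ _ (by positivity), hn]
    ring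
  have hs2α : sin α * cos α = 2 * w * q / (3 * n) := by
    apply key _ _ (mul_nonneg (sin_nonneg_of_nonneg_of_le_pi hα0 hα1) hαp) (by positivity)
    rw [mul_pow, sin_sq, hα, div_pow, mul_pow, mul_pow, mul_pow, hw2]
    field_simp
    rw [hn]; ring
  have hc2α : cos (2 * α) = 2 * (q ^ 2 / (3 * n)) - 1 := by rw [cos_two_mul, hα]
  have hs2α' : sin (2 * α) = 4 * w * q / (3 * n) := by
    rw [sin_two_mul, mul_assoc, hs2α]; ring
  have hnC : (n : ℂ) ≠ 0 := by exact_mod_cast hn0.ne'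
  have hWW : ((w : ℂ) * Complex.I) ^ 2 = -(3 * p ^ 2 - q ^ 2) := by
    rw [mul_pow, Complex.I_sq]
    have : ((w : ℂ)) ^ 2 = 3 * p ^ 2 - q ^ 2 := by exact_mod_cast congrArg (fun x : ℝ => (x : ℂ)) hw2
    rw [this]; ring
  have hnn : (n : ℂ) = 4 * p ^ 2 - q ^ 2 := by rw [hn]; push_cast; ring
  have hU : ((q : ℂ) + 2 * (w * Complex.I)) * (q - 2 * (w * Complex.I)) = 3 * n := by
    rw [hnn]; linear_combination (-4) * hWW
  have hZ : ((p : ℂ) + w * Complex.I) * (p - w * Complex.I) = n := by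
    rw [hnn]; linear_combination (-1) * hWW
  have hU0 : ((q : ℂ) - 2 * (w * Complex.I)) ≠ 0 := fun h0 => by
    rw [h0, mul_zero] at hU; exact hnC (by linear_combination (-1/3 : ℂ) * hU)
  have hZ0 : ((p : ℂ) + w * Complex.I) ≠ 0 := fun h0 => by
    rw [h0, zero_mul] at hZ; exact hnC hZ.symm
  have Eα : Complex.exp ((2 * α : ℝ) * Complex.I) =
      ((q : ℂ) + 2 * (w * Complex.I)) / (q - 2 * (w * Complex.I)) := by
    rw [exp_of_cos_sin _ _ _ hc2α hs2α', eq_div_iff hU0]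
    push_cast
    have : ((3 : ℂ) * n) ≠ 0 := mul_ne_zero (by norm_num) hnC
    rw [show (2 * ((q:ℂ) ^ 2 / (3 * n)) - 1 + 4 * w * q / (3 * n) * Complex.I) =
      (2 * (q:ℂ) ^ 2 - 3 * n + 4 * q * (w * Complex.I)) / (3 * n) by field_simp]
    rw [div_mul_eq_mul_div, div_eq_iff this, hnn]
    linear_combination (-8 * (q:ℂ)) * hWW
  have Eβ : Complex.exp ((β : ℝ) * Complex.I) =
      -(((p : ℂ) - w * Complex.I) / (p + w * Complex.I)) := by
    rw [exp_of_cos_sin _ _ _ hβ hsβ, ← neg_div, eq_div_iff hZ0]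
    push_cast
    rw [show ((2 * (p:ℂ) ^ 2 - q ^ 2) / n + 2 * p * w / n * Complex.I) =
      (2 * (p:ℂ) ^ 2 - q ^ 2 + 2 * p * (w * Complex.I)) / n by field_simp]
    rw [div_mul_eq_mul_div, div_eq_iff hnC, hnn]
    linear_combination (2 * (p:ℂ)) * hWW
  have hN := rat_mul _ r h
  have hNpos : 0 < r.den := r.den_pos
  have e1 : Complex.exp ((2 * α : ℝ) * Complex.I) ^ (q * r.den) * Complex.exp ((β : ℝ) * Complex.I) ^ (2 * p * r.den) = 1 := by
    rw [← Complex.exp_nat_mul, ← Complex.exp_nat_mul, ← Complex.exp_add]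
    have := exp_two_eq_one r.den r.num (q * α + p * β) hN
    rw [← this]
    congr 1
    push_cast
    ring
  rw [Eα, Eβ, Even.neg_pow ⟨p * r.den, by ring⟩, div_pow, div_pow, div_mul_div_comm,
    div_eq_one_iff_eq (mul_ne_zero (pow_ne_zero _ hU0) (pow_ne_zero _ hZ0))] at e1
  have hposZ : (q : ℤ) ^ 2 < 3 * (p : ℤ) ^ 2 := by exact_mod_cast hpos
  refine no_rel_pyramid p q (by exact_mod_cast hp) (by exact_mod_cast hq)
    (Nat.isCoprime_iff_coprime.mpr hcop) hposZ w (by exact_mod_cast hw2) hw0.ne'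
    (q * r.den) (2 * p * r.den) (by positivity) (by positivity) ?_
  push_cast
  exact e1

theorem disphenoid_irr (p q : ℕ) (hp : 0 < p) (hq : 0 < q) (hcop : Nat.Coprime p q)
    (hpos : (p:ℝ) ^ 2 < 2 * (q:ℝ) ^ 2) (α β : ℝ) (hα0 : 0 ≤ α) (hα1 : α ≤ π) (hβ0 : 0 ≤ β) (hβ1 : β ≤ π)
    (hα : cos α = (4 * q ^ 2 - 3 * p ^ 2) / (4 * q ^ 2 - p ^ 2))
    (hβ : cos β = p ^ 2 / (4 * q ^ 2 - p ^ 2))
    (r : ℚ) (h : p * α + 2 * q * β = r * π) : False := by
  have hp' : (0:ℝ) < p := by exact_mod_cast hp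
  have hq' : (0:ℝ) < q := by exact_mod_cast hq
  set n : ℝ := 4 * q ^ 2 - p ^ 2 with hn
  have hn0 : 0 < n := by nlinarith
  obtain ⟨w, hw0, hw2⟩ : ∃ w : ℝ, 0 < w ∧ w ^ 2 = 4 * q ^ 2 - 2 * p ^ 2 :=
    ⟨Real.sqrt (4 * q ^ 2 - 2 * p ^ 2), Real.sqrt_pos.mpr (by linarith), Real.sq_sqrt (by linarith)⟩
  have key : ∀ x y : ℝ, 0 ≤ x → 0 ≤ y → x ^ 2 = y ^ 2 → x = y := fun x y hx hy h => by
    have := abs_eq_abs.mpr (sq_eq_sq_iff_eq_or_eq_neg.mp h)
    rwa [abs_of_nonneg hx, abs_of_nonneg hy] at this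
  have hsα : sin α = 2 * p * w / n := by
    apply key _ _ (sin_nonneg_of_nonneg_of_le_pi hα0 hα1) (by positivity)
    rw [sin_sq, hα, div_pow, div_pow, mul_pow, mul_pow, hw2, eq_div_iff (by positivity), sub_mul,
      div_mul_cancel₀ _ (by positivity), hn]
    ring
  have hsβ : sin β = 2 * q * w / n := by
    apply key _ _ (sin_nonneg_of_nonneg_of_le_pi hβ0 hβ1) (by positivity)
    rw [sin_sq, hβ, div_pow, div_pow, mul_pow, mul_pow, hw2, eq_div_iff (by positivity), sub_mul,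
      div_mul_cancel₀ _ (by positivity), hn]
    ring
  have hnC : (n : ℂ) ≠ 0 := by exact_mod_cast hn0.ne'
  have hWW : ((w : ℂ) * Complex.I) ^ 2 = -(4 * q ^ 2 - 2 * p ^ 2) := by
    rw [mul_pow, Complex.I_sq]
    have : ((w : ℂ)) ^ 2 = 4 * q ^ 2 - 2 * p ^ 2 := by exact_mod_cast congrArg (fun x : ℝ => (x : ℂ)) hw2
    rw [this]; ring
  have hnn : (n : ℂ) = 4 * q ^ 2 - p ^ 2 := by rw [hn]; push_cast; ring
  have hU : (2 * (q : ℂ) + w * Complex.I) * (2 * q - w * Complex.I) = 2 * n := by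
    rw [hnn]; linear_combination (-1) * hWW
  have hZ : ((p : ℂ) + w * Complex.I) * (p - w * Complex.I) = n := by
    rw [hnn]; linear_combination (-1) * hWW
  have hU0 : (2 * (q : ℂ) - w * Complex.I) ≠ 0 := fun h0 => by
    rw [h0, mul_zero] at hU; exact hnC (by linear_combination (-1/2 : ℂ) * hU)
  have hZ0 : ((p : ℂ) + w * Complex.I) ≠ 0 := fun h0 => by
    rw [h0, zero_mul] at hZ; exact hnC hZ.symm
  have Eα : Complex.exp ((α : ℝ) * Complex.I) =
      -(((p : ℂ) - w * Complex.I) / (p + w * Complex.I)) := by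
    rw [exp_of_cos_sin _ _ _ hα hsα, ← neg_div, eq_div_iff hZ0]
    push_cast
    rw [show ((4 * (q:ℂ) ^ 2 - 3 * p ^ 2) / n + 2 * p * w / n * Complex.I) =
      (4 * (q:ℂ) ^ 2 - 3 * p ^ 2 + 2 * p * (w * Complex.I)) / n by field_simp]
    rw [div_mul_eq_mul_div, div_eq_iff hnC, hnn]
    linear_combination (2 * (p:ℂ)) * hWW
  have Eβ : Complex.exp ((β : ℝ) * Complex.I) =
      (2 * (q : ℂ) + w * Complex.I) / (2 * q - w * Complex.I) := by
    rw [exp_of_cos_sin _ _ _ hβ hsβ, eq_div_iff hU0]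
    push_cast
    rw [show ((p:ℂ) ^ 2 / n + 2 * q * w / n * Complex.I) =
      ((p:ℂ) ^ 2 + 2 * q * (w * Complex.I)) / n by field_simp]
    rw [div_mul_eq_mul_div, div_eq_iff hnC, hnn]
    linear_combination (-2 * (q:ℂ)) * hWW
  have hN := rat_mul _ r h
  have hNpos : 0 < r.den := r.den_pos
  have e1 : Complex.exp ((β : ℝ) * Complex.I) ^ (4 * q * r.den) * Complex.exp ((α : ℝ) * Complex.I) ^ (2 * p * r.den) = 1 := by
    rw [← Complex.exp_nat_mul, ← Complex.exp_nat_mul, ← Complex.exp_add]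
    have := exp_two_eq_one r.den r.num (p * α + 2 * q * β) hN
    rw [← this]
    congr 1
    push_cast
    ring
  rw [Eα, Eβ, Even.neg_pow ⟨p * r.den, by ring⟩, div_pow, div_pow, div_mul_div_comm,
    div_eq_one_iff_eq (mul_ne_zero (pow_ne_zero _ hU0) (pow_ne_zero _ hZ0))] at e1
  have hposZ : (p : ℤ) ^ 2 < 2 * (q : ℤ) ^ 2 := by exact_mod_cast hpos
  refine no_rel_disphenoid p q (by exact_mod_cast hp) (by exact_mod_cast hq)
    (Nat.isCoprime_iff_coprime.mpr hcop) hposZ w (by exact_mod_cast hw2) hw0.ne'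
    (4 * q * r.den) (2 * p * r.den) (by positivity) (by positivity) ?_
  push_cast
  exact e1

lemma exists_f1 (b : ℝ) (hb : b ≠ 0) : ∃ f : ℝ →ₗ[ℚ] ℚ, f b = 1 := by
  by_contra hcon
  push Not at hcon
  apply hb
  rw [← Module.forall_dual_apply_eq_zero_iff ℚ b]
  intro f
  by_contra hf
  apply hcon ((f b)⁻¹ • f)
  simp [hf]

lemma exists_f2 (b l : ℝ) (h : ∀ r : ℚ, l ≠ r * b) : ∃ f : ℝ →ₗ[ℚ] ℚ, f b = 0 ∧ f l = 1 := by
  have h1 : ((Submodule.span ℚ {b}).mkQ l) ≠ 0 := by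
    rw [Ne, Submodule.mkQ_apply, Submodule.Quotient.mk_eq_zero, Submodule.mem_span_singleton]
    rintro ⟨r, hr⟩
    apply h r
    rw [← hr, Rat.smul_def]
  have h2 : ∃ g : (ℝ ⧸ Submodule.span ℚ {b}) →ₗ[ℚ] ℚ, g ((Submodule.span ℚ {b}).mkQ l) ≠ 0 := by
    by_contra hcon
    push Not at hcon
    exact h1 ((Module.forall_dual_apply_eq_zero_iff ℚ _).mp hcon)
  obtain ⟨g, hg⟩ := h2
  refine ⟨(g ((Submodule.span ℚ {b}).mkQ l))⁻¹ • (g.comp (Submodule.span ℚ {b}).mkQ), ?_, ?_⟩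
  · have hz : (Submodule.span ℚ {b}).mkQ b = 0 := by
      rw [Submodule.mkQ_apply, Submodule.Quotient.mk_eq_zero]
      exact Submodule.mem_span_singleton_self b
    rw [LinearMap.smul_apply, LinearMap.comp_apply, hz, map_zero, smul_zero]
  · rw [LinearMap.smul_apply, LinearMap.comp_apply, smul_eq_mul, inv_mul_cancel₀ hg]

/-- the common rational / irrational case distinction -/
lemma split (x y α β : ℝ) (hx : 0 < x) (hy : 0 < y) (c d : ℕ) (hc : 0 < c) (hd : 0 < d)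
    (h : ((c:ℝ) * x) ⊗ₜ[ℤ] (α : AngMod) + ((d:ℝ) * y) ⊗ₜ[ℤ] (β : AngMod) = 0) :
    (∃ p q : ℕ, 0 < p ∧ 0 < q ∧ Nat.Coprime p q ∧ q * y = p * x ∧ ∃ r : ℚ, (c * q) * α + (d * p) * β = r * π) ∨
    ((∃ r : ℚ, α = r * π) ∧ (∃ r : ℚ, β = r * π)) := by
  have lin : ∀ (f : ℝ →ₗ[ℚ] ℚ) (k : ℕ) (z : ℝ), f ((k:ℝ) * z) = k * f z := fun f k z => by
    rw [← nsmul_eq_mul, map_nsmul, nsmul_eq_mul]
  by_cases hr : ∃ s : ℚ, y = s * x
  · left
    obtain ⟨s, hs⟩ := hr
    have hs0 : 0 < s := by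
      have : (0:ℝ) < s := by
        by_contra hcon
        push Not at hcon
        nlinarith
      exact_mod_cast this
    have hnum : 0 < s.num := Rat.num_pos.mpr hs0
    have hcast : ((s.num.toNat : ℕ) : ℝ) = (s.num : ℝ) := by
      have : ((s.num.toNat : ℕ) : ℤ) = s.num := Int.toNat_of_nonneg hnum.le
      exact_mod_cast congrArg (fun t : ℤ => (t : ℝ)) this
    have hsd : (s.den : ℝ) * s = s.num := by
      have := Rat.den_mul_eq_num s
      exact_mod_cast this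
    refine ⟨s.num.toNat, s.den, by omega, s.den_pos, ?_, ?_, ?_⟩
    · have := s.reduced
      rwa [show s.num.natAbs = s.num.toNat by omega] at this
    · rw [hcast, hs, ← mul_assoc, hsd]
    · obtain ⟨f, hf⟩ := exists_f1 x hx.ne'
      obtain ⟨r, hr⟩ := exists_rat_of_tensor_eq_zero f _ _ _ _ h
      have hfy : f y = s := by
        rw [hs, ← Rat.smul_def, map_smul, hf, smul_eq_mul, mul_one]
      rw [lin, lin, hf, hfy] at hr
      push_cast at hr
      refine ⟨r * s.den, ?_⟩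
      push_cast
      rw [hcast, ← hsd]
      linear_combination (s.den : ℝ) * hr
  · right
    push Not at hr
    have hr' : ∀ s : ℚ, x ≠ s * y := fun s hs => by
      have hs0 : (s : ℝ) ≠ 0 := fun h0 => by rw [h0, zero_mul] at hs; exact hx.ne' hs
      apply hr s⁻¹
      push_cast
      rw [hs]
      field_simp
    have hc' : (c : ℝ) ≠ 0 := by exact_mod_cast hc.ne'
    have hd' : (d : ℝ) ≠ 0 := by exact_mod_cast hd.ne'
    constructor
    · obtain ⟨f, hf0, hf1⟩ := exists_f2 y x hr'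
      obtain ⟨r, hr⟩ := exists_rat_of_tensor_eq_zero f _ _ _ _ h
      rw [lin, lin, hf0, hf1] at hr
      push_cast at hr
      refine ⟨r / c, ?_⟩
      push_cast
      field_simp
      linarith
    · obtain ⟨f, hf0, hf1⟩ := exists_f2 x y hr
      obtain ⟨r, hr⟩ := exists_rat_of_tensor_eq_zero f _ _ _ _ h
      rw [lin, lin, hf0, hf1] at hr
      push_cast at hr
      refine ⟨r / d, ?_⟩
      push_cast
      field_simp
      linarith

theorem pyramid_ne (b l α β : ℝ) (hb : 0 < b) (hl : 0 < l) (hnd : b ^ 2 < 3 * l ^ 2)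
    (hα0 : 0 ≤ α) (hα1 : α ≤ π) (hβ0 : 0 ≤ β) (hβ1 : β ≤ π)
    (hα : cos α ^ 2 = b ^ 2 / (3 * (4 * l ^ 2 - b ^ 2))) (hαp : 0 ≤ cos α)
    (hβ : cos β = (2 * l ^ 2 - b ^ 2) / (4 * l ^ 2 - b ^ 2))
    (h : ((3:ℕ) * b : ℝ) ⊗ₜ[ℤ] (α : AngMod) + ((3:ℕ) * l : ℝ) ⊗ₜ[ℤ] (β : AngMod) = 0) : False := by
  have hn : 0 < 4 * l ^ 2 - b ^ 2 := by nlinarith
  rcases split b l α β hb hl 3 3 (by norm_num) (by norm_num) h with
    ⟨p, q, hp, hq, hcop, hpq, r, hr⟩ | ⟨⟨r, hr⟩, ⟨r', hr'⟩⟩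
  · have hp' : (0:ℝ) < p := by exact_mod_cast hp
    have hq' : (0:ℝ) < q := by exact_mod_cast hq
    have hl' : l = p * b / q := by field_simp; linarith
    have hb2 : (q:ℝ) ^ 2 < 3 * (p:ℝ) ^ 2 := by
      rw [hl', div_pow, mul_pow] at hnd
      rw [← mul_div_assoc, lt_div_iff₀ (by positivity)] at hnd
      have : b ^ 2 * (q:ℝ) ^ 2 < b ^ 2 * (3 * (p:ℝ) ^ 2) := by linarith
      exact lt_of_mul_lt_mul_left this (by positivity)
    have hm : (4 * (p:ℝ) ^ 2 - q ^ 2) ≠ 0 := by nlinarith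
    have hn' : 4 * l ^ 2 - b ^ 2 = b ^ 2 / q ^ 2 * (4 * p ^ 2 - q ^ 2) := by
      rw [hl']; field_simp
    refine pyramid_irr p q hp hq hcop hb2 α β hα0 hα1 hβ0 hβ1 ?_ hαp ?_ (r / 3) ?_
    · rw [hα, hn']; field_simp
    · rw [hβ, hn', hl']; field_simp
    · push_cast at hr ⊢
      linear_combination (1/3 : ℝ) * hr
  · have i1 : IsIntegral ℤ (2 * cos β) := by
      rw [hr']; exact Real.isIntegral_two_mul_cos_rat_mul_pi r'
    have i2 : IsIntegral ℤ (2 * cos (2 * α)) := by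
      have := Real.isIntegral_two_mul_cos_rat_mul_pi (2 * r)
      rw [hr]
      convert this using 3
      push_cast; ring
    have rel : cos (2 * α) = 2 * (2 * cos (2 * α)) + 2 * (2 * cos β) + 1 := by
      rw [cos_two_mul, hα, hβ]
      field_simp
      ring
    have i3 : IsIntegral ℤ (cos (2 * α)) := by
      rw [rel]
      exact ((((isIntegral_algebraMap (R := ℤ) (A := ℝ) (x := 2))).mul i2).add
        (((isIntegral_algebraMap (R := ℤ) (A := ℝ) (x := 2))).mul i1)).add isIntegral_one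
    have h2r : 2 * α = ((2 * r : ℚ) : ℝ) * π := by rw [hr]; push_cast; ring
    rw [h2r] at i3
    rcases cos_integral_rat (2 * r) i3 with h0 | h0 | h0
    · rw [← h2r] at h0
      have hb4 : 2 * cos β = ((-1/2 : ℚ) : ℝ) := by
        push_cast; linarith
      rw [hb4] at i1
      have i4 : IsIntegral ℤ (-1/2 : ℚ) := by
        exact (isIntegral_algebraMap_iff (algebraMap ℚ ℝ).injective).mp i1
      obtain ⟨z, hz⟩ := IsIntegrallyClosed.isIntegral_iff.mp i4
      have hz2 : ((2 * z : ℤ) : ℚ) = ((-1 : ℤ) : ℚ) := by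
        push_cast
        rw [show ((z : ℚ)) = -1/2 by simpa using hz]
        norm_num
      have := Int.cast_injective hz2
      omega
    · rw [← h2r, cos_two_mul, hα] at h0
      field_simp at h0
      nlinarith
    · rw [← h2r, cos_two_mul, hα] at h0
      have : 0 < b ^ 2 / (3 * (4 * l ^ 2 - b ^ 2)) := by positivity
      linarith

theorem disphenoid_only (a b α β : ℝ) (ha : 0 < a) (hb : 0 < b) (hnd : a ^ 2 < 2 * b ^ 2)
    (hα0 : 0 ≤ α) (hα1 : α ≤ π) (hβ0 : 0 ≤ β) (hβ1 : β ≤ π)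
    (hα : cos α = (4 * b ^ 2 - 3 * a ^ 2) / (4 * b ^ 2 - a ^ 2))
    (hβ : cos β = a ^ 2 / (4 * b ^ 2 - a ^ 2))
    (h : ((4:ℕ) * b : ℝ) ⊗ₜ[ℤ] (β : AngMod) + ((2:ℕ) * a : ℝ) ⊗ₜ[ℤ] (α : AngMod) = 0) : 3 * a ^ 2 = 4 * b ^ 2 := by
  have hn : 0 < 4 * b ^ 2 - a ^ 2 := by nlinarith
  rcases split b a β α hb ha 4 2 (by norm_num) (by norm_num) h with
    ⟨p, q, hp, hq, hcop, hpq, r, hr⟩ | ⟨⟨r, hr⟩, ⟨r', hr'⟩⟩
  · exfalso
    have hp' : (0:ℝ) < p := by exact_mod_cast hp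
    have hq' : (0:ℝ) < q := by exact_mod_cast hq
    have hl' : a = p * b / q := by field_simp; linarith
    have hb2 : (p:ℝ) ^ 2 < 2 * (q:ℝ) ^ 2 := by
      rw [hl', div_pow, mul_pow] at hnd
      rw [div_lt_iff₀ (by positivity)] at hnd
      have : b ^ 2 * (p:ℝ) ^ 2 < b ^ 2 * (2 * (q:ℝ) ^ 2) := by linarith
      exact lt_of_mul_lt_mul_left this (by positivity)
    have hm : (4 * (q:ℝ) ^ 2 - p ^ 2) ≠ 0 := by nlinarith
    have hn' : 4 * b ^ 2 - a ^ 2 = b ^ 2 / q ^ 2 * (4 * q ^ 2 - p ^ 2) := by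
      rw [hl']; field_simp
    refine disphenoid_irr p q hp hq hcop hb2 α β hα0 hα1 hβ0 hβ1 ?_ ?_ (r / 2) ?_
    · rw [hα, hn', hl']; field_simp
    · rw [hβ, hn', hl']; field_simp
    · push_cast at hr ⊢
      linear_combination (1/2 : ℝ) * hr
  · have i1 : IsIntegral ℤ (2 * cos β) := by
      rw [hr]; exact Real.isIntegral_two_mul_cos_rat_mul_pi r
    have rel : cos α = 1 - 2 * cos β := by
      rw [hα, hβ]
      field_simp
      ring
    have i3 : IsIntegral ℤ (cos α) := by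
      rw [rel]
      exact isIntegral_one.sub i1
    rw [hr'] at i3
    rcases cos_integral_rat r' i3 with h0 | h0 | h0
    · rw [← hr', hα, div_eq_zero_iff] at h0
      rcases h0 with h0 | h0
      · linarith
      · linarith
    · rw [← hr', hα, div_eq_iff hn.ne'] at h0
      nlinarith
    · rw [← hr', hα, div_eq_iff hn.ne'] at h0
      nlinarith

theorem disphenoid_zero (a b α β : ℝ) (ha : 0 < a) (hb : 0 < b)
    (hα0 : 0 ≤ α) (hα1 : α ≤ π) (hβ0 : 0 ≤ β) (hβ1 : β ≤ π)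
    (hα : cos α = (4 * b ^ 2 - 3 * a ^ 2) / (4 * b ^ 2 - a ^ 2))
    (hβ : cos β = a ^ 2 / (4 * b ^ 2 - a ^ 2)) (hab : 3 * a ^ 2 = 4 * b ^ 2) :
    ((4:ℕ) * b : ℝ) ⊗ₜ[ℤ] (β : AngMod) + ((2:ℕ) * a : ℝ) ⊗ₜ[ℤ] (α : AngMod) = 0 := by
  have p0 : ((Real.pi : ℝ) : AngMod) = 0 := by
    rw [QuotientAddGroup.eq_zero_iff]; exact AddSubgroup.mem_zmultiples _
  have e1 : α = π / 2 := by
    apply injOn_cos ⟨hα0, hα1⟩ ⟨by positivity, by linarith [pi_pos]⟩
    rw [hα, cos_pi_div_two, ← hab]; simp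
  have e2 : β = π / 3 := by
    apply injOn_cos ⟨hβ0, hβ1⟩ ⟨by positivity, by linarith [pi_pos]⟩
    rw [hβ, cos_pi_div_three, ← hab]; field_simp; norm_num
  have tens : ∀ (k : ℕ) (x θ : ℝ), ((k : ℝ) * x) ⊗ₜ[ℤ] (θ : AngMod) = x ⊗ₜ[ℤ] ((k * θ : ℝ) : AngMod) := fun k x θ => by
    rw [← nsmul_eq_mul, ← nsmul_eq_mul, QuotientAddGroup.mk_nsmul, ← natCast_zsmul, ← natCast_zsmul,
      TensorProduct.smul_tmul]
  rw [tens 2 a α, e1, e2]
  rw [show ((2:ℕ) * (π / 2) : ℝ) = π by push_cast; ring, p0, TensorProduct.tmul_zero, add_zero]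
  rw [show ((4:ℕ) * b : ℝ) = ((3:ℕ) * (4 * b / 3) : ℝ) by push_cast; ring, tens,
    show ((3:ℕ) * (π / 3) : ℝ) = π by push_cast; ring, p0, TensorProduct.tmul_zero]

lemma dihedral_swap_right (A B C D : P3) : dihedral A B C D = dihedral A B D C :=
  InnerProductGeometry.angle_comm _ _

lemma perp_neg_sub (e w : P3) : perp (-e) (w - e) = perp e w := by
  unfold perp
  by_cases he : e = 0
  · simp [he]
  · have he' : ⟪e, e⟫ ≠ 0 := inner_self_ne_zero.mpr he
    rw [inner_neg_left, inner_neg_left, inner_neg_right, inner_sub_right, neg_neg, neg_div, sub_div, div_self he']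
    module

lemma dihedral_swap_left (A B C D : P3) : dihedral A B C D = dihedral B A C D := by
  unfold dihedral
  rw [← perp_neg_sub (B - A) (C - A), ← perp_neg_sub (B - A) (D - A)]
  rw [neg_sub, show C - A - (B - A) = C - B by abel, show D - A - (B - A) = D - B by abel]

lemma perm_sum {M : Type*} [AddCommGroup M] (T : Fin 4 → Fin 4 → Fin 4 → Fin 4 → M)
    (h1 : ∀ i j k l, T i j k l = T j i k l) (h2 : ∀ i j k l, T i j k l = T i j l k)
    (s0 s1 s2 s3 : Fin 4) (h01 : s0 ≠ s1) (h02 : s0 ≠ s2) (h03 : s0 ≠ s3) (h12 : s1 ≠ s2) (h13 : s1 ≠ s3)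
    (h23 : s2 ≠ s3) :
    T s0 s1 s2 s3 + T s0 s2 s1 s3 + T s0 s3 s1 s2 + T s1 s2 s0 s3 + T s1 s3 s0 s2 + T s2 s3 s0 s1 =
    T 0 1 2 3 + T 0 2 1 3 + T 0 3 1 2 + T 1 2 0 3 + T 1 3 0 2 + T 2 3 0 1 := by
  have comb : ∀ s0 s1 s2 s3 : Fin 4, s0 ≠ s1 → s0 ≠ s2 → s0 ≠ s3 → s1 ≠ s2 → s1 ≠ s3 → s2 ≠ s3 →
    (s0, s1, s2, s3) ∈ [((0:Fin 4), (1:Fin 4), (2:Fin 4), (3:Fin 4)), (0,1,3,2), (0,2,1,3), (0,2,3,1), (0,3,1,2), (0,3,2,1),
      (1,0,2,3), (1,0,3,2), (1,2,0,3), (1,2,3,0), (1,3,0,2), (1,3,2,0),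
      (2,0,1,3), (2,0,3,1), (2,1,0,3), (2,1,3,0), (2,3,0,1), (2,3,1,0),
      (3,0,1,2), (3,0,2,1), (3,1,0,2), (3,1,2,0), (3,2,0,1), (3,2,1,0)] := by decide
  have := comb s0 s1 s2 s3 h01 h02 h03 h12 h13 h23
  clear comb h01 h02 h03 h12 h13 h23
  simp only [List.mem_cons, Prod.mk.injEq, List.not_mem_nil, or_false] at this
  rcases this with h | h | h | h | h | h | h | h | h | h | h | h | h | h | h | h | h | h | h | h | h | h | h | h <;>
  · obtain ⟨rfl, rfl, rfl, rfl⟩ := h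
    simp only [h1 1 0, h1 2 0, h1 3 0, h1 2 1, h1 3 1, h1 3 2, fun i j => h2 i j 1 0, fun i j => h2 i j 2 0,
      fun i j => h2 i j 3 0, fun i j => h2 i j 2 1, fun i j => h2 i j 3 1, fun i j => h2 i j 3 2]
    try abel

lemma dehn_perm (v : Fin 4 → P3) (τ : Equiv.Perm (Fin 4)) : dehn (v ∘ τ) = dehn v := by
  exact perm_sum (fun i j k l => dist (v i) (v j) ⊗ₜ[ℤ] (dihedral (v i) (v j) (v k) (v l) : AngMod))
    (fun i j k l => by rw [dist_comm, dihedral_swap_left])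
    (fun i j k l => by rw [dihedral_swap_right]) (τ 0) (τ 1) (τ 2) (τ 3)
    (τ.injective.ne (by decide)) (τ.injective.ne (by decide)) (τ.injective.ne (by decide))
    (τ.injective.ne (by decide)) (τ.injective.ne (by decide)) (τ.injective.ne (by decide))

lemma perm_cases : ∀ f : Fin 4 → Fin 4, Function.Injective f → (∃ i, f (f i) ≠ i) →
    ∃ a b c d : Fin 4, a ≠ b ∧ a ≠ c ∧ a ≠ d ∧ b ≠ c ∧ b ≠ d ∧ c ≠ d ∧
      ((f a = b ∧ f b = c ∧ f c = a ∧ f d = d) ∨ (f a = b ∧ f b = c ∧ f c = d ∧ f d = a)) := by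
  decide +kernel


lemma dihedral_eq_of_dist {A B C D A' B' C' D' : P3} {ab ac ad bc bd cd : ℝ} (h1 : dist A B = ab) (h2 : dist A C = ac)
    (h3 : dist A D = ad) (h4 : dist B C = bc) (h5 : dist B D = bd) (h6 : dist C D = cd)
    (h1' : dist A' B' = ab) (h2' : dist A' C' = ac)
    (h3' : dist A' D' = ad) (h4' : dist B' C' = bc) (h5' : dist B' D' = bd) (h6' : dist C' D' = cd) (hab : ab ≠ 0) :
    dihedral A B C D = dihedral A' B' C' D' :=
  Real.injOn_cos ⟨dihedral_nonneg _ _ _ _, dihedral_le_pi _ _ _ _⟩ ⟨dihedral_nonneg _ _ _ _, dihedral_le_pi _ _ _ _⟩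
    (by rw [cos_dihedral_dist _ _ _ _ h1 h2 h3 h4 h5 h6 hab, cos_dihedral_dist _ _ _ _ h1' h2' h3' h4' h5' h6' hab])

lemma comb_ne_zero (v : Fin 4 → P3) (hv : AffineIndependent ℝ v) (w : Fin 4 → ℝ) (hw : ∑ i, w i = 0) (hw3 : w 3 ≠ 0) :
    ∑ i, w i • v i ≠ 0 := fun h => by
  rw [affineIndependent_iff_of_fintype] at hv
  exact hw3 (hv w hw (by rw [Finset.weightedVSub_eq_linear_combination _ hw]; exact h) 3)

lemma norm_comb1 (x y z : P3) : ⟪(3:ℝ) • x - y - z, (3:ℝ) • x - y - z⟫ =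
    9 * ⟪x, x⟫ + ⟪y, y⟫ + ⟪z, z⟫ - 6 * ⟪x, y⟫ - 6 * ⟪x, z⟫ + 2 * ⟪y, z⟫ := by
  simp only [inner_sub_left, inner_sub_right, inner_smul_left, inner_smul_right, conj_trivial]
  rw [real_inner_comm x y, real_inner_comm x z, real_inner_comm y z]
  ring

lemma norm_comb2 (x y z : P3) : ⟪x - y - z, x - y - z⟫ =
    ⟪x, x⟫ + ⟪y, y⟫ + ⟪z, z⟫ - 2 * ⟪x, y⟫ - 2 * ⟪x, z⟫ + 2 * ⟪y, z⟫ := by
  simp only [inner_sub_left, inner_sub_right]
  rw [real_inner_comm x y, real_inner_comm x z, real_inner_comm y z]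
  ring

lemma inner_self_of_dist (X Y : P3) : ⟪Y - X, Y - X⟫ = dist X Y ^ 2 := by
  rw [inner_of_dist]; simp

lemma tens (k : ℕ) (x : ℝ) (θ : AngMod) : ((k : ℝ) * x) ⊗ₜ[ℤ] θ = (k : ℤ) • (x ⊗ₜ[ℤ] θ) := by
  rw [← nsmul_eq_mul, ← natCast_zsmul, TensorProduct.smul_tmul']

theorem pyramid_dehn (v : Fin 4 → P3) (hv : AffineIndependent ℝ v) (b l : ℝ)
    (h01 : dist (v 0) (v 1) = b) (h12 : dist (v 1) (v 2) = b) (h02 : dist (v 0) (v 2) = b)
    (h03 : dist (v 0) (v 3) = l) (h13 : dist (v 1) (v 3) = l) (h23 : dist (v 2) (v 3) = l) : dehn v ≠ 0 := by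
  intro hD
  have hb : 0 < b := by rw [← h01]; exact dist_pos.mpr (hv.injective.ne (by decide))
  have hl : 0 < l := by rw [← h03]; exact dist_pos.mpr (hv.injective.ne (by decide))
  have h10 : dist (v 1) (v 0) = b := by rw [dist_comm]; exact h01
  have h20 : dist (v 2) (v 0) = b := by rw [dist_comm]; exact h02
  have h30 : dist (v 3) (v 0) = l := by rw [dist_comm]; exact h03
  have h21 : dist (v 2) (v 1) = b := by rw [dist_comm]; exact h12
  have h31 : dist (v 3) (v 1) = l := by rw [dist_comm]; exact h13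
  have h32 : dist (v 3) (v 2) = l := by rw [dist_comm]; exact h23
  have hnd : b ^ 2 < 3 * l ^ 2 := by
    have hne := comb_ne_zero v hv ![-1, -1, -1, 3] (by rw [Fin.sum_univ_four]; simp; norm_num) (by simp)
    rw [Fin.sum_univ_four] at hne
    simp only [Matrix.cons_val_zero, Matrix.cons_val_one, Matrix.cons_val] at hne
    have e : (-1:ℝ) • v 0 + (-1:ℝ) • v 1 + (-1:ℝ) • v 2 + (3:ℝ) • v 3 =
      (3:ℝ) • (v 3 - v 0) - (v 1 - v 0) - (v 2 - v 0) := by module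
    rw [e] at hne
    have hp := real_inner_self_pos.mpr hne
    rw [norm_comb1, inner_self_of_dist, inner_self_of_dist, inner_self_of_dist, inner_of_dist, inner_of_dist,
      inner_of_dist, h03, h01, h02, h31, h32, h12] at hp
    nlinarith
  have hn : 0 < 4 * l ^ 2 - b ^ 2 := by nlinarith
  have cα := cos_dihedral_dist _ _ _ _ h01 h02 h03 h12 h13 h23 hb.ne'
  have cβ := cos_dihedral_dist _ _ _ _ h03 h01 h02 h31 h32 h12 hl.ne'
  have e02 : dihedral (v 0) (v 2) (v 1) (v 3) = dihedral (v 0) (v 1) (v 2) (v 3) :=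
    dihedral_eq_of_dist h02 h01 h03 h21 h23 h13 h01 h02 h03 h12 h13 h23 hb.ne'
  have e12 : dihedral (v 1) (v 2) (v 0) (v 3) = dihedral (v 0) (v 1) (v 2) (v 3) :=
    dihedral_eq_of_dist h12 h10 h13 h20 h23 h03 h01 h02 h03 h12 h13 h23 hb.ne'
  have e13 : dihedral (v 1) (v 3) (v 0) (v 2) = dihedral (v 0) (v 3) (v 1) (v 2) :=
    dihedral_eq_of_dist h13 h10 h12 h30 h32 h02 h03 h01 h02 h31 h32 h12 hl.ne'
  have e23 : dihedral (v 2) (v 3) (v 0) (v 1) = dihedral (v 0) (v 3) (v 1) (v 2) :=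
    dihedral_eq_of_dist h23 h20 h21 h30 h31 h01 h03 h01 h02 h31 h32 h12 hl.ne'
  have b1 := dihedral_nonneg (v 0) (v 1) (v 2) (v 3)
  have b2 := dihedral_le_pi (v 0) (v 1) (v 2) (v 3)
  have b3 := dihedral_nonneg (v 0) (v 3) (v 1) (v 2)
  have b4 := dihedral_le_pi (v 0) (v 3) (v 1) (v 2)
  unfold dehn at hD
  rw [e02, e12, e13, e23, h01, h02, h03, h12, h13, h23] at hD
  generalize dihedral (v 0) (v 1) (v 2) (v 3) = α at *
  generalize dihedral (v 0) (v 3) (v 1) (v 2) = β at *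
  refine pyramid_ne b l α β hb hl hnd b1 b2 b3 b4 ?_ ?_ ?_ ?_
  · rw [cα, div_pow, mul_pow, Real.sq_sqrt, Real.sq_sqrt]
    · have h1 : b ^ 2 * b ^ 2 - ((b ^ 2 + b ^ 2 - b ^ 2) / 2) ^ 2 = 3 * b ^ 4 / 4 := by ring
      have h2 : l ^ 2 * b ^ 2 - ((b ^ 2 + l ^ 2 - l ^ 2) / 2) ^ 2 = b ^ 2 * (4 * l ^ 2 - b ^ 2) / 4 := by ring
      rw [h1, h2]
      field_simp
      ring
    · have h2 : l ^ 2 * b ^ 2 - ((b ^ 2 + l ^ 2 - l ^ 2) / 2) ^ 2 = b ^ 2 * (4 * l ^ 2 - b ^ 2) / 4 := by ring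
      rw [h2]; positivity
    · have h1 : b ^ 2 * b ^ 2 - ((b ^ 2 + b ^ 2 - b ^ 2) / 2) ^ 2 = 3 * b ^ 4 / 4 := by ring
      rw [h1]; positivity
  · rw [cα]
    apply div_nonneg
    · have h1 : (b ^ 2 + l ^ 2 - l ^ 2) / 2 * b ^ 2 - (b ^ 2 + b ^ 2 - b ^ 2) / 2 * ((b ^ 2 + l ^ 2 - l ^ 2) / 2)
        = b ^ 4 / 4 := by ring
      rw [h1]; positivity
    · positivity
  · rw [cβ, Real.mul_self_sqrt]
    · have h2 : b ^ 2 * l ^ 2 - ((l ^ 2 + b ^ 2 - l ^ 2) / 2) ^ 2 = b ^ 2 * (4 * l ^ 2 - b ^ 2) / 4 := by ring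
      rw [h2]
      field_simp
      ring
    · have h2 : b ^ 2 * l ^ 2 - ((l ^ 2 + b ^ 2 - l ^ 2) / 2) ^ 2 = b ^ 2 * (4 * l ^ 2 - b ^ 2) / 4 := by ring
      rw [h2]; positivity
  · rw [tens, tens, ← hD]
    push_cast
    module

theorem disphenoid_dehn (v : Fin 4 → P3) (hv : AffineIndependent ℝ v) (a b : ℝ)
    (h01 : dist (v 0) (v 1) = b) (h12 : dist (v 1) (v 2) = b) (h23 : dist (v 2) (v 3) = b) (h03 : dist (v 0) (v 3) = b)
    (h02 : dist (v 0) (v 2) = a) (h13 : dist (v 1) (v 3) = a) : dehn v = 0 ↔ 3 * a ^ 2 = 4 * b ^ 2 := by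
  have hb : 0 < b := by rw [← h01]; exact dist_pos.mpr (hv.injective.ne (by decide))
  have ha : 0 < a := by rw [← h02]; exact dist_pos.mpr (hv.injective.ne (by decide))
  have h10 : dist (v 1) (v 0) = b := by rw [dist_comm]; exact h01
  have h20 : dist (v 2) (v 0) = a := by rw [dist_comm]; exact h02
  have h30 : dist (v 3) (v 0) = b := by rw [dist_comm]; exact h03
  have h21 : dist (v 2) (v 1) = b := by rw [dist_comm]; exact h12
  have h31 : dist (v 3) (v 1) = a := by rw [dist_comm]; exact h13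
  have h32 : dist (v 3) (v 2) = b := by rw [dist_comm]; exact h23
  have hnd : a ^ 2 < 2 * b ^ 2 := by
    have hne := comb_ne_zero v hv ![1, -1, 1, -1] (by rw [Fin.sum_univ_four]; simp) (by simp)
    rw [Fin.sum_univ_four] at hne
    simp only [Matrix.cons_val_zero, Matrix.cons_val_one, Matrix.cons_val] at hne
    have e : (1:ℝ) • v 0 + (-1:ℝ) • v 1 + (1:ℝ) • v 2 + (-1:ℝ) • v 3 =
      (v 2 - v 0) - (v 1 - v 0) - (v 3 - v 0) := by module
    rw [e] at hne
    have hp := real_inner_self_pos.mpr hne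
    rw [norm_comb2, inner_self_of_dist, inner_self_of_dist, inner_self_of_dist, inner_of_dist, inner_of_dist,
      inner_of_dist, h03, h01, h02, h21, h23, h13] at hp
    nlinarith
  have hn : 0 < 4 * b ^ 2 - a ^ 2 := by nlinarith
  have cα := cos_dihedral_dist _ _ _ _ h02 h01 h03 h21 h23 h13 ha.ne'
  have cβ := cos_dihedral_dist _ _ _ _ h01 h02 h03 h12 h13 h23 hb.ne'
  have e13 : dihedral (v 1) (v 3) (v 0) (v 2) = dihedral (v 0) (v 2) (v 1) (v 3) :=
    dihedral_eq_of_dist h13 h10 h12 h30 h32 h02 h02 h01 h03 h21 h23 h13 ha.ne'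
  have e23 : dihedral (v 2) (v 3) (v 0) (v 1) = dihedral (v 0) (v 1) (v 2) (v 3) :=
    dihedral_eq_of_dist h23 h20 h21 h30 h31 h01 h01 h02 h03 h12 h13 h23 hb.ne'
  have e03 : dihedral (v 0) (v 3) (v 1) (v 2) = dihedral (v 0) (v 1) (v 2) (v 3) := by
    rw [dihedral_swap_right]
    exact dihedral_eq_of_dist h03 h02 h01 h32 h31 h21 h01 h02 h03 h12 h13 h23 hb.ne'
  have e12 : dihedral (v 1) (v 2) (v 0) (v 3) = dihedral (v 0) (v 1) (v 2) (v 3) := by
    rw [dihedral_swap_right]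
    exact dihedral_eq_of_dist h12 h13 h10 h23 h20 h30 h01 h02 h03 h12 h13 h23 hb.ne'
  have b1 := dihedral_nonneg (v 0) (v 2) (v 1) (v 3)
  have b2 := dihedral_le_pi (v 0) (v 2) (v 1) (v 3)
  have b3 := dihedral_nonneg (v 0) (v 1) (v 2) (v 3)
  have b4 := dihedral_le_pi (v 0) (v 1) (v 2) (v 3)
  unfold dehn
  rw [e13, e23, e03, e12, h01, h02, h03, h12, h13, h23]
  generalize dihedral (v 0) (v 2) (v 1) (v 3) = α at *
  generalize dihedral (v 0) (v 1) (v 2) (v 3) = β at *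
  have h2 : b ^ 2 * a ^ 2 - ((a ^ 2 + b ^ 2 - b ^ 2) / 2) ^ 2 = a ^ 2 * (4 * b ^ 2 - a ^ 2) / 4 := by ring
  have h3 : a ^ 2 * b ^ 2 - ((b ^ 2 + a ^ 2 - b ^ 2) / 2) ^ 2 = a ^ 2 * (4 * b ^ 2 - a ^ 2) / 4 := by ring
  have h4 : b ^ 2 * b ^ 2 - ((b ^ 2 + b ^ 2 - a ^ 2) / 2) ^ 2 = a ^ 2 * (4 * b ^ 2 - a ^ 2) / 4 := by ring
  have hp : 0 ≤ a ^ 2 * (4 * b ^ 2 - a ^ 2) / 4 := by positivity
  have hcα : cos α = (4 * b ^ 2 - 3 * a ^ 2) / (4 * b ^ 2 - a ^ 2) := by
    rw [cα, h2, Real.mul_self_sqrt hp]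
    field_simp
    ring
  have hcβ : cos β = a ^ 2 / (4 * b ^ 2 - a ^ 2) := by
    rw [cβ, h3, h4, Real.mul_self_sqrt hp]
    field_simp
    ring
  have hsum : b ⊗ₜ[ℤ] (β : AngMod) + a ⊗ₜ[ℤ] (α : AngMod) + b ⊗ₜ[ℤ] (β : AngMod) + b ⊗ₜ[ℤ] (β : AngMod)
      + a ⊗ₜ[ℤ] (α : AngMod) + b ⊗ₜ[ℤ] (β : AngMod) =
      ((4:ℕ) * b : ℝ) ⊗ₜ[ℤ] (β : AngMod) + ((2:ℕ) * a : ℝ) ⊗ₜ[ℤ] (α : AngMod) := by
    rw [tens, tens]
    push_cast
    module
  rw [hsum]
  exact ⟨disphenoid_only a b α β ha hb hnd b1 b2 b3 b4 hcα hcβ, disphenoid_zero a b α β ha hb b1 b2 b3 b4 hcα hcβ⟩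

lemma exists_perm (a b c d : Fin 4) (h1 : a ≠ b) (h2 : a ≠ c) (h3 : a ≠ d) (h4 : b ≠ c) (h5 : b ≠ d) (h6 : c ≠ d) :
    ∃ τ : Equiv.Perm (Fin 4), τ 0 = a ∧ τ 1 = b ∧ τ 2 = c ∧ τ 3 = d := by
  have hinj : Function.Injective (![a, b, c, d] : Fin 4 → Fin 4) := by
    intro i j hij
    fin_cases i <;> fin_cases j <;> simp_all
  exact ⟨Equiv.ofBijective _ (Finite.injective_iff_bijective.mp hinj), rfl, rfl, rfl, rfl⟩

theorem symmetric_class (v : Fin 4 → P3) (hv : AffineIndependent ℝ v) (σ : Equiv.Perm (Fin 4))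
    (hσ : ∀ i j, dist (v (σ i)) (v (σ j)) = dist (v i) (v j)) (h3 : σ * σ ≠ 1) :
    dehn v = 0 ↔ ∃ (τ : Equiv.Perm (Fin 4)) (c : ℝ), 0 < c ∧
      dist (v (τ 0)) (v (τ 1)) = √3 * c ∧ dist (v (τ 1)) (v (τ 2)) = √3 * c ∧
      dist (v (τ 2)) (v (τ 3)) = √3 * c ∧ dist (v (τ 0)) (v (τ 3)) = √3 * c ∧
      dist (v (τ 0)) (v (τ 2)) = 2 * c ∧ dist (v (τ 1)) (v (τ 3)) = 2 * c := by
  have s3 : (√3 : ℝ) ^ 2 = 3 := Real.sq_sqrt (by norm_num)
  have aff : ∀ τ : Equiv.Perm (Fin 4), AffineIndependent ℝ (v ∘ τ) := fun τ =>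
    hv.comp_embedding τ.toEmbedding
  constructor
  · intro hD
    have hex : ∃ i, σ (σ i) ≠ i := by
      by_contra hcon
      push Not at hcon
      exact h3 (Equiv.ext hcon)
    obtain ⟨a, b, c, d, n1, n2, n3, n4, n5, n6, hc⟩ := perm_cases σ σ.injective hex
    obtain ⟨τ, t0, t1, t2, t3⟩ := exists_perm a b c d n1 n2 n3 n4 n5 n6
    rcases hc with ⟨e1, e2, e3, e4⟩ | ⟨e1, e2, e3, e4⟩
    · exfalso
      refine pyramid_dehn (v ∘ τ) (aff τ) (dist (v a) (v b)) (dist (v a) (v d)) ?_ ?_ ?_ ?_ ?_ ?_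
        ((dehn_perm v τ).trans hD)
      · simp only [Function.comp_apply, t0, t1]
      · simp only [Function.comp_apply, t1, t2]
        rw [← hσ a b, e1, e2]
      · simp only [Function.comp_apply, t0, t2]
        rw [← hσ a c, e1, e3, ← hσ b a, e2, e1, dist_comm, ← hσ b c, e2, e3, ← hσ c a, e3, e1]
        
      · simp only [Function.comp_apply, t0, t3]
      · simp only [Function.comp_apply, t1, t3]
        rw [← hσ a d, e1, e4]
      · simp only [Function.comp_apply, t2, t3]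
        rw [← hσ a d, e1, e4, ← hσ b d, e2, e4]
    · have q1 : dist (v b) (v c) = dist (v a) (v b) := by rw [← hσ a b, e1, e2]
      have q2 : dist (v c) (v d) = dist (v a) (v b) := by rw [← q1, ← hσ b c, e2, e3]
      have q3 : dist (v a) (v d) = dist (v a) (v b) := by rw [← q2, ← hσ c d, e3, e4, dist_comm]
      have q4 : dist (v b) (v d) = dist (v a) (v c) := by rw [← hσ a c, e1, e3]
      have key := (disphenoid_dehn (v ∘ τ) (aff τ) (dist (v a) (v c)) (dist (v a) (v b))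
        (by simp only [Function.comp_apply, t0, t1]) (by simp only [Function.comp_apply, t1, t2, q1])
        (by simp only [Function.comp_apply, t2, t3, q2]) (by simp only [Function.comp_apply, t0, t3, q3])
        (by simp only [Function.comp_apply, t0, t2]) (by simp only [Function.comp_apply, t1, t3, q4])).mp
        ((dehn_perm v τ).trans hD)
      have hpos : 0 < dist (v a) (v c) := dist_pos.mpr (hv.injective.ne n2)
      have hb : dist (v a) (v b) = √3 * (dist (v a) (v c) / 2) := by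
        have h1 : (dist (v a) (v b)) ^ 2 = (√3 * (dist (v a) (v c) / 2)) ^ 2 := by
          rw [mul_pow, s3]; nlinarith
        exact (pow_left_inj₀ dist_nonneg (by positivity) (by norm_num)).mp h1
      refine ⟨τ, dist (v a) (v c) / 2, by positivity, ?_, ?_, ?_, ?_, ?_, ?_⟩
      · rw [t0, t1, hb]
      · rw [t1, t2, q1, hb]
      · rw [t2, t3, q2, hb]
      · rw [t0, t3, q3, hb]
      · rw [t0, t2]; ring
      · rw [t1, t3, q4]; ring
  · rintro ⟨τ, c, hc, g1, g2, g3, g4, g5, g6⟩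
    rw [← dehn_perm v τ]
    refine (disphenoid_dehn (v ∘ τ) (aff τ) (2 * c) (√3 * c) g1 g2 g3 g4 g5 g6).mpr ?_
    rw [mul_pow, mul_pow, s3]; ring

end Pool.Agent.Helper40.Tet
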