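import Mathlib

/-!
Numerical facts for the board with `2 ^ 100` vertices.
-/

set_option autoImplicit false
set_option exponentiation.threshold 100000

namespace Pool.Agent.Helper40.Num100

open Finset

lemma choose_fact (N q s : ℕ) (hs : s ≤ q) :
    (N - q).choose (q - s) * q.factorial ≤ N ^ (q - s) * q.descFactorial s := by
  have h1 : (N - q).choose (q - s) * (q - s).factorial ≤ N ^ (q - s) := by
    rw [mul_comm, ← Nat.descFactorial_eq_factorial_mul_choose]
    exact (Nat.descFactorial_le_pow _ _).trans (Nat.pow_le_pow_left (Nat.sub_le _ _) _)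
  have h2 := Nat.factorial_mul_descFactorial hs
  calc (N - q).choose (q - s) * q.factorial
      = ((N - q).choose (q - s) * (q - s).factorial) * q.descFactorial s := by
        rw [← h2]; ring
    _ ≤ _ := Nat.mul_le_mul_right _ h1

lemma fact2 : (∑ s ∈ (range 187).filter (fun s => 2 ≤ s.choose 2),
    Nat.choose 186 s * ((2 ^ 100) ^ (186 - s) * Nat.descFactorial 186 s) * 2 ^ (s.choose 2)) ≤
      2 ^ 8 * 2 ^ 17205 * Nat.factorial 186 := by
  decide +kernel

lemma fact1 : (∑ s ∈ (range 187).filter (fun s => 1 ≤ s.choose 2),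
    Nat.choose 186 s * ((2 ^ 100) ^ (186 - s) * Nat.descFactorial 186 s) * 2 ^ (s.choose 2)) ≤
      2 ^ 90 * 2 ^ 17205 * Nat.factorial 186 := by
  decide +kernel

lemma factT : 2 ^ 11 * (2 ^ 100) ^ 2 * 2 ^ 17205 * Nat.factorial 186 ≤ (2 ^ 100 + 1 - 186) ^ 186 := by
  decide +kernel

lemma factB : 2 * (2 ^ 100) ^ 189 < 2 ^ 17766 * Nat.factorial 189 := by
  decide +kernel

lemma choose186 : Nat.choose 186 2 = 17205 := by decide +kernel

lemma choose189 : Nat.choose 189 2 = 17766 := by decide +kernel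

lemma cardE : (2 ^ 100 : ℕ).choose 2 = 2 ^ 99 * (2 ^ 100 - 1) := by
  rw [Nat.choose_two_right]
  have : (2 ^ 100 : ℕ) * (2 ^ 100 - 1) = 2 * (2 ^ 99 * (2 ^ 100 - 1)) := by norm_num
  rw [this, Nat.mul_div_cancel_left _ (by norm_num)]

lemma evenE : Even ((2 ^ 100 : ℕ).choose 2) := by
  rw [cardE]
  exact (Nat.even_pow.2 ⟨even_two, by norm_num⟩).mul_right _

end Pool.Agent.Helper40.Num100
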