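import Pool.Agent.Helper40.CliqueFam
import Pool.Agent.Helper40.Num100

/-!
The clique games on `2 ^ 100` vertices.
-/

set_option autoImplicit false
set_option exponentiation.threshold 100000

namespace Pool.Agent.Helper40.F100

open Finset Pool.Agent.Helper40.Game Pool.Agent.Helper40.SM Pool.Agent.Helper40.K9
  Pool.Agent.Helper40.CF Pool.Agent.Helper40.Num100

/-- number of vertices -/
def NN : ℕ := 2 ^ 100

lemma NN_def : NN = 2 ^ 100 := rfl

lemma NN_pos : 0 < NN := by rw [NN_def]; positivity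

instance : Inhabited (Sym2 (Fin NN)) := ⟨s(⟨0, NN_pos⟩, ⟨0, NN_pos⟩)⟩

/-- the pair sums -/
noncomputable def SS (r : ℕ) : ℝ := ∑ s ∈ (range (186 + 1)).filter (fun s => r ≤ s.choose 2),
      (Nat.choose 186 s : ℝ) * ((NN - 186).choose (186 - s) : ℝ) * 2 ^ (s.choose 2)

lemma SS_le (r : ℕ) : SS r * (Nat.factorial 186 : ℝ) ≤
    ((∑ s ∈ (range 187).filter (fun s => r ≤ s.choose 2),
    Nat.choose 186 s * ((2 ^ 100) ^ (186 - s) * Nat.descFactorial 186 s) * 2 ^ (s.choose 2) : ℕ) : ℝ) := by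
  unfold SS
  rw [Finset.sum_mul]
  rw [Nat.cast_sum]
  refine Finset.sum_le_sum (fun s hs => ?_)
  rw [mem_filter, mem_range] at hs
  have h := choose_fact NN 186 s (by omega)
  have h' : ((NN - 186).choose (186 - s) : ℝ) * (Nat.factorial 186 : ℝ) ≤
      (((2 ^ 100) ^ (186 - s) * Nat.descFactorial 186 s : ℕ) : ℝ) := by
    exact_mod_cast h
  calc (Nat.choose 186 s : ℝ) * ((NN - 186).choose (186 - s) : ℝ) * 2 ^ (s.choose 2) *
        (Nat.factorial 186 : ℝ)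
      = (Nat.choose 186 s : ℝ) * (((NN - 186).choose (186 - s) : ℝ) * (Nat.factorial 186 : ℝ)) *
        2 ^ (s.choose 2) := by ring
    _ ≤ (Nat.choose 186 s : ℝ) * (((2 ^ 100) ^ (186 - s) * Nat.descFactorial 186 s : ℕ) : ℝ) *
        2 ^ (s.choose 2) := by
        refine mul_le_mul_of_nonneg_right (mul_le_mul_of_nonneg_left h' ?_) ?_ <;> positivity
    _ = _ := by push_cast; ring

lemma SS2 : SS 2 / 2 ^ 17205 ≤ 2 ^ 8 := by
  have h1 := SS_le 2
  have h2 : ((∑ s ∈ (range 187).filter (fun s => 2 ≤ s.choose 2),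
    Nat.choose 186 s * ((2 ^ 100) ^ (186 - s) * Nat.descFactorial 186 s) * 2 ^ (s.choose 2) : ℕ) : ℝ)
      ≤ ((2 ^ 8 * 2 ^ 17205 * Nat.factorial 186 : ℕ) : ℝ) := by
    exact_mod_cast fact2
  have h3 := h1.trans h2
  rw [Nat.cast_mul, Nat.cast_mul, Nat.cast_pow, Nat.cast_pow] at h3
  have hf : (0:ℝ) < (Nat.factorial 186 : ℝ) := by exact_mod_cast Nat.factorial_pos _
  have h4 := le_of_mul_le_mul_right h3 hf
  rw [div_le_iff₀ (pow_pos (by norm_num) _)]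
  exact h4

lemma SS1 : SS 1 / 2 ^ 17205 ≤ 2 ^ 90 := by
  have h1 := SS_le 1
  have h2 : ((∑ s ∈ (range 187).filter (fun s => 1 ≤ s.choose 2),
    Nat.choose 186 s * ((2 ^ 100) ^ (186 - s) * Nat.descFactorial 186 s) * 2 ^ (s.choose 2) : ℕ) : ℝ)
      ≤ ((2 ^ 90 * 2 ^ 17205 * Nat.factorial 186 : ℕ) : ℝ) := by
    exact_mod_cast fact1
  have h3 := h1.trans h2
  rw [Nat.cast_mul, Nat.cast_mul, Nat.cast_pow, Nat.cast_pow] at h3
  have hf : (0:ℝ) < (Nat.factorial 186 : ℝ) := by exact_mod_cast Nat.factorial_pos _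
  have h4 := le_of_mul_le_mul_right h3 hf
  rw [div_le_iff₀ (pow_pos (by norm_num) _)]
  exact h4

lemma T_big : 2 ^ 12 * ((NN.choose 2 : ℕ) : ℝ) ≤ (NN.choose 186 : ℝ) / 2 ^ 17205 := by
  have h1 : (NN + 1 - 186) ^ 186 ≤ Nat.factorial 186 * NN.choose 186 := by
    rw [← Nat.descFactorial_eq_factorial_mul_choose]
    exact Nat.pow_sub_le_descFactorial NN 186
  have h2 : 2 * NN.choose 2 ≤ NN ^ 2 := by
    rw [Nat.choose_two_right]
    calc 2 * (NN * (NN - 1) / 2) ≤ NN * (NN - 1) := Nat.mul_div_le _ _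
      _ ≤ NN * NN := Nat.mul_le_mul_left _ (Nat.sub_le _ _)
      _ = NN ^ 2 := (sq NN).symm
  have h3 : 2 ^ 11 * NN ^ 2 * 2 ^ 17205 * Nat.factorial 186 ≤ (NN + 1 - 186) ^ 186 := by
    rw [NN_def]; exact factT
  have h4 : (2 ^ 12 * NN.choose 2 * 2 ^ 17205) * Nat.factorial 186 ≤
      NN.choose 186 * Nat.factorial 186 := by
    calc (2 ^ 12 * NN.choose 2 * 2 ^ 17205) * Nat.factorial 186
        = 2 ^ 11 * (2 * NN.choose 2) * 2 ^ 17205 * Nat.factorial 186 := by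
          rw [show (2:ℕ) ^ 12 = 2 ^ 11 * 2 by norm_num, Nat.mul_assoc (2 ^ 11) 2 (NN.choose 2)]
      _ ≤ 2 ^ 11 * NN ^ 2 * 2 ^ 17205 * Nat.factorial 186 :=
          Nat.mul_le_mul_right _ (Nat.mul_le_mul_right _ (Nat.mul_le_mul_left _ h2))
      _ ≤ (NN + 1 - 186) ^ 186 := h3
      _ ≤ Nat.factorial 186 * NN.choose 186 := h1
      _ = NN.choose 186 * Nat.factorial 186 := Nat.mul_comm _ _
  have h5 := Nat.le_of_mul_le_mul_right h4 (Nat.factorial_pos 186)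
  rw [le_div_iff₀ (pow_pos (by norm_num) _)]
  have h6 : ((2 ^ 12 * NN.choose 2 * 2 ^ 17205 : ℕ) : ℝ) ≤ ((NN.choose 186 : ℕ) : ℝ) := by
    exact_mod_cast h5
  rw [Nat.cast_mul, Nat.cast_mul, Nat.cast_pow, Nat.cast_pow] at h6
  exact h6

lemma T_small : (NN.choose 189 : ℝ) / 2 ^ 17766 < 1 / 2 := by
  have h1 : NN.choose 189 * Nat.factorial 189 ≤ NN ^ 189 := by
    rw [Nat.mul_comm, ← Nat.descFactorial_eq_factorial_mul_choose]
    exact Nat.descFactorial_le_pow _ _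
  have h2 : 2 * NN ^ 189 < 2 ^ 17766 * Nat.factorial 189 := by
    rw [NN_def]; exact factB
  have h3 : (2 * NN.choose 189) * Nat.factorial 189 < 2 ^ 17766 * Nat.factorial 189 := by
    calc (2 * NN.choose 189) * Nat.factorial 189 = 2 * (NN.choose 189 * Nat.factorial 189) :=
          Nat.mul_assoc _ _ _
      _ ≤ 2 * NN ^ 189 := Nat.mul_le_mul_left _ h1
      _ < _ := h2
  have h4 := Nat.lt_of_mul_lt_mul_right h3
  have h5 : ((2 * NN.choose 189 : ℕ) : ℝ) < ((2 ^ 17766 : ℕ) : ℝ) := by exact_mod_cast h4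
  rw [Nat.cast_mul, Nat.cast_pow] at h5
  rw [div_lt_iff₀ (pow_pos (by norm_num) _)]
  have h6 : ((2:ℕ):ℝ) = 2 := by norm_num
  rw [h6] at h5
  linarith

lemma E_pos : 0 < (EE NN).card := by
  rw [card_EE, NN_def, cardE]
  positivity

lemma E_ne : (EE NN).Nonempty := Finset.card_pos.1 E_pos

lemma T186 : T0 (fam NN 186) edg = (NN.choose 186 : ℝ) / 2 ^ 17205 := by
  rw [T0_clique, choose186]

lemma U186 (r : ℕ) : U0 (fam NN 186) edg r ≤ T0 (fam NN 186) edg * (SS r / 2 ^ 17205) := by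
  have h := U0_clique (N := NN) 186 r
  rw [T186]
  rw [choose186] at h
  exact h

lemma T186_big : 2 ^ 12 * ((EE NN).card : ℝ) ≤ T0 (fam NN 186) edg := by
  rw [T186, card_EE]
  exact T_big

lemma T186_pos : 1 ≤ T0 (fam NN 186) edg := by
  have h := T186_big
  have h1 : (1:ℝ) ≤ ((EE NN).card : ℝ) := by exact_mod_cast E_pos
  linarith

theorem maker : ∃ σ : List (Sym2 (Fin NN)) → Sym2 (Fin NN), Legal (EE NN) 0 σ ∧
    ∀ h : List (Sym2 (Fin NN)), h.Nodup → (∀ e ∈ h, e ∈ EE NN) → (∀ e ∈ EE NN, e ∈ h) →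
      Cons σ 0 h → ∃ i ∈ fam NN 186, edg i ⊆ cls 0 h := by
  refine maker_wins (EE NN) (fam NN 186) edg (fun i _ => edg_subset_EE i) (l := 1 / 1024)
    (by norm_num) ?_
  have hT := T186_big
  have hT1 := T186_pos
  have hU := (U186 2).trans (mul_le_mul_of_nonneg_left SS2 (by linarith))
  have hE : (0:ℝ) ≤ ((EE NN).card : ℝ) := Nat.cast_nonneg _
  have e1 : ((EE NN).card : ℝ) / (32 * (1 / 1024)) = 32 * ((EE NN).card : ℝ) := by ring
  rw [e1]
  linarith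

theorem forcer : ∃ σ : List (Sym2 (Fin NN)) → Sym2 (Fin NN), Legal (EE NN) 1 σ ∧
    ∀ h : List (Sym2 (Fin NN)), h.Nodup → (∀ e ∈ h, e ∈ EE NN) → (∀ e ∈ EE NN, e ∈ h) →
      Cons σ 1 h → ∃ i ∈ fam NN 186, edg i ⊆ cls 0 h := by
  refine forcer_wins (EE NN) (fam NN 186) edg (fun i _ => edg_subset_EE i) E_ne (l := 1 / 1024)
    (m := 1 / 2 ^ 100) (by norm_num) (by positivity) ?_
  have hT := T186_big
  have hT1 := T186_pos
  have hU := (U186 2).trans (mul_le_mul_of_nonneg_left SS2 (by linarith))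
  have hU1 := (U186 1).trans (mul_le_mul_of_nonneg_left SS1 (by linarith))
  have hE : (0:ℝ) ≤ ((EE NN).card : ℝ) := Nat.cast_nonneg _
  have hE2 : (2:ℝ) ^ 190 ≤ ((EE NN).card : ℝ) := by
    have : 2 ^ 190 ≤ (EE NN).card := by
      rw [card_EE, NN_def, cardE]
      norm_num
    exact_mod_cast this
  have e1 : ((EE NN).card : ℝ) / (32 * (1 / 1024)) = 32 * ((EE NN).card : ℝ) := by ring
  have e2 : (1:ℝ) / (8 * (1 / 2 ^ 100)) = 2 ^ 97 := by norm_num
  rw [e1, e2]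
  have e3 : 2 * (1 / (2:ℝ) ^ 100) * U0 (fam NN 186) edg 1 ≤
      2 * (1 / (2:ℝ) ^ 100) * (T0 (fam NN 186) edg * 2 ^ 90) :=
    mul_le_mul_of_nonneg_left hU1 (by positivity)
  have e4 : 2 * (1 / (2:ℝ) ^ 100) * (T0 (fam NN 186) edg * 2 ^ 90) =
      T0 (fam NN 186) edg * (1 / 512) := by
    norm_num
    ring
  have e5 : (2:ℝ) ^ 97 ≤ 2 ^ 190 := by norm_num
  linarith

lemma T189 : T0 (fam NN 189) edg = (NN.choose 189 : ℝ) / 2 ^ 17766 := by
  rw [T0_clique, choose189]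

theorem breaker : ∃ σ : List (Sym2 (Fin NN)) → Sym2 (Fin NN), Legal (EE NN) 1 σ ∧
    ∀ h : List (Sym2 (Fin NN)), h.Nodup → (∀ e ∈ h, e ∈ EE NN) → (∀ e ∈ EE NN, e ∈ h) →
      Cons σ 1 h → ∀ i ∈ fam NN 189, ¬ edg i ⊆ cls 0 h := by
  refine breaker_wins (EE NN) (fam NN 189) edg E_ne ?_
  rw [T189]
  have := T_small
  linarith

theorem avoider : ∃ σ : List (Sym2 (Fin NN)) → Sym2 (Fin NN), Legal (EE NN) 0 σ ∧
    ∀ h : List (Sym2 (Fin NN)), h.Nodup → (∀ e ∈ h, e ∈ EE NN) → (∀ e ∈ EE NN, e ∈ h) →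
      Cons σ 0 h → ∀ i ∈ fam NN 189, ¬ edg i ⊆ cls 0 h := by
  refine avoider_wins (EE NN) (fam NN 189) edg ?_ ?_
  · rw [card_EE, NN_def]
    exact evenE
  · rw [T189]
    have := T_small
    linarith

end Pool.Agent.Helper40.F100
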