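import Mathlib

/-!
Edges of the complete graph on nine vertices, coded by bit masks.
-/

set_option autoImplicit false

namespace Pool.Agent.Helper40.K9

open Finset

/-- index of the edge with end points `a`, `b` -/
def ix (a b : ℕ) : ℕ :=
  bif Nat.blt a b then Nat.add (Nat.div (Nat.mul b (Nat.sub b 1)) 2) a
  else Nat.add (Nat.div (Nat.mul a (Nat.sub a 1)) 2) b

/-- bit test -/
def tb (m i : ℕ) : Bool := Nat.beq (Nat.land (Nat.shiftRight m i) 1) 1

lemma tb_eq (m i : ℕ) : tb m i = m.testBit i := by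
  unfold tb Nat.testBit
  have h1 : Nat.shiftRight m i = m >>> i := rfl
  have h2 : ∀ a b : ℕ, Nat.land a b = a &&& b := fun _ _ => rfl
  rw [h1, h2, Nat.and_one_is_mod, Nat.one_and_eq_mod_two]
  rcases Nat.mod_two_eq_zero_or_one (m >>> i) with h | h <;> rw [h] <;> rfl

lemma ix_comm (a b : ℕ) : ix a b = ix b a := by
  unfold ix
  rcases lt_trichotomy a b with h | h | h
  · have h1 : Nat.blt a b = true := by simpa using h
    have h2 : Nat.blt b a = false := by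
      rw [Bool.eq_false_iff]; intro hh; simp at hh; omega
    rw [h1, h2]; rfl
  · subst h; rfl
  · have h1 : Nat.blt b a = true := by simpa using h
    have h2 : Nat.blt a b = false := by
      rw [Bool.eq_false_iff]; intro hh; simp at hh; omega
    rw [h1, h2]; rfl

/-- index of an edge -/
def ixs (e : Sym2 (Fin 9)) : ℕ :=
  Sym2.lift ⟨fun a b => ix a.1 b.1, fun a b => ix_comm a.1 b.1⟩ e

@[simp] lemma ixs_mk (a b : Fin 9) : ixs s(a, b) = ix a.1 b.1 := rfl

/-- the set of edges coded by a mask -/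
def ES (m : ℕ) : Finset (Sym2 (Fin 9)) :=
  univ.filter (fun e => ¬ e.IsDiag ∧ tb m (ixs e) = true)

lemma mem_ES {m : ℕ} {e : Sym2 (Fin 9)} : e ∈ ES m ↔ ¬ e.IsDiag ∧ tb m (ixs e) = true := by
  simp [ES]

/-- the edge with a given index -/
def ed (i : ℕ) : Sym2 (Fin 9) :=
  ([s(0,1),s(0,2),s(1,2),s(0,3),s(1,3),s(2,3),s(0,4),s(1,4),s(2,4),s(3,4),s(0,5),s(1,5),s(2,5),
    s(3,5),s(4,5),s(0,6),s(1,6),s(2,6),s(3,6),s(4,6),s(5,6),s(0,7),s(1,7),s(2,7),s(3,7),s(4,7),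
    s(5,7),s(6,7),s(0,8),s(1,8),s(2,8),s(3,8),s(4,8),s(5,8),s(6,8),s(7,8)] : List (Sym2 (Fin 9))).getD i s(0,0)

lemma ed_spec : ∀ i < 36, ¬ (ed i).IsDiag ∧ ixs (ed i) = i := by
  decide

lemma ixs_spec : ∀ e : Sym2 (Fin 9), ¬ e.IsDiag → ixs e < 36 ∧ ed (ixs e) = e := by
  decide

lemma ixs_inj {e f : Sym2 (Fin 9)} (he : ¬ e.IsDiag) (hf : ¬ f.IsDiag) (h : ixs e = ixs f) :
    e = f := by
  rw [← (ixs_spec e he).2, ← (ixs_spec f hf).2, h]

end Pool.Agent.Helper40.K9
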