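import Pool.Agent.Helper40.MBTab
import Pool.Agent.Helper40.AFCheck

/-!
Checker for the certificate of the Maker-Breaker game on nine vertices.
-/

set_option autoImplicit false

namespace Pool.Agent.Helper40.K9

noncomputable section

/-- packed indicator of the complete graphs which contain the edge `x` (with further high bits) -/
def mO (x : ℕ) : ℕ := Nat.shiftRight TM (Nat.mul 2016 x)

/-- the first player gets the edge `x` -/
def opM (W x : ℕ) : ℕ := Nat.add W (Nat.land W (mO x))

/-- the second player gets the edge `y` -/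
def opB (W y : ℕ) : ℕ := Nat.sub W (Nat.land W (mO y))

/-- commit the pair `a`, `b` -/
def opP (W a b : ℕ) : ℕ := opM (opM (Nat.sub W (Nat.land (Nat.land W (mO a)) (mO b))) a) b

/-- flip a bit -/
def fl (R x : ℕ) : ℕ := Nat.xor R (Nat.shiftLeft 1 x)

/-- read `n` pairs from the stream and continue with `k` -/
def loopP (k : ℕ → ℕ → ℕ → Bool) (n : ℕ) : ℕ → ℕ → ℕ → Bool :=
  @Nat.rec (fun _ => ℕ → ℕ → ℕ → Bool) k
    (fun _ ih W R s =>
      @Bool.rec (fun _ => Bool) false
        (@Bool.rec (fun _ => Bool) false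
          (ih (opP W (Nat.land s 63) (Nat.land (Nat.shiftRight s 6) 63))
            (fl (fl R (Nat.land s 63)) (Nat.land (Nat.shiftRight s 6) 63)) (Nat.shiftRight s 12))
          (tb (fl R (Nat.land s 63)) (Nat.land (Nat.shiftRight s 6) 63)))
        (tb R (Nat.land s 63))) n

/-- final test with the second player to move -/
def finB (W : ℕ) : Bool := Nat.ble (Nat.mod W 65535) 63

/-- final test with the first player to move -/
def finM (W R : ℕ) : Bool :=
  @Bool.rec (fun _ => Bool) false
    (allN 36 (fun z => @Bool.rec (fun _ => Bool) true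
      (Nat.ble (Nat.add (Nat.mod W 65535) (Nat.mod (Nat.land W (mO z)) 65535)) 63) (tb R z)))
    (Nat.ble (Nat.mod W 65535) 63)

/-- the permutation maps the masks `Ak`, `Bk` to `A2`, `B2` -/
def isoChk (P Ak Bk A2 B2 : ℕ) : Bool :=
  allN 9 (fun v => allN v (fun u =>
    @Bool.rec (fun _ => Bool) false
      (Nat.beq (Nat.land (Nat.shiftRight B2 (ix (pv P u) (pv P v))) 1)
        (Nat.land (Nat.shiftRight Bk (Nat.add (Nat.div (Nat.mul v (Nat.sub v 1)) 2) u)) 1))
      (Nat.beq (Nat.land (Nat.shiftRight A2 (ix (pv P u) (pv P v))) 1)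
        (Nat.land (Nat.shiftRight Ak (Nat.add (Nat.div (Nat.mul v (Nat.sub v 1)) 2) u)) 1))))

/-- mask number `t` of the library -/
def lb (LB t : ℕ) : ℕ := Nat.land (Nat.shiftRight LB (Nat.mul 36 t)) 68719476735

/-- reference to the earlier node `k` -/
def refChk (LB j A2 B2 k P : ℕ) : Bool :=
  @Bool.rec (fun _ => Bool) false
    (@Bool.rec (fun _ => Bool) false
      (isoChk P (lb LB (Nat.mul 2 k)) (lb LB (Nat.add (Nat.mul 2 k) 1)) A2 B2)
      (permOK P))
    (Nat.blt k j)

/-- check of the answer to the edge `e` and continuation -/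
def kidMB (LB j A B e W R : ℕ) (ih : ℕ → Bool) (s : ℕ) : Bool :=
  @Nat.rec (fun _ => Bool)
    (loopP (fun W' _ s' => @Bool.rec (fun _ => Bool) false (ih s') (finB W'))
      (Nat.land (Nat.shiftRight s 2) 15) W R (Nat.shiftRight s 6))
    (fun t _ =>
      @Bool.rec (fun _ => Bool) false
        (@Nat.rec (fun _ => Bool)
          (loopP (fun W' R' s' => @Bool.rec (fun _ => Bool) false (ih s') (finM W' R'))
            (Nat.land (Nat.shiftRight s 8) 15) (opB W (Nat.land (Nat.shiftRight s 2) 63))
            (fl R (Nat.land (Nat.shiftRight s 2) 63)) (Nat.shiftRight s 12))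
          (fun _ _ => @Bool.rec (fun _ => Bool) false (ih (Nat.shiftRight s 55))
            (refChk LB j (fl A e) (fl B (Nat.land (Nat.shiftRight s 2) 63))
              (Nat.land (Nat.shiftRight s 8) 2047)
              (Nat.land (Nat.shiftRight s 19) 68719476735))) t)
        (tb R (Nat.land (Nat.shiftRight s 2) 63)))
    (Nat.land s 3)

/-- check of the answers to all edges of `R` with index below `n` -/
def loopMB (LB j A B W R n : ℕ) : ℕ → Bool :=
  @Nat.rec (fun _ => ℕ → Bool) (fun _ => true)
    (fun e ih s => @Bool.rec (fun _ => Bool) (ih s)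
      (kidMB LB j A B e (opM W e) (fl R e) ih s) (tb R e)) n

/-- compute the packed potentials of the position `(A, B)` and continue with `k` -/
def setMB (A B : ℕ) (k : ℕ → ℕ → Bool) (n : ℕ) : ℕ → ℕ → ℕ → ℕ → Bool :=
  @Nat.rec (fun _ => ℕ → ℕ → ℕ → ℕ → Bool)
    (fun A' B' W R => @Bool.rec (fun _ => Bool) false
      (@Bool.rec (fun _ => Bool) false (k W R) (Nat.beq B' B)) (Nat.beq A' A))
    (fun e ih A' B' W R =>
      @Bool.rec (fun _ => Bool)
        (@Bool.rec (fun _ => Bool) (ih A' B' W R)
          (@Bool.rec (fun _ => Bool) false (ih A' (fl B' e) (opB W e) (fl R e)) (tb R e)) (tb B e))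
        (@Bool.rec (fun _ => Bool) false (ih (fl A' e) B' (opM W e) (fl R e)) (tb R e)) (tb A e)) n

/-- check of one node -/
def nodeMB (LB j s : ℕ) : Bool :=
  setMB (lb LB (Nat.mul 2 j)) (lb LB (Nat.add (Nat.mul 2 j) 1))
    (fun W R => @Bool.rec (fun _ => Bool) false
      (loopMB LB j (lb LB (Nat.mul 2 j)) (lb LB (Nat.add (Nat.mul 2 j) 1)) W R 36 s) (Nat.blt 0 R))
    36 0 0 W0 68719476735

/-- check of a list of nodes, the first having index `j` -/
def listMB (LB : ℕ) (l : List ℕ) : ℕ → Bool :=
  @List.rec ℕ (fun _ => ℕ → Bool) (fun _ => true)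
    (fun s _ ih j => @Bool.rec (fun _ => Bool) false (ih (Nat.succ j)) (nodeMB LB j s)) l

end

end Pool.Agent.Helper40.K9
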