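import Pool.Agent.Helper40.MBW

/-!
Soundness of the checker for the Maker-Breaker game on nine vertices.
-/

set_option autoImplicit false
set_option linter.unusedVariables false

namespace Pool.Agent.Helper40.K9

open Finset Pool.Agent.Helper40.Game

/-- the position `A`, `B` with the committed edges `Q`, described by the numbers `W` and `R` -/
def PS (A B Q : Finset (Sym2 (Fin 9))) (W R : ℕ) : Prop :=
  R < 2 ^ 36 ∧ ES R = EE 9 \ (A ∪ B ∪ Q) ∧ Even ((ES R).card + A.card + B.card) ∧
  ∃ (X : Finset (Sym2 (Fin 9))) (D : Finset ℕ) (p : Sym2 (Fin 9) → Sym2 (Fin 9)),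
    PInv SS (EE 9) A B Q X D p ∧ W = pack (dig X D) 126

lemma tb_lt {R x : ℕ} (hR : R < 2 ^ 36) (h : tb R x = true) : x < 36 := by
  by_contra hx
  rw [tb_eq] at h
  have : R < 2 ^ x := lt_of_lt_of_le hR (Nat.pow_le_pow_right (by norm_num) (not_lt.1 hx))
  rw [Nat.testBit_lt_two_pow this] at h
  exact absurd h (by simp)

lemma fl_lt {R x : ℕ} (hR : R < 2 ^ 36) (h : tb R x = true) : fl R x < 2 ^ 36 := by
  have hx := tb_lt hR h
  have h1 : (1 <<< x : ℕ) < 2 ^ 36 := by
    rw [Nat.one_shiftLeft]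
    exact Nat.pow_lt_pow_right (by norm_num) hx
  exact Nat.xor_lt_two_pow hR h1

lemma ed_mem {R x : ℕ} (hR : R < 2 ^ 36) (h : tb R x = true) : ed x ∈ ES R := by
  have hx := tb_lt hR h
  rw [mem_ES, (ed_spec x hx).2]
  exact ⟨(ed_spec x hx).1, h⟩

lemma ES_fl {R x : ℕ} (hR : R < 2 ^ 36) (h : tb R x = true) :
    ES (fl R x) = (ES R).erase (ed x) := ES_xor (tb_lt hR h) h

lemma PS.maker {A B Q : Finset (Sym2 (Fin 9))} {W R x : ℕ} (h : PS A B Q W R)
    (hx : tb R x = true) : PS (insert (ed x) A) B Q (opM W x) (fl R x) := by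
  obtain ⟨h1, h2, h3, X, D, p, h4, h5⟩ := h
  have hx36 := tb_lt h1 hx
  have hxR := ed_mem h1 hx
  have hxE := hxR
  rw [h2] at hxE
  have hxA : ed x ∉ A := by
    simp only [mem_sdiff, mem_union] at hxE; tauto
  refine ⟨fl_lt h1 hx, ?_, ?_, insert (ed x) X, D, p, h4.maker hxE, ?_⟩
  · rw [ES_fl h1 hx, h2]
    ext z; simp only [mem_sdiff, mem_union, mem_insert, mem_erase]; tauto
  · rw [ES_fl h1 hx, Finset.card_insert_of_notMem hxA]
    have := Finset.card_erase_add_one hxR
    have h6 : ((ES R).erase (ed x)).card + (A.card + 1) + B.card =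
      (ES R).card + A.card + B.card := by omega
    rw [h6]; exact h3
  · rw [h5]
    exact opM_pack hx36 (h4.freeX _ hxE)

lemma PS.breaker {A B Q : Finset (Sym2 (Fin 9))} {W R y : ℕ} (h : PS A B Q W R)
    (hy : tb R y = true) : PS A (insert (ed y) B) Q (opB W y) (fl R y) := by
  obtain ⟨h1, h2, h3, X, D, p, h4, h5⟩ := h
  have hy36 := tb_lt h1 hy
  have hyR := ed_mem h1 hy
  have hyE := hyR
  rw [h2] at hyE
  have hyB : ed y ∉ B := by
    simp only [mem_sdiff, mem_union] at hyE; tauto
  refine ⟨fl_lt h1 hy, ?_, ?_, X, D ∪ Kl 126 SS (ed y), p, h4.breaker hyE, ?_⟩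
  · rw [ES_fl h1 hy, h2]
    ext z; simp only [mem_sdiff, mem_union, mem_insert, mem_erase]; tauto
  · rw [ES_fl h1 hy, Finset.card_insert_of_notMem hyB]
    have := Finset.card_erase_add_one hyR
    have h6 : ((ES R).erase (ed y)).card + A.card + (B.card + 1) =
      (ES R).card + A.card + B.card := by omega
    rw [h6]; exact h3
  · rw [h5]
    exact opB_pack hy36 X D

lemma PS.pair {A B Q : Finset (Sym2 (Fin 9))} {W R a b : ℕ} (h : PS A B Q W R)
    (ha : tb R a = true) (hb : tb (fl R a) b = true) :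
    PS A B (insert (ed a) (insert (ed b) Q)) (opP W a b) (fl (fl R a) b) := by
  obtain ⟨h1, h2, h3, X, D, p, h4, h5⟩ := h
  have ha36 := tb_lt h1 ha
  have haR := ed_mem h1 ha
  have haE := haR
  rw [h2] at haE
  have h1' := fl_lt h1 ha
  have hb36 := tb_lt h1' hb
  have hbR' := ed_mem h1' hb
  have hbR := hbR'
  rw [ES_fl h1 ha, mem_erase] at hbR
  have hab : ed a ≠ ed b := fun h => hbR.1 h.symm
  have hbE := hbR.2
  rw [h2] at hbE
  have haX := h4.freeX _ haE
  have hbX := h4.freeX _ hbE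
  have haE' : ed a ∉ Q ∧ ed a ∈ EE 9 ∧ ed a ∉ A ∧ ed a ∉ B := by
    simp only [mem_sdiff, mem_union] at haE; tauto
  have hbE' : ed b ∉ Q ∧ ed b ∈ EE 9 ∧ ed b ∉ A ∧ ed b ∉ B := by
    simp only [mem_sdiff, mem_union] at hbE; tauto
  refine ⟨fl_lt h1' hb, ?_, ?_, insert (ed b) (insert (ed a) X),
    D ∪ (Kl 126 SS (ed a) ∩ Kl 126 SS (ed b)),
    fun z => if z = ed a then ed b else if z = ed b then ed a else p z, ?_, ?_⟩
  · rw [ES_fl h1' hb, ES_fl h1 ha, h2]
    ext z; simp only [mem_sdiff, mem_union, mem_insert, mem_erase]; tauto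
  · rw [ES_fl h1' hb, ES_fl h1 ha]
    rw [ES_fl h1 ha] at hbR'
    have h6 := Finset.card_erase_add_one haR
    have h7 := Finset.card_erase_add_one hbR'
    rw [Nat.even_iff] at h3 ⊢
    omega
  · constructor
    · exact h4.disj
    · intro z hz
      rw [mem_insert, mem_insert] at hz
      rcases hz with rfl | rfl | hz
      · simp only [mem_sdiff, mem_union]; tauto
      · simp only [mem_sdiff, mem_union]; tauto
      · exact h4.Qfree hz
    · exact h4.AX.trans ((Finset.subset_insert _ _).trans (Finset.subset_insert _ _))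
    · intro z hz
      rw [mem_insert, mem_insert] at hz ⊢
      rcases hz with rfl | rfl | hz
      · tauto
      · tauto
      · exact Or.inr (Or.inr (h4.QX hz))
    · intro z hz hzX
      simp only [mem_sdiff, mem_union, mem_insert] at hz
      rw [mem_insert, mem_insert] at hzX
      rcases hzX with hzX | hzX | hzX
      · tauto
      · tauto
      · refine h4.freeX z ?_ hzX
        simp only [mem_sdiff, mem_union]; tauto
    · intro z hz
      rw [mem_insert, mem_insert] at hz
      by_cases hza : z = ed a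
      · subst hza
        refine ⟨?_, ?_, ?_⟩
        · rw [if_pos rfl, mem_insert, mem_insert]; tauto
        · rw [if_pos rfl]; exact hab.symm
        · rw [if_pos rfl, if_neg hab.symm, if_pos rfl]
      · by_cases hzb : z = ed b
        · subst hzb
          refine ⟨?_, ?_, ?_⟩
          · rw [if_neg hza, if_pos rfl, mem_insert]; tauto
          · rw [if_neg hza, if_pos rfl]; exact hab
          · rw [if_neg hza, if_pos rfl, if_pos rfl]
        · have hzQ : z ∈ Q := by tauto
          obtain ⟨h6, h7, h8⟩ := h4.pr z hzQ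
          have h9 : p z ≠ ed a := fun h => haE'.1 (h ▸ h6)
          have h10 : p z ≠ ed b := fun h => hbE'.1 (h ▸ h6)
          refine ⟨?_, ?_, ?_⟩
          · rw [if_neg hza, if_neg hzb, mem_insert, mem_insert]; tauto
          · rw [if_neg hza, if_neg hzb]; exact h7
          · rw [if_neg hza, if_neg hzb, if_neg h9, if_neg h10]; exact h8
    · intro i hi
      rw [mem_union] at hi
      rcases hi with hi | hi
      · rcases h4.dead i hi with h6 | ⟨z, h6, h7, h8⟩
        · exact Or.inl h6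
        · refine Or.inr ⟨z, ?_, h7, ?_⟩
          · rw [mem_insert, mem_insert]; tauto
          · have hza : z ≠ ed a := fun h => haE'.1 (h ▸ h6)
            have hzb : z ≠ ed b := fun h => hbE'.1 (h ▸ h6)
            rw [if_neg hza, if_neg hzb]; exact h8
      · rw [mem_inter, Kl, Kl, mem_filter, mem_filter] at hi
        refine Or.inr ⟨ed a, ?_, hi.1.2, ?_⟩
        · rw [mem_insert]; tauto
        · rw [if_pos rfl]; exact hi.2.2
  · have h6 := kill2_pack ha36 hb36 X D
    unfold opP
    rw [h5, h6, opM_pack ha36 haX, opM_pack hb36]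
    rw [mem_insert]
    rintro (h | h)
    · exact hab h.symm
    · exact hbX h

lemma loopP_succ (k : ℕ → ℕ → ℕ → Bool) (n W R s : ℕ) : loopP k (n + 1) W R s =
    @Bool.rec (fun _ => Bool) false
      (@Bool.rec (fun _ => Bool) false
        (loopP k n (opP W (Nat.land s 63) (Nat.land (Nat.shiftRight s 6) 63))
          (fl (fl R (Nat.land s 63)) (Nat.land (Nat.shiftRight s 6) 63)) (Nat.shiftRight s 12))
        (tb (fl R (Nat.land s 63)) (Nat.land (Nat.shiftRight s 6) 63)))
      (tb R (Nat.land s 63)) := rfl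

lemma loopP_spec {A B : Finset (Sym2 (Fin 9))} {k : ℕ → ℕ → ℕ → Bool} :
    ∀ (n : ℕ) (Q : Finset (Sym2 (Fin 9))) (W R s : ℕ), PS A B Q W R → loopP k n W R s = true →
      ∃ (Q' : Finset (Sym2 (Fin 9))) (W' R' s' : ℕ), PS A B Q' W' R' ∧ k W' R' s' = true := by
  intro n
  induction n with
  | zero => intro Q W R s h1 h2; exact ⟨Q, W, R, s, h1, h2⟩
  | succ n ih =>
      intro Q W R s h1 h2
      rw [loopP_succ, rec_and, rec_and] at h2
      obtain ⟨h3, h4, h5⟩ := h2
      exact ih _ _ _ _ (h1.pair h3 h4) h5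

lemma hSS : ∀ i < 126, 64 ≤ 2 ^ (SS i).card := by
  intro i hi
  rw [SS_card i hi]; norm_num

/-- leaf, second player to move -/
lemma finB_spec {A B Q : Finset (Sym2 (Fin 9))} {W R : ℕ} (h : PS A B Q W R)
    (hcard : A.card = B.card + 1) (hW : finB W = true) :
    ∃ y ∈ EE 9 \ (A ∪ B), BWin (EE 9) (KT 9 4) A (insert y B) := by
  obtain ⟨h1, h2, h3, X, D, p, h4, h5⟩ := h
  have hphi : Pot 126 SS X D < 64 := by
    unfold finB at hW
    rw [h5, mod_pot] at hW
    have := Nat.le_of_ble_eq_true hW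
    omega
  have hne : (EE 9 \ (A ∪ B ∪ Q)).Nonempty := by
    rw [← h2, ← Finset.card_pos]
    rcases Nat.eq_zero_or_pos (ES R).card with h | h
    · rw [h, hcard, Nat.even_iff] at h3; omega
    · exact h
  obtain ⟨y, hy, h6, h7⟩ := pot_breaker h4 hphi hne
  refine ⟨y, ?_, ?_⟩
  · simp only [mem_sdiff, mem_union] at hy ⊢; tauto
  · refine leaf_maker hSS KT_SS _ A (insert y B) Q X (D ∪ Kl 126 SS y) p rfl (h4.breaker hy) ?_
      h6 ?_
    · have h8 : EE 9 \ (A ∪ insert y B ∪ Q) = (EE 9 \ (A ∪ B ∪ Q)).erase y := by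
        ext z; simp only [mem_sdiff, mem_union, mem_insert, mem_erase]; tauto
      rw [h8]
      have h9 := Finset.card_erase_add_one hy
      rw [← h2] at h9 ⊢
      rw [Nat.even_iff] at h3 ⊢
      omega
    · intro z hz
      refine h7 z ?_
      simp only [mem_sdiff, mem_union, mem_insert] at hz ⊢; tauto

/-- leaf, first player to move -/
lemma finM_spec {A B Q : Finset (Sym2 (Fin 9))} {W R : ℕ} (h : PS A B Q W R)
    (hcard : A.card = B.card) (hW : finM W R = true) : BWin (EE 9) (KT 9 4) A B := by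
  obtain ⟨h1, h2, h3, X, D, p, h4, h5⟩ := h
  unfold finM at hW
  rw [rec_and, allN_iff] at hW
  obtain ⟨h6, h7⟩ := hW
  rw [h5, mod_pot] at h6
  have h8 := Nat.le_of_ble_eq_true h6
  refine leaf_maker hSS KT_SS _ A B Q X D p rfl h4 ?_ (by omega) ?_
  · rw [← h2]
    rw [Nat.even_iff] at h3 ⊢; omega
  · intro z hz
    rw [← h2, mem_ES] at hz
    have hz36 := (ixs_spec z hz.1).1
    have h9 := rec_imp.1 (h7 (ixs z) hz36) hz.2
    rw [h5, mod_pot, mod_wt hz36, (ixs_spec z hz.1).2] at h9
    have h10 : Pot 126 SS X D + Wt 126 SS z X D ≤ 63 := Nat.le_of_ble_eq_true h9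
    omega

lemma tb_congr {m m' i i' : ℕ}
    (h : Nat.beq (Nat.land (Nat.shiftRight m i) 1) (Nat.land (Nat.shiftRight m' i') 1) = true) :
    tb m i = tb m' i' := by
  unfold tb
  rw [Nat.eq_of_beq_eq_true h]

lemma isoChk_spec {P Ak Bk A2 B2 : ℕ} (hP : permOK P = true) (h : isoChk P Ak Bk A2 B2 = true) :
    (ES Ak).image (Sym2.map (pf P)) = ES A2 ∧ (ES Bk).image (Sym2.map (pf P)) = ES B2 := by
  have h1 : ∀ v < 9, ∀ u < v,
      tb A2 (ix (pv P u) (pv P v)) = tb Ak (v * (v - 1) / 2 + u) ∧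
      tb B2 (ix (pv P u) (pv P v)) = tb Bk (v * (v - 1) / 2 + u) := by
    intro v hv u hu
    have h2 := (allN_iff _ _).1 h v hv
    have h3 := rec_and.1 ((allN_iff _ _).1 h2 u hu)
    exact ⟨tb_congr h3.1, tb_congr h3.2⟩
  have h2 : ∀ a b : Fin 9, a < b →
      tb A2 (ixs (Sym2.map (pf P) s(a, b))) = tb Ak (ixs s(a, b)) ∧
      tb B2 (ixs (Sym2.map (pf P) s(a, b))) = tb Bk (ixs s(a, b)) := by
    intro a b hab
    rw [Sym2.map_mk, ixs_mk, pf_val hP, pf_val hP, ixs_mk]
    have h4 : ix a.1 b.1 = b.1 * (b.1 - 1) / 2 + a.1 := by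
      unfold ix
      have : Nat.blt a.1 b.1 = true := by rw [Nat.blt_eq]; exact hab
      rw [this]; rfl
    rw [h4]
    exact h1 b.1 b.2 a.1 hab
  have h3 : ∀ e : Sym2 (Fin 9), ¬ e.IsDiag →
      tb A2 (ixs (Sym2.map (pf P) e)) = tb Ak (ixs e) ∧
      tb B2 (ixs (Sym2.map (pf P) e)) = tb Bk (ixs e) := by
    intro e he
    induction e with
    | h a b =>
        rcases lt_trichotomy a b with hab | hab | hab
        · exact h2 a b hab
        · exact absurd (Sym2.mk_isDiag_iff.2 hab) he
        · rw [Sym2.eq_swap]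
          exact h2 b a hab
  have hsurj : ∀ e : Sym2 (Fin 9), ∃ e0, Sym2.map (pf P) e0 = e := by
    have h4 : Function.Injective (Sym2.map (pf P)) := Sym2.map.injective (pf_inj hP)
    exact Finite.injective_iff_surjective.1 h4
  have key : ∀ m m' : ℕ, (∀ e : Sym2 (Fin 9), ¬ e.IsDiag →
      tb m' (ixs (Sym2.map (pf P) e)) = tb m (ixs e)) →
      (ES m).image (Sym2.map (pf P)) = ES m' := by
    intro m m' hm
    ext e
    obtain ⟨e0, rfl⟩ := hsurj e
    rw [mem_ES, map_isDiag _ (pf_inj hP), Finset.mem_image]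
    constructor
    · rintro ⟨e1, he1, h5⟩
      have h6 := Sym2.map.injective (pf_inj hP) h5
      subst h6
      rw [mem_ES] at he1
      exact ⟨he1.1, by rw [hm e1 he1.1]; exact he1.2⟩
    · rintro ⟨h5, h6⟩
      refine ⟨e0, ?_, rfl⟩
      rw [mem_ES]
      exact ⟨h5, by rw [← hm e0 h5]; exact h6⟩
  exact ⟨key _ _ (fun e he => (h3 e he).1), key _ _ (fun e he => (h3 e he).2)⟩

/-- the meaning of a node of the library -/
def NB (LB j : ℕ) : Prop :=
  (ES (lb LB (Nat.mul 2 j))).card = (ES (lb LB (Nat.add (Nat.mul 2 j) 1))).card →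
    BWin (EE 9) (KT 9 4) (ES (lb LB (Nat.mul 2 j))) (ES (lb LB (Nat.add (Nat.mul 2 j) 1)))

lemma image_EE {P : ℕ} (hP : permOK P = true) : (EE 9).image (Sym2.map (pf P)) = EE 9 := by
  have h4 : Function.Injective (Sym2.map (pf P)) := Sym2.map.injective (pf_inj hP)
  have hsurj := Finite.injective_iff_surjective.1 h4
  ext e
  obtain ⟨e0, rfl⟩ := hsurj e
  rw [Finset.mem_image, mem_EE, map_isDiag _ (pf_inj hP)]
  constructor
  · rintro ⟨e1, he1, h5⟩
    have h6 := h4 h5
    subst h6
    exact mem_EE.1 he1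
  · intro h5
    exact ⟨e0, mem_EE.2 h5, rfl⟩

lemma KT_image_inv {P : ℕ} (hP : permOK P = true) (A : Finset (Sym2 (Fin 9)))
    (h : KT 9 4 (A.image (Sym2.map (pf P)))) : KT 9 4 A := by
  obtain ⟨g, hg⟩ := (pf_inj hP).hasLeftInverse
  have hbij : Function.Bijective (pf P) := Finite.injective_iff_bijective.1 (pf_inj hP)
  have hginj : Function.Injective g := by
    intro a b hab
    obtain ⟨a0, rfl⟩ := hbij.2 a
    obtain ⟨b0, rfl⟩ := hbij.2 b
    rw [hg, hg] at hab
    rw [hab]
  have h1 := KT.image g hginj h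
  rw [Finset.image_image] at h1
  have h2 : Sym2.map g ∘ Sym2.map (pf P) = id := by
    rw [← Sym2.map_comp, hg.comp_eq_id, Sym2.map_id]
  rw [h2, Finset.image_id] at h1
  exact h1

lemma refChk_spec {LB j A2 B2 k P : ℕ} (ih : ∀ k < j, NB LB k)
    (hcard : (ES A2).card = (ES B2).card) (h : refChk LB j A2 B2 k P = true) :
    BWin (EE 9) (KT 9 4) (ES A2) (ES B2) := by
  unfold refChk at h
  rw [rec_and, rec_and] at h
  obtain ⟨h1, h2, h3⟩ := h
  obtain ⟨h4, h5⟩ := isoChk_spec h2 h3
  have hk : k < j := by rwa [Nat.blt_eq] at h1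
  have hinj : Function.Injective (Sym2.map (pf P)) := Sym2.map.injective (pf_inj h2)
  have h6 := ih k hk
  unfold NB at h6
  rw [← Finset.card_image_of_injective _ hinj, h4, ← Finset.card_image_of_injective (ES (lb LB (Nat.add (Nat.mul 2 k) 1))) hinj, h5] at h6
  have h7 := (h6 hcard).image (Sym2.map (pf P)) hinj (image_EE h2) (KT_image_inv h2)
  rwa [h4, h5] at h7

lemma kidMB_spec {LB j Am Bm e W R s : ℕ} {ih : ℕ → Bool} (hj : ∀ k < j, NB LB k)
    (h : PS (insert (ed e) (ES Am)) (ES Bm) ∅ W R) (he : e < 36) (hAe : tb Am e = false)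
    (hcard : (ES Am).card = (ES Bm).card) (hk : kidMB LB j Am Bm e W R ih s = true) :
    (∃ y ∈ EE 9 \ (insert (ed e) (ES Am) ∪ ES Bm),
      BWin (EE 9) (KT 9 4) (insert (ed e) (ES Am)) (insert y (ES Bm))) ∧ ∃ s', ih s' = true := by
  have heA : ed e ∉ ES Am := by
    intro h6
    rw [mem_ES, (ed_spec e he).2, hAe] at h6
    exact absurd h6.2 (by simp)
  have hcA : (insert (ed e) (ES Am)).card = (ES Bm).card + 1 := by
    rw [Finset.card_insert_of_notMem heA, hcard]
  unfold kidMB at hk
  generalize Nat.land s 3 = t at hk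
  cases t with
  | zero =>
      obtain ⟨Q', W', R', s', h1, h2⟩ := loopP_spec _ _ _ _ _ h hk
      rw [rec_and] at h2
      exact ⟨finB_spec h1 hcA h2.1, s', h2.2⟩
  | succ t =>
      have hk' := rec_and.1 hk
      obtain ⟨hy, hk2⟩ := hk'
      generalize hyy : Nat.land (Nat.shiftRight s 2) 63 = y at hy hk2
      have hy36 := tb_lt h.1 hy
      have hyR := ed_mem h.1 hy
      rw [h.2.1] at hyR
      have hyfree : ed y ∈ EE 9 \ (insert (ed e) (ES Am) ∪ ES Bm) := by
        simp only [mem_sdiff, mem_union] at hyR ⊢; tauto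
      have hyB : ed y ∉ ES Bm := by
        simp only [mem_sdiff, mem_union] at hyR; tauto
      have hc2 : (insert (ed e) (ES Am)).card = (insert (ed y) (ES Bm)).card := by
        rw [hcA, Finset.card_insert_of_notMem hyB]
      have hps := h.breaker hy
      cases t with
      | zero =>
          obtain ⟨Q', W', R', s', h1, h2⟩ := loopP_spec _ _ _ _ _ hps hk2
          rw [rec_and] at h2
          exact ⟨⟨ed y, hyfree, finM_spec h1 hc2 h2.1⟩, s', h2.2⟩
      | succ t =>
          have hk3 := rec_and.1 hk2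
          obtain ⟨h1, h2⟩ := hk3
          have hBy : tb Bm y = false := by
            rw [Bool.eq_false_iff]
            intro h6
            apply hyB
            rw [mem_ES, (ed_spec y hy36).2]
            exact ⟨(ed_spec y hy36).1, h6⟩
          have hA2 : ES (fl Am e) = insert (ed e) (ES Am) := ES_xor_insert he hAe
          have hB2 : ES (fl Bm y) = insert (ed y) (ES Bm) := ES_xor_insert hy36 hBy
          refine ⟨⟨ed y, hyfree, ?_⟩, _, h2⟩
          rw [← hA2, ← hB2]
          refine refChk_spec hj ?_ h1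
          rw [hA2, hB2, hc2]

lemma loopMB_succ (LB j A B W R n s : ℕ) : loopMB LB j A B W R (n + 1) s =
    @Bool.rec (fun _ => Bool) (loopMB LB j A B W R n s)
      (kidMB LB j A B n (opM W n) (fl R n) (loopMB LB j A B W R n) s) (tb R n) := rfl

lemma loopMB_spec {LB j Am Bm W R : ℕ} (hj : ∀ k < j, NB LB k) (h : PS (ES Am) (ES Bm) ∅ W R)
    (hcard : (ES Am).card = (ES Bm).card) : ∀ (n s : ℕ), loopMB LB j Am Bm W R n s = true →
    ∀ e < n, tb R e = true → ∃ y ∈ EE 9 \ (insert (ed e) (ES Am) ∪ ES Bm),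
      BWin (EE 9) (KT 9 4) (insert (ed e) (ES Am)) (insert y (ES Bm)) := by
  have hfree : ∀ e, tb R e = true → e < 36 ∧ tb Am e = false := by
    intro e he
    have he36 := tb_lt h.1 he
    refine ⟨he36, ?_⟩
    have := ed_mem h.1 he
    rw [h.2.1] at this
    rw [Bool.eq_false_iff]
    intro h6
    have h7 : ed e ∈ ES Am := by
      rw [mem_ES, (ed_spec e he36).2]; exact ⟨(ed_spec e he36).1, h6⟩
    simp only [mem_sdiff, mem_union] at this; tauto
  intro n
  induction n with
  | zero => intro s _ e he; omega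
  | succ n ihn =>
      intro s hs e he hRe
      rw [loopMB_succ, rec_ite] at hs
      rcases hs with ⟨h1, h2⟩ | ⟨h1, h2⟩
      · obtain ⟨h3, s', h4⟩ := kidMB_spec hj (h.maker h1) (hfree n h1).1 (hfree n h1).2 hcard h2
        rcases Nat.lt_succ_iff_lt_or_eq.1 he with h5 | h5
        · exact ihn s' h4 e h5 hRe
        · rw [h5]; exact h3
      · rcases Nat.lt_succ_iff_lt_or_eq.1 he with h5 | h5
        · exact ihn s h2 e h5 hRe
        · subst h5
          rw [h1] at hRe
          exact absurd hRe (by simp)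

lemma setMB_succ (A B : ℕ) (k : ℕ → ℕ → Bool) (e A' B' W R : ℕ) : setMB A B k (e + 1) A' B' W R =
    @Bool.rec (fun _ => Bool)
        (@Bool.rec (fun _ => Bool) (setMB A B k e A' B' W R)
          (@Bool.rec (fun _ => Bool) false (setMB A B k e A' (fl B' e) (opB W e) (fl R e))
            (tb R e)) (tb B e))
        (@Bool.rec (fun _ => Bool) false (setMB A B k e (fl A' e) B' (opM W e) (fl R e))
          (tb R e)) (tb A e) := rfl

lemma setMB_spec {A B : ℕ} {k : ℕ → ℕ → Bool} : ∀ (n A' B' W R : ℕ),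
    PS (ES A') (ES B') ∅ W R → setMB A B k n A' B' W R = true →
    ∃ W' R', PS (ES A) (ES B) ∅ W' R' ∧ k W' R' = true := by
  intro n
  induction n with
  | zero =>
      intro A' B' W R h1 h2
      have h3 := rec_and.1 h2
      have h4 := rec_and.1 h3.2
      have h5 := Nat.eq_of_beq_eq_true h3.1
      have h6 := Nat.eq_of_beq_eq_true h4.1
      rw [h5, h6] at h1
      exact ⟨W, R, h1, h4.2⟩
  | succ n ih =>
      intro A' B' W R h1 h2
      have hA : ∀ e, tb R e = true → ES (fl A' e) = insert (ed e) (ES A') := by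
        intro e he
        have he36 := tb_lt h1.1 he
        refine ES_xor_insert he36 ?_
        rw [Bool.eq_false_iff]
        intro h6
        have h7 : ed e ∈ ES A' := by
          rw [mem_ES, (ed_spec e he36).2]; exact ⟨(ed_spec e he36).1, h6⟩
        have := ed_mem h1.1 he
        rw [h1.2.1] at this
        simp only [mem_sdiff, mem_union] at this; tauto
      have hB : ∀ e, tb R e = true → ES (fl B' e) = insert (ed e) (ES B') := by
        intro e he
        have he36 := tb_lt h1.1 he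
        refine ES_xor_insert he36 ?_
        rw [Bool.eq_false_iff]
        intro h6
        have h7 : ed e ∈ ES B' := by
          rw [mem_ES, (ed_spec e he36).2]; exact ⟨(ed_spec e he36).1, h6⟩
        have := ed_mem h1.1 he
        rw [h1.2.1] at this
        simp only [mem_sdiff, mem_union] at this; tauto
      rw [setMB_succ, rec_ite] at h2
      rcases h2 with ⟨h3, h4⟩ | ⟨h3, h4⟩
      · rw [rec_and] at h4
        refine ih _ _ _ _ ?_ h4.2
        rw [hA n h4.1]
        exact h1.maker h4.1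
      · rw [rec_ite] at h4
        rcases h4 with ⟨h5, h6⟩ | ⟨h5, h6⟩
        · rw [rec_and] at h6
          refine ih _ _ _ _ ?_ h6.2
          rw [hB n h6.1]
          exact h1.breaker h6.1
        · exact ih _ _ _ _ h1 h6

lemma W0_eq : W0 = pack (dig ∅ ∅) 126 := by
  have h : pack (dig ∅ ∅) 126 = pack (fun _ => 1) 126 := by
    refine pack_congr 126 ?_
    intro i _
    simp [dig]
  rw [h]
  decide +kernel

lemma PS_start : PS (ES 0) (ES 0) ∅ W0 68719476735 := by
  have h0 : ES 0 = ∅ := by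
    ext e
    rw [mem_ES]
    simp [tb_eq]
  have hF : ES 68719476735 = EE 9 := by
    ext e
    rw [mem_ES, mem_EE]
    constructor
    · exact fun h => h.1
    · intro h
      refine ⟨h, ?_⟩
      have h1 : ∀ i < 36, tb 68719476735 i = true := by decide +kernel
      exact h1 _ (ixs_spec e h).1
  refine ⟨by norm_num, ?_, ?_, ∅, ∅, id, ?_, W0_eq⟩
  · rw [h0, hF]; simp
  · rw [h0, ES_card]
    have : ((range 36).filter (fun i => tb 68719476735 i = true)).card = 36 := by decide +kernel
    rw [this]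
    decide
  · rw [h0]
    constructor
    · exact Finset.disjoint_empty_left _
    · exact Finset.empty_subset _
    · exact Finset.empty_subset _
    · exact Finset.empty_subset _
    · intro x _ hx; simp at hx
    · intro a ha; simp at ha
    · intro i hi; simp at hi

theorem nodeMB_spec {LB j s : ℕ} (hj : ∀ k < j, NB LB k) (h : nodeMB LB j s = true) :
    NB LB j := by
  intro hcard
  unfold nodeMB at h
  obtain ⟨W, R, h1, h2⟩ := setMB_spec 36 0 0 W0 68719476735 PS_start h
  rw [rec_and] at h2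
  obtain ⟨h3, h4⟩ := h2
  have h5 := loopMB_spec hj h1 hcard 36 s h4
  have hR : R ≠ 0 := by
    rw [Nat.blt_eq] at h3; omega
  have hfree : EE 9 \ (ES (lb LB (Nat.mul 2 j)) ∪ ES (lb LB (Nat.add (Nat.mul 2 j) 1))) = ES R := by
    rw [h1.2.1, Finset.union_empty]
  refine BWin.step' ?_ ?_
  · rw [hfree]
    obtain ⟨i, hi⟩ := Nat.exists_testBit_of_ne_zero hR
    rw [← tb_eq] at hi
    exact ⟨ed i, ed_mem h1.1 hi⟩
  · intro x hx
    have hx' := hx
    rw [hfree, mem_ES] at hx
    obtain ⟨y, hy, hyw⟩ := h5 (ixs x) (ixs_spec x hx.1).1 hx.2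
    rw [(ixs_spec x hx.1).2] at hy hyw
    refine ⟨y, ?_, ?_, hyw⟩
    · simp only [mem_sdiff, mem_union, mem_insert] at hy ⊢; tauto
    · simp only [mem_sdiff, mem_union, mem_insert] at hy; tauto

lemma listMB_cons (LB s : ℕ) (l : List ℕ) (j : ℕ) : listMB LB (s :: l) j =
    @Bool.rec (fun _ => Bool) false (listMB LB l (Nat.succ j)) (nodeMB LB j s) := rfl

theorem listMB_spec (LB : ℕ) (l : List ℕ) : ∀ j, listMB LB l j = true →
    (∀ k < j, NB LB k) → ∀ k < j + l.length, NB LB k := by
  induction l with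
  | nil => intro j _ h k hk; exact h k (by simpa using hk)
  | cons s l ih =>
      intro j h hj k hk
      rw [listMB_cons, rec_and] at h
      refine ih (Nat.succ j) h.2 ?_ k (by rw [List.length_cons] at hk; omega)
      intro k hk
      rcases Nat.lt_succ_iff_lt_or_eq.1 hk with h3 | h3
      · exact hj k h3
      · exact h3 ▸ nodeMB_spec hj h.1

end Pool.Agent.Helper40.K9
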