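import Mathlib

/-!
Numbers written with digits of sixteen bits.
-/

set_option autoImplicit false

namespace Pool.Agent.Helper40.K9

open Finset

/-- the number with sixteen bit digits `f 0, f 1, …` -/
def pack (f : ℕ → ℕ) : ℕ → ℕ
  | 0 => 0
  | n + 1 => 2 ^ (16 * n) * f n + pack f n

lemma pack_lt {f : ℕ → ℕ} : ∀ n : ℕ, (∀ i < n, f i < 2 ^ 16) → pack f n < 2 ^ (16 * n) := by
  intro n
  induction n with
  | zero => intro _; simp [pack]
  | succ n ih =>
      intro h
      have h1 := ih (fun i hi => h i (by omega))
      have h2 := h n (by omega)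
      have h3 : 2 ^ (16 * (n + 1)) = 2 ^ (16 * n) * 2 ^ 16 := by rw [← pow_add]; rfl
      show 2 ^ (16 * n) * f n + pack f n < _
      rw [h3]
      calc 2 ^ (16 * n) * f n + pack f n < 2 ^ (16 * n) * f n + 2 ^ (16 * n) := by omega
        _ = 2 ^ (16 * n) * (f n + 1) := by ring
        _ ≤ 2 ^ (16 * n) * 2 ^ 16 := Nat.mul_le_mul_left _ h2

lemma pack_testBit {f : ℕ → ℕ} : ∀ n : ℕ, (∀ i < n, f i < 2 ^ 16) → ∀ j,
    (pack f n).testBit j = (decide (j < 16 * n) && (f (j / 16)).testBit (j % 16)) := by
  intro n
  induction n with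
  | zero => intro _ j; simp [pack]
  | succ n ih =>
      intro h j
      show (2 ^ (16 * n) * f n + pack f n).testBit j = _
      rw [Nat.testBit_two_pow_mul_add (f n) (pack_lt n (fun i hi => h i (by omega))) j]
      by_cases hj : j < 16 * n
      · rw [if_pos hj, ih (fun i hi => h i (by omega)), decide_eq_true hj,
          decide_eq_true (by omega : j < 16 * (n + 1))]
      · rw [if_neg hj]
        by_cases hj2 : j < 16 * (n + 1)
        · have h1 : j / 16 = n := by omega
          have h2 : j % 16 = j - 16 * n := by omega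
          rw [decide_eq_true hj2, h1, h2, Bool.true_and]
        · rw [decide_eq_false hj2, Bool.false_and]
          apply Nat.testBit_lt_two_pow
          refine lt_of_lt_of_le (h n (by omega)) (Nat.pow_le_pow_right (by norm_num) (by omega))

lemma pack_congr {f g : ℕ → ℕ} : ∀ n : ℕ, (∀ i < n, f i = g i) → pack f n = pack g n := by
  intro n
  induction n with
  | zero => intro _; rfl
  | succ n ih =>
      intro h
      show 2 ^ (16 * n) * f n + pack f n = 2 ^ (16 * n) * g n + pack g n
      rw [ih (fun i hi => h i (by omega)), h n (by omega)]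

lemma pack_add {f g : ℕ → ℕ} : ∀ n : ℕ, pack f n + pack g n = pack (fun i => f i + g i) n := by
  intro n
  induction n with
  | zero => rfl
  | succ n ih =>
      show 2 ^ (16 * n) * f n + pack f n + (2 ^ (16 * n) * g n + pack g n) =
        2 ^ (16 * n) * (f n + g n) + pack (fun i => f i + g i) n
      rw [← ih]
      ring

lemma pack_sub {f g : ℕ → ℕ} (n : ℕ) (h : ∀ i < n, g i ≤ f i) :
    pack f n - pack g n = pack (fun i => f i - g i) n := by
  have h1 : pack (fun i => f i - g i) n + pack g n = pack f n := by
    rw [pack_add]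
    refine pack_congr n ?_
    intro i hi
    have := h i hi
    show f i - g i + g i = f i
    omega
  omega

lemma pack_land {f g : ℕ → ℕ} (n r : ℕ) (hf : ∀ i < n, f i < 2 ^ 16) (hg : ∀ i < n, g i < 2 ^ 16) :
    pack f n &&& (2 ^ (16 * n) * r + pack g n) = pack (fun i => f i &&& g i) n := by
  apply Nat.eq_of_testBit_eq
  intro j
  rw [Nat.testBit_and, pack_testBit n hf, Nat.testBit_two_pow_mul_add _ (pack_lt n hg),
    pack_testBit n (fun i hi => lt_of_le_of_lt Nat.and_le_left (hf i hi)), pack_testBit n hg,
    Nat.testBit_and]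
  by_cases hj : j < 16 * n
  · rw [if_pos hj, decide_eq_true hj]; simp
  · rw [decide_eq_false hj]; simp

lemma pack_mod {f : ℕ → ℕ} : ∀ n : ℕ, pack f n % 65535 = (∑ i ∈ range n, f i) % 65535 := by
  intro n
  induction n with
  | zero => rfl
  | succ n ih =>
      show (2 ^ (16 * n) * f n + pack f n) % 65535 = _
      rw [Finset.sum_range_succ, Nat.add_mod, ih, Nat.mul_mod, Nat.pow_mul, Nat.pow_mod]
      have h : (2 ^ 16 : ℕ) % 65535 = 1 := by norm_num
      rw [h, one_pow]
      have h1 : 1 % 65535 = 1 := by norm_num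
      rw [h1, one_mul, Nat.mod_mod, add_comm, ← Nat.add_mod]

/-- the effect of a mask whose digits are `0` or `65535` -/
lemma pack_mask {f : ℕ → ℕ} (n r : ℕ) (c : ℕ → Bool) (hf : ∀ i < n, f i < 2 ^ 16) :
    pack f n &&& (2 ^ (16 * n) * r + pack (fun i => @Bool.rec (fun _ => ℕ) 0 65535 (c i)) n) =
      pack (fun i => if c i = true then f i else 0) n := by
  rw [pack_land n r hf]
  · refine pack_congr n ?_
    intro i hi
    cases hc : c i with
    | true =>
        show f i &&& 65535 = _
        rw [if_pos rfl]
        have : (65535 : ℕ) = 2 ^ 16 - 1 := by norm_num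
        rw [this, Nat.and_two_pow_sub_one_eq_mod]
        exact Nat.mod_eq_of_lt (hf i hi)
    | false =>
        show f i &&& 0 = _
        simp
  · intro i _
    cases c i with
    | true => show 65535 < 2 ^ 16; norm_num
    | false => show 0 < 2 ^ 16; norm_num

end Pool.Agent.Helper40.K9
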