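import Pool.Agent.Helper40.Game

/-!
A criterion for the second player: committed disjoint pairs together with the potential of
Erdos and Selfridge.
-/

set_option autoImplicit false
set_option linter.unusedSectionVars false
set_option linter.unusedVariables false

namespace Pool.Agent.Helper40.Game

open Finset

section Pot

variable {β : Type*} [DecidableEq β]

/-- potential: the sets with index in `D` are dead, the elements of `X` count for the first player -/
def Pot (n : ℕ) (S : ℕ → Finset β) (X : Finset β) (D : Finset ℕ) : ℕ :=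
  ∑ i ∈ range n \ D, 2 ^ (S i ∩ X).card

/-- the part of the potential which contains `x` -/
def Wt (n : ℕ) (S : ℕ → Finset β) (x : β) (X : Finset β) (D : Finset ℕ) : ℕ :=
  ∑ i ∈ (range n \ D).filter (fun i => x ∈ S i), 2 ^ (S i ∩ X).card

/-- the sets containing `y` -/
def Kl (n : ℕ) (S : ℕ → Finset β) (y : β) : Finset ℕ := (range n).filter (fun i => y ∈ S i)

variable (n : ℕ) (S : ℕ → Finset β)

lemma pot_insert {x : β} {X : Finset β} (D : Finset ℕ) (hx : x ∉ X) :
    Pot n S (insert x X) D = Pot n S X D + Wt n S x X D := by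
  unfold Pot Wt
  rw [Finset.sum_filter, ← Finset.sum_add_distrib]
  refine Finset.sum_congr rfl ?_
  intro i _
  by_cases h : x ∈ S i
  · rw [if_pos h]
    have h1 : S i ∩ insert x X = insert x (S i ∩ X) := by
      ext z; simp only [mem_inter, mem_insert]
      constructor
      · rintro ⟨h1, h2 | h2⟩
        · exact Or.inl h2
        · exact Or.inr ⟨h1, h2⟩
      · rintro (h1 | ⟨h1, h2⟩)
        · exact ⟨h1 ▸ h, Or.inl h1⟩
        · exact ⟨h1, Or.inr h2⟩
    rw [h1, Finset.card_insert_of_notMem (by simp [hx]), pow_succ]
    ring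
  · rw [if_neg h]
    have h1 : S i ∩ insert x X = S i ∩ X := by
      ext z; simp only [mem_inter, mem_insert]
      constructor
      · rintro ⟨h1, h2 | h2⟩
        · exact absurd (h2 ▸ h1) h
        · exact ⟨h1, h2⟩
      · rintro ⟨h1, h2⟩
        exact ⟨h1, Or.inr h2⟩
    rw [h1]; simp

lemma pot_kill (y : β) (X : Finset β) (D : Finset ℕ) :
    Pot n S X (D ∪ Kl n S y) + Wt n S y X D = Pot n S X D := by
  unfold Pot Wt
  have h1 : range n \ (D ∪ Kl n S y) = (range n \ D).filter (fun i => ¬ y ∈ S i) := by
    ext i
    simp only [mem_sdiff, mem_union, Kl, mem_filter, mem_range]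
    tauto
  rw [h1, add_comm]
  exact Finset.sum_filter_add_sum_filter_not _ _ _

lemma wt_kill_le (z y : β) (X : Finset β) (D : Finset ℕ) :
    Wt n S z X (D ∪ Kl n S y) ≤ Wt n S z X D := by
  unfold Wt
  apply Finset.sum_le_sum_of_subset
  intro i
  simp only [mem_filter, mem_sdiff, mem_union]
  tauto

/-- the standing assumptions on a position with committed pairs -/
structure PInv (E : Finset β) (A B Q X : Finset β) (D : Finset ℕ) (p : β → β) : Prop where
  disj : Disjoint A B
  Qfree : Q ⊆ E \ (A ∪ B)
  AX : A ⊆ X
  QX : Q ⊆ X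
  freeX : ∀ x ∈ E \ (A ∪ B ∪ Q), x ∉ X
  pr : ∀ a ∈ Q, p a ∈ Q ∧ p a ≠ a ∧ p (p a) = a
  dead : ∀ i ∈ D, (∃ b ∈ S i, b ∈ B) ∨ ∃ a ∈ Q, a ∈ S i ∧ p a ∈ S i

variable {n S}

lemma PInv.maker {E A B Q X : Finset β} {D : Finset ℕ} {p : β → β} (h : PInv S E A B Q X D p)
    {x : β} (hx : x ∈ E \ (A ∪ B ∪ Q)) : PInv S E (insert x A) B Q (insert x X) D p where
  disj := by
    rw [Finset.disjoint_insert_left]
    refine ⟨?_, h.disj⟩
    simp only [mem_sdiff, mem_union] at hx; tauto
  Qfree := by
    intro a ha
    have h1 := h.Qfree ha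
    simp only [mem_sdiff, mem_union, mem_insert] at h1 hx ⊢
    refine ⟨h1.1, ?_⟩
    rintro ((h2 | h2) | h2)
    · subst h2; tauto
    · tauto
    · tauto
  AX := Finset.insert_subset_insert x h.AX
  QX := h.QX.trans (Finset.subset_insert x X)
  freeX := by
    intro z hz
    simp only [mem_sdiff, mem_union, mem_insert] at hz ⊢
    rintro (h2 | h2)
    · tauto
    · refine h.freeX z ?_ h2
      simp only [mem_sdiff, mem_union]; tauto
  pr := h.pr
  dead := h.dead

lemma PInv.breaker {E A B Q X : Finset β} {D : Finset ℕ} {p : β → β} (h : PInv S E A B Q X D p)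
    {y : β} (hy : y ∈ E \ (A ∪ B ∪ Q)) : PInv S E A (insert y B) Q X (D ∪ Kl n S y) p where
  disj := by
    rw [Finset.disjoint_insert_right]
    refine ⟨?_, h.disj⟩
    simp only [mem_sdiff, mem_union] at hy; tauto
  Qfree := by
    intro a ha
    have h1 := h.Qfree ha
    simp only [mem_sdiff, mem_union, mem_insert] at h1 hy ⊢
    refine ⟨h1.1, ?_⟩
    rintro (h2 | h2 | h2)
    · tauto
    · subst h2; tauto
    · tauto
  AX := h.AX
  QX := h.QX
  freeX := by
    intro z hz
    refine h.freeX z ?_
    simp only [mem_sdiff, mem_union, mem_insert] at hz ⊢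
    tauto
  pr := h.pr
  dead := by
    intro i hi
    rw [mem_union] at hi
    rcases hi with hi | hi
    · rcases h.dead i hi with ⟨b, h1, h2⟩ | h2
      · exact Or.inl ⟨b, h1, mem_insert_of_mem h2⟩
      · exact Or.inr h2
    · rw [Kl, mem_filter] at hi
      exact Or.inl ⟨y, hi.2, mem_insert_self y B⟩

/-- the second player has the move: the best element keeps the potential small -/
theorem pot_breaker {E A B Q X : Finset β} {D : Finset ℕ} {p : β → β}
    (h : PInv S E A B Q X D p) {t : ℕ} (hphi : Pot n S X D < t)
    (hne : (E \ (A ∪ B ∪ Q)).Nonempty) :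
    ∃ y ∈ E \ (A ∪ B ∪ Q), Pot n S X (D ∪ Kl n S y) < t ∧
      ∀ z ∈ E \ (A ∪ B ∪ Q), Pot n S X (D ∪ Kl n S y) + Wt n S z X (D ∪ Kl n S y) < t := by
  obtain ⟨y, hy, hmax⟩ := Finset.exists_max_image _ (fun y => Wt n S y X D) hne
  have h1 := pot_kill n S y X D
  refine ⟨y, hy, by omega, ?_⟩
  intro z hz
  have h2 := hmax z hz
  have h3 := wt_kill_le n S z y X D
  omega

theorem leaf_maker {E : Finset β} {T : Finset β → Prop} {t : ℕ}
    (hS : ∀ i < n, t ≤ 2 ^ (S i).card) (hT : ∀ A, T A → ∃ i < n, S i ⊆ A) :
    ∀ (m : ℕ) (A B Q X : Finset β) (D : Finset ℕ) (p : β → β), (E \ (A ∪ B)).card = m →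
      PInv S E A B Q X D p → Even (E \ (A ∪ B ∪ Q)).card → Pot n S X D < t →
      (∀ z ∈ E \ (A ∪ B ∪ Q), Pot n S X D + Wt n S z X D < t) → BWin E T A B := by
  intro m
  induction m using Nat.strong_induction_on with
  | _ m ih =>
  intro A B Q X D p hm h hev hphi hw
  by_cases hm0 : m = 0
  · -- the end of the game
    have hfree : E \ (A ∪ B) = ∅ := by
      rw [← Finset.card_eq_zero, hm, hm0]
    refine BWin.done A B hfree ?_
    intro hTA
    obtain ⟨i, hi, hiA⟩ := hT A hTA
    have hQ : Q = ∅ := Finset.subset_empty.1 (hfree ▸ h.Qfree)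
    by_cases hiD : i ∈ D
    · rcases h.dead i hiD with ⟨b, h1, h2⟩ | ⟨a, h1, _⟩
      · exact (Finset.disjoint_left.1 h.disj) (hiA h1) h2
      · rw [hQ] at h1; simp at h1
    · have h1 : S i ∩ X = S i := Finset.inter_eq_left.2 (hiA.trans h.AX)
      have h2 : 2 ^ (S i ∩ X).card ≤ Pot n S X D := by
        unfold Pot
        exact Finset.single_le_sum (f := fun i => 2 ^ (S i ∩ X).card) (fun _ _ => Nat.zero_le _)
          (by rw [mem_sdiff, mem_range]; exact ⟨hi, hiD⟩)
      rw [h1] at h2
      have := hS i hi
      omega
  · have hne : (E \ (A ∪ B)).Nonempty := by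
      rw [← Finset.card_pos]; omega
    refine BWin.step' hne ?_
    intro x hx
    have hx' := hx
    rw [mem_sdiff, mem_union] at hx'
    by_cases hxQ : x ∈ Q
    · -- answer with the partner
      obtain ⟨hpQ, hpx, hppx⟩ := h.pr x hxQ
      have hpfree := h.Qfree hpQ
      have hpfree' := hpfree
      rw [mem_sdiff, mem_union] at hpfree'
      refine ⟨p x, hpfree, hpx, ?_⟩
      have hinv : PInv S E (insert x A) (insert (p x) B) ((Q.erase x).erase (p x)) X D p := by
        refine ⟨?_, ?_, ?_, ?_, ?_, ?_, ?_⟩
        · rw [Finset.disjoint_insert_left, Finset.disjoint_insert_right, Finset.mem_insert]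
          refine ⟨?_, ?_, h.disj⟩
          · rintro (h1 | h1)
            · exact hpx h1.symm
            · exact hx'.2 (Or.inr h1)
          · exact fun h1 => hpfree'.2 (Or.inl h1)
        · intro a ha
          rw [mem_erase, mem_erase] at ha
          have h1 := h.Qfree ha.2.2
          simp only [mem_sdiff, mem_union, mem_insert] at h1 ⊢
          tauto
        · intro a ha
          rw [mem_insert] at ha
          rcases ha with rfl | ha
          · exact h.QX hxQ
          · exact h.AX ha
        · intro a ha
          rw [mem_erase, mem_erase] at ha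
          exact h.QX ha.2.2
        · intro z hz
          refine h.freeX z ?_
          simp only [mem_sdiff, mem_union, mem_insert, mem_erase] at hz ⊢
          tauto
        · intro a ha
          rw [mem_erase, mem_erase] at ha
          obtain ⟨h1, h2, h3⟩ := ha
          obtain ⟨h4, h5, h6⟩ := h.pr a h3
          refine ⟨?_, h5, h6⟩
          rw [mem_erase, mem_erase]
          refine ⟨?_, ?_, h4⟩
          · intro h7
            apply h2
            rw [← h6, h7, hppx]
          · intro h7
            apply h1
            rw [← h6, h7]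
        · intro i hi
          rcases h.dead i hi with ⟨b, h1, h2⟩ | ⟨a, h1, h2, h3⟩
          · exact Or.inl ⟨b, h1, mem_insert_of_mem h2⟩
          · by_cases hax : a = x
            · subst hax
              exact Or.inl ⟨p a, h3, mem_insert_self _ _⟩
            · by_cases hapx : a = p x
              · subst hapx
                exact Or.inl ⟨p x, h2, mem_insert_self _ _⟩
              · refine Or.inr ⟨a, ?_, h2, h3⟩
                rw [mem_erase, mem_erase]
                exact ⟨hapx, hax, h1⟩
      have hsame : E \ (insert x A ∪ insert (p x) B ∪ (Q.erase x).erase (p x)) =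
          E \ (A ∪ B ∪ Q) := by
        ext z
        simp only [mem_sdiff, mem_union, mem_insert, mem_erase]
        constructor
        · rintro ⟨h1, h2⟩
          refine ⟨h1, fun h3 => h2 ?_⟩
          by_cases hzx : z = x
          · tauto
          · by_cases hzp : z = p x
            · tauto
            · tauto
        · rintro ⟨h1, h2⟩
          refine ⟨h1, fun h3 => h2 ?_⟩
          rcases h3 with (((h3 | h3) | (h3 | h3)) | h3)
          · rw [h3]; exact Or.inr hxQ
          · tauto
          · rw [h3]; exact Or.inr hpQ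
          · tauto
          · tauto
      have hcard : (E \ (insert x A ∪ insert (p x) B)).card < m := by
        rw [← hm]
        apply Finset.card_lt_card
        refine ⟨?_, ?_⟩
        · intro z
          simp only [mem_sdiff, mem_union, mem_insert]
          tauto
        · intro hsub
          have := hsub hx
          simp at this
      refine ih _ hcard (insert x A) (insert (p x) B) ((Q.erase x).erase (p x)) X D p rfl hinv ?_
        hphi ?_
      · rw [hsame]; exact hev
      · intro z hz
        rw [hsame] at hz
        exact hw z hz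
    · have hxR : x ∈ E \ (A ∪ B ∪ Q) := by
        simp only [mem_sdiff, mem_union]; tauto
      have h1 := h.maker hxR
      have hR : E \ (insert x A ∪ B ∪ Q) = (E \ (A ∪ B ∪ Q)).erase x := by
        ext z; simp only [mem_sdiff, mem_union, mem_insert, mem_erase]; tauto
      have hRcard : (E \ (insert x A ∪ B ∪ Q)).card + 1 = (E \ (A ∪ B ∪ Q)).card := by
        rw [hR]; exact Finset.card_erase_add_one hxR
      have hRne : (E \ (insert x A ∪ B ∪ Q)).Nonempty := by
        rw [← Finset.card_pos]
        rcases Nat.eq_zero_or_pos (E \ (insert x A ∪ B ∪ Q)).card with h0 | h0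
        · rw [h0] at hRcard
          rw [← hRcard] at hev
          simp at hev
        · exact h0
      have hphi1 : Pot n S (insert x X) D < t := by
        rw [pot_insert n S D (h.freeX x hxR)]
        exact hw x hxR
      obtain ⟨y, hy, h2, h3⟩ := pot_breaker h1 hphi1 hRne
      have hy' := hy
      rw [hR, mem_erase] at hy'
      have hyfree : y ∈ E \ (A ∪ B) := by
        have := hy'.2
        simp only [mem_sdiff, mem_union] at this ⊢
        tauto
      refine ⟨y, hyfree, hy'.1, ?_⟩
      have h4 := h1.breaker (n := n) hy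
      have hR2 : E \ (insert x A ∪ insert y B ∪ Q) = (E \ (insert x A ∪ B ∪ Q)).erase y := by
        ext z; simp only [mem_sdiff, mem_union, mem_insert, mem_erase]; tauto
      have hR2card : (E \ (insert x A ∪ insert y B ∪ Q)).card + 1 =
          (E \ (insert x A ∪ B ∪ Q)).card := by
        rw [hR2]; exact Finset.card_erase_add_one hy
      have hcard : (E \ (insert x A ∪ insert y B)).card < m := by
        rw [← hm]
        apply Finset.card_lt_card
        refine ⟨?_, ?_⟩
        · intro z
          simp only [mem_sdiff, mem_union, mem_insert]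
          tauto
        · intro hsub
          have := hsub hx
          simp at this
      refine ih _ hcard (insert x A) (insert y B) Q (insert x X) (D ∪ Kl n S y) p rfl h4 ?_ h2 ?_
      · rw [Nat.even_iff] at hev ⊢; omega
      · intro z hz
        rw [hR2, mem_erase] at hz
        exact h3 z hz.2

end Pot

end Pool.Agent.Helper40.Game
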