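import Pool.Agent.Helper40.MBCheck
import Pool.Agent.Helper40.AFSound
import Pool.Agent.Helper40.Pack
import Pool.Agent.Helper40.Pot

/-!
Meaning of the packed potentials.
-/

set_option autoImplicit false
set_option linter.unusedVariables false

namespace Pool.Agent.Helper40.K9

open Finset Pool.Agent.Helper40.Game

/-- the edges of the complete graph number `i` -/
def SS (i : ℕ) : Finset (Sym2 (Fin 9)) := ES (lb CLN i)

lemma SS_card : ∀ i < 126, (SS i).card = 6 := by
  have h : ∀ i < 126, ((range 36).filter (fun j => tb (lb CLN i) j = true)).card = 6 := by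
    decide +kernel
  intro i hi
  rw [SS, ES_card]
  exact h i hi

/-- position of a four element set in the list -/
def cidx (a b c d : ℕ) : ℕ :=
  a + b * (b - 1) / 2 + c * (c - 1) * (c - 2) / 6 + d * (d - 1) * (d - 2) * (d - 3) / 24

lemma cidx_spec : ∀ a b c d : Fin 9, a < b → b < c → c < d → (cidx a b c d < 126 ∧
    ∀ j < 36, tb (lb CLN (cidx a b c d)) j = true →
      (j = ix a b ∨ j = ix a c ∨ j = ix a d ∨ j = ix b c ∨ j = ix b d ∨ j = ix c d)) := by
  decide +kernel

lemma KT_SS (A : Finset (Sym2 (Fin 9))) (h : KT 9 4 A) : ∃ i < 126, SS i ⊆ A := by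
  obtain ⟨S, hS, hA⟩ := h
  set f := S.orderEmbOfFin hS with hf
  have hmem : ∀ k, f k ∈ S := fun k => Finset.orderEmbOfFin_mem S hS k
  have h01 : f 0 < f 1 := (f.lt_iff_lt).2 (by decide)
  have h12 : f 1 < f 2 := (f.lt_iff_lt).2 (by decide)
  have h23 : f 2 < f 3 := (f.lt_iff_lt).2 (by decide)
  obtain ⟨h1, h2⟩ := cidx_spec (f 0) (f 1) (f 2) (f 3) h01 h12 h23
  refine ⟨_, h1, ?_⟩
  intro e he
  rw [SS, mem_ES] at he
  have key : ∀ a b : Fin 9, a ∈ S → b ∈ S → a < b → ixs e = ix a b → e ∈ A := by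
    intro a b ha hb hab h
    have : e = s(a, b) := by
      apply ixs_inj he.1
      · rw [Sym2.mk_isDiag_iff]; exact hab.ne
      · rw [h, ixs_mk]
    rw [this]
    exact hA a ha b hb hab.ne
  rcases h2 (ixs e) (ixs_spec e he.1).1 he.2 with h | h | h | h | h | h
  · exact key _ _ (hmem 0) (hmem 1) h01 h
  · exact key _ _ (hmem 0) (hmem 2) (h01.trans h12) h
  · exact key _ _ (hmem 0) (hmem 3) ((h01.trans h12).trans h23) h
  · exact key _ _ (hmem 1) (hmem 2) h12 h
  · exact key _ _ (hmem 1) (hmem 3) (h12.trans h23) h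
  · exact key _ _ (hmem 2) (hmem 3) h23 h

/-- digit of the packed potential -/
def dig (X : Finset (Sym2 (Fin 9))) (D : Finset ℕ) (i : ℕ) : ℕ :=
  if i ∈ D then 0 else 2 ^ (SS i ∩ X).card

lemma dig_le (X : Finset (Sym2 (Fin 9))) (D : Finset ℕ) {i : ℕ} (hi : i < 126) :
    dig X D i ≤ 64 := by
  unfold dig
  split_ifs
  · omega
  · have h1 : (SS i ∩ X).card ≤ 6 := by
      rw [← SS_card i hi]; exact Finset.card_le_card Finset.inter_subset_left
    calc 2 ^ (SS i ∩ X).card ≤ 2 ^ 6 := Nat.pow_le_pow_right (by norm_num) h1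
      _ = 64 := by norm_num

lemma dig_lt (X : Finset (Sym2 (Fin 9))) (D : Finset ℕ) : ∀ i < 126, dig X D i < 2 ^ 16 := by
  intro i hi
  have := dig_le X D hi
  omega

lemma mO_tab : ∀ x < 36, Nat.land (mO x) (2 ^ 2016 - 1) =
    pack (fun i => @Bool.rec (fun _ => ℕ) 0 65535 (tb (lb CLN i) x)) 126 := by
  decide +kernel

lemma mO_spec {x : ℕ} (hx : x < 36) : ∃ r, mO x = 2 ^ (16 * 126) * r +
    pack (fun i => @Bool.rec (fun _ => ℕ) 0 65535 (tb (lb CLN i) x)) 126 := by
  refine ⟨mO x / 2 ^ 2016, ?_⟩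
  have h1 := mO_tab x hx
  have h2 : ∀ m n : ℕ, Nat.land m (2 ^ n - 1) = m % 2 ^ n :=
    fun m n => Nat.and_two_pow_sub_one_eq_mod m n
  have h3 : ∀ m n : ℕ, m = n * (m / n) + m % n := fun m n => (Nat.div_add_mod m n).symm
  rw [← h1, h2]
  exact h3 _ _

lemma land_mO {x : ℕ} (hx : x < 36) {f : ℕ → ℕ} (hf : ∀ i < 126, f i < 2 ^ 16) :
    Nat.land (pack f 126) (mO x) = pack (fun i => if tb (lb CLN i) x = true then f i else 0) 126 := by
  obtain ⟨r, hr⟩ := mO_spec hx
  rw [hr]
  exact pack_mask 126 r (fun i => tb (lb CLN i) x) hf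

lemma tb_SS {x : ℕ} (hx : x < 36) (i : ℕ) : tb (lb CLN i) x = true ↔ ed x ∈ SS i := by
  rw [SS, mem_ES, (ed_spec x hx).2]
  exact ⟨fun h => ⟨(ed_spec x hx).1, h⟩, fun h => h.2⟩

lemma dig_insert {x : Sym2 (Fin 9)} {X : Finset (Sym2 (Fin 9))} (D : Finset ℕ) (hx : x ∉ X)
    (i : ℕ) : dig X D i + (if x ∈ SS i then dig X D i else 0) = dig (insert x X) D i := by
  unfold dig
  by_cases hi : i ∈ D
  · simp [hi]
  · rw [if_neg hi, if_neg hi]
    by_cases h : x ∈ SS i
    · rw [if_pos h]
      have h1 : SS i ∩ insert x X = insert x (SS i ∩ X) := by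
        ext z; simp only [mem_inter, mem_insert]
        constructor
        · rintro ⟨h1, h2 | h2⟩
          · exact Or.inl h2
          · exact Or.inr ⟨h1, h2⟩
        · rintro (h1 | ⟨h1, h2⟩)
          · exact ⟨h1 ▸ h, Or.inl h1⟩
          · exact ⟨h1, Or.inr h2⟩
      rw [h1, Finset.card_insert_of_notMem (by simp [hx]), pow_succ]
      ring
    · rw [if_neg h]
      have h1 : SS i ∩ insert x X = SS i ∩ X := by
        ext z; simp only [mem_inter, mem_insert]
        constructor
        · rintro ⟨h1, h2 | h2⟩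
          · exact absurd (h2 ▸ h1) h
          · exact ⟨h1, h2⟩
        · rintro ⟨h1, h2⟩
          exact ⟨h1, Or.inr h2⟩
      rw [h1]; simp

lemma opM_pack {x : ℕ} (hx : x < 36) {X : Finset (Sym2 (Fin 9))} {D : Finset ℕ}
    (hX : ed x ∉ X) : opM (pack (dig X D) 126) x = pack (dig (insert (ed x) X) D) 126 := by
  unfold opM
  rw [land_mO hx (dig_lt X D)]
  show pack (dig X D) 126 + pack _ 126 = _
  rw [pack_add]
  refine pack_congr 126 ?_
  intro i _
  rw [← dig_insert D hX i]
  congr 1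
  by_cases h : ed x ∈ SS i
  · rw [if_pos h, if_pos ((tb_SS hx i).2 h)]
  · rw [if_neg h, if_neg (fun h' => h ((tb_SS hx i).1 h'))]

lemma opB_pack {y : ℕ} (hy : y < 36) (X : Finset (Sym2 (Fin 9))) (D : Finset ℕ) :
    opB (pack (dig X D) 126) y = pack (dig X (D ∪ Kl 126 SS (ed y))) 126 := by
  unfold opB
  rw [land_mO hy (dig_lt X D)]
  show pack (dig X D) 126 - pack _ 126 = _
  rw [pack_sub]
  · refine pack_congr 126 ?_
    intro i hi
    by_cases h : ed y ∈ SS i
    · show dig X D i - (if tb (lb CLN i) y = true then dig X D i else 0) = _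
      rw [if_pos ((tb_SS hy i).2 h)]
      have : i ∈ D ∪ Kl 126 SS (ed y) := by
        rw [mem_union, Kl, mem_filter, mem_range]; exact Or.inr ⟨hi, h⟩
      unfold dig
      rw [if_pos this]
      omega
    · show dig X D i - (if tb (lb CLN i) y = true then dig X D i else 0) = _
      rw [if_neg (fun h' => h ((tb_SS hy i).1 h')), Nat.sub_zero]
      unfold dig
      by_cases hiD : i ∈ D
      · rw [if_pos hiD, if_pos (mem_union_left _ hiD)]
      · rw [if_neg hiD, if_neg]
        rw [mem_union, Kl, mem_filter]; tauto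
  · intro i _
    split_ifs <;> omega

lemma kill2_pack {a b : ℕ} (ha : a < 36) (hb : b < 36) (X : Finset (Sym2 (Fin 9))) (D : Finset ℕ) :
    Nat.sub (pack (dig X D) 126) (Nat.land (Nat.land (pack (dig X D) 126) (mO a)) (mO b)) =
      pack (dig X (D ∪ (Kl 126 SS (ed a) ∩ Kl 126 SS (ed b)))) 126 := by
  rw [land_mO ha (dig_lt X D), land_mO hb]
  · show pack (dig X D) 126 - pack _ 126 = _
    rw [pack_sub]
    · refine pack_congr 126 ?_
      intro i hi
      show dig X D i - (if tb (lb CLN i) b = true then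
        (if tb (lb CLN i) a = true then dig X D i else 0) else 0) = _
      by_cases h : ed a ∈ SS i ∧ ed b ∈ SS i
      · rw [if_pos ((tb_SS hb i).2 h.2), if_pos ((tb_SS ha i).2 h.1)]
        have : i ∈ D ∪ (Kl 126 SS (ed a) ∩ Kl 126 SS (ed b)) := by
          rw [mem_union, mem_inter, Kl, Kl, mem_filter, mem_filter, mem_range]
          exact Or.inr ⟨⟨hi, h.1⟩, ⟨hi, h.2⟩⟩
        unfold dig
        rw [if_pos this]
        omega
      · have h0 : (if tb (lb CLN i) b = true then
            (if tb (lb CLN i) a = true then dig X D i else 0) else 0) = 0 := by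
          split_ifs with h1 h2
          · exact absurd ⟨(tb_SS ha i).1 h2, (tb_SS hb i).1 h1⟩ h
          · rfl
          · rfl
        rw [h0, Nat.sub_zero]
        unfold dig
        by_cases hiD : i ∈ D
        · rw [if_pos hiD, if_pos (mem_union_left _ hiD)]
        · rw [if_neg hiD, if_neg]
          rw [mem_union, mem_inter, Kl, Kl, mem_filter, mem_filter]; tauto
    · intro i _
      split_ifs <;> omega
  · intro i hi
    have := dig_lt X D i hi
    split_ifs
    · exact this
    · norm_num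

lemma sum_dig (X : Finset (Sym2 (Fin 9))) (D : Finset ℕ) :
    ∑ i ∈ range 126, dig X D i = Pot 126 SS X D := by
  unfold dig Pot
  rw [Finset.sum_ite, Finset.sum_const_zero, zero_add]
  refine Finset.sum_congr ?_ (fun _ _ => rfl)
  ext i
  simp only [mem_filter, mem_sdiff]

lemma sum_dig_wt {z : ℕ} (hz : z < 36) (X : Finset (Sym2 (Fin 9))) (D : Finset ℕ) :
    ∑ i ∈ range 126, (if tb (lb CLN i) z = true then dig X D i else 0) =
      Wt 126 SS (ed z) X D := by
  unfold Wt
  have h1 : (range 126 \ D).filter (fun i => ed z ∈ SS i) =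
      (range 126).filter (fun i => tb (lb CLN i) z = true ∧ i ∉ D) := by
    ext i
    simp only [mem_filter, mem_sdiff, tb_SS hz]
    tauto
  rw [h1, Finset.sum_filter]
  refine Finset.sum_congr rfl ?_
  intro i _
  unfold dig
  split_ifs with h2 h3 h4 h5 <;> first | rfl | (exfalso; tauto)

lemma mod_pot (X : Finset (Sym2 (Fin 9))) (D : Finset ℕ) :
    Nat.mod (pack (dig X D) 126) 65535 = Pot 126 SS X D := by
  show pack (dig X D) 126 % 65535 = _
  rw [pack_mod, sum_dig, Nat.mod_eq_of_lt]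
  rw [← sum_dig]
  calc ∑ i ∈ range 126, dig X D i ≤ ∑ i ∈ range 126, 64 :=
        Finset.sum_le_sum (fun i hi => dig_le X D (mem_range.1 hi))
    _ < 65535 := by rw [Finset.sum_const, Finset.card_range]; norm_num

lemma mod_wt {z : ℕ} (hz : z < 36) (X : Finset (Sym2 (Fin 9))) (D : Finset ℕ) :
    Nat.mod (Nat.land (pack (dig X D) 126) (mO z)) 65535 = Wt 126 SS (ed z) X D := by
  rw [land_mO hz (dig_lt X D)]
  show pack _ 126 % 65535 = _
  rw [pack_mod, sum_dig_wt hz, Nat.mod_eq_of_lt]
  rw [← sum_dig_wt hz]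
  calc ∑ i ∈ range 126, (if tb (lb CLN i) z = true then dig X D i else 0)
      ≤ ∑ i ∈ range 126, 64 := by
        refine Finset.sum_le_sum (fun i hi => ?_)
        have := dig_le X D (mem_range.1 hi)
        split_ifs <;> omega
    _ < 65535 := by rw [Finset.sum_const, Finset.card_range]; norm_num

end Pool.Agent.Helper40.K9
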