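import Pool.Agent.Helper40.MBSound
import Pool.Agent.Helper40.MBDataA
import Pool.Agent.Helper40.MBDataB
import Pool.Agent.Helper40.MBDataC
import Pool.Agent.Helper40.MBDataD
import Pool.Agent.Helper40.MBDataE
import Pool.Agent.Helper40.MBDataF
import Pool.Agent.Helper40.MBDataG

/-!
The second player wins the Maker-Breaker game for complete graphs on four vertices on nine vertices.
-/

set_option autoImplicit false

namespace Pool.Agent.Helper40.K9

open Finset Pool.Agent.Helper40.Game

theorem mb_all : ∀ k < 1245, NB LMB k := by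
  have h0 : ∀ k < 0, NB LMB k := fun k hk => absurd hk (Nat.not_lt_zero k)
  have h1 := listMB_spec LMB MBDataA_data 0 MBDataA_ok h0
  rw [MBDataA_len] at h1
  have h2 := listMB_spec LMB MBDataB_data 177 MBDataB_ok h1
  rw [MBDataB_len] at h2
  have h3 := listMB_spec LMB MBDataC_data 355 MBDataC_ok h2
  rw [MBDataC_len] at h3
  have h4 := listMB_spec LMB MBDataD_data 533 MBDataD_ok h3
  rw [MBDataD_len] at h4
  have h5 := listMB_spec LMB MBDataE_data 711 MBDataE_ok h4
  rw [MBDataE_len] at h5
  have h6 := listMB_spec LMB MBDataF_data 889 MBDataF_ok h5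
  rw [MBDataF_len] at h6
  have h7 := listMB_spec LMB MBDataG_data 1067 MBDataG_ok h6
  rw [MBDataG_len] at h7
  exact h7

theorem mb_root : BWin (EE 9) (KT 9 4) ∅ ∅ := by
  have h := mb_all 1244 (by norm_num)
  have h1 : lb LMB (Nat.mul 2 1244) = 0 := by decide +kernel
  have h2 : lb LMB (Nat.add (Nat.mul 2 1244) 1) = 0 := by decide +kernel
  have h3 : ES 0 = ∅ := by
    ext e
    rw [mem_ES]
    simp [tb_eq]
  unfold NB at h
  rw [h1, h2, h3] at h
  exact h rfl

end Pool.Agent.Helper40.K9
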