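import Mathlib

set_option autoImplicit false

namespace Pool.Agent.Helper40.Num

/-- `r ^ c ≤ choose (r * c) c` -/
lemma pow_le_choose_mul (r c : ℕ) : r ^ c ≤ (r * c).choose c := by
  induction c with
  | zero => simp
  | succ c ih =>
    have h := Nat.add_choose_eq (r * c) r (c + 1)
    have h2 : (r * c).choose c * r.choose 1 ≤
        ∑ ij ∈ Finset.HasAntidiagonal.antidiagonal (c + 1), (r * c).choose ij.1 * r.choose ij.2 :=
      Finset.single_le_sum (f := fun ij : ℕ × ℕ => (r * c).choose ij.1 * r.choose ij.2)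
        (fun _ _ => Nat.zero_le _) (by simp : (c, 1) ∈ Finset.HasAntidiagonal.antidiagonal (c + 1))
    rw [← h] at h2
    rw [Nat.choose_one_right] at h2
    calc r ^ (c + 1) = r ^ c * r := pow_succ r c
      _ ≤ (r * c).choose c * r := Nat.mul_le_mul_right _ ih
      _ ≤ (r * c + r).choose (c + 1) := h2
      _ = (r * (c + 1)).choose (c + 1) := by rw [Nat.mul_succ]

end Pool.Agent.Helper40.Num
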