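import Pool.Agent.Helper40.Strat

/-!
Greedy strategies for harmonic potentials on alternating claiming games, with the second difference
of the potential as the only error term.
-/

set_option autoImplicit false
set_option linter.unusedSectionVars false
set_option linter.unusedVariables false

namespace Pool.Agent.Helper40.SM

open Finset Pool.Agent.Helper40.Game

section Basic

variable {β : Type*} [DecidableEq β]

/-- second difference in the first variable -/
def D2 (L : Finset β → Finset β → ℝ) (M B : Finset β) (x y : β) : ℝ :=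
  L (insert x (insert y M)) B - L (insert x M) B - L (insert y M) B + L M B

/-- fair coin harmonicity -/
def Harm (L : Finset β → Finset β → ℝ) : Prop :=
  ∀ (M B : Finset β) (x : β), x ∉ M → x ∉ B → L (insert x M) B + L M (insert x B) = 2 * L M B

lemma round_M {L : Finset β → Finset β → ℝ} (hL : Harm L) {M B : Finset β} {x y : β}
    (hxy : x ≠ y) (hyM : y ∉ M) (hyB : y ∉ B) (hmax : L (insert y M) B ≤ L (insert x M) B) :
    L M B - D2 L M B x y ≤ L (insert x M) (insert y B) := by
  have h1 := hL (insert x M) B y (by simp [hxy.symm, hyM]) hyB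
  rw [Finset.insert_comm y x M] at h1
  unfold D2
  linarith

lemma round_B {L : Finset β → Finset β → ℝ} (hL : Harm L) {M B : Finset β} {x y : β}
    (hxy : x ≠ y) (hxM : x ∉ M) (hxB : x ∉ B) (hyM : y ∉ M) (hyB : y ∉ B)
    (hmax : L M (insert y B) ≤ L M (insert x B)) :
    L M B - D2 L M B x y ≤ L (insert y M) (insert x B) := by
  have h1 := hL (insert y M) B x (by simp [hxy, hxM]) hxB
  have h2 := hL M B x hxM hxB
  have h3 := hL M B y hyM hyB
  unfold D2
  linarith

/-- legality of a strategy at the times congruent to `p` -/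
def Legal (E : Finset β) (p : ℕ) (σ : List β → β) : Prop :=
  ∀ l : List β, l.Nodup → (∀ e ∈ l, e ∈ E) → Cons σ p l → l.length % 2 = p →
    (∃ e ∈ E, e ∉ l) → (σ l ∈ E ∧ σ l ∉ l)

lemma nodup_append_one {l : List β} {x : β} : (l ++ [x]).Nodup ↔ l.Nodup ∧ x ∉ l := by
  rw [List.nodup_append]
  constructor
  · rintro ⟨h1, _, h3⟩
    exact ⟨h1, fun hx => h3 x hx x (List.mem_singleton.2 rfl) rfl⟩
  · rintro ⟨h1, h2⟩
    refine ⟨h1, List.nodup_singleton x, ?_⟩
    intro a ha b hb hab
    rw [List.mem_singleton] at hb
    subst hab; subst hb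
    exact h2 ha

lemma exists_play {E : Finset β} {σ τ : List β → β} (hσ : Legal E 0 σ) (hτ : Legal E 1 τ) :
    ∃ l : List β, l.Nodup ∧ (∀ e ∈ l, e ∈ E) ∧ (∀ e ∈ E, e ∈ l) ∧ Cons σ 0 l ∧ Cons τ 1 l := by
  have key : ∀ n, n ≤ E.card → ∃ l : List β, l.length = n ∧ l.Nodup ∧ (∀ e ∈ l, e ∈ E) ∧
      Cons σ 0 l ∧ Cons τ 1 l := by
    intro n
    induction n with
    | zero =>
        intro _
        exact ⟨[], rfl, List.nodup_nil, by simp, by intro i h; simp at h, by intro i h; simp at h⟩
    | succ n ih =>
        intro hn
        obtain ⟨l, hl, hnd, hE, hc, hd⟩ := ih (by omega)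
        have hex : ∃ e ∈ E, e ∉ l := by
          by_contra hcon
          push Not at hcon
          have hsub : E ⊆ l.toFinset := fun e he => List.mem_toFinset.2 (hcon e he)
          have := Finset.card_le_card hsub
          have h2 := List.toFinset_card_le l
          omega
        rcases Nat.mod_two_eq_zero_or_one l.length with h0 | h1
        · have hs := hσ l hnd hE hc h0 hex
          refine ⟨l ++ [σ l], by simp [hl], nodup_append_one.2 ⟨hnd, hs.2⟩, ?_,
            Cons.append hc (fun _ => rfl), Cons.append hd (fun h => by omega)⟩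
          intro e he
          rw [List.mem_append, List.mem_singleton] at he
          rcases he with he | he
          · exact hE e he
          · rw [he]; exact hs.1
        · have hs := hτ l hnd hE hd h1 hex
          refine ⟨l ++ [τ l], by simp [hl], nodup_append_one.2 ⟨hnd, hs.2⟩, ?_,
            Cons.append hc (fun h => by omega), Cons.append hd (fun _ => rfl)⟩
          intro e he
          rw [List.mem_append, List.mem_singleton] at he
          rcases he with he | he
          · exact hE e he
          · rw [he]; exact hs.1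
  obtain ⟨l, hl, hnd, hE, hc, hd⟩ := key E.card le_rfl
  refine ⟨l, hnd, hE, ?_, hc, hd⟩
  intro e he
  have h1 : l.toFinset ⊆ E := fun e he => hE e (List.mem_toFinset.1 he)
  have h2 : l.toFinset = E := by
    apply Finset.eq_of_subset_of_card_le h1
    rw [List.toFinset_card_of_nodup hnd, hl]
  rw [← h2, List.mem_toFinset] at he
  exact he

variable (E : Finset β) (L : Finset β → Finset β → ℝ)

open Classical in
/-- the greedy strategy for the first player -/
noncomputable def gM [Inhabited β] (l : List β) : β :=
  if h : (E \ l.toFinset).Nonempty then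
    (Finset.exists_max_image (E \ l.toFinset) (fun x => L (insert x (cls 0 l)) (cls 1 l)) h).choose
  else default

open Classical in
/-- the greedy strategy for the second player -/
noncomputable def gB [Inhabited β] (l : List β) : β :=
  if h : (E \ l.toFinset).Nonempty then
    (Finset.exists_max_image (E \ l.toFinset) (fun x => L (cls 0 l) (insert x (cls 1 l))) h).choose
  else default

lemma gM_spec [Inhabited β] {l : List β} (h : (E \ l.toFinset).Nonempty) :
    gM E L l ∈ E \ l.toFinset ∧ ∀ y ∈ E \ l.toFinset,
      L (insert y (cls 0 l)) (cls 1 l) ≤ L (insert (gM E L l) (cls 0 l)) (cls 1 l) := by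
  unfold gM
  rw [dif_pos h]
  exact (Finset.exists_max_image (E \ l.toFinset)
    (fun x => L (insert x (cls 0 l)) (cls 1 l)) h).choose_spec

lemma gB_spec [Inhabited β] {l : List β} (h : (E \ l.toFinset).Nonempty) :
    gB E L l ∈ E \ l.toFinset ∧ ∀ y ∈ E \ l.toFinset,
      L (cls 0 l) (insert y (cls 1 l)) ≤ L (cls 0 l) (insert (gB E L l) (cls 1 l)) := by
  unfold gB
  rw [dif_pos h]
  exact (Finset.exists_max_image (E \ l.toFinset)
    (fun x => L (cls 0 l) (insert x (cls 1 l))) h).choose_spec

lemma gM_legal [Inhabited β] : Legal E 0 (gM E L) := by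
  intro l _ _ _ _ hex
  obtain ⟨e, he, hel⟩ := hex
  have h := (gM_spec E L (l := l) ⟨e, by simp [he, hel]⟩).1
  rw [mem_sdiff, List.mem_toFinset] at h
  exact h

lemma gB_legal [Inhabited β] : Legal E 1 (gB E L) := by
  intro l _ _ _ _ hex
  obtain ⟨e, he, hel⟩ := hex
  have h := (gB_spec E L (l := l) ⟨e, by simp [he, hel]⟩).1
  rw [mem_sdiff, List.mem_toFinset] at h
  exact h

lemma disj_cls (l : List β) : Disjoint (cls 0 l) (cls 1 l) := by
  rw [Finset.disjoint_left]
  intro e h0 h1
  rw [mem_cls] at h0 h1
  omega

lemma not_mem_cls {p : ℕ} {l : List β} {x : β} (hx : x ∉ l) : x ∉ cls p l := by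
  rw [mem_cls]
  tauto

/-- the bound on the second difference at all positions -/
def D2Le (κ : ℝ) : Prop :=
  ∀ (M B : Finset β) (x y : β), Disjoint M B → x ∈ E → y ∈ E → x ≠ y → x ∉ M → x ∉ B → y ∉ M →
    y ∉ B → D2 L M B x y ≤ κ

variable {E L}

theorem M_inv [Inhabited β] {κ : ℝ} (hL : Harm L) (hD : D2Le E L κ) :
    ∀ (n : ℕ) (l : List β), l.length = 2 * n → l.Nodup → (∀ e ∈ l, e ∈ E) →
      Cons (gM E L) 0 l → L ∅ ∅ - κ * n ≤ L (cls 0 l) (cls 1 l) := by
  intro n
  induction n with
  | zero =>
      intro l hl _ _ _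
      rw [Nat.mul_zero, List.length_eq_zero_iff] at hl
      subst hl
      rw [cls_nil, cls_nil]
      simp
  | succ n ih =>
      intro l hl hnd hE hc
      rcases List.eq_nil_or_concat l with h | ⟨l1, y, h⟩
      · subst h; simp at hl
      subst h
      rw [List.concat_eq_append] at *
      rcases List.eq_nil_or_concat l1 with h | ⟨l2, x, h⟩
      · subst h
        rw [List.length_append, List.length_singleton, List.length_nil] at hl
        omega
      subst h
      rw [List.concat_eq_append] at *
      have hlen : l2.length = 2 * n := by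
        rw [List.length_append, List.length_append, List.length_singleton,
          List.length_singleton] at hl
        omega
      have hnd1 := (nodup_append_one.1 hnd).1
      have hy := (nodup_append_one.1 hnd).2
      have hnd2 := (nodup_append_one.1 hnd1).1
      have hx := (nodup_append_one.1 hnd1).2
      have hy2 : y ∉ l2 := fun h => hy (List.mem_append_left _ h)
      have hxy : x ≠ y := by
        intro h; subst h; exact hy (by simp)
      have hxE : x ∈ E := hE x (by simp)
      have hyE : y ∈ E := hE y (by simp)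
      have ih1 := ih l2 hlen hnd2 (fun e he => hE e (by simp [he])) hc.front.front
      have hxg : x = gM E L l2 := hc.front.last (by omega)
      have hmax : L (insert y (cls 0 l2)) (cls 1 l2) ≤ L (insert x (cls 0 l2)) (cls 1 l2) := by
        have h := (gM_spec E L (l := l2) ⟨x, by simp [hxE, hx]⟩).2 y (by simp [hyE, hy2])
        rwa [← hxg] at h
      have e0 : cls 0 (l2 ++ [x] ++ [y]) = insert x (cls 0 l2) := by
        rw [cls_append_other hy (by rw [List.length_append, List.length_singleton]; omega),
          cls_append_same hx (by omega)]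
      have e1 : cls 1 (l2 ++ [x] ++ [y]) = insert y (cls 1 l2) := by
        rw [cls_append_same hy (by rw [List.length_append, List.length_singleton]; omega),
          cls_append_other hx (by omega)]
      rw [e0, e1]
      have h1 := round_M hL hxy (not_mem_cls (p := 0) hy2) (not_mem_cls (p := 1) hy2) hmax
      have h2 := hD (cls 0 l2) (cls 1 l2) x y (disj_cls l2) hxE hyE hxy (not_mem_cls hx)
        (not_mem_cls hx) (not_mem_cls hy2) (not_mem_cls hy2)
      push_cast
      linarith

theorem B_inv [Inhabited β] {κ m : ℝ} (hL : Harm L) (hD : D2Le E L κ)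
    (hm : ∀ x ∈ E, m ≤ L {x} ∅) :
    ∀ (n : ℕ) (l : List β), l.length = 2 * n + 1 → l.Nodup → (∀ e ∈ l, e ∈ E) →
      Cons (gB E L) 1 l → m - κ * n ≤ L (cls 0 l) (cls 1 l) := by
  intro n
  induction n with
  | zero =>
      intro l hl hnd hE _
      rcases List.eq_nil_or_concat l with h | ⟨l1, y, h⟩
      · subst h; simp at hl
      subst h
      rw [List.concat_eq_append] at *
      have hl1 : l1 = [] := by
        rw [List.length_append, List.length_singleton] at hl
        exact List.length_eq_zero_iff.1 (by omega)
      subst hl1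
      have e0 : cls 0 ([] ++ [y]) = {y} := by
        rw [cls_append_same (by simp) (by simp), cls_nil]
        rfl
      have e1 : cls 1 ([] ++ [y]) = ∅ := by
        rw [cls_append_other (by simp) (by simp), cls_nil]
      rw [e0, e1]
      have := hm y (hE y (by simp))
      simpa using this
  | succ n ih =>
      intro l hl hnd hE hc
      rcases List.eq_nil_or_concat l with h | ⟨l1, y, h⟩
      · subst h; simp at hl
      subst h
      rw [List.concat_eq_append] at *
      rcases List.eq_nil_or_concat l1 with h | ⟨l2, x, h⟩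
      · subst h
        rw [List.length_append, List.length_singleton, List.length_nil] at hl
        omega
      subst h
      rw [List.concat_eq_append] at *
      have hlen : l2.length = 2 * n + 1 := by
        rw [List.length_append, List.length_append, List.length_singleton,
          List.length_singleton] at hl
        omega
      have hnd1 := (nodup_append_one.1 hnd).1
      have hy := (nodup_append_one.1 hnd).2
      have hnd2 := (nodup_append_one.1 hnd1).1
      have hx := (nodup_append_one.1 hnd1).2
      have hy2 : y ∉ l2 := fun h => hy (List.mem_append_left _ h)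
      have hxy : x ≠ y := by
        intro h; subst h; exact hy (by simp)
      have hxE : x ∈ E := hE x (by simp)
      have hyE : y ∈ E := hE y (by simp)
      have ih1 := ih l2 hlen hnd2 (fun e he => hE e (by simp [he])) hc.front.front
      have hxg : x = gB E L l2 := hc.front.last (by omega)
      have hmax : L (cls 0 l2) (insert y (cls 1 l2)) ≤ L (cls 0 l2) (insert x (cls 1 l2)) := by
        have h := (gB_spec E L (l := l2) ⟨x, by simp [hxE, hx]⟩).2 y (by simp [hyE, hy2])
        rwa [← hxg] at h
      have e0 : cls 0 (l2 ++ [x] ++ [y]) = insert y (cls 0 l2) := by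
        rw [cls_append_same hy (by rw [List.length_append, List.length_singleton]; omega),
          cls_append_other hx (by omega)]
      have e1 : cls 1 (l2 ++ [x] ++ [y]) = insert x (cls 1 l2) := by
        rw [cls_append_other hy (by rw [List.length_append, List.length_singleton]; omega),
          cls_append_same hx (by omega)]
      rw [e0, e1]
      have h1 := round_B hL hxy (not_mem_cls (p := 0) hx) (not_mem_cls (p := 1) hx)
        (not_mem_cls (p := 0) hy2) (not_mem_cls (p := 1) hy2) hmax
      have h2 := hD (cls 0 l2) (cls 1 l2) x y (disj_cls l2) hxE hyE hxy (not_mem_cls hx)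
        (not_mem_cls hx) (not_mem_cls hy2) (not_mem_cls hy2)
      push_cast
      linarith

lemma complete_length {l : List β} (hnd : l.Nodup) (hE : ∀ e ∈ l, e ∈ E) (hall : ∀ e ∈ E, e ∈ l) :
    l.length = E.card := by
  have h : l.toFinset = E := by
    ext e
    rw [List.mem_toFinset]
    exact ⟨hE e, hall e⟩
  rw [← h, List.toFinset_card_of_nodup hnd]

/-- first player, even board -/
theorem M_even [Inhabited β] {κ : ℝ} (hL : Harm L) (hD : D2Le E L κ) (hev : Even E.card) :
    ∃ σ : List β → β, Legal E 0 σ ∧ ∀ l : List β, l.Nodup → (∀ e ∈ l, e ∈ E) →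
      (∀ e ∈ E, e ∈ l) → Cons σ 0 l →
      L ∅ ∅ - κ * ((E.card : ℝ) / 2) ≤ L (cls 0 l) (cls 1 l) := by
  refine ⟨gM E L, gM_legal E L, ?_⟩
  intro l hnd hE hall hc
  obtain ⟨n, hn⟩ := hev
  have hlen := complete_length hnd hE hall
  have h := M_inv hL hD n l (by omega) hnd hE hc
  have : ((E.card : ℕ) : ℝ) / 2 = n := by
    rw [hn]; push_cast; ring
  rw [this]
  exact h

/-- first player, arbitrary board, with a monotone majorant of the potential -/
theorem M_final [Inhabited β] {κ : ℝ} (hκ : 0 ≤ κ) (hL : Harm L) (hD : D2Le E L κ)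
    (T : Finset β → Finset β → ℝ) (hLT : ∀ M B, L M B ≤ T M B)
    (hT : ∀ M B x, x ∉ M → x ∉ B → T M B ≤ T (insert x M) B) :
    ∃ σ : List β → β, Legal E 0 σ ∧ ∀ l : List β, l.Nodup → (∀ e ∈ l, e ∈ E) →
      (∀ e ∈ E, e ∈ l) → Cons σ 0 l →
      L ∅ ∅ - κ * ((E.card : ℝ) / 2) ≤ T (cls 0 l) (cls 1 l) := by
  refine ⟨gM E L, gM_legal E L, ?_⟩
  intro l hnd hE hall hc
  have hlen := complete_length hnd hE hall
  rcases Nat.even_or_odd E.card with ⟨n, hn⟩ | ⟨n, hn⟩
  · have h := M_inv hL hD n l (by omega) hnd hE hc
    have : ((E.card : ℕ) : ℝ) / 2 = n := by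
      rw [hn]; push_cast; ring
    rw [this]
    exact h.trans (hLT _ _)
  · rcases List.eq_nil_or_concat l with h | ⟨l1, y, h⟩
    · subst h; simp at hlen; omega
    subst h
    rw [List.concat_eq_append] at *
    have hlen1 : l1.length = 2 * n := by
      rw [List.length_append, List.length_singleton] at hlen; omega
    have hnd1 := (nodup_append_one.1 hnd).1
    have hy := (nodup_append_one.1 hnd).2
    have h := M_inv hL hD n l1 hlen1 hnd1 (fun e he => hE e (by simp [he])) hc.front
    have e0 : cls 0 (l1 ++ [y]) = insert y (cls 0 l1) := cls_append_same hy (by omega)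
    have e1 : cls 1 (l1 ++ [y]) = cls 1 l1 := cls_append_other hy (by omega)
    rw [e0, e1]
    have h1 := hT (cls 0 l1) (cls 1 l1) y (not_mem_cls hy) (not_mem_cls hy)
    have h2 := hLT (cls 0 l1) (cls 1 l1)
    have h3 : κ * (n : ℝ) ≤ κ * ((E.card : ℝ) / 2) := by
      apply mul_le_mul_of_nonneg_left _ hκ
      rw [hn]; push_cast; linarith
    linarith

/-- second player; `κ'` bounds the loss in a last move of the second player -/
theorem B_final [Inhabited β] {κ κ' m : ℝ} (hκ : 0 ≤ κ) (hκ' : 0 ≤ κ') (hL : Harm L)
    (hD : D2Le E L κ) (hne : E.Nonempty) (hm : ∀ x ∈ E, m ≤ L {x} ∅)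
    (hlast : ∀ (M B : Finset β) (x : β), Disjoint M B → x ∈ E → x ∉ M → x ∉ B →
      (∀ z ∈ E, z = x ∨ z ∈ M ∨ z ∈ B) → L (insert x M) B - L M B ≤ κ') :
    ∃ σ : List β → β, Legal E 1 σ ∧ ∀ l : List β, l.Nodup → (∀ e ∈ l, e ∈ E) →
      (∀ e ∈ E, e ∈ l) → Cons σ 1 l →
      m - κ * ((E.card : ℝ) / 2) - κ' ≤ L (cls 0 l) (cls 1 l) := by
  refine ⟨gB E L, gB_legal E L, ?_⟩
  intro l hnd hE hall hc
  have hlen := complete_length hnd hE hall
  have hpos : 0 < E.card := Finset.card_pos.2 hne
  rcases Nat.even_or_odd E.card with ⟨n, hn⟩ | ⟨n, hn⟩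
  · rcases List.eq_nil_or_concat l with h | ⟨l1, y, h⟩
    · subst h; simp at hlen; omega
    subst h
    rw [List.concat_eq_append] at *
    obtain ⟨k, hk⟩ : ∃ k, n = k + 1 := ⟨n - 1, by omega⟩
    have hlen1 : l1.length = 2 * k + 1 := by
      rw [List.length_append, List.length_singleton] at hlen; omega
    have hnd1 := (nodup_append_one.1 hnd).1
    have hy := (nodup_append_one.1 hnd).2
    have h := B_inv hL hD hm k l1 hlen1 hnd1 (fun e he => hE e (by simp [he])) hc.front
    have e0 : cls 0 (l1 ++ [y]) = cls 0 l1 := cls_append_other hy (by omega)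
    have e1 : cls 1 (l1 ++ [y]) = insert y (cls 1 l1) := cls_append_same hy (by omega)
    rw [e0, e1]
    have h1 := hL (cls 0 l1) (cls 1 l1) y (not_mem_cls hy) (not_mem_cls hy)
    have h2 := hlast (cls 0 l1) (cls 1 l1) y (disj_cls l1) (hE y (by simp)) (not_mem_cls hy)
      (not_mem_cls hy) (by
        intro z hz
        have hz1 := hall z hz
        rw [List.mem_append, List.mem_singleton] at hz1
        rcases hz1 with hz1 | hz1
        · right
          have : z ∈ cls 0 l1 ∪ cls 1 l1 := by
            rw [cls_union, List.mem_toFinset]; exact hz1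
          rwa [Finset.mem_union] at this
        · left; exact hz1)
    have h3 : κ * (k : ℝ) ≤ κ * ((E.card : ℝ) / 2) := by
      apply mul_le_mul_of_nonneg_left _ hκ
      rw [hn, hk]; push_cast; linarith
    linarith
  · have h := B_inv hL hD hm n l (by omega) hnd hE hc
    have h3 : κ * (n : ℝ) ≤ κ * ((E.card : ℝ) / 2) := by
      apply mul_le_mul_of_nonneg_left _ hκ
      rw [hn]; push_cast; linarith
    linarith

end Basic

end Pool.Agent.Helper40.SM
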