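import Pool.Agent.Helper40.SecMom

/-!
The second moment criterion: the loss in the first moment is quadratically compensated by the pair
potential.
-/

set_option autoImplicit false
set_option linter.unusedSectionVars false
set_option linter.unusedVariables false

namespace Pool.Agent.Helper40.SM

open Finset Pool.Agent.Helper40.Game

section Abs

variable {β : Type*} [DecidableEq β] {K : Type*} [DecidableEq K]

lemma D2_sum {ι : Type*} (s : Finset ι) (f : ι → Finset β → Finset β → ℝ) (M B : Finset β)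
    (x y : β) : D2 (fun M B => ∑ i ∈ s, f i M B) M B x y = ∑ i ∈ s, D2 (f i) M B x y := by
  unfold D2
  simp only [← Finset.sum_sub_distrib, ← Finset.sum_add_distrib]

lemma Harm_sum {ι : Type*} (s : Finset ι) (f : ι → Finset β → Finset β → ℝ)
    (h : ∀ i ∈ s, Harm (f i)) : Harm (fun M B => ∑ i ∈ s, f i M B) := by
  intro M B x hM hB
  simp only
  rw [← Finset.sum_add_distrib, Finset.mul_sum]
  exact Finset.sum_congr rfl (fun i hi => h i hi M B x hM hB)

lemma Harm_lin {f g : Finset β → Finset β → ℝ} (hf : Harm f) (hg : Harm g) (c : ℝ) :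
    Harm (fun M B => f M B - c * g M B) := by
  intro M B x hM hB
  have h1 := hf M B x hM hB
  have h2 := hg M B x hM hB
  simp only
  linear_combination h1 - c * h2

lemma quad_le {t c l : ℝ} (hc : 0 < c) (hl : 0 < l) : t - l * (c * t ^ 2) ≤ 1 / (4 * c * l) := by
  rw [le_div_iff₀ (by positivity)]
  nlinarith [sq_nonneg (2 * c * l * t - 1)]

/-- the abstract second difference bound -/
theorem D2_bound (E : Finset β) (F : Finset K) (A : K → Finset β)
    (P : K → Finset β → Finset β → ℝ) (pairs : Finset (K × K))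
    (w : K × K → Finset β → Finset β → ℝ) (V : Finset β → Finset β → ℝ) {c l : ℝ} (hc : 0 < c)
    (hl : 0 < l)
    (h : ∀ (M B : Finset β) (x y : β), Disjoint M B → x ∈ E → y ∈ E → x ≠ y → x ∉ M → x ∉ B →
      y ∉ M → y ∉ B →
      (∀ i ∈ F, D2 (P i) M B x y ≤ if x ∈ A i ∧ y ∈ A i then P i M B else 0) ∧
      (∀ i ∈ F, 0 ≤ P i M B) ∧
      (∀ p ∈ pairs, 0 ≤ D2 (w p) M B x y) ∧
      (∀ i ∈ F, ∀ j ∈ F, x ∈ A i → y ∈ A i → x ∈ A j → y ∈ A j → (i, j) ∈ pairs ∧
        c * (P i M B * P j M B) ≤ D2 (w (i, j)) M B x y) ∧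
      0 ≤ D2 V M B x y) :
    D2Le E (fun M B => (∑ i ∈ F, P i M B - l * ∑ p ∈ pairs, w p M B) - 1 * V M B)
      (1 / (4 * c * l)) := by
  intro M B x y hMB hx hy hxy hxM hxB hyM hyB
  obtain ⟨h1, h2, h3, h4, h5⟩ := h M B x y hMB hx hy hxy hxM hxB hyM hyB
  have e1 : D2 (fun M B => (∑ i ∈ F, P i M B - l * ∑ p ∈ pairs, w p M B) - 1 * V M B) M B x y =
      ∑ i ∈ F, D2 (P i) M B x y - l * ∑ p ∈ pairs, D2 (w p) M B x y - D2 V M B x y := by
    rw [← D2_sum F P M B x y, ← D2_sum pairs w M B x y]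
    unfold D2
    ring
  rw [e1]
  set G := F.filter (fun i => x ∈ A i ∧ y ∈ A i) with hG
  set t := ∑ i ∈ G, P i M B with ht
  have e2 : ∑ i ∈ F, D2 (P i) M B x y ≤ t := by
    rw [ht, hG, Finset.sum_filter]
    exact Finset.sum_le_sum h1
  have e3 : c * t ^ 2 ≤ ∑ p ∈ pairs, D2 (w p) M B x y := by
    have hsub : G ×ˢ G ⊆ pairs := by
      intro p hp
      rw [mem_product, hG, mem_filter, mem_filter] at hp
      exact (h4 p.1 hp.1.1 p.2 hp.2.1 hp.1.2.1 hp.1.2.2 hp.2.2.1 hp.2.2.2).1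
    calc c * t ^ 2 = ∑ p ∈ G ×ˢ G, c * (P p.1 M B * P p.2 M B) := by
          rw [Finset.sum_product, sq, ht, Finset.sum_mul_sum, Finset.mul_sum]
          refine Finset.sum_congr rfl (fun i _ => ?_)
          rw [Finset.mul_sum]
      _ ≤ ∑ p ∈ G ×ˢ G, D2 (w p) M B x y := by
          refine Finset.sum_le_sum (fun p hp => ?_)
          rw [mem_product, hG, mem_filter, mem_filter] at hp
          exact (h4 p.1 hp.1.1 p.2 hp.2.1 hp.1.2.1 hp.1.2.2 hp.2.2.1 hp.2.2.2).2
      _ ≤ ∑ p ∈ pairs, D2 (w p) M B x y :=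
          Finset.sum_le_sum_of_subset_of_nonneg hsub (fun p hp _ => h3 p hp)
  have e4 := quad_le (t := t) hc hl
  have e5 : l * (c * t ^ 2) ≤ l * ∑ p ∈ pairs, D2 (w p) M B x y :=
    mul_le_mul_of_nonneg_left e3 hl.le
  linarith

end Abs

section One

variable {β : Type*} [DecidableEq β]

/-- weight of a set in the game where it has to be occupied completely -/
noncomputable def wd (D : Finset β) (M B : Finset β) : ℝ :=
  if Disjoint D B then (1 / 2 : ℝ) ^ (D \ M).card else 0

lemma wd_nonneg (D M B : Finset β) : 0 ≤ wd D M B := by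
  unfold wd; split_ifs <;> positivity

lemma wd_insert_M {D M B : Finset β} {x : β} (hxM : x ∉ M) :
    wd D (insert x M) B = if x ∈ D then 2 * wd D M B else wd D M B := by
  unfold wd
  by_cases hx : x ∈ D
  · have h : D \ M = insert x (D \ insert x M) := by
      ext p
      simp only [mem_sdiff, mem_insert]
      constructor
      · rintro ⟨h1, h2⟩
        by_cases hp : p = x
        · exact Or.inl hp
        · exact Or.inr ⟨h1, by tauto⟩
      · rintro (h | ⟨h1, h2⟩)
        · subst h; exact ⟨hx, hxM⟩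
        · exact ⟨h1, by tauto⟩
    have h2 : (D \ M).card = (D \ insert x M).card + 1 := by
      rw [h, card_insert_of_notMem]; simp
    rw [if_pos hx, h2, pow_succ]
    split_ifs <;> ring
  · have h : D \ insert x M = D \ M := by
      ext p
      simp only [mem_sdiff, mem_insert]
      constructor
      · rintro ⟨h1, h2⟩
        exact ⟨h1, by tauto⟩
      · rintro ⟨h1, h2⟩
        refine ⟨h1, ?_⟩
        rintro (h | h)
        · subst h; exact hx h1
        · exact h2 h
    rw [if_neg hx, h]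

lemma wd_insert_B {D M B : Finset β} {x : β} :
    wd D M (insert x B) = if x ∈ D then 0 else wd D M B := by
  unfold wd
  simp only [Finset.disjoint_insert_right]
  by_cases hx : x ∈ D <;> simp [hx]

lemma wd_harm (D : Finset β) : Harm (wd D) := by
  intro M B x hM hB
  rw [wd_insert_M hM, wd_insert_B]
  split_ifs <;> ring

lemma wd_D2 {D M B : Finset β} {x y : β} (hxy : x ≠ y) (hx : x ∉ M) (hy : y ∉ M) :
    D2 (wd D) M B x y = if x ∈ D ∧ y ∈ D then wd D M B else 0 := by
  unfold D2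
  rw [wd_insert_M (show x ∉ insert y M by simp [hxy, hx]), wd_insert_M hx, wd_insert_M hy]
  by_cases h1 : x ∈ D <;> by_cases h2 : y ∈ D <;> simp [h1, h2] <;> ring

lemma wd_union {A A' M B : Finset β} {x y : β} (hxy : x ≠ y) (hx : x ∉ M) (hy : y ∉ M)
    (h1 : x ∈ A) (h2 : y ∈ A) (h3 : x ∈ A') (h4 : y ∈ A') :
    4 * (wd A M B * wd A' M B) ≤ wd (A ∪ A') M B := by
  unfold wd
  by_cases hA : Disjoint A B
  · by_cases hA' : Disjoint A' B
    · rw [if_pos hA, if_pos hA', if_pos (by rw [Finset.disjoint_union_left]; exact ⟨hA, hA'⟩)]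
      have e1 : ((A ∪ A') \ M).card + ((A ∩ A') \ M).card = (A \ M).card + (A' \ M).card := by
        rw [Finset.union_sdiff_distrib, show (A ∩ A') \ M = (A \ M) ∩ (A' \ M) by
          ext p; simp only [mem_sdiff, mem_inter]; tauto]
        exact Finset.card_union_add_card_inter _ _
      have e2 : 2 ≤ ((A ∩ A') \ M).card := by
        have : ({x, y} : Finset β) ⊆ (A ∩ A') \ M := by
          intro p hp
          simp only [mem_insert, mem_singleton] at hp
          rw [mem_sdiff, mem_inter]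
          rcases hp with rfl | rfl
          · exact ⟨⟨h1, h3⟩, hx⟩
          · exact ⟨⟨h2, h4⟩, hy⟩
        calc 2 = ({x, y} : Finset β).card := (card_pair hxy).symm
          _ ≤ _ := card_le_card this
      rw [← pow_add, ← e1, pow_add]
      have e3 : (1 / 2 : ℝ) ^ ((A ∩ A') \ M).card ≤ (1 / 2 : ℝ) ^ 2 :=
        pow_le_pow_of_le_one (by norm_num) (by norm_num) e2
      have e4 : (0:ℝ) ≤ (1 / 2 : ℝ) ^ ((A ∪ A') \ M).card := by positivity
      nlinarith
    · rw [if_neg hA']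
      simp only [mul_zero]
      split_ifs <;> positivity
  · rw [if_neg hA]
    simp only [zero_mul, mul_zero]
    split_ifs <;> positivity

lemma wd_mono {D M B : Finset β} {x : β} (hx : x ∉ M) : wd D M B ≤ wd D (insert x M) B := by
  rw [wd_insert_M hx]
  have := wd_nonneg D M B
  split_ifs <;> linarith

lemma wd_empty (D : Finset β) : wd D ∅ ∅ = (1 / 2 : ℝ) ^ D.card := by
  unfold wd; simp

lemma wd_single_le (D : Finset β) (x : β) : wd D {x} ∅ ≤ 2 * wd D ∅ ∅ := by
  have h := wd_insert_M (D := D) (M := ∅) (B := ∅) (x := x) (by simp)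
  rw [show (insert x ∅ : Finset β) = {x} from rfl] at h
  rw [h]
  have := wd_nonneg D ∅ ∅
  split_ifs <;> linarith

end One

section Games

variable {β : Type*} [DecidableEq β] [Inhabited β] {K : Type*} [DecidableEq K]
variable (E : Finset β) (F : Finset K) (A : K → Finset β)

/-- pairs of winning sets with at least `r` common points -/
def prs (r : ℕ) : Finset (K × K) := (F ×ˢ F).filter (fun p => r ≤ (A p.1 ∩ A p.2).card)

/-- first moment -/
noncomputable def T0 : ℝ := ∑ i ∈ F, (1 / 2 : ℝ) ^ (A i).card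

/-- second moment over pairs with at least `r` common points -/
noncomputable def U0 (r : ℕ) : ℝ := ∑ p ∈ prs F A r, (1 / 2 : ℝ) ^ (A p.1 ∪ A p.2).card

/-- the potential -/
noncomputable def LL (l m : ℝ) (M B : Finset β) : ℝ :=
  (∑ i ∈ F, wd (A i) M B - l * ∑ p ∈ prs F A 2, wd (A p.1 ∪ A p.2) M B) -
    1 * (m * ∑ p ∈ prs F A 1, wd (A p.1 ∪ A p.2) M B)

lemma LL_harm (l m : ℝ) : Harm (LL F A l m) := by
  intro M B x hM hB
  have h1 := Harm_sum F (fun i => wd (A i)) (fun i _ => wd_harm _) M B x hM hB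
  have h2 := Harm_sum (prs F A 2) (fun p => wd (A p.1 ∪ A p.2)) (fun i _ => wd_harm _) M B x hM hB
  have h3 := Harm_sum (prs F A 1) (fun p => wd (A p.1 ∪ A p.2)) (fun i _ => wd_harm _) M B x hM hB
  unfold LL
  linear_combination h1 - l * h2 - m * h3

lemma LL_D2 {l m : ℝ} (hl : 0 < l) (hm : 0 ≤ m) : D2Le E (LL F A l m) (1 / (4 * 4 * l)) := by
  refine D2_bound E F A (fun i => wd (A i)) (prs F A 2) (fun p => wd (A p.1 ∪ A p.2))
    (fun M B => m * ∑ p ∈ prs F A 1, wd (A p.1 ∪ A p.2) M B) (by norm_num) hl ?_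
  intro M B x y hMB hx hy hxy hxM hxB hyM hyB
  refine ⟨?_, ?_, ?_, ?_, ?_⟩
  · intro i _
    rw [wd_D2 hxy hxM hyM]
  · intro i _
    exact wd_nonneg _ _ _
  · intro p _
    rw [wd_D2 hxy hxM hyM]
    have := wd_nonneg (A p.1 ∪ A p.2) M B
    split_ifs <;> linarith
  · intro i hi j hj h1 h2 h3 h4
    constructor
    · rw [prs, mem_filter, mem_product]
      refine ⟨⟨hi, hj⟩, ?_⟩
      have : ({x, y} : Finset β) ⊆ A i ∩ A j := by
        intro p hp
        simp only [mem_insert, mem_singleton] at hp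
        rw [mem_inter]
        rcases hp with rfl | rfl
        · exact ⟨h1, h3⟩
        · exact ⟨h2, h4⟩
      calc 2 = ({x, y} : Finset β).card := (card_pair hxy).symm
        _ ≤ _ := card_le_card this
    · rw [wd_D2 hxy hxM hyM, if_pos ⟨mem_union_left _ h1, mem_union_left _ h2⟩]
      exact wd_union hxy hxM hyM h1 h2 h3 h4
  · have h1 := D2_sum (prs F A 1) (fun p => wd (A p.1 ∪ A p.2)) M B x y
    have h2 : 0 ≤ D2 (fun M B => ∑ p ∈ prs F A 1, wd (A p.1 ∪ A p.2) M B) M B x y := by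
      rw [h1]
      refine Finset.sum_nonneg (fun p _ => ?_)
      rw [wd_D2 hxy hxM hyM]
      have := wd_nonneg (A p.1 ∪ A p.2) M B
      split_ifs <;> linarith
    have h3 : D2 (fun M B => m * ∑ p ∈ prs F A 1, wd (A p.1 ∪ A p.2) M B) M B x y =
        m * D2 (fun M B => ∑ p ∈ prs F A 1, wd (A p.1 ∪ A p.2) M B) M B x y := by
      unfold D2; ring
    rw [h3]
    exact mul_nonneg hm h2

lemma LL_le {l m : ℝ} (hl : 0 ≤ l) (hm : 0 ≤ m) (M B : Finset β) :
    LL F A l m M B ≤ ∑ i ∈ F, wd (A i) M B := by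
  unfold LL
  have h1 : 0 ≤ ∑ p ∈ prs F A 2, wd (A p.1 ∪ A p.2) M B :=
    Finset.sum_nonneg (fun p _ => wd_nonneg _ _ _)
  have h2 : 0 ≤ ∑ p ∈ prs F A 1, wd (A p.1 ∪ A p.2) M B :=
    Finset.sum_nonneg (fun p _ => wd_nonneg _ _ _)
  have h3 := mul_nonneg hl h1
  have h4 := mul_nonneg hm h2
  linarith

lemma LL_empty (l m : ℝ) : LL F A l m ∅ ∅ = T0 F A - l * U0 F A 2 - m * U0 F A 1 := by
  unfold LL T0 U0
  simp only [wd_empty, one_mul]

lemma T_pos {l : List β} (hE : ∀ i ∈ F, A i ⊆ E) (hall : ∀ e ∈ E, e ∈ l)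
    (h : 0 < ∑ i ∈ F, wd (A i) (cls 0 l) (cls 1 l)) : ∃ i ∈ F, A i ⊆ cls 0 l := by
  obtain ⟨i, hi, hne⟩ := Finset.exists_ne_zero_of_sum_ne_zero h.ne'
  refine ⟨i, hi, ?_⟩
  intro x hx
  have hd : Disjoint (A i) (cls 1 l) := by
    by_contra hd
    unfold wd at hne
    rw [if_neg hd] at hne
    exact hne rfl
  have h1 : x ∈ cls 0 l ∪ cls 1 l := by
    rw [cls_union, List.mem_toFinset]
    exact hall x (hE i hi hx)
  rw [mem_union] at h1
  rcases h1 with h1 | h1
  · exact h1
  · exact absurd h1 (Finset.disjoint_left.1 hd hx)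

/-- the second moment criterion for the first player -/
theorem maker_wins (hE : ∀ i ∈ F, A i ⊆ E) {l : ℝ} (hl : 0 < l)
    (hbig : (E.card : ℝ) / (32 * l) + l * U0 F A 2 < T0 F A) :
    ∃ σ : List β → β, Legal E 0 σ ∧ ∀ h : List β, h.Nodup → (∀ e ∈ h, e ∈ E) →
      (∀ e ∈ E, e ∈ h) → Cons σ 0 h → ∃ i ∈ F, A i ⊆ cls 0 h := by
  obtain ⟨σ, h1, h2⟩ := M_final (κ := 1 / (4 * 4 * l)) (by positivity) (LL_harm F A l 0)
    (LL_D2 E F A hl le_rfl) (fun M B => ∑ i ∈ F, wd (A i) M B)
    (fun M B => LL_le F A hl.le le_rfl M B)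
    (fun M B x hM hB => Finset.sum_le_sum (fun i _ => wd_mono hM))
  refine ⟨σ, h1, fun h hnd hE' hall hc => ?_⟩
  have h3 := h2 h hnd hE' hall hc
  refine T_pos E F A hE hall (lt_of_lt_of_le ?_ h3)
  rw [LL_empty]
  have : 1 / (4 * 4 * l) * ((E.card : ℝ) / 2) = (E.card : ℝ) / (32 * l) := by
    field_simp; ring
  rw [this]
  linarith

/-- the last move of the second player costs little -/
lemma last_bound {l m : ℝ} (hl : 0 ≤ l) (hm : 0 < m) (hE : ∀ i ∈ F, A i ⊆ E) :
    ∀ (M B : Finset β) (x : β), Disjoint M B → x ∈ E → x ∉ M → x ∉ B →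
      (∀ z ∈ E, z = x ∨ z ∈ M ∨ z ∈ B) →
      LL F A l m (insert x M) B - LL F A l m M B ≤ 1 / (4 * 2 * m) := by
  intro M B x hMB hxE hxM hxB hlast
  have e1 : ∀ D : Finset β, wd D (insert x M) B - wd D M B = if x ∈ D then wd D M B else 0 := by
    intro D
    rw [wd_insert_M hxM]
    split_ifs <;> ring
  have e2 : ∀ D : Finset β, D ⊆ E → x ∈ D → (wd D M B = 0 ∨ wd D M B = 1 / 2) := by
    intro D hD hxD
    unfold wd
    split_ifs with h
    · right
      have : D \ M = {x} := by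
        ext z
        rw [mem_sdiff, mem_singleton]
        constructor
        · rintro ⟨h1, h2⟩
          rcases hlast z (hD h1) with h3 | h3 | h3
          · exact h3
          · exact absurd h3 h2
          · exact absurd h3 (Finset.disjoint_left.1 h h1)
        · rintro rfl
          exact ⟨hxD, hxM⟩
      rw [this, card_singleton, pow_one]
    · left; rfl
  set G := F.filter (fun i => x ∈ A i) with hG
  set t := ∑ i ∈ G, wd (A i) M B with ht
  have hT : ∑ i ∈ F, wd (A i) (insert x M) B - ∑ i ∈ F, wd (A i) M B = t := by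
    rw [← Finset.sum_sub_distrib, ht, hG, Finset.sum_filter]
    exact Finset.sum_congr rfl (fun i _ => e1 _)
  have hU : 0 ≤ ∑ p ∈ prs F A 2, wd (A p.1 ∪ A p.2) (insert x M) B -
      ∑ p ∈ prs F A 2, wd (A p.1 ∪ A p.2) M B := by
    rw [← Finset.sum_sub_distrib]
    refine Finset.sum_nonneg (fun p _ => ?_)
    rw [e1]
    have := wd_nonneg (A p.1 ∪ A p.2) M B
    split_ifs <;> linarith
  have hU1 : 2 * t ^ 2 ≤ ∑ p ∈ prs F A 1, wd (A p.1 ∪ A p.2) (insert x M) B -
      ∑ p ∈ prs F A 1, wd (A p.1 ∪ A p.2) M B := by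
    rw [← Finset.sum_sub_distrib]
    have hsub : G ×ˢ G ⊆ prs F A 1 := by
      intro p hp
      rw [mem_product, hG, mem_filter, mem_filter] at hp
      rw [prs, mem_filter, mem_product]
      exact ⟨⟨hp.1.1, hp.2.1⟩, Finset.card_pos.2 ⟨x, mem_inter.2 ⟨hp.1.2, hp.2.2⟩⟩⟩
    calc 2 * t ^ 2 = ∑ p ∈ G ×ˢ G, 2 * (wd (A p.1) M B * wd (A p.2) M B) := by
          rw [Finset.sum_product, sq, ht, Finset.sum_mul_sum, Finset.mul_sum]
          refine Finset.sum_congr rfl (fun i _ => ?_)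
          rw [Finset.mul_sum]
      _ ≤ ∑ p ∈ G ×ˢ G, (wd (A p.1 ∪ A p.2) (insert x M) B - wd (A p.1 ∪ A p.2) M B) := by
          refine Finset.sum_le_sum (fun p hp => ?_)
          rw [mem_product, hG, mem_filter, mem_filter] at hp
          rw [e1, if_pos (mem_union_left _ hp.1.2)]
          have hu : A p.1 ∪ A p.2 ⊆ E := Finset.union_subset (hE _ hp.1.1) (hE _ hp.2.1)
          have h0 := wd_nonneg (A p.1 ∪ A p.2) M B
          rcases e2 (A p.1) (hE _ hp.1.1) hp.1.2 with h3 | h3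
          · rw [h3]; simpa using h0
          · rcases e2 (A p.2) (hE _ hp.2.1) hp.2.2 with h4 | h4
            · rw [h4]; simpa using h0
            · have d1 : Disjoint (A p.1) B := by
                by_contra hd; unfold wd at h3; rw [if_neg hd] at h3; norm_num at h3
              have d2 : Disjoint (A p.2) B := by
                by_contra hd; unfold wd at h4; rw [if_neg hd] at h4; norm_num at h4
              have d3 : Disjoint (A p.1 ∪ A p.2) B := by
                rw [Finset.disjoint_union_left]; exact ⟨d1, d2⟩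
              rcases e2 (A p.1 ∪ A p.2) hu (mem_union_left _ hp.1.2) with h5 | h5
              · exfalso
                unfold wd at h5
                rw [if_pos d3] at h5
                have : (0:ℝ) < (1 / 2 : ℝ) ^ ((A p.1 ∪ A p.2) \ M).card := by positivity
                linarith
              · rw [h3, h4, h5]; norm_num
      _ ≤ ∑ p ∈ prs F A 1, (wd (A p.1 ∪ A p.2) (insert x M) B - wd (A p.1 ∪ A p.2) M B) := by
          refine Finset.sum_le_sum_of_subset_of_nonneg hsub (fun p hp _ => ?_)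
          rw [e1]
          have := wd_nonneg (A p.1 ∪ A p.2) M B
          split_ifs <;> linarith
  have hq := quad_le (t := t) (c := 2) (l := m) (by norm_num) hm
  have hmU := mul_le_mul_of_nonneg_left hU1 hm.le
  have hlU := mul_nonneg hl hU
  unfold LL
  nlinarith

/-- the second moment criterion for the second player in the reverse game -/
theorem forcer_wins (hE : ∀ i ∈ F, A i ⊆ E) (hne : E.Nonempty) {l m : ℝ} (hl : 0 < l)
    (hm : 0 < m)
    (hbig : (E.card : ℝ) / (32 * l) + 2 * l * U0 F A 2 + 2 * m * U0 F A 1 + 1 / (8 * m) <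
      T0 F A) :
    ∃ σ : List β → β, Legal E 1 σ ∧ ∀ h : List β, h.Nodup → (∀ e ∈ h, e ∈ E) →
      (∀ e ∈ E, e ∈ h) → Cons σ 1 h → ∃ i ∈ F, A i ⊆ cls 0 h := by
  have hm0 : ∀ x ∈ E, T0 F A - 2 * l * U0 F A 2 - 2 * m * U0 F A 1 ≤ LL F A l m {x} ∅ := by
    intro x _
    have h1 : T0 F A ≤ ∑ i ∈ F, wd (A i) {x} ∅ := by
      unfold T0
      refine Finset.sum_le_sum (fun i _ => ?_)
      rw [← wd_empty]
      exact wd_mono (M := ∅) (by simp)
    have h2 : ∀ r, ∑ p ∈ prs F A r, wd (A p.1 ∪ A p.2) {x} ∅ ≤ 2 * U0 F A r := by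
      intro r
      unfold U0
      rw [Finset.mul_sum]
      refine Finset.sum_le_sum (fun p _ => ?_)
      rw [← wd_empty]
      exact wd_single_le _ _
    have h3 := mul_le_mul_of_nonneg_left (h2 2) hl.le
    have h4 := mul_le_mul_of_nonneg_left (h2 1) hm.le
    unfold LL
    linarith
  obtain ⟨σ, h1, h2⟩ := B_final (κ := 1 / (4 * 4 * l)) (κ' := 1 / (4 * 2 * m)) (by positivity)
    (by positivity) (LL_harm F A l m) (LL_D2 E F A hl hm.le) hne hm0
    (last_bound E F A hl.le hm hE)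
  refine ⟨σ, h1, fun h hnd hE' hall hc => ?_⟩
  have h3 := h2 h hnd hE' hall hc
  refine T_pos E F A hE hall (lt_of_lt_of_le ?_ (h3.trans (LL_le F A hl.le hm.le _ _)))
  have e1 : 1 / (4 * 4 * l) * ((E.card : ℝ) / 2) = (E.card : ℝ) / (32 * l) := by
    field_simp; ring
  have e2 : 1 / (4 * 2 * m) = 1 / (8 * m) := by norm_num
  rw [e1, e2]
  linarith

/-- the potential of the winning sets, with a minus sign -/
lemma negT_D2 : D2Le E (fun M B => (0:ℝ) - 1 * ∑ i ∈ F, wd (A i) M B) 0 := by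
  intro M B x y hMB hx hy hxy hxM hxB hyM hyB
  have h1 := D2_sum F (fun i => wd (A i)) M B x y
  have h2 : 0 ≤ D2 (fun M B => ∑ i ∈ F, wd (A i) M B) M B x y := by
    rw [h1]
    refine Finset.sum_nonneg (fun p _ => ?_)
    rw [wd_D2 hxy hxM hyM]
    have := wd_nonneg (A p) M B
    split_ifs <;> linarith
  have h3 : D2 (fun M B => (0:ℝ) - 1 * ∑ i ∈ F, wd (A i) M B) M B x y =
      - D2 (fun M B => ∑ i ∈ F, wd (A i) M B) M B x y := by
    unfold D2; ring
  rw [h3]
  linarith

lemma negT_harm : Harm (fun M B => (0:ℝ) - 1 * ∑ i ∈ F, wd (A i) M B) := by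
  refine Harm_lin (f := fun _ _ => (0:ℝ)) ?_ (Harm_sum _ _ (fun i _ => wd_harm _)) 1
  intro M B x _ _
  norm_num

lemma not_sub {h : List β} (hlt : ∑ i ∈ F, wd (A i) (cls 0 h) (cls 1 h) < 1) :
    ∀ i ∈ F, ¬ A i ⊆ cls 0 h := by
  intro i hi hsub
  have h1 : wd (A i) (cls 0 h) (cls 1 h) = 1 := by
    unfold wd
    rw [if_pos (Finset.disjoint_of_subset_left hsub (disj_cls h))]
    rw [Finset.sdiff_eq_empty_iff_subset.2 hsub]
    simp
  have h2 : wd (A i) (cls 0 h) (cls 1 h) ≤ ∑ i ∈ F, wd (A i) (cls 0 h) (cls 1 h) :=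
    Finset.single_le_sum (f := fun i => wd (A i) (cls 0 h) (cls 1 h))
    (fun i _ => wd_nonneg (A i) _ _) hi
  linarith

/-- the blocking criterion for the second player -/
theorem breaker_wins (hne : E.Nonempty) (hsmall : 2 * T0 F A < 1) :
    ∃ σ : List β → β, Legal E 1 σ ∧ ∀ h : List β, h.Nodup → (∀ e ∈ h, e ∈ E) →
      (∀ e ∈ E, e ∈ h) → Cons σ 1 h → ∀ i ∈ F, ¬ A i ⊆ cls 0 h := by
  obtain ⟨σ, h1, h2⟩ := B_final (κ := 0) (κ' := 0) (m := - (2 * T0 F A)) le_rfl le_rfl
    (negT_harm F A) (negT_D2 E F A) hne (by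
      intro x _
      have h2 : ∑ p ∈ F, wd (A p) {x} ∅ ≤ 2 * T0 F A := by
        unfold T0
        rw [Finset.mul_sum]
        refine Finset.sum_le_sum (fun p _ => ?_)
        rw [← wd_empty]
        exact wd_single_le _ _
      linarith) (by
      intro M B x _ _ hxM _ _
      have : ∑ i ∈ F, wd (A i) M B ≤ ∑ i ∈ F, wd (A i) (insert x M) B :=
        Finset.sum_le_sum (fun i _ => wd_mono hxM)
      linarith)
  refine ⟨σ, h1, fun h hnd hE' hall hc => not_sub F A ?_⟩
  have h3 := h2 h hnd hE' hall hc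
  linarith

/-- the blocking criterion for the first player in the reverse game on an even board -/
theorem avoider_wins (hev : Even E.card) (hsmall : T0 F A < 1) :
    ∃ σ : List β → β, Legal E 0 σ ∧ ∀ h : List β, h.Nodup → (∀ e ∈ h, e ∈ E) →
      (∀ e ∈ E, e ∈ h) → Cons σ 0 h → ∀ i ∈ F, ¬ A i ⊆ cls 0 h := by
  obtain ⟨σ, h1, h2⟩ := M_even (κ := 0) (negT_harm F A) (negT_D2 E F A) hev
  refine ⟨σ, h1, fun h hnd hE' hall hc => not_sub F A ?_⟩
  have h3 := h2 h hnd hE' hall hc
  have h4 : ∑ i ∈ F, wd (A i) ∅ ∅ = T0 F A := by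
    unfold T0
    exact Finset.sum_congr rfl (fun i _ => wd_empty _)
  rw [h4] at h3
  linarith

end Games

end Pool.Agent.Helper40.SM
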