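import Pool.Agent.Helper40.SecMom2

/-!
Exponentially tilted product weights and exact success probabilities for the majority game.
-/

set_option autoImplicit false
set_option linter.unusedSectionVars false
set_option linter.unusedVariables false

namespace Pool.Agent.Helper40.Tilt

open Finset Pool.Agent.Helper40.Game Pool.Agent.Helper40.SM

section Prod

variable {β : Type*} [DecidableEq β]

/-- factor of one point -/
noncomputable def ph (c : ℝ) (z : β) (M B : Finset β) : ℝ :=
  if z ∈ M then Real.exp c else if z ∈ B then Real.exp (-c) else Real.cosh c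

/-- product weight -/
noncomputable def W (D : Finset β) (c : β → ℝ) (M B : Finset β) : ℝ := ∏ z ∈ D, ph (c z) z M B

lemma ph_pos (c : ℝ) (z : β) (M B : Finset β) : 0 < ph c z M B := by
  unfold ph
  split_ifs
  · exact Real.exp_pos _
  · exact Real.exp_pos _
  · exact Real.cosh_pos _

lemma W_pos (D : Finset β) (c : β → ℝ) (M B : Finset β) : 0 < W D c M B :=
  Finset.prod_pos (fun z _ => ph_pos _ _ _ _)

lemma exp_eq (c : ℝ) : Real.exp c = (1 + Real.tanh c) * Real.cosh c := by
  rw [Real.tanh_eq_sinh_div_cosh, add_mul, div_mul_cancel₀ _ (Real.cosh_pos c).ne', one_mul,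
    Real.cosh_add_sinh]

lemma exp_neg_eq (c : ℝ) : Real.exp (-c) = (1 - Real.tanh c) * Real.cosh c := by
  rw [Real.tanh_eq_sinh_div_cosh, sub_mul, div_mul_cancel₀ _ (Real.cosh_pos c).ne', one_mul,
    Real.cosh_sub_sinh]

lemma W_insert_M {D M B : Finset β} {c : β → ℝ} {x : β} (hM : x ∉ M) (hB : x ∉ B) :
    W D c (insert x M) B = if x ∈ D then (1 + Real.tanh (c x)) * W D c M B else W D c M B := by
  have hne : ∀ z ∈ D.erase x, ph (c z) z (insert x M) B = ph (c z) z M B := by
    intro z hz
    rw [mem_erase] at hz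
    unfold ph
    simp [hz.1]
  by_cases hx : x ∈ D
  · rw [if_pos hx]
    unfold W
    rw [← Finset.mul_prod_erase D (fun z => ph (c z) z (insert x M) B) hx,
      ← Finset.mul_prod_erase D (fun z => ph (c z) z M B) hx, Finset.prod_congr rfl hne]
    have e1 : ph (c x) x (insert x M) B = Real.exp (c x) := by
      unfold ph; simp
    have e2 : ph (c x) x M B = Real.cosh (c x) := by
      unfold ph; simp [hM, hB]
    rw [e1, e2, exp_eq]
    ring
  · rw [if_neg hx]
    unfold W
    refine Finset.prod_congr rfl (fun z hz => hne z ?_)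
    rw [mem_erase]
    exact ⟨fun h => hx (h ▸ hz), hz⟩

lemma W_insert_B {D M B : Finset β} {c : β → ℝ} {x : β} (hM : x ∉ M) (hB : x ∉ B) :
    W D c M (insert x B) = if x ∈ D then (1 - Real.tanh (c x)) * W D c M B else W D c M B := by
  have hne : ∀ z ∈ D.erase x, ph (c z) z M (insert x B) = ph (c z) z M B := by
    intro z hz
    rw [mem_erase] at hz
    unfold ph
    simp [hz.1]
  by_cases hx : x ∈ D
  · rw [if_pos hx]
    unfold W
    rw [← Finset.mul_prod_erase D (fun z => ph (c z) z M (insert x B)) hx,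
      ← Finset.mul_prod_erase D (fun z => ph (c z) z M B) hx, Finset.prod_congr rfl hne]
    have e1 : ph (c x) x M (insert x B) = Real.exp (-(c x)) := by
      unfold ph; simp [hM]
    have e2 : ph (c x) x M B = Real.cosh (c x) := by
      unfold ph; simp [hM, hB]
    rw [e1, e2, exp_neg_eq]
    ring
  · rw [if_neg hx]
    unfold W
    refine Finset.prod_congr rfl (fun z hz => hne z ?_)
    rw [mem_erase]
    exact ⟨fun h => hx (h ▸ hz), hz⟩

lemma W_harm (D : Finset β) (c : β → ℝ) : Harm (W D c) := by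
  intro M B x hM hB
  rw [W_insert_M hM hB, W_insert_B hM hB]
  split_ifs <;> ring

lemma W_D2 {D M B : Finset β} {c : β → ℝ} {x y : β} (hxy : x ≠ y) (hxM : x ∉ M) (hxB : x ∉ B)
    (hyM : y ∉ M) (hyB : y ∉ B) :
    D2 (W D c) M B x y =
      if x ∈ D ∧ y ∈ D then Real.tanh (c x) * Real.tanh (c y) * W D c M B else 0 := by
  unfold D2
  rw [W_insert_M (show x ∉ insert y M by simp [hxy, hxM]) hxB, W_insert_M hxM hxB,
    W_insert_M hyM hyB]
  by_cases h1 : x ∈ D <;> by_cases h2 : y ∈ D <;> simp [h1, h2] <;> ring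

lemma smul_harm {f : Finset β → Finset β → ℝ} (hf : Harm f) (a : ℝ) :
    Harm (fun M B => a * f M B) := by
  intro M B x hM hB
  have := hf M B x hM hB
  simp only
  linear_combination a * this

lemma smul_D2 (f : Finset β → Finset β → ℝ) (a : ℝ) (M B : Finset β) (x y : β) :
    D2 (fun M B => a * f M B) M B x y = a * D2 f M B x y := by
  unfold D2; ring

end Prod

section Tail

/-- probability that a fair binomial variable with `u` trials is at least `r` -/
noncomputable def G : ℕ → ℕ → ℝ
  | 0, 0 => 1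
  | 0, _ + 1 => 0
  | u + 1, r => (G u (r - 1) + G u r) / 2

lemma G_succ (u r : ℕ) : G (u + 1) r = (G u (r - 1) + G u r) / 2 := by
  rw [G]

lemma G_nonneg (u r : ℕ) : 0 ≤ G u r := by
  induction u generalizing r with
  | zero => cases r <;> simp [G]
  | succ u ih =>
      rw [G_succ]
      have h1 := ih (r - 1)
      have h2 := ih r
      linarith

lemma G_anti (u r : ℕ) : G u (r + 1) ≤ G u r := by
  induction u generalizing r with
  | zero => cases r <;> simp [G]
  | succ u ih =>
      rw [G_succ, G_succ]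
      have h1 := ih r
      rw [Nat.add_sub_cancel]
      cases r with
      | zero =>
          simp only [Nat.zero_sub]
          linarith
      | succ r =>
          rw [Nat.add_sub_cancel]
          have h2 := ih r
          linarith

lemma G_anti' (u r : ℕ) : G u r ≤ G u (r - 1) := by
  cases r with
  | zero => simp
  | succ r => rw [Nat.add_sub_cancel]; exact G_anti u r

lemma G_zero_right (u : ℕ) : G u 0 = 1 := by
  induction u with
  | zero => simp [G]
  | succ u ih => rw [G_succ]; simp [ih]

lemma G_zero_left_pos {r : ℕ} (h : G 0 r ≠ 0) : r = 0 := by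
  cases r with
  | zero => rfl
  | succ r => simp [G] at h

lemma G_le_one (u r : ℕ) : G u r ≤ 1 := by
  induction r with
  | zero => rw [G_zero_right]
  | succ r ih => exact (G_anti u r).trans ih

lemma choose_le_G (n k : ℕ) : (n.choose k : ℝ) / 2 ^ n ≤ G n k := by
  induction n generalizing k with
  | zero =>
      cases k with
      | zero => simp [G]
      | succ k => simp [G]
  | succ n ih =>
      cases k with
      | zero =>
          rw [G_zero_right, Nat.choose_zero_right, div_le_one (by positivity)]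
          push_cast
          exact one_le_pow₀ (by norm_num)
      | succ k =>
          rw [G_succ, Nat.add_sub_cancel, Nat.choose_succ_succ, pow_succ]
          have h1 := ih k
          have h2 := ih (k + 1)
          push_cast
          rw [← div_div, add_div]
          linarith

variable {β : Type*} [DecidableEq β]

/-- success probability of a set -/
noncomputable def P (A : Finset β) (k : ℕ) (M B : Finset β) : ℝ :=
  G (A \ (M ∪ B)).card (k - (A ∩ M).card)

lemma P_nonneg (A : Finset β) (k : ℕ) (M B : Finset β) : 0 ≤ P A k M B := G_nonneg _ _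

lemma P_outside_M {A M B : Finset β} {k : ℕ} {x : β} (hx : x ∉ A) :
    P A k (insert x M) B = P A k M B := by
  unfold P
  have e1 : A \ (insert x M ∪ B) = A \ (M ∪ B) := by
    ext z
    simp only [mem_sdiff, mem_union, mem_insert]
    constructor
    · rintro ⟨h1, h2⟩; exact ⟨h1, by tauto⟩
    · rintro ⟨h1, h2⟩
      refine ⟨h1, ?_⟩
      rintro ((h | h) | h)
      · subst h; exact hx h1
      · exact h2 (Or.inl h)
      · exact h2 (Or.inr h)
  have e2 : A ∩ insert x M = A ∩ M := by
    ext z
    simp only [mem_inter, mem_insert]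
    constructor
    · rintro ⟨h1, h2 | h2⟩
      · subst h2; exact absurd h1 hx
      · exact ⟨h1, h2⟩
    · rintro ⟨h1, h2⟩; exact ⟨h1, Or.inr h2⟩
  rw [e1, e2]

lemma P_outside_B {A M B : Finset β} {k : ℕ} {x : β} (hx : x ∉ A) :
    P A k M (insert x B) = P A k M B := by
  unfold P
  have e1 : A \ (M ∪ insert x B) = A \ (M ∪ B) := by
    ext z
    simp only [mem_sdiff, mem_union, mem_insert]
    constructor
    · rintro ⟨h1, h2⟩; exact ⟨h1, by tauto⟩
    · rintro ⟨h1, h2⟩
      refine ⟨h1, ?_⟩
      rintro (h | h | h)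
      · exact h2 (Or.inl h)
      · subst h; exact hx h1
      · exact h2 (Or.inr h)
  rw [e1]

lemma card_free {A M B : Finset β} {x : β} (hx : x ∈ A) (hM : x ∉ M) (hB : x ∉ B) :
    (A \ (M ∪ B)).card = (A \ (insert x M ∪ B)).card + 1 ∧
      (A \ (M ∪ B)).card = (A \ (M ∪ insert x B)).card + 1 := by
  have h : A \ (M ∪ B) = insert x ((A \ (M ∪ B)).erase x) := by
    rw [Finset.insert_erase]
    simp [hx, hM, hB]
  have e1 : A \ (insert x M ∪ B) = (A \ (M ∪ B)).erase x := by
    ext z; simp only [mem_sdiff, mem_union, mem_insert, mem_erase]; tauto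
  have e2 : A \ (M ∪ insert x B) = (A \ (M ∪ B)).erase x := by
    ext z; simp only [mem_sdiff, mem_union, mem_insert, mem_erase]; tauto
  have e3 : ((A \ (M ∪ B)).erase x).card + 1 = (A \ (M ∪ B)).card :=
    Finset.card_erase_add_one (by simp [hx, hM, hB])
  rw [e1, e2]
  exact ⟨e3.symm, e3.symm⟩

lemma P_inside {A M B : Finset β} {k : ℕ} {x : β} (hx : x ∈ A) (hM : x ∉ M) (hB : x ∉ B) :
    ∃ u r : ℕ, P A k M B = G (u + 1) r ∧ P A k (insert x M) B = G u (r - 1) ∧
      P A k M (insert x B) = G u r := by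
  obtain ⟨h1, h2⟩ := card_free hx hM hB
  have e2 : (A ∩ insert x M).card = (A ∩ M).card + 1 := by
    rw [Finset.inter_insert_of_mem hx, card_insert_of_notMem]
    simp [hM]
  refine ⟨(A \ (insert x M ∪ B)).card, k - (A ∩ M).card, ?_, ?_, ?_⟩
  · unfold P; rw [h1]
  · unfold P; rw [e2, Nat.sub_sub]
  · unfold P
    congr 1
    omega

lemma P_harm (A : Finset β) (k : ℕ) : Harm (P A k) := by
  intro M B x hM hB
  by_cases hx : x ∈ A
  · obtain ⟨u, r, h1, h2, h3⟩ := P_inside (k := k) hx hM hB
    rw [h1, h2, h3, G_succ]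
    ring
  · rw [P_outside_M hx, P_outside_B hx]
    ring

lemma P_mono {A M B : Finset β} {k : ℕ} {x : β} (hM : x ∉ M) (hB : x ∉ B) :
    P A k M (insert x B) ≤ P A k (insert x M) B := by
  by_cases hx : x ∈ A
  · obtain ⟨u, r, h1, h2, h3⟩ := P_inside (k := k) hx hM hB
    rw [h2, h3]
    exact G_anti' u r
  · rw [P_outside_M hx, P_outside_B hx]

lemma P_mono' {A M B : Finset β} {k : ℕ} {x : β} (hM : x ∉ M) (hB : x ∉ B) :
    P A k M B ≤ P A k (insert x M) B := by
  have h1 := P_harm A k M B x hM hB
  have h2 := P_mono (A := A) (k := k) hM hB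
  linarith

/-- second difference of a nonnegative harmonic function -/
lemma D2_le {f : Finset β → Finset β → ℝ} (hf : Harm f) (h0 : ∀ M B, 0 ≤ f M B)
    {M B : Finset β} {x y : β} (hxy : x ≠ y) (hxM : x ∉ M) (hxB : x ∉ B) (hyM : y ∉ M)
    (hyB : y ∉ B) : D2 f M B x y ≤ f M B := by
  have h1 := hf M B y hyM hyB
  have h2 := hf (insert y M) B x (by simp [hxy, hxM]) hxB
  have h3 := hf M (insert y B) x hxM (by simp [hxy, hxB])
  have h4 := h0 (insert y M) (insert x B)
  have h5 := h0 (insert x M) (insert y B)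
  have h6 := hf (insert x M) B y (by simp [hxy.symm, hyM]) hyB
  have h7 := hf M B x hxM hxB
  rw [Finset.insert_comm y x M] at h6
  unfold D2
  linarith

lemma P_D2 {A M B : Finset β} {k : ℕ} {x y : β} (hxy : x ≠ y) (hxM : x ∉ M) (hxB : x ∉ B)
    (hyM : y ∉ M) (hyB : y ∉ B) :
    D2 (P A k) M B x y ≤ if x ∈ A ∧ y ∈ A then P A k M B else 0 := by
  by_cases hx : x ∈ A
  · by_cases hy : y ∈ A
    · rw [if_pos ⟨hx, hy⟩]
      exact D2_le (P_harm A k) (P_nonneg A k) hxy hxM hxB hyM hyB
    · rw [if_neg (by tauto)]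
      unfold D2
      rw [Finset.insert_comm x y M, P_outside_M hy, P_outside_M hy]
      linarith
  · rw [if_neg (by tauto)]
    unfold D2
    rw [P_outside_M hx, P_outside_M hx]
    linarith

end Tail

section Pair

variable {β : Type*} [DecidableEq β]

/-- tilt of a point -/
noncomputable def tl (A A' : Finset β) (h : ℝ) (z : β) : ℝ :=
  h * ((if z ∈ A then 1 else 0) + (if z ∈ A' then 1 else 0))

/-- weight of a pair -/
noncomputable def pw (A A' : Finset β) (n k : ℕ) (h : ℝ) (M B : Finset β) : ℝ :=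
  Real.exp (-(2 * h * (2 * (k : ℝ) - n))) * W (A ∪ A') (tl A A' h) M B

lemma pw_nonneg (A A' : Finset β) (n k : ℕ) (h : ℝ) (M B : Finset β) : 0 ≤ pw A A' n k h M B :=
  mul_nonneg (Real.exp_pos _).le (W_pos _ _ _ _).le

lemma pw_harm (A A' : Finset β) (n k : ℕ) (h : ℝ) : Harm (pw A A' n k h) :=
  smul_harm (W_harm _ _) _

lemma tl_nonneg (A A' : Finset β) {h : ℝ} (hh : 0 ≤ h) (z : β) : 0 ≤ tl A A' h z := by
  unfold tl
  refine mul_nonneg hh ?_
  split_ifs <;> norm_num

lemma tanh_nonneg {x : ℝ} (hx : 0 ≤ x) : 0 ≤ Real.tanh x := by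
  rw [Real.tanh_eq_sinh_div_cosh]
  exact div_nonneg (Real.sinh_nonneg_iff.2 hx) (Real.cosh_pos x).le

lemma pw_D2_nonneg (A A' : Finset β) (n k : ℕ) {h : ℝ} (hh : 0 ≤ h) {M B : Finset β} {x y : β}
    (hxy : x ≠ y) (hxM : x ∉ M) (hxB : x ∉ B) (hyM : y ∉ M) (hyB : y ∉ B) :
    0 ≤ D2 (pw A A' n k h) M B x y := by
  have e : D2 (pw A A' n k h) M B x y = Real.exp (-(2 * h * (2 * (k : ℝ) - n))) *
      D2 (W (A ∪ A') (tl A A' h)) M B x y := smul_D2 _ _ _ _ _ _
  rw [e, W_D2 hxy hxM hxB hyM hyB]
  refine mul_nonneg (Real.exp_pos _).le ?_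
  split_ifs
  · exact mul_nonneg (mul_nonneg (tanh_nonneg (tl_nonneg A A' hh x))
      (tanh_nonneg (tl_nonneg A A' hh y))) (W_pos _ _ _ _).le
  · exact le_rfl

lemma sum_sign (A M B : Finset β) (hall : ∀ z ∈ A, z ∈ M ∨ z ∈ B) :
    ∑ z ∈ A, (if z ∈ M then (1:ℝ) else -1) = 2 * ((A ∩ M).card : ℝ) - A.card := by
  have h1 : ∑ z ∈ A, (if z ∈ M then (1:ℝ) else -1) =
      ∑ z ∈ A, (2 * (if z ∈ M then (1:ℝ) else 0) - 1) := by
    refine Finset.sum_congr rfl (fun z _ => ?_)
    split_ifs <;> norm_num
  rw [h1, Finset.sum_sub_distrib, ← Finset.mul_sum, Finset.sum_boole, Finset.sum_const,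
    nsmul_eq_mul, mul_one, Finset.filter_mem_eq_inter]

/-- terminal value of the product weight -/
lemma W_terminal {A A' M B : Finset β} {h : ℝ} (hMB : Disjoint M B)
    (hall : ∀ z ∈ A ∪ A', z ∈ M ∨ z ∈ B) :
    W (A ∪ A') (tl A A' h) M B = Real.exp (h * ((2 * ((A ∩ M).card : ℝ) - A.card) +
      (2 * ((A' ∩ M).card : ℝ) - A'.card))) := by
  have h1 : ∀ z ∈ A ∪ A', ph (tl A A' h z) z M B =
      Real.exp (tl A A' h z * (if z ∈ M then (1:ℝ) else -1)) := by
    intro z hz
    unfold ph
    by_cases hzM : z ∈ M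
    · rw [if_pos hzM, if_pos hzM, mul_one]
    · rw [if_neg hzM, if_neg hzM]
      rcases hall z hz with h | h
      · exact absurd h hzM
      · rw [if_pos h]; congr 1; ring
  unfold W
  rw [Finset.prod_congr rfl h1, ← Real.exp_sum]
  congr 1
  rw [← sum_sign A M B (fun z hz => hall z (mem_union_left _ hz)),
    ← sum_sign A' M B (fun z hz => hall z (mem_union_right _ hz))]
  have e1 : ∑ z ∈ A, (if z ∈ M then (1:ℝ) else -1) =
      ∑ z ∈ A ∪ A', (if z ∈ A then 1 else 0) * (if z ∈ M then (1:ℝ) else -1) := by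
    simp only [ite_mul, one_mul, zero_mul]
    rw [← Finset.sum_filter, Finset.filter_mem_eq_inter, Finset.union_inter_cancel_left]
  have e2 : ∑ z ∈ A', (if z ∈ M then (1:ℝ) else -1) =
      ∑ z ∈ A ∪ A', (if z ∈ A' then 1 else 0) * (if z ∈ M then (1:ℝ) else -1) := by
    simp only [ite_mul, one_mul, zero_mul]
    rw [← Finset.sum_filter, Finset.filter_mem_eq_inter, Finset.union_inter_cancel_right]
  rw [e1, e2, ← Finset.sum_add_distrib, Finset.mul_sum]
  refine Finset.sum_congr rfl (fun z _ => ?_)
  unfold tl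
  ring

/-- the pair weight dominates the product of the success probabilities -/
theorem PP_le_pw {A A' : Finset β} {n k : ℕ} {h : ℝ} (hh : 0 ≤ h) (hA : A.card = n)
    (hA' : A'.card = n) : ∀ (t : ℕ) (M B : Finset β), Disjoint M B →
      ((A ∪ A') \ (M ∪ B)).card = t → P A k M B * P A' k M B ≤ pw A A' n k h M B := by
  intro t
  induction t with
  | zero =>
      intro M B hMB ht
      have hall : ∀ z ∈ A ∪ A', z ∈ M ∨ z ∈ B := by
        intro z hz
        rw [Finset.card_eq_zero] at ht
        by_contra hcon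
        have : z ∈ (A ∪ A') \ (M ∪ B) := by
          rw [mem_sdiff, mem_union (s := M)]; exact ⟨hz, hcon⟩
        rw [ht] at this
        simp at this
      have e1 : (A \ (M ∪ B)).card = 0 := by
        rw [Finset.card_eq_zero, Finset.sdiff_eq_empty_iff_subset]
        intro z hz
        rw [mem_union]
        exact hall z (mem_union_left _ hz)
      have e2 : (A' \ (M ∪ B)).card = 0 := by
        rw [Finset.card_eq_zero, Finset.sdiff_eq_empty_iff_subset]
        intro z hz
        rw [mem_union]
        exact hall z (mem_union_right _ hz)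
      by_cases h1 : G 0 (k - (A ∩ M).card) = 0
      · have : P A k M B = 0 := by unfold P; rw [e1, h1]
        rw [this, zero_mul]
        exact pw_nonneg _ _ _ _ _ _ _
      · by_cases h2 : G 0 (k - (A' ∩ M).card) = 0
        · have : P A' k M B = 0 := by unfold P; rw [e2, h2]
          rw [this, mul_zero]
          exact pw_nonneg _ _ _ _ _ _ _
        · have k1 := G_zero_left_pos h1
          have k2 := G_zero_left_pos h2
          have p1 : P A k M B = 1 := by unfold P; rw [e1, k1]; simp [G]
          have p2 : P A' k M B = 1 := by unfold P; rw [e2, k2]; simp [G]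
          rw [p1, p2, one_mul]
          unfold pw
          rw [W_terminal hMB hall, ← Real.exp_add, hA, hA']
          rw [← Real.exp_zero]
          apply Real.exp_le_exp.2
          have c1 : (k : ℝ) ≤ ((A ∩ M).card : ℝ) := by exact_mod_cast (by omega : k ≤ (A ∩ M).card)
          have c2 : (k : ℝ) ≤ ((A' ∩ M).card : ℝ) := by
            exact_mod_cast (by omega : k ≤ (A' ∩ M).card)
          nlinarith
  | succ t ih =>
      intro M B hMB ht
      obtain ⟨z, hz⟩ : ((A ∪ A') \ (M ∪ B)).Nonempty := by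
        rw [← Finset.card_pos]; omega
      rw [mem_sdiff, mem_union (s := M)] at hz
      push Not at hz
      obtain ⟨hzA, hzM, hzB⟩ := hz
      obtain ⟨c1, c2⟩ := card_free hzA hzM hzB
      have i1 := ih (insert z M) B (by
        rw [Finset.disjoint_insert_left]; exact ⟨hzB, hMB⟩) (by omega)
      have i2 := ih M (insert z B) (by
        rw [Finset.disjoint_insert_right]; exact ⟨hzM, hMB⟩) (by omega)
      have a1 := P_harm A k M B z hzM hzB
      have a2 := P_harm A' k M B z hzM hzB
      have a3 := pw_harm A A' n k h M B z hzM hzB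
      have m1 := P_mono (A := A) (k := k) hzM hzB
      have m2 := P_mono (A := A') (k := k) hzM hzB
      have m3 := mul_nonneg (sub_nonneg.2 m1) (sub_nonneg.2 m2)
      have q1 : P A k M B = (P A k (insert z M) B + P A k M (insert z B)) / 2 := by linarith
      have q2 : P A' k M B = (P A' k (insert z M) B + P A' k M (insert z B)) / 2 := by linarith
      rw [q1, q2]
      nlinarith

end Pair

end Pool.Agent.Helper40.Tilt
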